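import Mathlib

/-! The Efron Stein inequality for infinite product measures (module EFRON). -/

set_option autoImplicit false

namespace ConeE

open MeasureTheory

namespace Efron

variable {κ : Type*} [DecidableEq κ]

/-- take the coordinates in `G` from the second configuration -/
def mix (G : Finset κ) (x y : κ → ℝ) : κ → ℝ := fun i => if i ∈ G then y i else x i

theorem measurable_mix (G : Finset κ) :
    Measurable (fun q : (κ → ℝ) × (κ → ℝ) => mix G q.1 q.2) := by
  refine measurable_pi_lambda _ fun i => ?_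
  by_cases h : i ∈ G
  · simp only [mix, h, if_true]; fun_prop
  · simp only [mix, h, if_false]; fun_prop

theorem measurable_mix' (G : Finset κ) :
    Measurable (fun q : (κ → ℝ) × (κ → ℝ) => mix G q.2 q.1) := by
  refine measurable_pi_lambda _ fun i => ?_
  by_cases h : i ∈ G
  · simp only [mix, h, if_true]; fun_prop
  · simp only [mix, h, if_false]; fun_prop

/-- the permutation exchanging the two copies of the coordinates in `G` -/
def sw (G : Finset κ) (p : Fin 2 × κ) : Fin 2 × κ :=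
  if p.2 ∈ G then (1 - p.1, p.2) else p

theorem sw_sw (G : Finset κ) (p : Fin 2 × κ) : sw G (sw G p) = p := by
  unfold sw
  by_cases h : p.2 ∈ G
  · simp only [h, if_true]
    ext <;> simp
  · simp [h]

variable (m : Measure ℝ) [IsProbabilityMeasure m]

theorem mp_perm {κ' : Type*} (σ : κ' ≃ κ') :
    MeasurePreserving (fun (w : κ' → ℝ) (i : κ') => w (σ i))
      (Measure.infinitePi (fun _ : κ' => m)) (Measure.infinitePi (fun _ : κ' => m)) := by
  refine ⟨by fun_prop, ?_⟩
  have h := Measure.infinitePi_map_piCongrLeft (X := fun _ : κ' => ℝ) (fun _ : κ' => m) σ.symm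
  have h2 : (fun (w : κ' → ℝ) (i : κ') => w (σ i))
      = ⇑(MeasurableEquiv.piCongrLeft (fun _ : κ' => ℝ) σ.symm) := by
    funext w i
    have := MeasurableEquiv.piCongrLeft_apply_apply (β := fun _ : κ' => ℝ) σ.symm w (σ i)
    simp only [Equiv.symm_apply_apply] at this
    exact this.symm
  rw [h2]
  exact h

omit [DecidableEq κ] in
theorem mp_unzip :
    MeasurePreserving
      (fun w : Fin 2 × κ → ℝ => ((fun i => w (0, i)), (fun i => w (1, i))))
      (Measure.infinitePi (fun _ : Fin 2 × κ => m))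
      ((Measure.infinitePi (fun _ : κ => m)).prod (Measure.infinitePi (fun _ : κ => m))) := by
  have h1 : MeasurePreserving (MeasurableEquiv.curry (Fin 2) κ ℝ)
      (Measure.infinitePi (fun _ : Fin 2 × κ => m))
      (Measure.pi (fun _ : Fin 2 => Measure.infinitePi (fun _ : κ => m))) := by
    refine ⟨MeasurableEquiv.measurable _, ?_⟩
    have := Measure.infinitePi_map_curry (ι := Fin 2) (κ := κ) (X := ℝ) (fun _ _ => m)
    rw [← Measure.infinitePi_eq_pi]
    exact this
  have h2 := measurePreserving_finTwoArrow (Measure.infinitePi (fun _ : κ => m))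
  exact h2.comp h1

theorem mp_mix (G : Finset κ) :
    MeasurePreserving (fun q : (κ → ℝ) × (κ → ℝ) => (mix G q.1 q.2, mix G q.2 q.1))
      ((Measure.infinitePi (fun _ : κ => m)).prod (Measure.infinitePi (fun _ : κ => m)))
      ((Measure.infinitePi (fun _ : κ => m)).prod (Measure.infinitePi (fun _ : κ => m))) := by
  have hm : Measurable (fun q : (κ → ℝ) × (κ → ℝ) => (mix G q.1 q.2, mix G q.2 q.1)) :=
    (measurable_mix G).prodMk (measurable_mix' G)
  have hu := mp_unzip (κ := κ) m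
  have hp := mp_perm m (κ' := Fin 2 × κ)
    (⟨sw G, sw G, sw_sw G, sw_sw G⟩ : (Fin 2 × κ) ≃ (Fin 2 × κ))
  have hc := hu.comp hp
  refine ⟨hm, ?_⟩
  rw [← hu.map_eq, Measure.map_map hm hu.measurable]
  rw [show (fun q : (κ → ℝ) × (κ → ℝ) => (mix G q.1 q.2, mix G q.2 q.1)) ∘
      (fun w : Fin 2 × κ → ℝ => ((fun i => w (0, i)), (fun i => w (1, i))))
      = (fun w : Fin 2 × κ → ℝ => ((fun i => w (0, i)), (fun i => w (1, i)))) ∘
        (fun (w : Fin 2 × κ → ℝ) (i : Fin 2 × κ) =>
          w ((⟨sw G, sw G, sw_sw G, sw_sw G⟩ : (Fin 2 × κ) ≃ (Fin 2 × κ)) i)) from ?_]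
  · rw [hc.map_eq, hu.map_eq]
  · funext w
    refine Prod.ext ?_ ?_ <;> funext i <;> by_cases h : i ∈ G <;> simp [mix, sw, h]

/-- double integral of the squared increments when the coordinates in `G` are resampled -/
noncomputable def D (f : (κ → ℝ) → ℝ) (G : Finset κ) : ENNReal :=
  ∫⁻ q : (κ → ℝ) × (κ → ℝ), ENNReal.ofReal ((f q.1 - f (mix G q.1 q.2)) ^ 2)
    ∂((Measure.infinitePi (fun _ : κ => m)).prod (Measure.infinitePi (fun _ : κ => m)))

theorem D_insert (f : (κ → ℝ) → ℝ) (hf : Measurable f) (G : Finset κ) (i : κ) (hi : i ∉ G) :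
    D m f (insert i G) ≤ D m f G + D m f {i} := by
  set PP := (Measure.infinitePi (fun _ : κ => m)).prod (Measure.infinitePi (fun _ : κ => m))
    with hPP
  have meas : ∀ (G1 G2 : Finset κ), Measurable (fun q : (κ → ℝ) × (κ → ℝ) =>
      ENNReal.ofReal ((f (mix G1 q.1 q.2) - f (mix G2 q.1 q.2)) ^ 2)) := by
    intro G1 G2
    exact ENNReal.measurable_ofReal.comp
      (((hf.comp (measurable_mix G1)).sub (hf.comp (measurable_mix G2))).pow_const 2)
  have mix_empty : ∀ x y : κ → ℝ, mix ∅ x y = x := by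
    intro x y; funext j; simp [mix]
  -- the basic exchange
  have ex : ∀ (G G1 G2 G3 G4 : Finset κ),
      (∀ j, (j ∈ G1 ↔ (j ∈ G3 ↔ j ∉ G)) ) → (∀ j, (j ∈ G2 ↔ (j ∈ G4 ↔ j ∉ G))) →
      ∫⁻ q, ENNReal.ofReal ((f (mix G1 q.1 q.2) - f (mix G2 q.1 q.2)) ^ 2) ∂PP
        = ∫⁻ q, ENNReal.ofReal ((f (mix G3 q.1 q.2) - f (mix G4 q.1 q.2)) ^ 2) ∂PP := by
    intro G G1 G2 G3 G4 h13 h24
    rw [← (mp_mix (κ := κ) m G).lintegral_comp (meas G3 G4)]
    refine lintegral_congr fun q => ?_
    have e1 : mix G3 (mix G q.1 q.2) (mix G q.2 q.1) = mix G1 q.1 q.2 := by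
      funext j
      have := h13 j
      by_cases hG : j ∈ G <;> by_cases h3 : j ∈ G3 <;> by_cases h1 : j ∈ G1 <;>
        simp_all [mix]
    have e2 : mix G4 (mix G q.1 q.2) (mix G q.2 q.1) = mix G2 q.1 q.2 := by
      funext j
      have := h24 j
      by_cases hG : j ∈ G <;> by_cases h3 : j ∈ G4 <;> by_cases h1 : j ∈ G2 <;>
        simp_all [mix]
    simp only [e1, e2]
  -- symmetric differences
  have hD : ∀ G : Finset κ, D m f G
      = ∫⁻ q, ENNReal.ofReal ((f (mix ∅ q.1 q.2) - f (mix G q.1 q.2)) ^ 2) ∂PP := by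
    intro G
    unfold D
    simp only [mix_empty, hPP]
  have hbc : ∫⁻ q, ENNReal.ofReal ((f (mix G q.1 q.2) - f (mix {i} q.1 q.2)) ^ 2) ∂PP
      = D m f (insert i G) := by
    rw [hD]
    refine ex G _ _ _ _ (fun j => ?_) (fun j => ?_)
    · simp
    · by_cases hj : j ∈ G
      · have : j ≠ i := fun h => hi (h ▸ hj)
        simp [hj, this]
      · simp [hj]
  have hcd : ∫⁻ q, ENNReal.ofReal ((f (mix {i} q.1 q.2) - f (mix (insert i G) q.1 q.2)) ^ 2) ∂PP
      = D m f G := by
    rw [hD]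
    refine ex {i} _ _ _ _ (fun j => ?_) (fun j => ?_)
    · simp
    · by_cases hj : j = i
      · subst hj; simp [hi]
      · simp [hj]
  have hbd : ∫⁻ q, ENNReal.ofReal ((f (mix G q.1 q.2) - f (mix (insert i G) q.1 q.2)) ^ 2) ∂PP
      = D m f {i} := by
    rw [hD]
    refine ex G _ _ _ _ (fun j => ?_) (fun j => ?_)
    · simp
    · by_cases hj : j ∈ G
      · have : j ≠ i := fun h => hi (h ▸ hj)
        simp [hj, this]
      · simp [hj]
  have key : D m f (insert i G) + D m f (insert i G)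
      ≤ (D m f G + D m f {i}) + (D m f G + D m f {i}) := by
    calc D m f (insert i G) + D m f (insert i G)
        = ∫⁻ q, (ENNReal.ofReal ((f (mix ∅ q.1 q.2) - f (mix (insert i G) q.1 q.2)) ^ 2)
            + ENNReal.ofReal ((f (mix G q.1 q.2) - f (mix {i} q.1 q.2)) ^ 2)) ∂PP := by
          rw [lintegral_add_left (meas _ _), hbc, ← hD]
      _ ≤ ∫⁻ q, ((ENNReal.ofReal ((f (mix ∅ q.1 q.2) - f (mix G q.1 q.2)) ^ 2)
            + ENNReal.ofReal ((f (mix ∅ q.1 q.2) - f (mix {i} q.1 q.2)) ^ 2))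
            + (ENNReal.ofReal ((f (mix {i} q.1 q.2) - f (mix (insert i G) q.1 q.2)) ^ 2)
            + ENNReal.ofReal ((f (mix G q.1 q.2) - f (mix (insert i G) q.1 q.2)) ^ 2))) ∂PP := by
          refine lintegral_mono fun q => ?_
          rw [← ENNReal.ofReal_add (sq_nonneg _) (sq_nonneg _),
            ← ENNReal.ofReal_add (sq_nonneg _) (sq_nonneg _),
            ← ENNReal.ofReal_add (sq_nonneg _) (sq_nonneg _),
            ← ENNReal.ofReal_add (add_nonneg (sq_nonneg _) (sq_nonneg _))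
              (add_nonneg (sq_nonneg _) (sq_nonneg _))]
          refine ENNReal.ofReal_le_ofReal ?_
          nlinarith [sq_nonneg (f (mix ∅ q.1 q.2) - f (mix G q.1 q.2) - f (mix {i} q.1 q.2)
            + f (mix (insert i G) q.1 q.2))]
      _ = _ := by
          have mm : Measurable (fun q : (κ → ℝ) × (κ → ℝ) =>
              ENNReal.ofReal ((f (mix ∅ q.1 q.2) - f (mix G q.1 q.2)) ^ 2)
              + ENNReal.ofReal ((f (mix ∅ q.1 q.2) - f (mix {i} q.1 q.2)) ^ 2)) :=
            (meas _ _).add (meas _ _)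
          rw [lintegral_add_left mm, lintegral_add_left (meas _ _),
            lintegral_add_left (meas _ _), hcd, hbd, ← hD, ← hD]
  rw [← two_mul, ← two_mul] at key
  exact (ENNReal.mul_le_mul_iff_right (by norm_num) (by norm_num)).1 key

theorem D_le_sum (f : (κ → ℝ) → ℝ) (hf : Measurable f) (G : Finset κ) :
    D m f G ≤ ∑ i ∈ G, D m f {i} := by
  induction G using Finset.induction_on with
  | empty =>
    have : D m f ∅ = 0 := by
      unfold D
      have h : ∀ x y : κ → ℝ, mix ∅ x y = x := by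
        intro x y; funext j; simp [mix]
      simp [h]
    rw [this]; exact bot_le
  | insert i G hi ih =>
    rw [Finset.sum_insert hi, add_comm]
    exact (D_insert m f hf G i hi).trans (add_le_add_left ih _)

theorem D_single (f : (κ → ℝ) → ℝ) (hf : Measurable f) (i : κ) :
    D m f {i} = 2 * ∫⁻ x, ∫⁻ t, ENNReal.ofReal ((max (f (Function.update x i t) - f x) 0) ^ 2) ∂m
          ∂(Measure.infinitePi (fun _ : κ => m)) := by
  set PP := (Measure.infinitePi (fun _ : κ => m)).prod (Measure.infinitePi (fun _ : κ => m))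
    with hPP
  have hmix : ∀ x y : κ → ℝ, mix {i} x y = Function.update x i (y i) := by
    intro x y; funext j
    by_cases hj : j = i
    · subst hj; simp [mix]
    · simp [mix, hj]
  have m1 : Measurable (fun q : (κ → ℝ) × (κ → ℝ) =>
      ENNReal.ofReal ((max (f (mix {i} q.1 q.2) - f q.1) 0) ^ 2)) :=
    ENNReal.measurable_ofReal.comp
      ((((hf.comp (measurable_mix {i})).sub (hf.comp measurable_fst)).max
        measurable_const).pow_const 2)
  have m2 : Measurable (fun q : (κ → ℝ) × (κ → ℝ) =>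
      ENNReal.ofReal ((max (f q.1 - f (mix {i} q.1 q.2)) 0) ^ 2)) :=
    ENNReal.measurable_ofReal.comp
      ((((hf.comp measurable_fst).sub (hf.comp (measurable_mix {i}))).max
        measurable_const).pow_const 2)
  have h1 : D m f {i} = ∫⁻ q, ENNReal.ofReal ((max (f (mix {i} q.1 q.2) - f q.1) 0) ^ 2) ∂PP
      + ∫⁻ q, ENNReal.ofReal ((max (f q.1 - f (mix {i} q.1 q.2)) 0) ^ 2) ∂PP := by
    rw [← lintegral_add_left m1]
    refine lintegral_congr fun q => ?_
    rw [← ENNReal.ofReal_add (sq_nonneg _) (sq_nonneg _)]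
    congr 1
    rcases le_total (f (mix {i} q.1 q.2)) (f q.1) with h | h
    · rw [max_eq_right (sub_nonpos.2 h), max_eq_left (sub_nonneg.2 h)]; ring
    · rw [max_eq_left (sub_nonneg.2 h), max_eq_right (sub_nonpos.2 h)]; ring
  have h2 : ∫⁻ q, ENNReal.ofReal ((max (f q.1 - f (mix {i} q.1 q.2)) 0) ^ 2) ∂PP
      = ∫⁻ q, ENNReal.ofReal ((max (f (mix {i} q.1 q.2) - f q.1) 0) ^ 2) ∂PP := by
    rw [← (mp_mix (κ := κ) m {i}).lintegral_comp m1]
    refine lintegral_congr fun q => ?_
    have e1 : mix {i} (mix {i} q.1 q.2) (mix {i} q.2 q.1) = q.1 := by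
      funext j
      by_cases hj : j = i <;> simp [mix, hj]
    simp only [e1]
  have h3 : ∫⁻ q, ENNReal.ofReal ((max (f (mix {i} q.1 q.2) - f q.1) 0) ^ 2) ∂PP
      = ∫⁻ x, ∫⁻ t, ENNReal.ofReal ((max (f (Function.update x i t) - f x) 0) ^ 2) ∂m
          ∂(Measure.infinitePi (fun _ : κ => m)) := by
    rw [hPP, lintegral_prod _ m1.aemeasurable]
    refine lintegral_congr fun x => ?_
    have mt : Measurable (fun t : ℝ =>
        ENNReal.ofReal ((max (f (Function.update x i t) - f x) 0) ^ 2)) :=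
      ENNReal.measurable_ofReal.comp
        ((((hf.comp (measurable_update x)).sub measurable_const).max
          measurable_const).pow_const 2)
    rw [← (measurePreserving_eval_infinitePi (fun _ : κ => m) i).lintegral_comp mt]
    simp only [hmix]
  rw [h1, h2, h3, two_mul]

end Efron

theorem efron {κ : Type*} [DecidableEq κ] (m : Measure ℝ) [IsProbabilityMeasure m]
    (F : Finset κ) (f : (κ → ℝ) → ℝ) (hf : Measurable f)
    (hdep : ∀ x y : κ → ℝ, (∀ i ∈ F, x i = y i) → f x = f y)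
    (h2 : MemLp f 2 (Measure.infinitePi (fun _ : κ => m))) :
    ENNReal.ofReal (∫ x, (f x - ∫ y, f y ∂(Measure.infinitePi (fun _ : κ => m))) ^ 2
        ∂(Measure.infinitePi (fun _ : κ => m)))
      ≤ ∑ i ∈ F, ∫⁻ x, ∫⁻ t, ENNReal.ofReal ((max (f (Function.update x i t) - f x) 0) ^ 2) ∂m
          ∂(Measure.infinitePi (fun _ : κ => m)) := by
  set P := Measure.infinitePi (fun _ : κ => m) with hP
  have hD : Efron.D m f F = ENNReal.ofReal (2 * ∫ x, (f x - ∫ y, f y ∂P) ^ 2 ∂P) := by
    have hint : Integrable f P := h2.integrable (by norm_num)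
    have hint2 : Integrable (fun x => f x ^ 2) P := h2.integrable_sq
    have e1 : Efron.D m f F = ∫⁻ q : (κ → ℝ) × (κ → ℝ),
        ENNReal.ofReal ((f q.1 - f q.2) ^ 2) ∂(P.prod P) := by
      unfold Efron.D
      refine lintegral_congr fun q => ?_
      rw [hdep (Efron.mix F q.1 q.2) q.2 (fun i hi => by simp [Efron.mix, hi])]
    have i1 : Integrable (fun q : (κ → ℝ) × (κ → ℝ) => f q.1 ^ 2) (P.prod P) :=
      hint2.comp_fst P
    have i2 : Integrable (fun q : (κ → ℝ) × (κ → ℝ) => f q.2 ^ 2) (P.prod P) :=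
      hint2.comp_snd P
    have i3 : Integrable (fun q : (κ → ℝ) × (κ → ℝ) => f q.1 * f q.2) (P.prod P) :=
      hint.mul_prod hint
    have hI : Integrable (fun q : (κ → ℝ) × (κ → ℝ) => (f q.1 - f q.2) ^ 2) (P.prod P) := by
      have : (fun q : (κ → ℝ) × (κ → ℝ) => (f q.1 - f q.2) ^ 2)
          = fun q => f q.1 ^ 2 + f q.2 ^ 2 - 2 * (f q.1 * f q.2) := by
        funext q; ring
      rw [this]
      exact (i1.add i2).sub (i3.const_mul 2)
    rw [e1, ← ofReal_integral_eq_lintegral_ofReal hI (Filter.Eventually.of_forall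
      fun q => sq_nonneg _)]
    congr 1
    have e2 : ∫ q : (κ → ℝ) × (κ → ℝ), (f q.1 - f q.2) ^ 2 ∂(P.prod P)
        = 2 * ∫ x, f x ^ 2 ∂P - 2 * (∫ x, f x ∂P) ^ 2 := by
      have : (fun q : (κ → ℝ) × (κ → ℝ) => (f q.1 - f q.2) ^ 2)
          = fun q => (f q.1 ^ 2 + f q.2 ^ 2) - 2 * (f q.1 * f q.2) := by
        funext q; ring
      have i12 : Integrable (fun q : (κ → ℝ) × (κ → ℝ) => f q.1 ^ 2 + f q.2 ^ 2) (P.prod P) :=
        i1.add i2
      rw [this, integral_sub i12 (i3.const_mul 2), integral_add i1 i2,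
        integral_const_mul, integral_prod_mul f f]
      have a1 : ∫ q : (κ → ℝ) × (κ → ℝ), f q.1 ^ 2 ∂(P.prod P) = ∫ x, f x ^ 2 ∂P := by
        have := integral_fun_fst (μ := P) (ν := P) (fun x => f x ^ 2)
        simpa using this
      have a2 : ∫ q : (κ → ℝ) × (κ → ℝ), f q.2 ^ 2 ∂(P.prod P) = ∫ x, f x ^ 2 ∂P := by
        have := integral_fun_snd (μ := P) (ν := P) (fun x => f x ^ 2)
        simpa using this
      rw [a1, a2]
      ring
    have e3 : ∫ x, (f x - ∫ y, f y ∂P) ^ 2 ∂P = ∫ x, f x ^ 2 ∂P - (∫ x, f x ∂P) ^ 2 := by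
      set c := ∫ y, f y ∂P with hc
      have : (fun x => (f x - c) ^ 2) = fun x => (f x ^ 2 - (2 * c) * f x) + c ^ 2 := by
        funext x; ring
      have i12 : Integrable (fun x : κ → ℝ => f x ^ 2 - (2 * c) * f x) P :=
        hint2.sub (hint.const_mul _)
      rw [this, integral_add i12 (integrable_const _),
        integral_sub hint2 (hint.const_mul _), integral_const_mul, integral_const, ← hc]
      simp
      ring
    rw [e2, e3]; ring
  have hsum := Efron.D_le_sum m f hf F
  have e4 : ∑ i ∈ F, Efron.D m f {i} = 2 * ∑ i ∈ F, ∫⁻ x, ∫⁻ t,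
      ENNReal.ofReal ((max (f (Function.update x i t) - f x) 0) ^ 2) ∂m ∂P := by
    rw [Finset.mul_sum]
    exact Finset.sum_congr rfl fun i _ => Efron.D_single m f hf i
  rw [hD, e4, ENNReal.ofReal_mul (by norm_num), ENNReal.ofReal_ofNat] at hsum
  exact (ENNReal.mul_le_mul_iff_right (by norm_num) (by norm_num)).1 hsum

end ConeE
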