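import Pool.Agent.ConeE.Basic

/-! Chopping a walk in mesoscopic pieces: lower bound for its weight (module CHOP). -/

set_option autoImplicit false

namespace ConeE

/-- first visit of a walk to a set -/
theorem chop_first (P : V → Prop) (x : V) (l : List Step) :
    (∀ l1 l2, l = l1 ++ l2 → ¬ P (endp x l1)) ∨
    ∃ l1 l2, l = l1 ++ l2 ∧ P (endp x l1) ∧
      ∀ l3 l4, l1 = l3 ++ l4 → l4 ≠ [] → ¬ P (endp x l3) := by
  classical
  induction l generalizing x with
  | nil =>
    by_cases h : P x
    · right
      refine ⟨[], [], rfl, h, ?_⟩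
      intro l3 l4 h34 h4
      have := List.append_eq_nil_iff.mp h34.symm
      exact absurd this.2 h4
    · left
      intro l1 l2 h12
      have := List.append_eq_nil_iff.mp h12.symm
      rw [this.1]; exact h
  | cons s l ih =>
    by_cases h : P x
    · right
      refine ⟨[], s :: l, rfl, h, ?_⟩
      intro l3 l4 h34 h4
      have := List.append_eq_nil_iff.mp h34.symm
      exact absurd this.2 h4
    · rcases ih (x + vec s) with h1 | ⟨l1, l2, h12, hP, hmin⟩
      · left
        intro l1 l2 h12
        cases l1 with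
        | nil => exact h
        | cons s' l1 =>
          simp only [List.cons_append, List.cons.injEq] at h12
          rw [← h12.1]
          exact h1 l1 l2 h12.2
      · right
        refine ⟨s :: l1, l2, by rw [h12]; rfl, hP, ?_⟩
        intro l3 l4 h34 h4
        cases l3 with
        | nil => exact h
        | cons s' l3 =>
          simp only [List.cons_append, List.cons.injEq] at h34
          rw [← h34.1]
          exact hmin l3 l4 h34.2 h4

/-- lower bound for the weight when all the midpoints are in a ball -/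
theorem chop_wt {α : ℝ} (hα : 0 < α) {E : Edge → ℝ} (hE : ∀ e, 0 ≤ E e) {M : ℝ}
    (x : V) (l : List Step)
    (h : ∀ l1 s l2, l = l1 ++ s :: l2 → mid (edg (endp x l1) s) ≤ M) :
    M ^ (-α) * wt E x l ≤ wt (tau α E) x l := by
  induction l generalizing x with
  | nil => simp [wt_nil]
  | cons s l ih =>
    rw [wt_cons, wt_cons, mul_add]
    have h1 : mid (edg x s) ≤ M := h [] s l rfl
    have h0 : 0 < mid (edg x s) := mid_pos _
    have h2 : M ^ (-α) * E (edg x s) ≤ tau α E (edg x s) := by
      unfold tau
      rw [div_eq_mul_inv, mul_comm, ← Real.rpow_neg h0.le]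
      apply mul_le_mul_of_nonneg_left _ (hE _)
      exact Real.rpow_le_rpow_of_nonpos h0 h1 (by linarith)
    have h3 : M ^ (-α) * wt E (x + vec s) l ≤ wt (tau α E) (x + vec s) l := by
      apply ih
      intro l1 s' l2 h12
      exact h (s :: l1) s' l2 (by rw [h12]; rfl)
    linarith

theorem chop_pow {α δ : ℝ} (hα : 0 < α) (hδ : 0 < δ) : 1 - 2 * α * δ ≤ (1 + 2 * δ) ^ (-α) := by
  have h1 : (0:ℝ) < 1 + 2 * δ := by linarith
  rw [Real.rpow_def_of_pos h1]
  have h2 : Real.log (1 + 2 * δ) ≤ 2 * δ := by
    have := Real.log_le_sub_one_of_pos h1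
    linarith
  have h3 : -(2 * α * δ) ≤ Real.log (1 + 2 * δ) * (-α) := by nlinarith
  have h4 := Real.add_one_le_exp (Real.log (1 + 2 * δ) * (-α))
  linarith

theorem chop {ι : V →+ ℂ} (hι : Emb ι) {μ : ℂ → ℝ} {a b : ℝ} (hμ : Nrm μ a b)
    {α : ℝ} (hα : 1 < α) :
    ∃ K δ0 : ℝ, 0 < K ∧ 0 < δ0 ∧ ∀ δ : ℝ, 0 < δ → δ ≤ δ0 →
      ∀ E : Edge → ℝ, (∀ e, 0 ≤ E e) → ∀ r0 : ℝ, 1 ≤ δ ^ 2 * r0 →
      (∀ R, r0 ≤ R → Appr ι μ E (δ ^ 2) R) →
      ∀ (y : V) (l : List Step), (∀ l1 l2, l = l1 ++ l2 → r0 ≤ nrm (endp y l1)) →
      ∃ (n : ℕ) (c : ℕ → V), c 0 = y ∧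
        (∀ i, i ≤ n → ∃ l1 l2, l = l1 ++ l2 ∧ c i = endp y l1) ∧
        (∀ i, i < n → δ * nrm (c i) ≤ ‖ι (c (i + 1)) - ι (c i)‖ ∧
          ‖ι (c (i + 1)) - ι (c i)‖ ≤ δ * nrm (c i) + 1) ∧
        ‖ι (endp y l) - ι (c n)‖ ≤ δ * nrm (c n) ∧
        (1 - K * δ) * ∑ i ∈ Finset.range n, nrm (c i) ^ (-α) * μ (ι (c (i + 1)) - ι (c i))
          ≤ wt (tau α E) y l := by
  have ha := hμ.pos
  refine ⟨2 * α + 2 / a, min (1 / 4) (a / 2), by positivity, by positivity, ?_⟩
  intro δ hδ hδ0 E hE r0 hr0 hAppr y l
  have hδ1 : δ ≤ 1 / 4 := hδ0.trans (min_le_left _ _)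
  have hδ2 : δ ≤ a / 2 := hδ0.trans (min_le_right _ _)
  have hr0pos : 0 < r0 := by
    by_contra hcon
    have : δ ^ 2 * r0 ≤ 0 := mul_nonpos_of_nonneg_of_nonpos (by positivity) (by linarith)
    linarith
  induction hn : l.length using Nat.strong_induction_on generalizing y l with
  | _ N ih =>
    intro hl
    have hy : r0 ≤ nrm y := hl [] l rfl
    have hypos : 0 < nrm y := by linarith
    have h1y : 1 ≤ δ ^ 2 * nrm y := hr0.trans (by gcongr)
    rcases chop_first (fun v => δ * nrm y ≤ ‖ι v - ι y‖) y l with hA | ⟨l1, l2, h12, hP, hmin⟩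
    · refine ⟨0, fun _ => y, rfl, ?_, ?_, ?_, ?_⟩
      · intro i _
        exact ⟨[], l, rfl, rfl⟩
      · intro i hi
        exact absurd hi (Nat.not_lt_zero _)
      · have := hA l [] (by simp)
        exact (not_le.mp this).le
      · simp only [Finset.range_zero, Finset.sum_empty, mul_zero]
        exact wt_nonneg (fun e => tau_nonneg hE e) y l
    · have hl1 : l1 ≠ [] := by
        rintro rfl
        have hP' : δ * nrm y ≤ ‖ι y - ι y‖ := hP
        rw [sub_self, norm_zero] at hP'
        have : 0 < δ * nrm y := by positivity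
        linarith
      have hlen : l2.length < N := by
        rw [← hn, h12, List.length_append]
        have := List.length_pos_of_ne_nil hl1
        omega
      have hl2 : ∀ l3 l4, l2 = l3 ++ l4 → r0 ≤ nrm (endp (endp y l1) l3) := by
        intro l3 l4 h34
        rw [← endp_append]
        apply hl (l1 ++ l3) l4
        rw [h12, h34, List.append_assoc]
      obtain ⟨n, c, hc0, hc1, hc2, hc3, hc4⟩ := ih l2.length hlen (endp y l1) l2 rfl hl2
      -- the last step of `l1`
      have hup : ‖ι (endp y l1) - ι y‖ ≤ δ * nrm y + 1 := by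
        have hsplit : l1 = l1.dropLast ++ [l1.getLast hl1] := (List.dropLast_append_getLast hl1).symm
        have h1 := not_le.mp (hmin l1.dropLast [l1.getLast hl1] hsplit (by simp))
        have h2 : endp y l1 = endp y l1.dropLast + vec (l1.getLast hl1) := by
          conv_lhs => rw [hsplit]
          rw [endp_append]; rfl
        have h3 : ι (endp y l1) - ι y =
            (ι (endp y l1.dropLast) - ι y) + ι (vec (l1.getLast hl1)) := by
          rw [h2, map_add]; ring
        rw [h3]
        refine (norm_add_le _ _).trans ?_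
        rw [hι.norm_eq (vec (l1.getLast hl1)), nrm_vec]
        linarith
      -- weight of the first piece
      have hw1 : ((1 + 2 * δ) * nrm y) ^ (-α) * wt E y l1 ≤ wt (tau α E) y l1 := by
        apply chop_wt (by linarith) hE
        intro l3 s l4 h34
        have h1 := (not_le.mp (hmin l3 (s :: l4) h34 (by simp))).le
        have h2 := mid_edg_le (endp y l3) s
        have h3 : nrm (endp y l3) ≤ nrm y + δ * nrm y := by
          rw [← hι.norm_eq, ← hι.norm_eq]
          have : ι (endp y l3) = ι y + (ι (endp y l3) - ι y) := by ring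
          rw [this]
          refine (norm_add_le _ _).trans ?_
          rw [hι.norm_eq y]
          linarith
        have h4 : 1 / 2 ≤ δ * nrm y := by nlinarith
        linarith
      have hTw : T E y (endp y l1) ≤ wt E y l1 := T_le_wt hE rfl
      have hmuD := hμ.low (ι (endp y l1) - ι y)
      have hmusym : μ (ι y - ι (endp y l1)) = μ (ι (endp y l1) - ι y) := by
        rw [← hμ.neg, neg_sub]
      have hn1 : nrm (endp y l1) ≤ 2 * nrm y := by
        rw [← hι.norm_eq (endp y l1)]
        have : ι (endp y l1) = ι y + (ι (endp y l1) - ι y) := by ring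
        rw [this]
        refine (norm_add_le _ _).trans ?_
        rw [hι.norm_eq y]
        nlinarith
      have hAp := hAppr (2 * nrm y) (by linarith) y (endp y l1) (by linarith) hn1
      rw [hmusym] at hAp
      have hAp1 := (abs_le.mp hAp).1
      have hT1 : (1 - 2 * δ / a) * μ (ι (endp y l1) - ι y) ≤ wt E y l1 := by
        have h1 : a * (δ * nrm y) ≤ μ (ι (endp y l1) - ι y) :=
          (mul_le_mul_of_nonneg_left hP ha.le).trans hmuD
        have h2 : 2 * δ / a * (a * (δ * nrm y)) ≤ 2 * δ / a * μ (ι (endp y l1) - ι y) :=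
          mul_le_mul_of_nonneg_left h1 (by positivity)
        have h3 : 2 * δ / a * (a * (δ * nrm y)) = δ ^ 2 * (2 * nrm y) := by
          field_simp
        nlinarith
      have hmu0 : 0 ≤ μ (ι (endp y l1) - ι y) := hμ.nonneg _
      have hw2 : (1 - (2 * α + 2 / a) * δ) * (nrm y ^ (-α) * μ (ι (endp y l1) - ι y)) ≤
          wt (tau α E) y l1 := by
        refine le_trans ?_ hw1
        rw [Real.mul_rpow (by linarith) hypos.le]
        have hpw := chop_pow (α := α) (by linarith) hδ
        have hq : 0 ≤ 1 - 2 * δ / a := by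
          rw [sub_nonneg, div_le_one ha]; linarith
        have h1 : (1 - (2 * α + 2 / a) * δ) ≤ (1 + 2 * δ) ^ (-α) * (1 - 2 * δ / a) := by
          have h2 : (1 - 2 * α * δ) * (1 - 2 * δ / a) ≤ (1 + 2 * δ) ^ (-α) * (1 - 2 * δ / a) :=
            mul_le_mul_of_nonneg_right hpw hq
          have h3 : (1 - 2 * α * δ) * (1 - 2 * δ / a) =
              (1 - (2 * α + 2 / a) * δ) + 2 * α * δ * (2 * δ / a) := by
            field_simp
            ring
          have h4 : 0 ≤ 2 * α * δ * (2 * δ / a) := by
            have : 0 < α := by linarith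
            positivity
          linarith
        have hyp : 0 ≤ nrm y ^ (-α) := Real.rpow_nonneg hypos.le _
        have hpp : 0 ≤ (1 + 2 * δ) ^ (-α) := Real.rpow_nonneg (by linarith) _
        calc (1 - (2 * α + 2 / a) * δ) * (nrm y ^ (-α) * μ (ι (endp y l1) - ι y))
            ≤ ((1 + 2 * δ) ^ (-α) * (1 - 2 * δ / a)) *
                (nrm y ^ (-α) * μ (ι (endp y l1) - ι y)) :=
              mul_le_mul_of_nonneg_right h1 (mul_nonneg hyp hmu0)
          _ = ((1 + 2 * δ) ^ (-α) * nrm y ^ (-α)) *
                ((1 - 2 * δ / a) * μ (ι (endp y l1) - ι y)) := by ring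
          _ ≤ ((1 + 2 * δ) ^ (-α) * nrm y ^ (-α)) * wt E y l1 :=
              mul_le_mul_of_nonneg_left hT1 (mul_nonneg hpp hyp)
      refine ⟨n + 1, fun i => if i = 0 then y else c (i - 1), by simp, ?_, ?_, ?_, ?_⟩
      · intro i hi
        rcases Nat.eq_zero_or_pos i with h0 | h0
        · subst h0
          exact ⟨[], l, rfl, by simp [endp_nil]⟩
        · obtain ⟨l3, l4, h34, hci⟩ := hc1 (i - 1) (by omega)
          refine ⟨l1 ++ l3, l4, by rw [h12, h34, List.append_assoc], ?_⟩
          have : i ≠ 0 := by omega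
          simp only [this, if_false]
          rw [hci, endp_append]
      · intro i hi
        rcases Nat.eq_zero_or_pos i with h0 | h0
        · subst h0
          simp only [Nat.zero_add, one_ne_zero, if_false, if_true, Nat.sub_self]
          rw [hc0]
          exact ⟨hP, hup⟩
        · have h1 := hc2 (i - 1) (by omega)
          have h2 : i ≠ 0 := by omega
          have h3 : i + 1 ≠ 0 := by omega
          have h4 : i + 1 - 1 = i - 1 + 1 := by omega
          simp only [h2, h3, if_false, h4]
          exact h1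
      · have h2 : n + 1 ≠ 0 := by omega
        simp only [h2, if_false, Nat.add_sub_cancel]
        rw [h12, endp_append]
        exact hc3
      · rw [Finset.sum_range_succ']
        have hs : ∀ i : ℕ, (if i + 1 = 0 then y else c (i + 1 - 1)) = c i := by
          intro i; simp
        simp only [hs]
        simp only [if_true]
        rw [h12, wt_append, mul_add]
        simp only [hc0] at *
        linarith
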