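import Pool.Agent.ConeE.Inward
import Pool.Agent.ConeE.Chop

/-! The one sided barrier (module BAR). -/

set_option autoImplicit false

namespace ConeE

theorem bar_convex {s t β : ℝ} (hs : 0 < s) (ht : 0 < t) (hβ : 0 < β) :
    s ^ (-β) / β - t ^ (-β) / β ≤ s ^ (-(β + 1)) * (t - s) := by
  have h1 : 0 < t / s := by positivity
  have h2 : 1 - β * (t / s - 1) ≤ (t / s) ^ (-β) := by
    rw [Real.rpow_def_of_pos h1]
    have h3 := Real.log_le_sub_one_of_pos h1
    have h4 := Real.add_one_le_exp (Real.log (t / s) * (-β))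
    nlinarith
  have h3 : t ^ (-β) = s ^ (-β) * (t / s) ^ (-β) := by
    rw [← Real.mul_rpow hs.le h1.le]
    congr 1
    field_simp
  have h5 : s ^ (-(β + 1)) = s ^ (-β) / s := by
    have : -(β + 1) = -β - 1 := by ring
    rw [this, Real.rpow_sub_one hs.ne']
  have h6 : 0 < s ^ (-β) := Real.rpow_pos_of_pos hs _
  have h7 : s ^ (-β) * (1 - β * (t / s - 1)) ≤ t ^ (-β) := by
    rw [h3]; exact mul_le_mul_of_nonneg_left h2 h6.le
  rw [h5, ← sub_div, div_le_iff₀ hβ]
  have h8 : s ^ (-β) / s * (t - s) * β = s ^ (-β) * (β * (t / s - 1)) := by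
    field_simp
  rw [h8]
  linarith

theorem bar_lt_norm {μ : ℂ → ℝ} {u p x : ℂ} (hu : ‖u‖ = 1) (hp : ∀ z, dot p z ≤ μ z)
    (hx : dot x u = 1) (hA : μ x < dot p u) : dot p u < ‖p‖ := by
  by_contra hcon
  push Not at hcon
  have h1 : ‖p - ((dot p u : ℝ) : ℂ) * u‖ ^ 2 = ‖p‖ ^ 2 - (dot p u) ^ 2 := by
    have hu2 : u.re * u.re + u.im * u.im = 1 := by
      have := dot_self u
      rw [hu] at this
      unfold dot at this
      linarith
    rw [← dot_self, ← dot_self]
    have e1 : (p - ((dot p u : ℝ) : ℂ) * u).re = p.re - dot p u * u.re := by simp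
    have e2 : (p - ((dot p u : ℝ) : ℂ) * u).im = p.im - dot p u * u.im := by simp
    have e3 : dot p u = p.re * u.re + p.im * u.im := rfl
    have e4 : dot p p = p.re * p.re + p.im * p.im := rfl
    have e5 : dot (p - ((dot p u : ℝ) : ℂ) * u) (p - ((dot p u : ℝ) : ℂ) * u) =
      (p - ((dot p u : ℝ) : ℂ) * u).re * (p - ((dot p u : ℝ) : ℂ) * u).re +
      (p - ((dot p u : ℝ) : ℂ) * u).im * (p - ((dot p u : ℝ) : ℂ) * u).im := rfl
    rw [e5, e1, e2, e4]
    have e6 : (dot p u) * (dot p u) * (u.re * u.re + u.im * u.im) = (dot p u) * (dot p u) := by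
      rw [hu2, mul_one]
    have e7 : dot p u * (p.re * u.re + p.im * u.im) = dot p u * dot p u := by rw [← e3]
    linarith
  have h2 : ‖p - ((dot p u : ℝ) : ℂ) * u‖ ^ 2 ≤ 0 := by
    rw [h1]
    have := norm_nonneg p
    nlinarith
  have h3 : ‖p - ((dot p u : ℝ) : ℂ) * u‖ = 0 := by
    have := sq_nonneg ‖p - ((dot p u : ℝ) : ℂ) * u‖
    exact pow_eq_zero_iff (two_ne_zero) |>.mp (le_antisymm h2 this)
  have h4 : p = ((dot p u : ℝ) : ℂ) * u := sub_eq_zero.mp (norm_eq_zero.mp h3)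
  have h5 : dot p x = dot p u := by
    rw [dot_comm, h4, dot_mul, hx, mul_one, ← h4]
  have := hp x
  linarith

theorem bar_alpha {A B γ K : ℝ} (hA : 0 < A) (hAB : A < B) (hγ : 0 < γ) :
    ∃ β0 : ℝ, ∀ β : ℝ, β0 < β → 1 ≤ β ∧ 2 * K ≤ β ∧
      A * (A / γ) ^ (1 / β) ≤ (3 * A + B) / 4 * (1 - K / β) := by
  have hq : 0 < A / γ := by positivity
  have h1 : Filter.Tendsto (fun β : ℝ => A * (A / γ) ^ (1 / β)) Filter.atTop (nhds A) := by
    have h2 : Filter.Tendsto (fun β : ℝ => 1 / β) Filter.atTop (nhds 0) := by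
      simpa using tendsto_inv_atTop_zero
    have h3 : Filter.Tendsto (fun β : ℝ => (A / γ) ^ (1 / β)) Filter.atTop
        (nhds ((A / γ) ^ (0:ℝ))) :=
      Filter.Tendsto.rpow tendsto_const_nhds h2 (Or.inl hq.ne')
    rw [Real.rpow_zero] at h3
    simpa using h3.const_mul A
  have h2 : Filter.Tendsto (fun β : ℝ => (3 * A + B) / 4 * (1 - K / β)) Filter.atTop
      (nhds ((3 * A + B) / 4)) := by
    have h3 : Filter.Tendsto (fun β : ℝ => K / β) Filter.atTop (nhds 0) :=
      Filter.Tendsto.div_atTop tendsto_const_nhds Filter.tendsto_id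
    have h4 := (h3.const_sub 1).const_mul ((3 * A + B) / 4)
    simpa using h4
  have h3 := h1.eventually_lt h2 (by linarith)
  obtain ⟨β1, hβ1⟩ := Filter.eventually_atTop.mp h3
  refine ⟨max β1 (max 1 (2 * K)), ?_⟩
  intro β hβ
  have e1 : β1 ≤ β := ((le_max_left _ _).trans_lt hβ).le
  have e2 : 1 ≤ β := ((le_max_left _ _).trans ((le_max_right _ _).trans hβ.le))
  have e3 : 2 * K ≤ β := ((le_max_right _ _).trans ((le_max_right _ _).trans hβ.le))
  exact ⟨e2, e3, (hβ1 β e1).le⟩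

theorem bar_root {A P γ β r : ℝ} (hA : 0 < A) (hP : 0 < P) (hγ : 0 < γ) (hβ : 0 < β)
    (hr : 0 < r) (h : γ * r ^ (-β) ≤ A ^ (β + 1) * P ^ (-β)) :
    P ≤ A * (A / γ) ^ (1 / β) * r := by
  have h1 : P ^ β ≤ (A / γ) * (A * r) ^ β := by
    rw [Real.rpow_neg hr.le, Real.rpow_neg hP.le, Real.rpow_add hA, Real.rpow_one] at h
    rw [Real.mul_rpow hA.le hr.le]
    have hPb : 0 < P ^ β := Real.rpow_pos_of_pos hP _
    have hrb : 0 < r ^ β := Real.rpow_pos_of_pos hr _
    have h2 : γ / r ^ β ≤ A ^ β * A / P ^ β := by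
      simpa [div_eq_mul_inv] using h
    rw [div_le_div_iff₀ hrb hPb] at h2
    have h3 : A / γ * (A ^ β * r ^ β) = A ^ β * A * r ^ β / γ := by field_simp
    rw [h3, le_div_iff₀ hγ]
    linarith
  have h2 : (P ^ β) ^ (1 / β) ≤ ((A / γ) * (A * r) ^ β) ^ (1 / β) :=
    Real.rpow_le_rpow (Real.rpow_nonneg hP.le _) h1 (by positivity)
  rw [← Real.rpow_mul hP.le, mul_one_div_cancel hβ.ne', Real.rpow_one,
    Real.mul_rpow (by positivity) (Real.rpow_nonneg (by positivity) _),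
    ← Real.rpow_mul (by positivity), mul_one_div_cancel hβ.ne', Real.rpow_one] at h2
  linarith

theorem barrier {ι : V →+ ℂ} (hι : Emb ι) {μ : ℂ → ℝ} {a b : ℝ} (hμ : Nrm μ a b)
    {u p x : ℂ} (hu : ‖u‖ = 1) (hp : ∀ z, dot p z ≤ μ z) (hx : dot x u = 1)
    (hA : μ x < dot p u) (C0 : ℝ) :
    ∃ α0 : ℝ, ∀ α : ℝ, α0 < α → ∀ E : Edge → ℝ, (∀ e, 0 ≤ E e) → LLN ι μ E →
      ∃ R0 : ℝ, ∀ y : V, R0 ≤ nrm y → ∀ l : List Step,
        wt (tau α E) y l < S (tau α E) y →
        ‖ι y - (nrm y : ℂ) * u‖ ≤ C0 →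
        (∀ l1 l2, l = l1 ++ l2 → dot p u * nrm (endp y l1) - C0 ≤ dot p (ι (endp y l1))) →
        dot p (ι (endp y l)) ≤ (dot p u + ‖p‖) / 2 * nrm (endp y l) := by
  have ha := hμ.pos
  have hAB := bar_lt_norm hu hp hx hA
  set A := dot p u with hAdef
  set B := ‖p‖ with hBdef
  set g := μ x with hgdef
  have hxn : 1 ≤ ‖x‖ := by
    have := abs_dot_le x u
    rw [hx, hu, abs_one, mul_one] at this
    exact this
  have hg : 0 < g := by
    have := hμ.low x
    have h1 : a * 1 ≤ a * ‖x‖ := mul_le_mul_of_nonneg_left hxn ha.le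
    linarith
  have hApos : 0 < A := by linarith
  have hBpos : 0 < B := by linarith
  set γ := (A - g) / 2 with hγdef
  have hγ : 0 < γ := by rw [hγdef]; linarith
  set η := (A - g) / (2 * (A + g)) with hηdef
  have hη : 0 < η := by rw [hηdef]; apply div_pos <;> linarith
  have hη1 : η ≤ 1 / 2 := by
    rw [hηdef, div_le_div_iff₀ (by linarith) (by norm_num)]; linarith
  have hηeq : (1 - η) * A - (1 + η) * g = γ := by
    rw [hηdef, hγdef]; field_simp; ring
  set e := η / 7 with hedef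
  have he : 0 < e := by positivity
  have he1 : e ≤ 1 := by rw [hedef]; linarith
  have he3 : (1 + e) ^ 3 ≤ 1 + η := by
    have : η = 7 * e := by rw [hedef]; ring
    rw [this]
    nlinarith [mul_pos he he, mul_nonneg he.le (sub_nonneg.mpr he1), mul_nonneg (mul_nonneg he.le he.le) (sub_nonneg.mpr he1)]
  obtain ⟨K, hK, hin⟩ := inward hι hμ
  obtain ⟨β0, hβ0⟩ := bar_alpha (K := K) hApos hAB hγ
  refine ⟨1 + β0, ?_⟩
  intro α hα E hE hL
  obtain ⟨hβ1, hβK, hβA⟩ := hβ0 (α - 1) (by linarith)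
  set β := α - 1 with hβdef
  have hβ : 0 < β := by linarith
  have hαβ : α = β + 1 := by rw [hβdef]; ring
  have hτ : ∀ e, 0 ≤ tau α E e := fun e => tau_nonneg hE e
  obtain ⟨R1, hR1⟩ := hin α (by linarith) E hE hL
  obtain ⟨K1, δ1, hK1, hδ1, hsup⟩ := sup_bound hι hμ (α := α) (by linarith) (C := 2 * ‖x‖)
    (by linarith)
  obtain ⟨K2, δ2, hK2, hδ2, hchop⟩ := chop hι hμ (α := α) (by linarith)
  obtain ⟨δ, hδ, hd1, hd2, hd3, hd4⟩ : ∃ δ : ℝ, 0 < δ ∧ δ ≤ δ1 ∧ δ ≤ δ2 ∧
      δ * (K1 + 2 * K2) ≤ e ∧ δ * (8 * B) ≤ B - A := by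
    refine ⟨min (min δ1 δ2) (min (e / (K1 + 2 * K2)) ((B - A) / (8 * B))), ?_, ?_, ?_, ?_, ?_⟩
    · have : 0 < B - A := by linarith
      positivity
    · exact (min_le_left _ _).trans (min_le_left _ _)
    · exact (min_le_left _ _).trans (min_le_right _ _)
    · rw [← le_div_iff₀ (by positivity)]
      exact (min_le_right _ _).trans (min_le_left _ _)
    · rw [← le_div_iff₀ (by positivity)]
      exact (min_le_right _ _).trans (min_le_right _ _)
  have hK2δ : K2 * δ ≤ 1 / 2 := by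
    have h1 : 0 ≤ K1 * δ := by positivity
    linarith
  have hKK : 1 + K1 * δ ≤ (1 + e) * (1 - K2 * δ) := by
    have h1 : 0 ≤ (1 - e) * (K2 * δ) := mul_nonneg (by linarith) (by positivity)
    linarith
  have hδ1' : δ ≤ 1 / 8 := by
    by_contra hcon
    push Not at hcon
    have h1 : 1 / 8 * (8 * B) < δ * (8 * B) := mul_lt_mul_of_pos_right hcon (by positivity)
    linarith
  obtain ⟨R2, hR2⟩ := hL (δ ^ 2) (by positivity)
  -- the constants `q < 1 < q'`
  set q := (1 + e) ^ (-(1 / α)) with hqdef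
  have hα0 : 0 < α := by linarith
  have hq0 : 0 < q := Real.rpow_pos_of_pos (by linarith) _
  have hq1 : q < 1 := Real.rpow_lt_one_of_one_lt_of_neg (by linarith) (by
    have : 0 < 1 / α := by positivity
    linarith)
  have hqα : q ^ (-α) = 1 + e := by
    rw [hqdef, ← Real.rpow_mul (by linarith)]
    have : -(1 / α) * -α = 1 := by field_simp
    rw [this, Real.rpow_one]
  set q' := (1 - η) ^ (-(1 / β)) with hq'def
  have hq'0 : 1 < q' := Real.one_lt_rpow_of_pos_of_lt_one_of_neg (by linarith) (by linarith) (by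
    have : 0 < 1 / β := by positivity
    linarith)
  have hq'β : q' ^ (-β) = 1 - η := by
    rw [hq'def, ← Real.rpow_mul (by linarith)]
    have : -(1 / β) * -β = 1 := by field_simp
    rw [this, Real.rpow_one]
  refine ⟨max (max (max R1 (2 * R2)) (max (2 / δ ^ 2) 1))
    (max (2 * (‖x‖ * C0) / e) (max (2 * C0 / ((1 - q) * A)) (B * C0 / ((q' - 1) * A)))), ?_⟩
  intro y hy l hl hyu hpre
  set r := nrm y with hrdef
  have hyR1 : R1 ≤ r :=
    (le_max_left _ _).trans ((le_max_left _ _).trans ((le_max_left _ _).trans hy))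
  have hyR2 : 2 * R2 ≤ r :=
    (le_max_right _ _).trans ((le_max_left _ _).trans ((le_max_left _ _).trans hy))
  have hyδ : 2 / δ ^ 2 ≤ r :=
    (le_max_left _ _).trans ((le_max_right _ _).trans ((le_max_left _ _).trans hy))
  have hy1 : 1 ≤ r :=
    (le_max_right _ _).trans ((le_max_right _ _).trans ((le_max_left _ _).trans hy))
  have hyx : 2 * (‖x‖ * C0) / e ≤ r := (le_max_left _ _).trans ((le_max_right _ _).trans hy)
  have hyq : 2 * C0 / ((1 - q) * A) ≤ r :=
    (le_max_left _ _).trans ((le_max_right _ _).trans ((le_max_right _ _).trans hy))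
  have hyq' : B * C0 / ((q' - 1) * A) ≤ r :=
    (le_max_right _ _).trans ((le_max_right _ _).trans ((le_max_right _ _).trans hy))
  have hr : 0 < r := by linarith
  have hC0 : 0 ≤ C0 := (norm_nonneg _).trans hyu
  rw [div_le_iff₀ (by positivity)] at hyδ
  rw [div_le_iff₀ (by positivity)] at hyx
  have hq1' : 0 < 1 - q := by linarith
  have hq1'' : 0 < q' - 1 := by linarith
  rw [div_le_iff₀ (by positivity)] at hyq
  rw [div_le_iff₀ (by positivity)] at hyq'
  have hrβ : 0 < r ^ (-β) := Real.rpow_pos_of_pos hr _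
  -- all the vertices are far away
  have hfar : ∀ l1 l2, l = l1 ++ l2 → (1 - K / β) * r ≤ nrm (endp y l1) := by
    intro l1 l2 h12
    apply hR1 y hyR1 l1
    have : wt (tau α E) y l1 ≤ wt (tau α E) y l := by
      rw [h12, wt_append]
      have := wt_nonneg hτ (endp y l1) l2
      linarith
    linarith
  have hKβ : K / β ≤ 1 / 2 := by
    rw [div_le_iff₀ hβ]; linarith
  have hfar2 : ∀ l1 l2, l = l1 ++ l2 → r / 2 ≤ nrm (endp y l1) := by
    intro l1 l2 h12
    have h1 := hfar l1 l2 h12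
    have h2 : 0 ≤ (1 / 2 - K / β) * r := mul_nonneg (by linarith) hr.le
    linarith
  -- bound for `S`
  have hS : S (tau α E) y ≤ (1 + K1 * δ) * ((1 + e) * g / β) * r ^ (-β) := by
    set w := dot x (ι y) with hwdef
    have hw1 : r * (1 - e / 2) ≤ w := by
      have h1 : w = dot x (ι y - (r : ℂ) * u) + r := by
        rw [dot_sub, dot_mul, hx]; ring
      have h2 := (abs_le.mp (abs_dot_le x (ι y - (r : ℂ) * u))).1
      have h3 : ‖x‖ * ‖ι y - (r : ℂ) * u‖ ≤ ‖x‖ * C0 :=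
        mul_le_mul_of_nonneg_left hyu (norm_nonneg _)
      rw [h1]
      linarith
    have hw0 : 0 < w := by
      have : 0 < r * (1 - e / 2) := by
        apply mul_pos hr; linarith
      linarith
    have hw2 : r ≤ (1 + e) * w := by
      have h1 : (1 + e) * (r * (1 - e / 2)) ≤ (1 + e) * w :=
        mul_le_mul_of_nonneg_left hw1 (by linarith)
      have h2 : 0 ≤ e * (1 - e) := mul_nonneg he.le (by linarith)
      have h3 : 0 ≤ (e * (1 - e)) * r := mul_nonneg h2 hr.le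
      linarith
    have hrw : 0 ≤ r / w := by positivity
    have hrw1 : r / w ≤ 1 + e := by
      rw [div_le_iff₀ hw0]; exact hw2
    have hn : ‖((r / w : ℝ) : ℂ) * x‖ ≤ 2 * ‖x‖ := by
      rw [norm_mul, Complex.norm_real, Real.norm_eq_abs, abs_of_nonneg hrw]
      apply mul_le_mul_of_nonneg_right _ (norm_nonneg _)
      linarith
    have hd : dot (((r / w : ℝ) : ℂ) * x) (ι y) = nrm y := by
      rw [dot_comm, dot_mul, dot_comm, ← hwdef, ← hrdef]
      field_simp
    obtain ⟨t, ht, hinf⟩ := hsup δ hδ hd1 E hE y (by rw [← hrdef]; linarith)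
      (fun R hR => hR2 R (by linarith)) _ hn hd
    refine (S_le_of_infinite hτ hinf).trans (ht.trans ?_)
    have h1 : 1 - α = -β := by rw [hβdef]; ring
    rw [h1, ← hrdef, ← hβdef, hμ.hom _ _ hrw, ← hgdef]
    apply mul_le_mul_of_nonneg_right _ hrβ.le
    apply mul_le_mul_of_nonneg_left _ (by positivity)
    gcongr
  obtain ⟨n, c, hc0, hc1, hc2, hc3, hc4⟩ := hchop δ hδ hd2 E hE (r / 2) (by linarith)
    (fun R hR => hR2 R (by linarith)) y l hfar2
  -- the function `F`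
  have hcfar : ∀ i, i ≤ n → r / 2 ≤ nrm (c i) := by
    intro i hi
    obtain ⟨l1, l2, h12, hci⟩ := hc1 i hi
    rw [hci]; exact hfar2 l1 l2 h12
  have hcp : ∀ i, i ≤ n → q * (A * nrm (c i)) ≤ dot p (ι (c i)) := by
    intro i hi
    obtain ⟨l1, l2, h12, hci⟩ := hc1 i hi
    have h1 := hpre l1 l2 h12
    rw [← hci] at h1
    have h2 := hcfar i hi
    have h3 : C0 ≤ (1 - q) * A * nrm (c i) := by
      have : (1 - q) * A * (r / 2) ≤ (1 - q) * A * nrm (c i) := by gcongr
      linarith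
    linarith
  have hcpos : ∀ i, i ≤ n → 0 < dot p (ι (c i)) := by
    intro i hi
    have h1 := hcp i hi
    have h2 := hcfar i hi
    have h3 : 0 < nrm (c i) := by linarith
    have h4 : 0 < q * (A * nrm (c i)) := by positivity
    linarith
  have hstep : ∀ i ∈ Finset.range n,
      A ^ α * (dot p (ι (c i)) ^ (-β) / β) - A ^ α * (dot p (ι (c (i + 1))) ^ (-β) / β) ≤
        (1 + e) * (nrm (c i) ^ (-α) * μ (ι (c (i + 1)) - ι (c i))) := by
    intro i hi
    have hi' := Finset.mem_range.mp hi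
    have h1 := bar_convex (hcpos i hi'.le) (hcpos (i + 1) hi') hβ
    rw [← dot_sub, ← hαβ] at h1
    have h2 := hp (ι (c (i + 1)) - ι (c i))
    have hPi := hcpos i hi'.le
    have h3 : dot p (ι (c i)) ^ (-α) * dot p (ι (c (i + 1)) - ι (c i)) ≤
        dot p (ι (c i)) ^ (-α) * μ (ι (c (i + 1)) - ι (c i)) :=
      mul_le_mul_of_nonneg_left h2 (Real.rpow_nonneg hPi.le _)
    have hAα : 0 < A ^ α := Real.rpow_pos_of_pos hApos _
    have hci : 0 < nrm (c i) := by
      have := hcfar i hi'.le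
      linarith
    have h4 : dot p (ι (c i)) ^ (-α) ≤ (q * (A * nrm (c i))) ^ (-α) :=
      Real.rpow_le_rpow_of_nonpos (by positivity) (hcp i hi'.le) (by linarith)
    rw [Real.mul_rpow hq0.le (by positivity), Real.mul_rpow hApos.le hci.le, hqα] at h4
    have hmu := hμ.nonneg (ι (c (i + 1)) - ι (c i))
    have h5 : A ^ α * A ^ (-α) = 1 := by
      rw [← Real.rpow_add hApos]; simp
    calc A ^ α * (dot p (ι (c i)) ^ (-β) / β) - A ^ α * (dot p (ι (c (i + 1))) ^ (-β) / β)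
        = A ^ α * (dot p (ι (c i)) ^ (-β) / β - dot p (ι (c (i + 1))) ^ (-β) / β) := by ring
      _ ≤ A ^ α * (dot p (ι (c i)) ^ (-α) * μ (ι (c (i + 1)) - ι (c i))) :=
          mul_le_mul_of_nonneg_left (h1.trans h3) hAα.le
      _ ≤ A ^ α * (((1 + e) * (A ^ (-α) * nrm (c i) ^ (-α))) *
            μ (ι (c (i + 1)) - ι (c i))) := by
          apply mul_le_mul_of_nonneg_left _ hAα.le
          exact mul_le_mul_of_nonneg_right h4 hmu
      _ = (A ^ α * A ^ (-α)) * ((1 + e) * (nrm (c i) ^ (-α) *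
            μ (ι (c (i + 1)) - ι (c i)))) := by ring
      _ = (1 + e) * (nrm (c i) ^ (-α) * μ (ι (c (i + 1)) - ι (c i))) := by rw [h5, one_mul]
  have hsum := Finset.sum_le_sum hstep
  rw [← Finset.mul_sum, Finset.sum_range_sub'
    (fun i => A ^ α * (dot p (ι (c i)) ^ (-β) / β)) n] at hsum
  set Sg := ∑ i ∈ Finset.range n, nrm (c i) ^ (-α) * μ (ι (c (i + 1)) - ι (c i)) with hSg
  have hSg0 : 0 ≤ Sg := by
    apply Finset.sum_nonneg
    intro i _
    exact mul_nonneg (Real.rpow_nonneg (nrm_nonneg _) _) (hμ.nonneg _)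
  have hSg1 : Sg ≤ (1 + e) ^ 2 * (g / β) * r ^ (-β) := by
    have h1 : (1 - K2 * δ) * Sg ≤ (1 + K1 * δ) * ((1 + e) * g / β) * r ^ (-β) := by
      linarith
    have h2 : (1 + K1 * δ) * ((1 + e) * g / β) * r ^ (-β) ≤
        ((1 + e) * (1 - K2 * δ)) * ((1 + e) * g / β) * r ^ (-β) := by
      gcongr
    have h3 : (1 - K2 * δ) * Sg ≤ (1 - K2 * δ) * ((1 + e) ^ 2 * (g / β) * r ^ (-β)) := by
      refine h1.trans (h2.trans (le_of_eq ?_))
      ring
    exact le_of_mul_le_mul_left h3 (by linarith)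
  have hFy : (1 - η) * A / β * r ^ (-β) ≤ A ^ α * (dot p (ι (c 0)) ^ (-β) / β) := by
    rw [hc0]
    have h1 : dot p (ι y) ≤ q' * (A * r) := by
      have h2 : dot p (ι y) = dot p (ι y - (r : ℂ) * u) + A * r := by
        rw [dot_sub, dot_mul, ← hAdef]; ring
      have h3 := (abs_le.mp (abs_dot_le p (ι y - (r : ℂ) * u))).2
      have h4 : ‖p‖ * ‖ι y - (r : ℂ) * u‖ ≤ B * C0 := by
        rw [← hBdef]
        exact mul_le_mul_of_nonneg_left hyu hBpos.le
      rw [h2]
      linarith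
    have h0 : 0 < dot p (ι y) := by
      have := hcpos 0 (Nat.zero_le _)
      rw [hc0] at this
      exact this
    have h2 : (q' * (A * r)) ^ (-β) ≤ dot p (ι y) ^ (-β) :=
      Real.rpow_le_rpow_of_nonpos h0 h1 (by linarith)
    rw [Real.mul_rpow (by linarith) (by positivity), Real.mul_rpow hApos.le hr.le, hq'β] at h2
    have hAα : 0 < A ^ α := Real.rpow_pos_of_pos hApos _
    have h5 : A ^ α * A ^ (-β) = A := by
      rw [← Real.rpow_add hApos]
      have : α + -β = 1 := by rw [hβdef]; ring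
      rw [this, Real.rpow_one]
    calc (1 - η) * A / β * r ^ (-β) = (1 - η) * (A ^ α * A ^ (-β)) / β * r ^ (-β) := by rw [h5]
      _ = A ^ α * (((1 - η) * (A ^ (-β) * r ^ (-β))) / β) := by ring
      _ ≤ A ^ α * (dot p (ι y) ^ (-β) / β) := by gcongr
  have hmain : γ * r ^ (-β) ≤ A ^ (β + 1) * dot p (ι (c n)) ^ (-β) := by
    rw [← hαβ]
    have h1 : A ^ α * (dot p (ι (c 0)) ^ (-β) / β) - A ^ α * (dot p (ι (c n)) ^ (-β) / β) ≤
        (1 + e) * ((1 + e) ^ 2 * (g / β) * r ^ (-β)) :=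
      hsum.trans (mul_le_mul_of_nonneg_left hSg1 (by linarith))
    have h2 : (1 + e) * ((1 + e) ^ 2 * (g / β) * r ^ (-β)) ≤ (1 + η) * (g / β) * r ^ (-β) := by
      have : (1 + e) * ((1 + e) ^ 2 * (g / β) * r ^ (-β)) =
        (1 + e) ^ 3 * ((g / β) * r ^ (-β)) := by ring
      rw [this, mul_assoc (1 + η)]
      apply mul_le_mul_of_nonneg_right he3 (by positivity)
    have h3 : ((1 - η) * A - (1 + η) * g) / β * r ^ (-β) ≤
        A ^ α * (dot p (ι (c n)) ^ (-β) / β) := by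
      have h4 : ((1 - η) * A - (1 + η) * g) / β * r ^ (-β) =
        (1 - η) * A / β * r ^ (-β) - (1 + η) * (g / β) * r ^ (-β) := by ring
      rw [h4]
      linarith
    rw [hηeq] at h3
    have h5 : γ / β * r ^ (-β) = γ * r ^ (-β) / β := by ring
    have h6 : A ^ α * (dot p (ι (c n)) ^ (-β) / β) = A ^ α * dot p (ι (c n)) ^ (-β) / β := by
      ring
    rw [h5, h6] at h3
    exact (div_le_div_iff_of_pos_right hβ).mp h3
  have hP := bar_root hApos (hcpos n le_rfl) hγ hβ hr hmain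
  have hcn : (1 - K / β) * r ≤ nrm (c n) := by
    obtain ⟨l1, l2, h12, hci⟩ := hc1 n le_rfl
    rw [hci]; exact hfar l1 l2 h12
  have hP2 : dot p (ι (c n)) ≤ (3 * A + B) / 4 * nrm (c n) := by
    have h1 : A * (A / γ) ^ (1 / β) * r ≤ (3 * A + B) / 4 * (1 - K / β) * r :=
      mul_le_mul_of_nonneg_right hβA hr.le
    have h2 : (3 * A + B) / 4 * ((1 - K / β) * r) ≤ (3 * A + B) / 4 * nrm (c n) :=
      mul_le_mul_of_nonneg_left hcn (by linarith)
    linarith
  have hz1 : dot p (ι (endp y l)) ≤ dot p (ι (c n)) + B * (δ * nrm (c n)) := by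
    have h1 : dot p (ι (endp y l)) = dot p (ι (c n)) + dot p (ι (endp y l) - ι (c n)) := by
      rw [dot_sub]; ring
    have h2 := (abs_le.mp (abs_dot_le p (ι (endp y l) - ι (c n)))).2
    have h3 : ‖p‖ * ‖ι (endp y l) - ι (c n)‖ ≤ B * (δ * nrm (c n)) := by
      rw [← hBdef]
      exact mul_le_mul_of_nonneg_left hc3 hBpos.le
    rw [h1]
    linarith
  have hz2 : (1 - δ) * nrm (c n) ≤ nrm (endp y l) := by
    have h1 : ‖ι (c n)‖ ≤ ‖ι (endp y l)‖ + ‖ι (endp y l) - ι (c n)‖ := by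
      have : ι (c n) = ι (endp y l) - (ι (endp y l) - ι (c n)) := by ring
      conv_lhs => rw [this]
      exact norm_sub_le _ _
    rw [hι.norm_eq, hι.norm_eq] at h1
    linarith
  have hcn0 : 0 < nrm (c n) := by
    have := hcfar n le_rfl
    linarith
  have hfin : (3 * A + B) / 4 + B * δ ≤ (A + B) / 2 * (1 - δ) := by
    have h1 : 0 ≤ (B - A) * δ := mul_nonneg (by linarith) hδ.le
    linarith
  calc dot p (ι (endp y l)) ≤ ((3 * A + B) / 4 + B * δ) * nrm (c n) := by linarith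
    _ ≤ ((A + B) / 2 * (1 - δ)) * nrm (c n) := mul_le_mul_of_nonneg_right hfin hcn0.le
    _ = (A + B) / 2 * ((1 - δ) * nrm (c n)) := by ring
    _ ≤ (A + B) / 2 * nrm (endp y l) := mul_le_mul_of_nonneg_left hz2 (by linarith)

end ConeE
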