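import Pool.Agent.ConeE.BasicA

/-! Norms, midpoints, scalar product (module BB). -/

set_option autoImplicit false

namespace ConeE

/-! norms -/

theorem bb_toC_apply (x : V) : toC x = ⟨(x 0 : ℝ), (x 1 : ℝ)⟩ := rfl

theorem bb_norm_mk (a b : ℝ) : ‖(⟨a, b⟩ : ℂ)‖ = Real.sqrt (a ^ 2 + b ^ 2) := by
  rw [Complex.norm_def, Complex.normSq_mk]
  congr 1
  ring

theorem nrm_eq (x : V) : nrm x = ‖toC x‖ := by
  rw [bb_toC_apply, bb_norm_mk, nrm, Fin.sum_univ_two]

theorem emb_toC : Emb toC := by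
  refine ⟨fun x => (nrm_eq x).symm, fun z => ?_⟩
  refine ⟨![round z.re, round z.im], ?_⟩
  have h1 : |z.re - round z.re| ≤ 1 / 2 := abs_sub_round _
  have h2 : |z.im - round z.im| ≤ 1 / 2 := abs_sub_round _
  refine le_trans (Complex.norm_le_abs_re_add_abs_im _) ?_
  have e1 : (toC ![round z.re, round z.im] - z).re = -(z.re - round z.re) := by
    simp [bb_toC_apply]
  have e2 : (toC ![round z.re, round z.im] - z).im = -(z.im - round z.im) := by
    simp [bb_toC_apply]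
  rw [e1, e2, abs_neg, abs_neg]
  linarith

theorem nrm_nonneg (x : V) : 0 ≤ nrm x := Real.sqrt_nonneg _

theorem nrm_zero : nrm 0 = 0 := by
  rw [nrm_eq, map_zero, norm_zero]

theorem nrm_neg (x : V) : nrm (-x) = nrm x := by
  rw [nrm_eq, nrm_eq, map_neg, norm_neg]

theorem nrm_add_le (x y : V) : nrm (x + y) ≤ nrm x + nrm y := by
  rw [nrm_eq, nrm_eq, nrm_eq, map_add]
  exact norm_add_le _ _

theorem nrm_sub_le (x y : V) : nrm (x - y) ≤ nrm x + nrm y := by
  rw [sub_eq_add_neg, ← nrm_neg y]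
  exact nrm_add_le _ _

theorem bb_nrm_ev (j : Fin 2) : nrm (ev j) = 1 := by
  fin_cases j <;> simp [nrm, ev, Fin.sum_univ_two]

theorem nrm_vec (s : Step) : nrm (vec s) = 1 := by
  obtain ⟨j, b⟩ := s
  cases b
  · simp only [vec, Bool.false_eq_true, if_false]
    rw [nrm_neg, bb_nrm_ev]
  · simp only [vec, if_true]
    exact bb_nrm_ev j

theorem abs_coord_le (x : V) (j : Fin 2) : |(x j : ℝ)| ≤ nrm x := by
  apply Real.abs_le_sqrt
  exact Finset.single_le_sum (f := fun j => ((x j : ℝ)) ^ 2) (fun i _ => sq_nonneg _)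
    (Finset.mem_univ j)

theorem one_le_nrm {x : V} (hx : x ≠ 0) : 1 ≤ nrm x := by
  obtain ⟨j, hj⟩ : ∃ j, x j ≠ 0 := by
    by_contra h
    push Not at h
    exact hx (funext h)
  refine le_trans ?_ (abs_coord_le x j)
  have : (1 : ℤ) ≤ |x j| := Int.one_le_abs hj
  have h2 : ((1 : ℤ) : ℝ) ≤ ((|x j| : ℤ) : ℝ) := Int.cast_le.mpr this
  simpa using h2

theorem finite_ball (R : ℝ) : {x : V | nrm x ≤ R}.Finite := by
  have hfin : (Set.pi Set.univ (fun _ : Fin 2 => Set.Icc (-⌈R⌉) ⌈R⌉)).Finite :=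
    Set.Finite.pi' (fun _ => Set.finite_Icc _ _) |>.subset (fun x hx i => hx i (Set.mem_univ i))
  refine hfin.subset (fun x hx i _ => ?_)
  have h1 : |(x i : ℝ)| ≤ R := le_trans (abs_coord_le x i) hx
  have h2 : |(x i : ℝ)| ≤ (⌈R⌉ : ℝ) := le_trans h1 (Int.le_ceil R)
  rw [abs_le] at h2
  constructor
  · have : ((-⌈R⌉ : ℤ) : ℝ) ≤ ((x i : ℤ) : ℝ) := by push_cast; exact h2.1
    exact Int.cast_le.mp this
  · exact Int.cast_le.mp h2.2

theorem nrm_endp_sub_le (x : V) (l : List Step) : nrm (endp x l - x) ≤ l.length := by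
  induction l generalizing x with
  | nil => simp [endp_nil, nrm_zero]
  | cons s l ih =>
    have h : endp x (s :: l) - x = (endp (x + vec s) l - (x + vec s)) + vec s := by
      rw [endp_cons]; abel
    rw [h]
    refine le_trans (nrm_add_le _ _) ?_
    rw [nrm_vec, List.length_cons]
    push_cast
    exact add_le_add (ih _) (le_refl _)

theorem half_le_mid (e : Edge) : 1 / 2 ≤ mid e := by
  apply Real.le_sqrt_of_sq_le
  refine le_trans ?_ (Finset.single_le_sum
    (f := fun j : Fin 2 => ((e.1 j : ℝ) + (if j = e.2 then (1 / 2 : ℝ) else 0)) ^ 2)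
    (fun i _ => sq_nonneg _) (Finset.mem_univ e.2))
  simp only [if_true]
  have hint : (1 : ℤ) ≤ |2 * e.1 e.2 + 1| := by
    apply Int.one_le_abs
    omega
  have h2 : ((1 : ℤ) : ℝ) ≤ ((|2 * e.1 e.2 + 1| : ℤ) : ℝ) := Int.cast_le.mpr hint
  push_cast at h2
  have h3 : (1 : ℝ) ≤ (2 * (e.1 e.2 : ℝ) + 1) ^ 2 := by
    rw [← sq_abs]
    nlinarith
  nlinarith

theorem mid_pos (e : Edge) : 0 < mid e := lt_of_lt_of_le (by norm_num) (half_le_mid e)

/-- the midpoint as a complex number -/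
noncomputable def bb_midC (e : Edge) : ℂ := toC e.1 + (1 / 2 : ℝ) * toC (ev e.2)

theorem bb_mid_eq (e : Edge) : mid e = ‖bb_midC e‖ := by
  have h : bb_midC e = ⟨(e.1 0 : ℝ) + (if (0 : Fin 2) = e.2 then (1 / 2 : ℝ) else 0),
      (e.1 1 : ℝ) + (if (1 : Fin 2) = e.2 then (1 / 2 : ℝ) else 0)⟩ := by
    obtain ⟨v, j⟩ := e
    apply Complex.ext
    · fin_cases j <;> simp [bb_midC, bb_toC_apply, ev]
    · fin_cases j <;> simp [bb_midC, bb_toC_apply, ev]
  rw [h, bb_norm_mk, mid, Fin.sum_univ_two]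

theorem bb_midC_edg (x : V) (s : Step) : bb_midC (edg x s) = toC x + (1 / 2 : ℝ) * toC (vec s) := by
  obtain ⟨j, b⟩ := s
  cases b
  · simp only [edg, vec, Bool.false_eq_true, if_false, bb_midC, map_sub, map_neg]
    push_cast
    ring
  · simp only [edg, vec, if_true, bb_midC]

theorem bb_norm_half (s : Step) : ‖((1 / 2 : ℝ) : ℂ) * toC (vec s)‖ = 1 / 2 := by
  rw [norm_mul, ← nrm_eq, nrm_vec, Complex.norm_real]
  norm_num

theorem mid_edg_le (x : V) (s : Step) : mid (edg x s) ≤ nrm x + 1 / 2 := by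
  have h := norm_add_le (toC x) (((1 / 2 : ℝ) : ℂ) * toC (vec s))
  rw [bb_norm_half] at h
  rw [bb_mid_eq, bb_midC_edg, nrm_eq]
  exact h

theorem le_mid_edg (x : V) (s : Step) : nrm x - 1 / 2 ≤ mid (edg x s) := by
  have h := norm_sub_norm_le (toC x) (-(((1 / 2 : ℝ) : ℂ) * toC (vec s)))
  rw [norm_neg, sub_neg_eq_add, bb_norm_half] at h
  rw [bb_mid_eq, bb_midC_edg, nrm_eq]
  exact h

/-- the two ends of the edge of a step -/
theorem edg_cases (x : V) (s : Step) :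
    ((edg x s).1 = x ∧ (edg x s).1 + ev (edg x s).2 = x + vec s) ∨
    ((edg x s).1 = x + vec s ∧ (edg x s).1 + ev (edg x s).2 = x) := by
  obtain ⟨j, b⟩ := s
  cases b
  · right
    simp [edg, vec, sub_eq_add_neg]
  · left
    simp [edg, vec]

theorem tau_nonneg {α : ℝ} {E : Edge → ℝ} (hE : ∀ e, 0 ≤ E e) (e : Edge) : 0 ≤ tau α E e :=
  div_nonneg (hE e) (Real.rpow_nonneg (mid_pos e).le α)

/-! the scalar product -/

theorem dot_comm (x z : ℂ) : dot x z = dot z x := by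
  simp only [dot]; ring

theorem dot_add (x z w : ℂ) : dot x (z + w) = dot x z + dot x w := by
  simp only [dot, Complex.add_re, Complex.add_im]; ring

theorem dot_sub (x z w : ℂ) : dot x (z - w) = dot x z - dot x w := by
  simp only [dot, Complex.sub_re, Complex.sub_im]; ring

theorem dot_mul (t : ℝ) (x z : ℂ) : dot x ((t : ℂ) * z) = t * dot x z := by
  simp only [dot, Complex.re_ofReal_mul, Complex.im_ofReal_mul]; ring

theorem dot_self (x : ℂ) : dot x x = ‖x‖ ^ 2 := by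
  rw [← Complex.normSq_eq_norm_sq, Complex.normSq_apply]; rfl

theorem abs_dot_le (x z : ℂ) : |dot x z| ≤ ‖x‖ * ‖z‖ := by
  have h : dot x z = (x * (starRingEnd ℂ) z).re := by
    simp only [dot, Complex.mul_re, Complex.conj_re, Complex.conj_im]; ring
  rw [h]
  refine le_trans (Complex.abs_re_le_norm _) ?_
  rw [norm_mul, Complex.norm_conj]

theorem dot_I (x z : ℂ) : dot (Complex.I * x) (Complex.I * z) = dot x z := by
  simp only [dot, Complex.mul_re, Complex.mul_im, Complex.I_re, Complex.I_im]; ring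

theorem dot_conj (x z : ℂ) : dot ((starRingEnd ℂ) x) ((starRingEnd ℂ) z) = dot x z := by
  simp only [dot, Complex.conj_re, Complex.conj_im]; ring

/-! norms `μ` -/

theorem Nrm.nonneg {μ : ℂ → ℝ} {a b : ℝ} (h : Nrm μ a b) (x : ℂ) : 0 ≤ μ x :=
  le_trans (mul_nonneg h.pos.le (norm_nonneg x)) (h.low x)

theorem Nrm.le_b {μ : ℂ → ℝ} {a b : ℝ} (h : Nrm μ a b) : a ≤ b := by
  have := le_trans (h.low 1) (h.up 1)
  simpa using this

theorem Nrm.neg {μ : ℂ → ℝ} {a b : ℝ} (h : Nrm μ a b) (x : ℂ) : μ (-x) = μ x := by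
  have h1 := h.symI (Complex.I * x)
  rw [← mul_assoc, Complex.I_mul_I, neg_one_mul, h.symI] at h1
  exact h1

theorem Nrm.abs_sub_le {μ : ℂ → ℝ} {a b : ℝ} (h : Nrm μ a b) (x y : ℂ) :
    |μ x - μ y| ≤ b * ‖x - y‖ := by
  have h1 := h.sub (x - y) y
  have h2 := h.sub (y - x) x
  have h3 := h.up (x - y)
  have h4 := h.up (y - x)
  rw [sub_add_cancel] at h1 h2
  rw [norm_sub_rev] at h4
  rw [abs_le]
  constructor <;> linarith

theorem Emb.sub_eq {ι : V →+ ℂ} (h : Emb ι) (x y : V) : ‖ι x - ι y‖ = nrm (x - y) := by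
  rw [← map_sub, h.norm_eq]

end ConeE
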