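import Pool.Agent.ConeE.BasicB

/-! Short walks and loop erasure (module BC). -/

set_option autoImplicit false

namespace ConeE

/-! existence of short walks, and loop erasure -/

/-- a walk using an edge visits its ends -/
theorem bc_split (e : Edge) (x : V) (hx : x = e.1 ∨ x = e.1 + ev e.2) :
    ∀ (y : V) (l : List Step), e ∈ edges y l → ∃ a c : List Step, l = a ++ c ∧ endp y a = x := by
  intro y l
  induction l generalizing y with
  | nil => intro h; simp [edges] at h
  | cons s t ih =>
    intro h
    rw [edges, List.mem_cons] at h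
    rcases h with h | h
    · rcases edg_cases y s with ⟨h1, h2⟩ | ⟨h1, h2⟩
      · rcases hx with hx | hx
        · refine ⟨[], s :: t, rfl, ?_⟩
          rw [endp_nil, hx, h, h1]
        · refine ⟨[s], t, rfl, ?_⟩
          rw [endp_cons, endp_nil, hx, h, h2]
      · rcases hx with hx | hx
        · refine ⟨[s], t, rfl, ?_⟩
          rw [endp_cons, endp_nil, hx, h, h1]
        · refine ⟨[], s :: t, rfl, ?_⟩
          rw [endp_nil, hx, h, h2]
    · obtain ⟨a, c, hl, ha⟩ := ih (y + vec s) h
      refine ⟨s :: a, c, by rw [hl]; rfl, ?_⟩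
      rw [endp_cons, ha]

theorem loop_erase (x : V) (l : List Step) :
    ∃ l' : List Step, endp x l' = endp x l ∧ l'.length ≤ l.length ∧
      (edges x l').Sublist (edges x l) ∧ (edges x l').Nodup := by
  induction l generalizing x with
  | nil => exact ⟨[], rfl, le_rfl, List.Sublist.refl _, List.nodup_nil⟩
  | cons s t ih =>
    obtain ⟨t', h1, h2, h3, h4⟩ := ih (x + vec s)
    by_cases h : edg x s ∈ edges (x + vec s) t'
    · have hx : x = (edg x s).1 ∨ x = (edg x s).1 + ev (edg x s).2 := by
        rcases edg_cases x s with ⟨h5, h6⟩ | ⟨h5, h6⟩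
        · exact Or.inl h5.symm
        · exact Or.inr h6.symm
      obtain ⟨a, c, hac, ha⟩ := bc_split (edg x s) x hx (x + vec s) t' h
      have hsub : (edges x c).Sublist (edges (x + vec s) t') := by
        rw [hac, edges_append, ha]
        exact List.sublist_append_right _ _
      refine ⟨c, ?_, ?_, ?_, ?_⟩
      · rw [endp_cons, ← h1, hac, endp_append, ha]
      · rw [hac, List.length_append] at h2
        rw [List.length_cons]
        omega
      · exact (hsub.trans h3).cons _
      · exact hsub.nodup h4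
    · refine ⟨s :: t', ?_, ?_, ?_, ?_⟩
      · rw [endp_cons, endp_cons, h1]
      · rw [List.length_cons, List.length_cons]; omega
      · exact h3.cons_cons _
      · exact List.nodup_cons.mpr ⟨h, h4⟩

theorem bc_straight (s : Step) (n : ℕ) (x : V) :
    endp x (List.replicate n s) = x + n • vec s := by
  induction n generalizing x with
  | zero => simp [endp]
  | succ n ih =>
    rw [List.replicate_succ, endp_cons, ih, succ_nsmul]
    abel

theorem bc_axis (j : Fin 2) (z : ℤ) : ∃ l : List Step, l.length = z.natAbs ∧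
    ∀ x : V, endp x l = x + z • ev j := by
  rcases Int.eq_nat_or_neg z with ⟨n, hn | hn⟩
  · refine ⟨List.replicate n (j, true), by rw [hn]; simp, fun x => ?_⟩
    rw [bc_straight, hn]
    simp [vec]
  · refine ⟨List.replicate n (j, false), by rw [hn]; simp, fun x => ?_⟩
    rw [bc_straight, hn]
    simp [vec]

theorem exists_walk (x y : V) :
    ∃ l : List Step, endp x l = y ∧ (l.length : ℝ) ≤ 2 * nrm (y - x) ∧ (edges x l).Nodup := by
  obtain ⟨l0, h0, h0'⟩ := bc_axis 0 ((y - x) 0)
  obtain ⟨l1, h1, h1'⟩ := bc_axis 1 ((y - x) 1)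
  obtain ⟨l, hl1, hl2, -, hl4⟩ := loop_erase x (l0 ++ l1)
  refine ⟨l, ?_, ?_, hl4⟩
  · rw [hl1, endp_append, h0', h1']
    funext j
    fin_cases j
    · simp [ev]
    · simp [ev]
  · have h2 : (l.length : ℝ) ≤ ((l0 ++ l1).length : ℝ) := by exact_mod_cast hl2
    rw [List.length_append, h0, h1] at h2
    push_cast at h2
    have ha := abs_coord_le (y - x) 0
    have hb := abs_coord_le (y - x) 1
    have e0 : ((((y - x) 0).natAbs : ℕ) : ℝ) = |(((y - x) 0 : ℤ) : ℝ)| := by
      rw [← Int.cast_abs, Int.abs_eq_natAbs]; simp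
    have e1 : ((((y - x) 1).natAbs : ℕ) : ℝ) = |(((y - x) 1 : ℤ) : ℝ)| := by
      rw [← Int.cast_abs, Int.abs_eq_natAbs]; simp
    linarith

theorem bc_sum_le {A : List ℝ} {B : List ℝ} (h : A.Sublist B) (hB : ∀ b ∈ B, 0 ≤ b) :
    A.sum ≤ B.sum := by
  induction h with
  | slnil => exact le_rfl
  | @cons l1 l2 a _ ih =>
    rw [List.sum_cons]
    have h1 := ih (fun b hb => hB b (List.mem_cons_of_mem _ hb))
    have h2 := hB a List.mem_cons_self
    linarith
  | @cons_cons l1 l2 a _ ih =>
    rw [List.sum_cons, List.sum_cons]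
    have h1 := ih (fun b hb => hB b (List.mem_cons_of_mem _ hb))
    linarith

theorem wt_le_of_sublist {τ : Edge → ℝ} (hτ : ∀ e, 0 ≤ τ e) {x y : V} {l l' : List Step}
    (h : (edges x l').Sublist (edges y l)) : wt τ x l' ≤ wt τ y l := by
  rw [wt_eq_sum, wt_eq_sum]
  apply bc_sum_le (h.map τ)
  intro b hb
  obtain ⟨e, -, rfl⟩ := List.mem_map.mp hb
  exact hτ e

end ConeE
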