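import Pool.Agent.ConeE.BasicC

/-! Passage times and explosion times (module BD). -/

set_option autoImplicit false

namespace ConeE

/-! passage times -/

theorem T_nonneg {τ : Edge → ℝ} (hτ : ∀ e, 0 ≤ τ e) (x y : V) : 0 ≤ T τ x y :=
  Real.iInf_nonneg (fun l => wt_nonneg hτ x l.1)

theorem T_le_wt {τ : Edge → ℝ} (hτ : ∀ e, 0 ≤ τ e) {x y : V} {l : List Step}
    (h : endp x l = y) : T τ x y ≤ wt τ x l := by
  refine ciInf_le (f := fun l : {l : List Step // endp x l = y} => wt τ x l.1) ?_ ⟨l, h⟩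
  refine ⟨0, ?_⟩
  rintro _ ⟨m, rfl⟩
  exact wt_nonneg hτ x m.1

theorem exists_wt_lt {τ : Edge → ℝ} {x y : V} {t : ℝ} (ht : T τ x y < t) :
    ∃ l : List Step, endp x l = y ∧ wt τ x l < t := by
  obtain ⟨l0, hl0, -⟩ := exists_walk x y
  have : Nonempty {l : List Step // endp x l = y} := ⟨⟨l0, hl0⟩⟩
  obtain ⟨l, hl⟩ := exists_lt_of_ciInf_lt ht
  exact ⟨l.1, l.2, hl⟩

theorem T_self {τ : Edge → ℝ} (hτ : ∀ e, 0 ≤ τ e) (x : V) : T τ x x = 0 :=
  le_antisymm (T_le_wt hτ (l := []) rfl) (T_nonneg hτ x x)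

theorem bd_T_le_comm {τ : Edge → ℝ} (hτ : ∀ e, 0 ≤ τ e) (x y : V) : T τ x y ≤ T τ y x := by
  refine le_of_forall_pos_le_add (fun ε hε => ?_)
  obtain ⟨l, hl, hw⟩ := exists_wt_lt (lt_add_of_pos_right (T τ y x) hε)
  have h1 : endp x (rev l) = y := by rw [← hl]; exact endp_rev y l
  have h2 : wt τ x (rev l) = wt τ y l := by rw [← hl]; exact wt_rev τ y l
  have := T_le_wt hτ h1
  linarith

theorem T_comm {τ : Edge → ℝ} (hτ : ∀ e, 0 ≤ τ e) (x y : V) : T τ x y = T τ y x :=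
  le_antisymm (bd_T_le_comm hτ x y) (bd_T_le_comm hτ y x)

theorem T_triangle {τ : Edge → ℝ} (hτ : ∀ e, 0 ≤ τ e) (x y z : V) :
    T τ x z ≤ T τ x y + T τ y z := by
  refine le_of_forall_pos_le_add (fun ε hε => ?_)
  obtain ⟨l, hl, hw⟩ := exists_wt_lt (lt_add_of_pos_right (T τ x y) (half_pos hε))
  obtain ⟨m, hm, hv⟩ := exists_wt_lt (lt_add_of_pos_right (T τ y z) (half_pos hε))
  have h1 : endp x (l ++ m) = z := by rw [endp_append, hl, hm]
  have h2 : wt τ x (l ++ m) = wt τ x l + wt τ y m := by rw [wt_append, hl]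
  have := T_le_wt hτ h1
  linarith

/-! explosion times -/

theorem bd_nonneg_of_infinite {τ : Edge → ℝ} (hτ : ∀ e, 0 ≤ τ e) {x : V} {t : ℝ}
    (h : {y : V | T τ x y ≤ t}.Infinite) : 0 ≤ t := by
  obtain ⟨y, hy⟩ := h.nonempty
  exact le_trans (T_nonneg hτ x y) hy

theorem bd_bddBelow {τ : Edge → ℝ} (hτ : ∀ e, 0 ≤ τ e) (x : V) :
    BddBelow {t : ℝ | {y : V | T τ x y ≤ t}.Infinite} :=
  ⟨0, fun _ ht => bd_nonneg_of_infinite hτ ht⟩

theorem S_nonneg {τ : Edge → ℝ} (hτ : ∀ e, 0 ≤ τ e) (x : V) : 0 ≤ S τ x :=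
  Real.sInf_nonneg (fun _ ht => bd_nonneg_of_infinite hτ ht)

theorem S_le_of_infinite {τ : Edge → ℝ} (hτ : ∀ e, 0 ≤ τ e) {x : V} {t : ℝ}
    (h : {y : V | T τ x y ≤ t}.Infinite) : S τ x ≤ t :=
  csInf_le (bd_bddBelow hτ x) h

theorem finite_of_lt_S {τ : Edge → ℝ} (hτ : ∀ e, 0 ≤ τ e) {x : V} {t : ℝ}
    (h : t < S τ x) : {y : V | T τ x y ≤ t}.Finite := by
  by_contra hc
  exact absurd (S_le_of_infinite hτ hc) (not_le.mpr h)

/-- a ball at `x` gives a ball at `x'` -/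
theorem bd_ball {τ : Edge → ℝ} (hτ : ∀ e, 0 ≤ τ e) {x x' : V} {t : ℝ}
    (h : {y : V | T τ x y ≤ t}.Infinite) : {y : V | T τ x' y ≤ T τ x' x + t}.Infinite := by
  refine h.mono (fun y hy => ?_)
  have hy' : T τ x y ≤ t := hy
  have := T_triangle hτ x' x y
  show T τ x' y ≤ T τ x' x + t
  linarith

theorem explodes_of_one {τ : Edge → ℝ} (hτ : ∀ e, 0 ≤ τ e) {x : V} {t : ℝ}
    (h : {y : V | T τ x y ≤ t}.Infinite) : Explodes τ :=
  fun x' => ⟨T τ x' x + t, bd_ball hτ h⟩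

theorem S_le_wt_add_S {τ : Edge → ℝ} (hτ : ∀ e, 0 ≤ τ e) (hS : Explodes τ) (x : V)
    (l : List Step) : S τ x ≤ wt τ x l + S τ (endp x l) := by
  refine le_of_forall_pos_le_add (fun ε hε => ?_)
  obtain ⟨t, ht, hlt⟩ := exists_lt_of_csInf_lt (hS (endp x l))
    (lt_add_of_pos_right (S τ (endp x l)) hε)
  have h1 : S τ x ≤ T τ x (endp x l) + t := S_le_of_infinite hτ (bd_ball hτ ht)
  have h2 : T τ x (endp x l) ≤ wt τ x l := T_le_wt hτ rfl
  linarith

/-- if a finite set cannot be left before time `t`, then `t ≤ S` -/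
theorem le_S_of_finite {τ : Edge → ℝ} (hS : Explodes τ) {x : V} {t : ℝ}
    {F : Set V} (hF : F.Finite) (h : ∀ l : List Step, endp x l ∉ F → t ≤ wt τ x l) :
    t ≤ S τ x := by
  refine le_csInf (hS x) (fun t' ht' => ?_)
  by_contra hlt
  push Not at hlt
  refine ht' (hF.subset (fun y hy => ?_))
  by_contra hyF
  have hy' : T τ x y ≤ t' := hy
  obtain ⟨l, hl, hw⟩ := exists_wt_lt (lt_of_le_of_lt hy' hlt)
  have := h l (by rw [hl]; exact hyF)
  linarith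

theorem good_of_lt {τ : Edge → ℝ} (hτ : ∀ e, 0 ≤ τ e) (hS : Explodes τ) {x : V}
    {l : List Step} (h : wt τ x l < S τ x) : Good τ x l := by
  intro l1 l2 hl
  have h1 := S_le_wt_add_S hτ hS x l1
  rw [hl, wt_append] at h
  linarith

theorem Good.wt_lt {τ : Edge → ℝ} {x : V} {l : List Step} (h : Good τ x l) :
    wt τ x l < S τ x := h [] l rfl

theorem Good.right {τ : Edge → ℝ} {x : V} {l1 l2 : List Step} (h : Good τ x (l1 ++ l2)) :
    Good τ (endp x l1) l2 := by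
  intro a b hab
  have := h (l1 ++ a) b (by rw [hab, List.append_assoc])
  rwa [endp_append] at this

theorem Good.left {τ : Edge → ℝ} (hτ : ∀ e, 0 ≤ τ e) {x : V} {l1 l2 : List Step}
    (h : Good τ x (l1 ++ l2)) : Good τ x l1 := by
  intro a b hab
  have h1 := h a (b ++ l2) (by rw [hab, List.append_assoc])
  rw [wt_append] at h1
  have h2 := wt_nonneg hτ (endp (endp x a) b) l2
  linarith

end ConeE
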