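import Pool.Agent.ConeE.BasicA
import Pool.Agent.ConeE.BasicB
import Pool.Agent.ConeE.BasicC
import Pool.Agent.ConeE.BasicD

/-! Elementary facts on walks, weights, norms, passage times and explosion times. -/
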