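import Pool.Agent.ConeE.Var

/-! Uniform concentration of passage times (module CONC). -/

set_option autoImplicit false

namespace ConeE

open MeasureTheory Filter Topology

/-- lattice points with coordinates at most `N` -/
noncomputable def conc_box (N : ℕ) : Finset V := Fintype.piFinset (fun _ : Fin 2 => Finset.Icc (-(N : ℤ)) N)

theorem mem_conc_box {N : ℕ} {v : V} : v ∈ conc_box N ↔ ∀ j, -(N : ℤ) ≤ v j ∧ v j ≤ N := by
  simp [conc_box]

theorem card_conc_box (N : ℕ) : (conc_box N).card = (2 * N + 1) ^ 2 := by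
  unfold conc_box
  rw [Fintype.card_piFinset]
  simp only [Int.card_Icc, Finset.prod_const, Finset.card_univ, Fintype.card_fin]
  congr 1
  omega

theorem conc_nrm_le {v : V} {M : ℝ} (hM : 0 ≤ M) (h : ∀ j, |(v j : ℝ)| ≤ M) : nrm v ≤ 2 * M := by
  unfold nrm
  rw [Real.sqrt_le_left (by positivity)]
  rw [Fin.sum_univ_two]
  have h0 := sq_le_sq' (abs_le.1 (h 0)).1 (abs_le.1 (h 0)).2
  have h1 := sq_le_sq' (abs_le.1 (h 1)).1 (abs_le.1 (h 1)).2
  nlinarith

/-- the net point of mesh `s` below `x` -/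
def conc_pt (s : ℕ) (x : V) : V := fun j => (s : ℤ) * (x j / (s : ℤ))

theorem conc_pt_near {s : ℕ} (hs : 0 < s) (x : V) : nrm (conc_pt s x - x) ≤ 2 * s := by
  refine conc_nrm_le (by positivity) fun j => ?_
  have hs' : (0 : ℤ) < s := by exact_mod_cast hs
  have h1 := Int.emod_nonneg (x j) hs'.ne'
  have h2 := Int.emod_lt_of_pos (x j) hs'
  have h3 := Int.mul_ediv_add_emod (x j) (s : ℤ)
  have h4 : (conc_pt s x - x) j = -(x j % (s : ℤ)) := by
    simp only [conc_pt, Pi.sub_apply]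
    linarith
  rw [h4]
  push_cast
  rw [abs_neg, abs_of_nonneg (by exact_mod_cast h1)]
  exact_mod_cast h2.le

theorem conc : ∀ᵐ E ∂PE, ∃ R0 : ℝ, ∀ R, R0 ≤ R → ∀ x y : V, nrm x ≤ R → nrm y ≤ R →
    |T E x y - hm (x - y)| ≤ R ^ (9 / 10 : ℝ) := by
  classical
  obtain ⟨C, hC, hvar⟩ := var_bound
  have hpos : ∀ᵐ E ∂PE, ∀ e, 0 ≤ E e := ae_pos.mono fun E h e => (h e).le
  -- Chebyshev
  have cheb : ∀ (p q : V) (c : ℝ), 0 < c →
      PE {E | c ≤ |T E p q - hm (q - p)|} ≤ ENNReal.ofReal (C * (nrm (q - p) + 1) / c ^ 2) := by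
    intro p q c hc
    have h1 := ProbabilityTheory.meas_ge_le_variance_div_sq (memLp_T p q) hc
    rw [integral_T] at h1
    refine h1.trans (ENNReal.ofReal_le_ofReal ?_)
    refine div_le_div_of_nonneg_right ?_ (by positivity)
    rw [ProbabilityTheory.variance_eq_integral (measurable_T p q).aemeasurable, integral_T,
      var_T]
    exact hvar _
  -- the words joining a point to its net point
  choose w hw1 hw2 hw3 using fun (s : ℕ) (x : V) => exists_walk x (conc_pt s x)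
  -- the two families of events
  let A : ℕ → Set (Edge → ℝ) := fun n => ⋃ a ∈ conc_box (n + 1) ×ˢ conc_box (n + 1),
    {E | ((n + 1 : ℕ) : ℝ) ^ 7 ≤ |T E ((((n + 1) ^ 7 : ℕ) : ℤ) • a.1) ((((n + 1) ^ 7 : ℕ) : ℤ) • a.2)
      - hm ((((n + 1) ^ 7 : ℕ) : ℤ) • a.2 - (((n + 1) ^ 7 : ℕ) : ℤ) • a.1)|}
  let B : ℕ → Set (Edge → ℝ) := fun n => ⋃ x ∈ conc_box ((n + 1) ^ 8),
    {E | 4 * (4 * ((n + 1 : ℕ) : ℝ) ^ 7) ≤ wt E x (w ((n + 1) ^ 7) x)}
  have hA : ∀ n, PE (A n) ≤ ENNReal.ofReal (81 * 5 * C * (1 / ((n + 1 : ℕ) : ℝ) ^ 2)) := by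
    intro n
    set r : ℝ := ((n + 1 : ℕ) : ℝ) with hr
    have hr1 : 1 ≤ r := by rw [hr]; push_cast; linarith [Nat.cast_nonneg (α := ℝ) n]
    calc PE (A n) ≤ ∑ a ∈ conc_box (n + 1) ×ˢ conc_box (n + 1),
          PE {E | r ^ 7 ≤ |T E ((((n + 1) ^ 7 : ℕ) : ℤ) • a.1) ((((n + 1) ^ 7 : ℕ) : ℤ) • a.2)
      - hm ((((n + 1) ^ 7 : ℕ) : ℤ) • a.2 - (((n + 1) ^ 7 : ℕ) : ℤ) • a.1)|} :=
          measure_biUnion_finset_le _ _
      _ ≤ ∑ a ∈ conc_box (n + 1) ×ˢ conc_box (n + 1),
          ENNReal.ofReal (5 * C * r ^ 8 / r ^ 14) := by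
          refine Finset.sum_le_sum fun a ha => ?_
          refine (cheb _ _ (r ^ 7) (by positivity)).trans (ENNReal.ofReal_le_ofReal ?_)
          rw [← pow_mul]
          refine div_le_div_of_nonneg_right ?_ (by positivity)
          obtain ⟨ha1, ha2⟩ := Finset.mem_product.1 ha
          rw [mem_conc_box] at ha1 ha2
          have hn : nrm ((((n + 1) ^ 7 : ℕ) : ℤ) • a.2 - (((n + 1) ^ 7 : ℕ) : ℤ) • a.1)
              ≤ 2 * (2 * r ^ 8) := by
            refine conc_nrm_le (by positivity) fun j => ?_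
            have e : (((((n + 1) ^ 7 : ℕ) : ℤ) • a.2 - (((n + 1) ^ 7 : ℕ) : ℤ) • a.1) j : ℤ)
                = ((n + 1 : ℕ) : ℤ) ^ 7 * (a.2 j - a.1 j) := by
              simp only [Pi.sub_apply, Pi.smul_apply, smul_eq_mul]
              push_cast; ring
            rw [e]
            push_cast
            rw [abs_mul, abs_of_nonneg (by positivity)]
            have h1 : |((a.2 j : ℝ) - (a.1 j : ℝ))| ≤ 2 * r := by
              have b1 : (a.1 j : ℝ) ≤ r := by rw [hr]; exact_mod_cast (ha1 j).2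
              have b2 : -r ≤ (a.1 j : ℝ) := by rw [hr]; exact_mod_cast (ha1 j).1
              have b3 : (a.2 j : ℝ) ≤ r := by rw [hr]; exact_mod_cast (ha2 j).2
              have b4 : -r ≤ (a.2 j : ℝ) := by rw [hr]; exact_mod_cast (ha2 j).1
              rw [abs_le]; constructor <;> linarith
            have h2 : ((n : ℝ) + 1) = r := by rw [hr]; push_cast; ring
            rw [h2]
            calc r ^ 7 * |((a.2 j : ℝ) - (a.1 j : ℝ))| ≤ r ^ 7 * (2 * r) := by gcongr
              _ = 2 * r ^ 8 := by ring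
          have h8 : 1 ≤ r ^ 8 := one_le_pow₀ hr1
          nlinarith
      _ = ENNReal.ofReal (((2 * (n + 1 : ℕ) + 1) ^ 4 : ℝ) * (5 * C * r ^ 8 / r ^ 14)) := by
          rw [Finset.sum_const, Finset.card_product, card_conc_box, nsmul_eq_mul,
            ENNReal.ofReal_mul (by positivity)]
          congr 1
          rw [← ENNReal.ofReal_natCast]
          congr 1
          push_cast; ring
      _ ≤ _ := by
          refine ENNReal.ofReal_le_ofReal ?_
          have e : 5 * C * r ^ 8 / r ^ 14 = 5 * C * (1 / r ^ 6) := by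
            field_simp
          rw [e, ← hr]
          have h3 : (2 * r + 1) ^ 4 ≤ 81 * r ^ 4 := by
            calc (2 * r + 1) ^ 4 ≤ (3 * r) ^ 4 := by gcongr; linarith
              _ = 81 * r ^ 4 := by ring
          calc (2 * r + 1) ^ 4 * (5 * C * (1 / r ^ 6)) ≤ 81 * r ^ 4 * (5 * C * (1 / r ^ 6)) := by
                gcongr
            _ = 81 * 5 * C * (1 / r ^ 2) := by field_simp
  have hB : ∀ n, PE (B n) ≤ ENNReal.ofReal (9 * (((n + 1 : ℕ) : ℝ) ^ 16 *
      Real.exp (-(((n + 1 : ℕ) : ℝ))))) := by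
    intro n
    set r : ℝ := ((n + 1 : ℕ) : ℝ) with hr
    have hr1 : 1 ≤ r := by rw [hr]; push_cast; linarith [Nat.cast_nonneg (α := ℝ) n]
    have hs0 : 0 < (n + 1) ^ 7 := by positivity
    calc PE (B n) ≤ ∑ x ∈ conc_box ((n + 1) ^ 8),
          PE {E | 4 * (4 * r ^ 7) ≤ wt E x (w ((n + 1) ^ 7) x)} := measure_biUnion_finset_le _ _
      _ ≤ ∑ x ∈ conc_box ((n + 1) ^ 8), ENNReal.ofReal (Real.exp (-(4 * r ^ 7))) := by
          refine Finset.sum_le_sum fun x _ => ?_
          refine upper_tail x _ (hw3 _ x) ?_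
          refine (hw2 _ x).trans ?_
          have := conc_pt_near hs0 x
          push_cast at this
          have h2 : ((n : ℝ) + 1) = r := by rw [hr]; push_cast; ring
          rw [h2] at this
          linarith
      _ = ENNReal.ofReal ((2 * r ^ 8 + 1) ^ 2 * Real.exp (-(4 * r ^ 7))) := by
          rw [Finset.sum_const, card_conc_box, nsmul_eq_mul, ENNReal.ofReal_mul (by positivity)]
          congr 1
          rw [← ENNReal.ofReal_natCast]
          congr 1
          rw [hr]; push_cast; ring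
      _ ≤ _ := by
          refine ENNReal.ofReal_le_ofReal ?_
          have h8 : 1 ≤ r ^ 8 := one_le_pow₀ hr1
          have h7 : r ≤ 4 * r ^ 7 := by
            have : r ^ 1 ≤ r ^ 7 := pow_le_pow_right₀ hr1 (by norm_num)
            rw [pow_one] at this
            linarith [show 0 ≤ r ^ 7 by positivity]
          calc (2 * r ^ 8 + 1) ^ 2 * Real.exp (-(4 * r ^ 7))
              ≤ (3 * r ^ 8) ^ 2 * Real.exp (-r) := by
                gcongr
                linarith
            _ = 9 * (r ^ 16 * Real.exp (-r)) := by ring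
  have sumA : ∑' n, PE (A n) ≠ ⊤ := by
    have hs : Summable (fun n : ℕ => 81 * 5 * C * (1 / ((n + 1 : ℕ) : ℝ) ^ 2)) := by
      have h1 : Summable (fun n : ℕ => 1 / (n : ℝ) ^ 2) :=
        Real.summable_one_div_nat_pow.2 (by norm_num)
      exact ((summable_nat_add_iff 1).2 h1).mul_left _
    refine ne_top_of_le_ne_top hs.tsum_ofReal_ne_top (ENNReal.tsum_le_tsum hA)
  have sumB : ∑' n, PE (B n) ≠ ⊤ := by
    have hs : Summable (fun n : ℕ => 9 * (((n + 1 : ℕ) : ℝ) ^ 16 *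
        Real.exp (-(((n + 1 : ℕ) : ℝ))))) := by
      have h1 := Real.summable_pow_mul_exp_neg_nat_mul 16 (r := 1) one_pos
      simp only [neg_mul, one_mul] at h1
      exact ((summable_nat_add_iff 1).2 h1).mul_left _
    refine ne_top_of_le_ne_top hs.tsum_ofReal_ne_top (ENNReal.tsum_le_tsum hB)
  filter_upwards [hpos, ae_eventually_notMem sumA, ae_eventually_notMem sumB] with E hE hEA hEB
  obtain ⟨N, hN⟩ := eventually_atTop.1 (hEA.and hEB)
  have hten : Tendsto (fun R : ℝ => R ^ (1 / 40 : ℝ)) atTop atTop :=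
    tendsto_rpow_atTop (by norm_num)
  obtain ⟨R1, hR1⟩ := eventually_atTop.1 (hten.eventually_ge_atTop (41 * 2 ^ 7 : ℝ))
  have hten2 : Tendsto (fun R : ℝ => R ^ (1 / 8 : ℝ)) atTop atTop :=
    tendsto_rpow_atTop (by norm_num)
  obtain ⟨R2, hR2⟩ := eventually_atTop.1 (hten2.eventually_ge_atTop ((N : ℝ) + 2))
  refine ⟨max 1 (max R1 R2), fun R hR x y hx hy => ?_⟩
  have hR0 : (1 : ℝ) ≤ R := (le_max_left _ _).trans hR
  have hRa := hR1 R (((le_max_left _ _).trans (le_max_right _ _)).trans hR)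
  have hRb := hR2 R (((le_max_right _ _).trans (le_max_right _ _)).trans hR)
  have hRp : 0 < R := by linarith
  -- the scale
  set n : ℕ := ⌊R ^ (1 / 8 : ℝ)⌋₊ with hn
  set r : ℝ := ((n + 1 : ℕ) : ℝ) with hr
  have hrn : r = (n : ℝ) + 1 := by rw [hr]; push_cast; ring
  have hn1 : (n : ℝ) ≤ R ^ (1 / 8 : ℝ) := Nat.floor_le (by positivity)
  have hn2 : R ^ (1 / 8 : ℝ) < r := by rw [hrn]; exact Nat.lt_floor_add_one _
  have hnN : N ≤ n := by
    refine Nat.le_floor ?_
    linarith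
  obtain ⟨hnA, hnB⟩ := hN n hnN
  have hr2 : r ≤ 2 * R ^ (1 / 8 : ℝ) := by
    have : (1 : ℝ) ≤ R ^ (1 / 8 : ℝ) := Real.one_le_rpow hR0 (by norm_num)
    linarith
  have hr1 : 1 ≤ r := by rw [hrn]; linarith [Nat.cast_nonneg (α := ℝ) n]
  have hRr : R ≤ r ^ 8 := by
    have h1 : (R ^ (1 / 8 : ℝ)) ^ 8 = R := by
      rw [← Real.rpow_natCast, ← Real.rpow_mul hRp.le]; norm_num
    calc R = (R ^ (1 / 8 : ℝ)) ^ 8 := h1.symm
      _ ≤ r ^ 8 := by gcongr
  have hr7 : r ^ 7 ≤ 2 ^ 7 * R ^ (7 / 8 : ℝ) := by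
    have h1 : (R ^ (1 / 8 : ℝ)) ^ 7 = R ^ (7 / 8 : ℝ) := by
      rw [← Real.rpow_natCast, ← Real.rpow_mul hRp.le]; norm_num
    calc r ^ 7 ≤ (2 * R ^ (1 / 8 : ℝ)) ^ 7 := by gcongr
      _ = 2 ^ 7 * R ^ (7 / 8 : ℝ) := by rw [mul_pow, h1]
  set s : ℕ := (n + 1) ^ 7 with hs
  have hs0 : 0 < s := by positivity
  have hsr : (s : ℝ) = r ^ 7 := by rw [hs, hr]; push_cast; ring
  have hbox : ∀ v : V, nrm v ≤ R → v ∈ conc_box ((n + 1) ^ 8) := by
    intro v hv
    rw [mem_conc_box]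
    intro j
    have h1 := abs_le.1 ((abs_coord_le v j).trans (hv.trans hRr))
    have h2 : (((n + 1) ^ 8 : ℕ) : ℝ) = r ^ 8 := by rw [hr]; push_cast; ring
    rw [← h2] at h1
    constructor
    · have := h1.1
      exact_mod_cast this
    · have := h1.2
      exact_mod_cast this
  have hnet : ∀ v : V, nrm v ≤ R → (fun j => v j / (s : ℤ)) ∈ conc_box (n + 1) := by
    intro v hv
    have h0 := mem_conc_box.1 (hbox v hv)
    rw [mem_conc_box]
    intro j
    obtain ⟨h1, h2⟩ := h0 j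
    have hs' : (0 : ℤ) < s := by exact_mod_cast hs0
    have e8 : (((n + 1) ^ 8 : ℕ) : ℤ) = ((n + 1 : ℕ) : ℤ) * (s : ℤ) := by
      rw [hs]; push_cast; ring
    constructor
    · rw [Int.le_ediv_iff_mul_le hs']
      rw [e8] at h1
      linarith
    · refine Int.ediv_le_of_le_mul hs' ?_
      rw [e8] at h2
      exact h2
  have hclose : ∀ v : V, nrm v ≤ R → T E v (conc_pt s v) ≤ 16 * r ^ 7 := by
    intro v hv
    have h1 : ¬ 4 * (4 * r ^ 7) ≤ wt E v (w s v) := by
      intro h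
      apply hnB
      exact Set.mem_biUnion (hbox v hv) h
    have h2 := T_le_wt hE (hw1 s v)
    linarith
  have hmain : |T E (conc_pt s x) (conc_pt s y) - hm (conc_pt s y - conc_pt s x)| ≤ r ^ 7 := by
    by_contra hcon
    push Not at hcon
    apply hnA
    have hm1 := hnet x hx
    have hm2 := hnet y hy
    refine Set.mem_biUnion (x := ((fun j => x j / (s : ℤ)), (fun j => y j / (s : ℤ))))
      (Finset.mem_product.2 ⟨hm1, hm2⟩) ?_
    exact hcon.le
  -- conclusion
  set p := conc_pt s x with hp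
  set q := conc_pt s y with hq
  have t1 : T E x y ≤ T E x p + T E p q + T E q y :=
    (T_triangle hE x q y).trans (by linarith [T_triangle hE x p q])
  have t2 : T E p q ≤ T E p x + T E x y + T E y q :=
    (T_triangle hE p y q).trans (by linarith [T_triangle hE p x y])
  have c1 := T_comm hE p x
  have c2 := T_comm hE q y
  have k1 := hclose x hx
  have k2 := hclose y hy
  have d1 := conc_pt_near hs0 x
  have d2 := conc_pt_near hs0 y
  rw [← hp] at d1
  rw [← hq] at d2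
  rw [hsr] at d1 d2
  have hneg : hm (x - y) = hm (y - x) := by rw [← hm_neg, neg_sub]
  have hdiff : |hm (q - p) - hm (y - x)| ≤ 8 * r ^ 7 := by
    have b1 : hm (q - p) ≤ hm (y - x) + hm (q - y) + hm (x - p) := by
      have e : q - p = ((y - x) + (q - y)) + (x - p) := by abel
      rw [e]
      linarith [hm_add_le ((y - x) + (q - y)) (x - p), hm_add_le (y - x) (q - y)]
    have b2 : hm (y - x) ≤ hm (q - p) + hm (y - q) + hm (p - x) := by
      have e : y - x = ((q - p) + (y - q)) + (p - x) := by abel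
      conv_lhs => rw [e]
      linarith [hm_add_le ((q - p) + (y - q)) (p - x), hm_add_le (q - p) (y - q)]
    have e1 : hm (x - p) = hm (p - x) := by rw [← hm_neg, neg_sub]
    have e2 : hm (y - q) = hm (q - y) := by rw [← hm_neg, neg_sub]
    have u1 := hm_le (p - x)
    have u2 := hm_le (q - y)
    rw [abs_le]
    constructor <;> linarith
  have hfin : |T E x y - hm (x - y)| ≤ 41 * r ^ 7 := by
    rw [hneg]
    have m1 := abs_le.1 hmain
    have m2 := abs_le.1 hdiff
    rw [abs_le]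
    constructor <;> linarith
  refine hfin.trans ?_
  have h910 : R ^ (9 / 10 : ℝ) = R ^ (1 / 40 : ℝ) * R ^ (7 / 8 : ℝ) := by
    rw [← Real.rpow_add hRp]; norm_num
  rw [h910]
  have h78 : 0 ≤ R ^ (7 / 8 : ℝ) := by positivity
  calc 41 * r ^ 7 ≤ 41 * (2 ^ 7 * R ^ (7 / 8 : ℝ)) := by gcongr
    _ = (41 * 2 ^ 7) * R ^ (7 / 8 : ℝ) := by ring
    _ ≤ R ^ (1 / 40 : ℝ) * R ^ (7 / 8 : ℝ) := by gcongr

end ConeE
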