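import Mathlib

/-!
# First passage percolation on the planar square lattice with weights `|m_e| ^ α`

Definitions shared by all the files of this folder (problem MP_b9fb85_pr, planar case).
-/

set_option autoImplicit false

namespace ConeE

open MeasureTheory ProbabilityTheory

/-- vertices of the square lattice -/
abbrev V := Fin 2 → ℤ

/-- edges: `(v, j)` joins `v` and `v + ev j` -/
abbrev Edge := V × Fin 2

/-- a unit step: direction and sign -/
abbrev Step := Fin 2 × Bool

/-- the unit vectors -/
def ev (j : Fin 2) : V := Pi.single j 1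

/-- displacement of a step -/
def vec (s : Step) : V := if s.2 then ev s.1 else -ev s.1

/-- the edge used by the step `s` from `x` -/
def edg (x : V) (s : Step) : Edge := if s.2 then (x, s.1) else (x - ev s.1, s.1)

/-- end point of the walk with steps `l` from `x` -/
def endp : V → List Step → V
  | x, [] => x
  | x, s :: l => endp (x + vec s) l

/-- total weight of the walk with steps `l` from `x` -/
def wt (τ : Edge → ℝ) : V → List Step → ℝ
  | _, [] => 0
  | x, s :: l => τ (edg x s) + wt τ (x + vec s) l

/-- list of the edges used by the walk with steps `l` from `x` -/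
def edges : V → List Step → List Edge
  | _, [] => []
  | x, s :: l => edg x s :: edges (x + vec s) l

/-- passage time from `x` to `y` -/
noncomputable def T (τ : Edge → ℝ) (x y : V) : ℝ :=
  ⨅ l : {l : List Step // endp x l = y}, wt τ x l.1

/-- explosion time from `x`: infimum of the times at which the ball of centre `x` is infinite -/
noncomputable def S (τ : Edge → ℝ) (x : V) : ℝ :=
  sInf {t : ℝ | {y : V | T τ x y ≤ t}.Infinite}

/-- from every vertex some ball of finite radius is infinite -/
def Explodes (τ : Edge → ℝ) : Prop := ∀ x : V, ∃ t : ℝ, {y : V | T τ x y ≤ t}.Infinite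

/-- Euclidean norm of a vertex -/
noncomputable def nrm (x : V) : ℝ := Real.sqrt (∑ j : Fin 2, ((x j : ℝ)) ^ 2)

/-- Euclidean norm of the midpoint of an edge -/
noncomputable def mid (e : Edge) : ℝ :=
  Real.sqrt (∑ j : Fin 2, ((e.1 j : ℝ) + (if j = e.2 then (1 / 2 : ℝ) else 0)) ^ 2)

/-- the weighted passage times `E_e / |m_e| ^ α` -/
noncomputable def tau (α : ℝ) (E : Edge → ℝ) (e : Edge) : ℝ := E e / mid e ^ α

/-- every final piece of the walk `l` from `x` is shorter than the explosion time of its start -/
def Good (τ : Edge → ℝ) (x : V) (l : List Step) : Prop :=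
  ∀ l1 l2 : List Step, l = l1 ++ l2 → wt τ (endp x l1) l2 < S τ (endp x l1)

/-- vertices reached before the explosion time -/
def Ainf (τ : Edge → ℝ) : Set V := {x | ∃ l : List Step, endp 0 l = x ∧ wt τ 0 l < S τ 0}

/-- the real scalar product on the complex plane -/
def dot (x z : ℂ) : ℝ := x.re * z.re + x.im * z.im

/-- the standard embedding of the lattice in the complex plane -/
def toC : V →+ ℂ where
  toFun x := ⟨(x 0 : ℝ), (x 1 : ℝ)⟩
  map_zero' := by apply Complex.ext <;> simp
  map_add' x y := by apply Complex.ext <;> simp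

/-- isometric embeddings of the lattice with dense enough image -/
structure Emb (ι : V →+ ℂ) : Prop where
  norm_eq : ∀ x, ‖ι x‖ = nrm x
  near : ∀ z : ℂ, ∃ x, ‖ι x - z‖ ≤ 1

/-- norms on the plane invariant under the symmetries of the square, with bounds `a`, `b` -/
structure Nrm (μ : ℂ → ℝ) (a b : ℝ) : Prop where
  pos : 0 < a
  sub : ∀ x y, μ (x + y) ≤ μ x + μ y
  hom : ∀ (t : ℝ) (x : ℂ), 0 ≤ t → μ ((t : ℂ) * x) = t * μ x
  low : ∀ x, a * ‖x‖ ≤ μ x
  up : ∀ x, μ x ≤ b * ‖x‖
  symI : ∀ x, μ (Complex.I * x) = μ x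
  symC : ∀ x, μ ((starRingEnd ℂ) x) = μ x

/-- `T` and `μ` differ by at most `ε R` on the ball of radius `R` -/
def Appr (ι : V →+ ℂ) (μ : ℂ → ℝ) (E : Edge → ℝ) (ε R : ℝ) : Prop :=
  ∀ x y : V, nrm x ≤ R → nrm y ≤ R → |T E x y - μ (ι x - ι y)| ≤ ε * R

/-- uniform law of large numbers for the configuration `E` -/
def LLN (ι : V →+ ℂ) (μ : ℂ → ℝ) (E : Edge → ℝ) : Prop :=
  ∀ ε : ℝ, 0 < ε → ∃ R0 : ℝ, ∀ R, R0 ≤ R → Appr ι μ E ε R

/-- far from the origin, everything reached by a good walk from `w` lies in a half plane cone -/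
def Trapped (ι : V →+ ℂ) (τ : Edge → ℝ) (c : ℝ) : Prop :=
  ∃ R0 : ℝ, ∀ w : V, R0 ≤ nrm w → ∃ ν : ℂ, ‖ν‖ = 1 ∧
    ∀ l : List Step, Good τ w l → c * nrm (endp w l) ≤ dot ν (ι (endp w l))

/-- cone confinement of the set of vertices reached before explosion -/
def Conf (τ : Edge → ℝ) : Prop :=
  ∃ (ν : ℂ) (c M : ℝ), ‖ν‖ = 1 ∧ 0 < c ∧
    ∀ x ∈ Ainf τ, c * nrm x - M ≤ dot ν (toC x)

/-- vertices reached before explosion by a walk through the edge `e` -/
def Via (τ : Edge → ℝ) (e : Edge) : Set V :=
  {x | ∃ l : List Step, endp 0 l = x ∧ wt τ 0 l < S τ 0 ∧ e ∈ edges 0 l}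

/-- vertices reached before explosion by a walk avoiding the edge `e` -/
def Avoid (τ : Edge → ℝ) (e : Edge) : Set V :=
  {x | ∃ l : List Step, endp 0 l = x ∧ wt τ 0 l < S τ 0 ∧ e ∉ edges 0 l}

/-- the exponential law of parameter one -/
noncomputable def mE : Measure ℝ := expMeasure 1

instance : IsProbabilityMeasure mE := isProbabilityMeasure_expMeasure one_pos

/-- the law of a family of independent exponential variables indexed by the edges -/
noncomputable def PE : Measure (Edge → ℝ) := Measure.infinitePi (fun _ : Edge => mE)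

instance : IsProbabilityMeasure PE := by unfold PE; infer_instance

/-- expected passage time from the origin -/
noncomputable def hm (z : V) : ℝ := ∫ E, T E 0 z ∂PE

/-- quarter turn of the lattice -/
def rot (x : V) : V := ![-x 1, x 0]

/-- reflection of the lattice -/
def cj (x : V) : V := ![x 0, -x 1]

/-- the reflection exchanging the horizontal axis and the diagonal -/
noncomputable def flp (z : ℂ) : ℂ := ((1 + Complex.I) / (Real.sqrt 2 : ℂ)) * (starRingEnd ℂ) z

end ConeE
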