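import Pool.Agent.ConeE.EucStage

/-! Euclidean case: confinement (module EUC). -/

set_option autoImplicit false

namespace ConeE

theorem Euc_nrm {c : ℝ} (hc : 0 < c) : Nrm (fun z => c * ‖z‖) c c where
  pos := hc
  sub x y := by
    have := mul_le_mul_of_nonneg_left (norm_add_le x y) hc.le
    rwa [mul_add] at this
  hom t x ht := by
    show c * ‖(t : ℂ) * x‖ = t * (c * ‖x‖)
    rw [norm_mul, Complex.norm_real, Real.norm_of_nonneg ht]
    ring
  low x := le_rfl
  up x := le_rfl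
  symI x := by
    show c * ‖Complex.I * x‖ = c * ‖x‖
    rw [norm_mul, Complex.norm_I, one_mul]
  symC x := by
    show c * ‖(starRingEnd ℂ) x‖ = c * ‖x‖
    rw [Complex.norm_conj]

theorem Euc_lln {ι : V →+ ℂ} {c η : ℝ} (hη : 0 < η) {E : Edge → ℝ}
    (h : ∃ R1 : ℝ, ∀ R, R1 ≤ R → Appr ι (fun z => c * ‖z‖) E (R ^ (-η)) R) :
    LLN ι (fun z => c * ‖z‖) E := by
  intro ε hε
  obtain ⟨R1, h⟩ := h
  obtain ⟨R2, hR2⟩ := Filter.eventually_atTop.mp
    ((tendsto_rpow_neg_atTop hη).eventually (gt_mem_nhds hε))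
  refine ⟨max (max R1 R2) 1, fun R hR x y hx hy => ?_⟩
  have h1 : R1 ≤ R := ((le_max_left _ _).trans (le_max_left _ _)).trans hR
  have h2 : R2 ≤ R := ((le_max_right _ _).trans (le_max_left _ _)).trans hR
  have h3 : (1 : ℝ) ≤ R := (le_max_right _ _).trans hR
  exact (h R h1 x y hx hy).trans (mul_le_mul_of_nonneg_right (hR2 R h2).le (by linarith))

/-- the first exit of a walk from a ball -/
theorem Euc_first (t : ℝ) (l : List Step) (v : V) (hv : nrm v < t) :
    (∀ l3 l4, l = l3 ++ l4 → nrm (endp v l3) < t) ∨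
    ∃ l1 l2, l = l1 ++ l2 ∧ l1 ≠ [] ∧ t ≤ nrm (endp v l1) ∧
      ∀ l3 l4, l1 = l3 ++ l4 → nrm (endp v l3) ≤ t + 1 := by
  induction l generalizing v with
  | nil =>
    refine Or.inl fun l3 l4 h => ?_
    have : l3 = [] := (List.append_eq_nil_iff.1 h.symm).1
    rw [this]
    exact hv
  | cons s l ih =>
    by_cases h : nrm (v + vec s) < t
    · rcases ih (v + vec s) h with h1 | ⟨l1, l2, h1, h2, h3, h4⟩
      · refine Or.inl fun l3 l4 h5 => ?_
        rcases l3 with _ | ⟨s', l3⟩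
        · exact hv
        · rw [List.cons_append, List.cons.injEq] at h5
          obtain ⟨rfl, h5⟩ := h5
          exact h1 l3 l4 h5
      · refine Or.inr ⟨s :: l1, l2, by rw [h1]; rfl, List.cons_ne_nil _ _, h3, fun l3 l4 h5 => ?_⟩
        rcases l3 with _ | ⟨s', l3⟩
        · show nrm v ≤ t + 1
          linarith
        · rw [List.cons_append, List.cons.injEq] at h5
          obtain ⟨rfl, h5⟩ := h5
          exact h4 l3 l4 h5
    · push Not at h
      refine Or.inr ⟨[s], l, rfl, List.cons_ne_nil _ _, h, fun l3 l4 h5 => ?_⟩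
      rcases l3 with _ | ⟨s', l3⟩
      · show nrm v ≤ t + 1
        linarith
      · rw [List.cons_append, List.cons.injEq] at h5
        obtain ⟨rfl, h5⟩ := h5
        have : l3 = [] := (List.append_eq_nil_iff.1 h5.symm).1
        rw [this]
        show nrm (v + vec s) ≤ t + 1
        have h6 := nrm_add_le v (vec s)
        rw [nrm_vec] at h6
        linarith

theorem Euc_ind {ι : V →+ ℂ} {τ : Edge → ℝ} {b C K A1 A2 A3 M R0 η : ℝ} (hb : 0 < b)
    (hη : 0 < η) (hR0 : 0 < R0) (hC : 0 < C)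
    (hstage : ∀ y : V, R0 ≤ nrm y → ∀ l1 l2 : List Step, wt τ y (l1 ++ l2) < S τ y →
      (∀ l3 l4, l1 = l3 ++ l4 → nrm (endp y l3) ≤ Real.exp (1 / b) * nrm y + 1) →
      ‖ι (endp y l1) / (nrm (endp y l1) : ℂ) - ι y / (nrm y : ℂ)‖ ≤
        K * nrm y ^ (-(η / 4)) + C / b * (nrm y / nrm (endp y (l1 ++ l2))) ^ (b / 2))
    (hin : ∀ y : V, R0 ≤ nrm y → ∀ l : List Step, wt τ y l < S τ y →
      (nrm y / nrm (endp y l)) ^ (b / 2) ≤ M)
    (hA1 : K + A1 * Real.exp (1 / b) ^ (-(η / 4)) ≤ A1) (hA1' : 0 ≤ A1)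
    (hA3 : 0 ≤ A3) (hA3' : A3 + C ≤ A3 * Real.exp (1 / 2)) (hA2 : (A3 + C) * M ≤ A2)
    (n : ℕ) : ∀ l : List Step, l.length ≤ n → ∀ y : V, R0 ≤ nrm y → Good τ y l →
      ‖ι (endp y l) / (nrm (endp y l) : ℂ) - ι y / (nrm y : ℂ)‖ ≤
        A1 * nrm y ^ (-(η / 4)) +
          1 / b * (A2 - A3 * (nrm y / nrm (endp y l)) ^ (b / 2)) := by
  have hρ : 1 < Real.exp (1 / b) := Real.one_lt_exp_iff.2 (by positivity)
  have hρ2 : Real.exp (1 / b) ^ (b / 2) = Real.exp (1 / 2) := by
    rw [← Real.exp_mul]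
    congr 1
    field_simp
  have hKA : K ≤ A1 := by
    have : 0 ≤ A1 * Real.exp (1 / b) ^ (-(η / 4)) :=
      mul_nonneg hA1' (Real.rpow_nonneg (Real.exp_pos _).le _)
    linarith
  induction n with
  | zero =>
    intro l hl y hy hgood
    have hl0 : l = [] := List.length_eq_zero_iff.1 (Nat.le_zero.1 hl)
    subst hl0
    have h1 := hin y hy [] hgood.wt_lt
    rw [endp_nil, sub_self, norm_zero]
    rw [endp_nil] at h1
    have h2 : 0 ≤ (nrm y / nrm y) ^ (b / 2) :=
      Real.rpow_nonneg (div_nonneg (nrm_nonneg y) (nrm_nonneg y)) _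
    have h3 : 0 ≤ A2 - A3 * (nrm y / nrm y) ^ (b / 2) := by
      have : A3 * (nrm y / nrm y) ^ (b / 2) ≤ (A3 + C) * M :=
        mul_le_mul (by linarith) h1 h2 (by linarith)
      linarith
    have h4 : 0 ≤ A1 * nrm y ^ (-(η / 4)) := mul_nonneg hA1' (Real.rpow_nonneg (nrm_nonneg y) _)
    positivity
  | succ n ih =>
    intro l hl y hy hgood
    have hy0 : 0 < nrm y := hR0.trans_le hy
    rcases Euc_first (Real.exp (1 / b) * nrm y) l y (by nlinarith) with h | ⟨l1, l2, h1, h2, h3, h4⟩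
    · have h5 := hstage y hy l [] (by rw [List.append_nil]; exact hgood.wt_lt)
        (fun l3 l4 h6 => by
          have := h l3 l4 h6
          linarith)
      rw [List.append_nil] at h5
      have h6 := hin y hy l hgood.wt_lt
      refine h5.trans (add_le_add ?_ ?_)
      · exact mul_le_mul_of_nonneg_right hKA (Real.rpow_nonneg (nrm_nonneg y) _)
      · have e : C / b * (nrm y / nrm (endp y l)) ^ (b / 2) =
            1 / b * (C * (nrm y / nrm (endp y l)) ^ (b / 2)) := by ring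
        rw [e]
        refine mul_le_mul_of_nonneg_left ?_ (by positivity)
        have : (A3 + C) * (nrm y / nrm (endp y l)) ^ (b / 2) ≤ (A3 + C) * M :=
          mul_le_mul_of_nonneg_left h6 (by linarith)
        linarith
    · set z := endp y l1 with hz
      have hend : endp y l = endp z l2 := by rw [h1, endp_append]
      have h5 := hstage y hy l1 l2 (by rw [← h1]; exact hgood.wt_lt) h4
      rw [← h1, hend] at h5
      have hzy : nrm y ≤ nrm z := by nlinarith
      have hlen : l2.length ≤ n := by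
        have e1 : l.length = l1.length + l2.length := by rw [h1, List.length_append]
        have e2 : 0 < l1.length := List.length_pos_iff.2 h2
        omega
      have h6 := ih l2 hlen z (hy.trans hzy) (Good.right (l1 := l1) (h1 ▸ hgood))
      rw [hend]
      set x := endp z l2 with hx
      have h7 : ‖ι x / (nrm x : ℂ) - ι y / (nrm y : ℂ)‖ ≤
          ‖ι z / (nrm z : ℂ) - ι y / (nrm y : ℂ)‖ + ‖ι x / (nrm x : ℂ) - ι z / (nrm z : ℂ)‖ := by
        have e : ι x / (nrm x : ℂ) - ι y / (nrm y : ℂ) =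
          (ι z / (nrm z : ℂ) - ι y / (nrm y : ℂ)) + (ι x / (nrm x : ℂ) - ι z / (nrm z : ℂ)) := by
          ring
        rw [e]
        exact norm_add_le _ _
      have h8 : nrm z ^ (-(η / 4)) ≤ Real.exp (1 / b) ^ (-(η / 4)) * nrm y ^ (-(η / 4)) := by
        rw [← Real.mul_rpow (Real.exp_pos _).le hy0.le]
        exact Real.rpow_le_rpow_of_nonpos (by positivity) h3 (by linarith)
      have h9 : A1 * nrm z ^ (-(η / 4)) ≤
          A1 * (Real.exp (1 / b) ^ (-(η / 4)) * nrm y ^ (-(η / 4))) :=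
        mul_le_mul_of_nonneg_left h8 hA1'
      have h10 : (K + A1 * Real.exp (1 / b) ^ (-(η / 4))) * nrm y ^ (-(η / 4)) ≤
          A1 * nrm y ^ (-(η / 4)) :=
        mul_le_mul_of_nonneg_right hA1 (Real.rpow_nonneg hy0.le _)
      have hx0 := nrm_nonneg x
      have h11 : Real.exp (1 / 2) * (nrm y / nrm x) ^ (b / 2) ≤ (nrm z / nrm x) ^ (b / 2) := by
        rw [← hρ2, ← Real.mul_rpow (Real.exp_pos _).le (div_nonneg hy0.le hx0)]
        refine Real.rpow_le_rpow (by positivity) ?_ (by positivity)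
        rw [← mul_div_assoc]
        exact div_le_div_of_nonneg_right h3 hx0
      have h12 : (A3 + C) * (nrm y / nrm x) ^ (b / 2) ≤ A3 * (nrm z / nrm x) ^ (b / 2) := by
        have e1 : (A3 + C) * (nrm y / nrm x) ^ (b / 2) ≤
            A3 * Real.exp (1 / 2) * (nrm y / nrm x) ^ (b / 2) :=
          mul_le_mul_of_nonneg_right hA3' (Real.rpow_nonneg (div_nonneg hy0.le hx0) _)
        have e2 := mul_le_mul_of_nonneg_left h11 hA3
        rw [← mul_assoc] at e2
        exact e1.trans e2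
      have h13 : 1 / b * ((A3 + C) * (nrm y / nrm x) ^ (b / 2)) ≤
          1 / b * (A3 * (nrm z / nrm x) ^ (b / 2)) :=
        mul_le_mul_of_nonneg_left h12 (by positivity)
      have e3 : C / b * (nrm y / nrm x) ^ (b / 2) =
          1 / b * (C * (nrm y / nrm x) ^ (b / 2)) := by ring
      rw [e3] at h5
      have e4 : 1 / b * ((A3 + C) * (nrm y / nrm x) ^ (b / 2)) =
        1 / b * (A3 * (nrm y / nrm x) ^ (b / 2)) + 1 / b * (C * (nrm y / nrm x) ^ (b / 2)) := by
        ring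
      rw [e4] at h13
      rw [mul_sub] at h6 ⊢
      rw [add_mul] at h10
      linarith

theorem Euc_dot {a b : ℂ} (ha : ‖a‖ = 1) (hb : ‖b‖ = 1) : dot a b = 1 - ‖b - a‖ ^ 2 / 2 := by
  have h1 := dot_self a
  have h2 := dot_self b
  have h3 := dot_self (b - a)
  rw [ha] at h1
  rw [hb] at h2
  unfold dot at h1 h2 h3 ⊢
  rw [Complex.sub_re, Complex.sub_im] at h3
  linarith

theorem Euc_exp {K b : ℝ} (hK : 0 < K) (hb : 2 * K ≤ b) {q : ℝ} (hq : 0 ≤ q)
    (h : (1 - K / b) * q ≤ 1) : q ^ (b / 2) ≤ Real.exp K := by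
  have hb0 : 0 < b := by linarith
  have ht : K / b ≤ 1 / 2 := by
    rw [div_le_iff₀ hb0]
    linarith
  have ht0 : 0 < K / b := by positivity
  have h1 : q ≤ Real.exp (2 * (K / b)) := by
    have h2 : q ≤ 1 + 2 * (K / b) := by
      by_contra hcon
      push Not at hcon
      have h3 : (1 - K / b) * (1 + 2 * (K / b)) < (1 - K / b) * q :=
        mul_lt_mul_of_pos_left hcon (by linarith)
      nlinarith
    have h4 := Real.add_one_le_exp (2 * (K / b))
    linarith
  have h2 : Real.exp K = Real.exp (2 * (K / b)) ^ (b / 2) := by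
    rw [← Real.exp_mul]
    congr 1
    field_simp
  rw [h2]
  exact Real.rpow_le_rpow hq h1 (by positivity)

theorem trapped_euc {ι : V →+ ℂ} (hι : Emb ι) {c η : ℝ} (hc : 0 < c) (hη : 0 < η)
    (hη1 : η ≤ 1) :
    ∃ α0 : ℝ, ∀ α : ℝ, α0 < α → ∀ E : Edge → ℝ, (∀ e, 0 ≤ E e) →
      (∃ R1 : ℝ, ∀ R, R1 ≤ R → Appr ι (fun z => c * ‖z‖) E (R ^ (-η)) R) →
      Trapped ι (tau α E) (1 / 2) := by
  obtain ⟨C, α1, hC, hα1, Hst⟩ := euc_stage hι hc hη hη1
  obtain ⟨K', hK', Hin⟩ := inward hι (Euc_nrm hc)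
  have he : 1 < Real.exp (1 / 2) := Real.one_lt_exp_iff.2 (by norm_num)
  set A3 : ℝ := C / (Real.exp (1 / 2) - 1) with hA3
  have hA3p : 0 < A3 := div_pos hC (by linarith)
  have hA3' : A3 + C ≤ A3 * Real.exp (1 / 2) := by
    have : A3 * (Real.exp (1 / 2) - 1) = C := div_mul_cancel₀ _ (by linarith)
    linarith
  set A2 : ℝ := (A3 + C) * Real.exp K' with hA2
  have hA2p : 0 < A2 := by positivity
  refine ⟨max (max α1 2) (max (2 * K' + 1) (4 * A2 + 1)), fun α hα E hE hR => ?_⟩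
  have ha1 : α1 < α := ((le_max_left _ _).trans (le_max_left _ _)).trans_lt hα
  have ha2 : 2 < α := ((le_max_right _ _).trans (le_max_left _ _)).trans_lt hα
  have ha3 : 2 * K' + 1 < α := ((le_max_left _ _).trans (le_max_right _ _)).trans_lt hα
  have ha4 : 4 * A2 + 1 < α := ((le_max_right _ _).trans (le_max_right _ _)).trans_lt hα
  obtain ⟨K, hK, Hst2⟩ := Hst α ha1.le
  obtain ⟨R0, hR0, Hst3⟩ := Hst2 E hE hR
  obtain ⟨R1, Hin2⟩ := Hin α ha2.le E hE (Euc_lln hη hR)
  have hb : 0 < α - 1 := by linarith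
  have hρ : 1 < Real.exp (1 / (α - 1)) := Real.one_lt_exp_iff.2 (by positivity)
  have hρ1 : Real.exp (1 / (α - 1)) ^ (-(η / 4)) < 1 :=
    Real.rpow_lt_one_of_one_lt_of_neg hρ (by linarith)
  set A1 : ℝ := K / (1 - Real.exp (1 / (α - 1)) ^ (-(η / 4))) with hA1
  have hA1p : 0 < A1 := div_pos hK (by linarith)
  have hA1' : K + A1 * Real.exp (1 / (α - 1)) ^ (-(η / 4)) ≤ A1 := by
    have : A1 * (1 - Real.exp (1 / (α - 1)) ^ (-(η / 4))) = K := div_mul_cancel₀ _ (by linarith)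
    linarith
  obtain ⟨R2, hR2⟩ := Filter.eventually_atTop.mp
    ((tendsto_rpow_neg_atTop (by positivity : 0 < η / 4)).eventually
      (gt_mem_nhds (show (0 : ℝ) < 1 / (4 * A1) by positivity)))
  refine ⟨max (max R0 R1) R2, fun w hw => ?_⟩
  have hw0 : max R0 R1 ≤ nrm w := (le_max_left _ _).trans hw
  have hw2 : R2 ≤ nrm w := (le_max_right _ _).trans hw
  have hwp : 0 < nrm w := hR0.trans_le ((le_max_left _ _).trans hw0)
  have hwn : ‖ι w / (nrm w : ℂ)‖ = 1 := by
    rw [norm_div, hι.norm_eq, Complex.norm_real, Real.norm_of_nonneg hwp.le, div_self hwp.ne']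
  refine ⟨ι w / (nrm w : ℂ), hwn, fun l hl => ?_⟩
  have key := Euc_ind (ι := ι) (τ := tau α E) (b := α - 1) (C := C) (K := K) (A1 := A1)
    (A2 := A2) (A3 := A3) (M := Real.exp K') (R0 := max R0 R1) (η := η) hb hη
    (hR0.trans_le (le_max_left _ _)) hC
    (fun y hy l1 l2 h1 h2 => Hst3 y ((le_max_left _ _).trans hy) l1 l2 h1 h2)
    (fun y hy l h1 => by
      have hyp : 0 < nrm y := hR0.trans_le ((le_max_left _ _).trans hy)
      have h2 := Hin2 y ((le_max_right _ _).trans hy) l h1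
      have hK1 : 0 < 1 - K' / (α - 1) := by
        have : K' / (α - 1) < 1 := (div_lt_one hb).2 (by linarith)
        linarith
      have hxp : 0 < nrm (endp y l) := (mul_pos hK1 hyp).trans_le h2
      refine Euc_exp hK' (by linarith) (div_nonneg hyp.le hxp.le) ?_
      rw [← mul_div_assoc, div_le_one hxp]
      exact h2)
    hA1' hA1p.le hA3p.le hA3' le_rfl l.length l le_rfl w hw0 hl
  set x := endp w l with hx
  rcases (nrm_nonneg x).lt_or_eq with hxp | hx0
  · have hxn : ‖ι x / (nrm x : ℂ)‖ = 1 := by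
      rw [norm_div, hι.norm_eq, Complex.norm_real, Real.norm_of_nonneg hxp.le, div_self hxp.ne']
    have h1 : A1 * nrm w ^ (-(η / 4)) ≤ 1 / 4 := by
      have h2 := (hR2 (nrm w) hw2).le
      have h3 := mul_le_mul_of_nonneg_left h2 hA1p.le
      have h4 : A1 * (1 / (4 * A1)) = 1 / 4 := by field_simp
      linarith
    have h2 : 1 / (α - 1) * (A2 - A3 * (nrm w / nrm x) ^ ((α - 1) / 2)) ≤ 1 / 4 := by
      have h3 : 0 ≤ A3 * (nrm w / nrm x) ^ ((α - 1) / 2) := by positivity
      have h4 : 1 / (α - 1) * (A2 - A3 * (nrm w / nrm x) ^ ((α - 1) / 2)) ≤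
          1 / (α - 1) * A2 := mul_le_mul_of_nonneg_left (by linarith) (by positivity)
      refine h4.trans ?_
      rw [one_div_mul_eq_div, div_le_iff₀ hb]
      linarith
    have h3 : ‖ι x / (nrm x : ℂ) - ι w / (nrm w : ℂ)‖ ≤ 1 / 2 := by linarith
    have h4 := Euc_dot hwn hxn
    have h5 : dot (ι w / (nrm w : ℂ)) (ι x) =
        nrm x * dot (ι w / (nrm w : ℂ)) (ι x / (nrm x : ℂ)) := by
      rw [← dot_mul]
      congr 1
      rw [mul_div_cancel₀]
      exact_mod_cast hxp.ne'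
    rw [h5, h4]
    have h6 : ‖ι x / (nrm x : ℂ) - ι w / (nrm w : ℂ)‖ ^ 2 ≤ 1 / 4 := by
      have := norm_nonneg (ι x / (nrm x : ℂ) - ι w / (nrm w : ℂ))
      nlinarith
    nlinarith
  · rw [← hx0]
    have h1 : ι x = 0 := by
      rw [← norm_eq_zero, hι.norm_eq, ← hx0]
    rw [h1]
    simp [dot]

end ConeE
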