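import Pool.Agent.ConeE.Basic

/-! From the essential edges to the half plane cone (module FIN). -/

set_option autoImplicit false

namespace ConeE

/-- the edge `e` crosses the circle of radius `R` -/
def Fin_cross (R : ℝ) (e : Edge) : Prop :=
  (R ≤ nrm e.1 ∧ nrm (e.1 + ev e.2) < R) ∨ (nrm e.1 < R ∧ R ≤ nrm (e.1 + ev e.2))

theorem Fin_finite_cross (R : ℝ) : {e : Edge | Fin_cross R e}.Finite := by
  have h1 : ({x : V | nrm x ≤ R + 1} ×ˢ (Set.univ : Set (Fin 2))).Finite :=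
    (finite_ball (R + 1)).prod Set.finite_univ
  refine h1.subset ?_
  rintro ⟨x, j⟩ h
  refine ⟨?_, Set.mem_univ _⟩
  show nrm x ≤ R + 1
  have h2 : nrm x ≤ nrm (x + ev j) + nrm (ev j) := by
    have := nrm_sub_le (x + ev j) (ev j)
    rwa [add_sub_cancel_right] at this
  have h3 : nrm (ev j) = 1 := by
    have := nrm_vec (j, true)
    simpa [vec] using this
  rcases h with ⟨h4, h5⟩ | ⟨h4, h5⟩
  · simp only at h4 h5
    linarith
  · simp only at h4 h5
    linarith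

/-- a walk which uses the edge `e` visits its two ends -/
theorem Fin_visit (x : V) (l : List Step) (e : Edge) (h : e ∈ edges x l) :
    (∃ l1 l2, l = l1 ++ l2 ∧ endp x l1 = e.1) ∧
    (∃ l1 l2, l = l1 ++ l2 ∧ endp x l1 = e.1 + ev e.2) := by
  induction l generalizing x with
  | nil => simp [edges] at h
  | cons s l ih =>
    rw [edges, List.mem_cons] at h
    rcases h with h | h
    · have h1 : ∃ l1 l2, s :: l = l1 ++ l2 ∧ endp x l1 = x := ⟨[], s :: l, rfl, rfl⟩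
      have h2 : ∃ l1 l2, s :: l = l1 ++ l2 ∧ endp x l1 = x + vec s := ⟨[s], l, rfl, rfl⟩
      rcases edg_cases x s with ⟨h3, h4⟩ | ⟨h3, h4⟩
      · rw [h, h3] at *
        rw [h4]
        exact ⟨h1, h2⟩
      · rw [h, h4, h3]
        exact ⟨h2, h1⟩
    · obtain ⟨⟨l1, l2, h1, h2⟩, ⟨l3, l4, h3, h4⟩⟩ := ih (x + vec s) h
      exact ⟨⟨s :: l1, l2, by rw [h1]; rfl, h2⟩, ⟨s :: l3, l4, by rw [h3]; rfl, h4⟩⟩

/-- a walk from the inside to the outside of the circle uses a crossing edge -/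
theorem Fin_exists_cross (R : ℝ) (x : V) (l : List Step) (h1 : nrm x < R)
    (h2 : R ≤ nrm (endp x l)) : ∃ e ∈ edges x l, Fin_cross R e := by
  induction l generalizing x with
  | nil => exact absurd h2 (not_le.2 h1)
  | cons s l ih =>
    by_cases h : nrm (x + vec s) < R
    · obtain ⟨e, he, hc⟩ := ih (x + vec s) h h2
      exact ⟨e, List.mem_cons_of_mem _ he, hc⟩
    · refine ⟨edg x s, List.mem_cons_self .., ?_⟩
      have h' := not_lt.1 h
      rcases edg_cases x s with ⟨h3, h4⟩ | ⟨h3, h4⟩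
      · refine Or.inr ?_
        rw [h4, h3]
        exact ⟨h1, h'⟩
      · refine Or.inl ?_
        rw [h4, h3]
        exact ⟨h', h1⟩

theorem Fin_bound {ι : V →+ ℂ} (ν : ℂ) (c : ℝ) {F : Set V} (hF : F.Finite) :
    ∃ M : ℝ, 0 ≤ M ∧ ∀ x ∈ F, c * nrm x - M ≤ dot ν (ι x) := by
  obtain ⟨M, hM⟩ := (hF.image (fun x => c * nrm x - dot ν (ι x))).bddAbove
  refine ⟨max M 0, le_max_right _ _, fun x hx => ?_⟩
  have h1 : c * nrm x - dot ν (ι x) ≤ M := hM ⟨x, hx, rfl⟩
  have h2 := le_max_left M 0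
  linarith

theorem conf_of_trapped {ι : V →+ ℂ} {τ : Edge → ℝ} (hτ : ∀ e, 0 ≤ τ e)
    (hS : Explodes τ) (hU : ∀ e, (Via τ e).Finite ∨ (Avoid τ e).Finite) {c : ℝ}
    (hc : 0 < c) (hT : Trapped ι τ c) :
    ∃ (ν : ℂ) (M : ℝ), ‖ν‖ = 1 ∧ ∀ x ∈ Ainf τ, c * nrm x - M ≤ dot ν (ι x) := by
  by_cases hfin : (Ainf τ).Finite
  · obtain ⟨M, -, hM⟩ := Fin_bound (ι := ι) 1 c hfin
    exact ⟨1, M, norm_one, hM⟩
  · obtain ⟨R0, hR0⟩ := hT
    set R : ℝ := max R0 1 with hR
    have hR1 : (1 : ℝ) ≤ R := le_max_right _ _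
    have hR2 : R0 ≤ R := le_max_left _ _
    have h0 : nrm (0 : V) < R := by rw [nrm_zero]; linarith
    have key : ∃ e, Fin_cross R e ∧ ¬ (Via τ e).Finite := by
      by_contra hcon
      push Not at hcon
      apply hfin
      have h1 : (⋃ e ∈ {e : Edge | Fin_cross R e}, Via τ e).Finite :=
        (Fin_finite_cross R).biUnion hcon
      refine ((finite_ball R).union h1).subset ?_
      rintro x ⟨l, hl, hw⟩
      by_cases hx : nrm x ≤ R
      · exact Or.inl hx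
      · right
        obtain ⟨e, he, hcr⟩ := Fin_exists_cross R 0 l h0 (by rw [hl]; exact (not_le.1 hx).le)
        exact Set.mem_biUnion (show e ∈ {e : Edge | Fin_cross R e} from hcr) ⟨l, hl, hw, he⟩
    obtain ⟨e, hcr, hvia⟩ := key
    have havoid : (Avoid τ e).Finite := (hU e).resolve_left hvia
    obtain ⟨w, hw, hvis⟩ : ∃ w : V, R ≤ nrm w ∧ ∀ l : List Step, e ∈ edges 0 l →
        ∃ l1 l2, l = l1 ++ l2 ∧ endp 0 l1 = w := by
      rcases hcr with ⟨h1, -⟩ | ⟨-, h1⟩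
      · exact ⟨e.1, h1, fun l hl => (Fin_visit 0 l e hl).1⟩
      · exact ⟨e.1 + ev e.2, h1, fun l hl => (Fin_visit 0 l e hl).2⟩
    obtain ⟨ν, hν, hgood⟩ := hR0 w (hR2.trans hw)
    obtain ⟨M, hM0, hM⟩ := Fin_bound (ι := ι) ν c havoid
    refine ⟨ν, M, hν, ?_⟩
    rintro x ⟨l, hl, hwt⟩
    by_cases he : e ∈ edges 0 l
    · obtain ⟨l1, l2, h1, h2⟩ := hvis l he
      have h3 : Good τ 0 (l1 ++ l2) := by
        rw [← h1]
        exact good_of_lt hτ hS hwt
      have h4 := hgood l2 (by rw [← h2]; exact h3.right)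
      have h5 : endp w l2 = x := by
        rw [← h2, ← endp_append, ← h1, hl]
      rw [h5] at h4
      linarith
    · exact hM x ⟨l, hl, hwt, he⟩

end ConeE
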