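import Pool.Agent.ConeE.Basic

/-! A norm with the symmetries of the square which is not Euclidean admits barrier data
(module NONEUC). -/

set_option autoImplicit false

namespace ConeE

/-- a function with quadratic modulus of continuity is constant -/
theorem noneuc_const {g : ℝ → ℝ} {C : ℝ}
    (h : ∀ s t : ℝ, 0 < s → s < 1 → 0 < t → t < 1 → g s - g t ≤ C * (s - t) ^ 2)
    {s t : ℝ} (hs0 : 0 < s) (hs1 : s < 1) (ht0 : 0 < t) (ht1 : t < 1) : g s ≤ g t := by
  have key : ∀ n : ℕ, g s - g t ≤ C * (s - t) ^ 2 / (n + 1 : ℝ) := by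
    intro n
    have hn : (0 : ℝ) < (n + 1 : ℝ) := by positivity
    set q : ℕ → ℝ := fun k => s + (k : ℝ) * ((t - s) / (n + 1 : ℝ)) with hq
    have hq0 : q 0 = s := by simp [hq]
    have hqn : q (n + 1) = t := by
      simp only [hq]; push_cast; field_simp; ring
    have hmem : ∀ k : ℕ, k ≤ n + 1 → 0 < q k ∧ q k < 1 := by
      intro k hk
      have hk' : (k : ℝ) ≤ (n + 1 : ℝ) := by exact_mod_cast hk
      have e : q k = s * (1 - (k : ℝ) / (n + 1 : ℝ)) + t * ((k : ℝ) / (n + 1 : ℝ)) := by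
        simp only [hq]; field_simp; ring
      have l0 : 0 ≤ (k : ℝ) / (n + 1 : ℝ) := by positivity
      have l1 : (k : ℝ) / (n + 1 : ℝ) ≤ 1 := by rw [div_le_one hn]; exact hk'
      set lam := (k : ℝ) / (n + 1 : ℝ)
      constructor
      · rw [e]
        rcases eq_or_lt_of_le l0 with h0 | h0
        · rw [← h0]; simpa using hs0
        · have : 0 ≤ s * (1 - lam) := mul_nonneg hs0.le (by linarith)
          have : 0 < t * lam := mul_pos ht0 h0
          linarith
      · rw [e]
        rcases eq_or_lt_of_le l0 with h0 | h0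
        · rw [← h0]; simpa using hs1
        · nlinarith
    have hsum : ∑ k ∈ Finset.range (n + 1), (g (q k) - g (q (k + 1))) = g s - g t := by
      rw [Finset.sum_range_sub', hq0, hqn]
    rw [← hsum]
    calc ∑ k ∈ Finset.range (n + 1), (g (q k) - g (q (k + 1)))
        ≤ ∑ k ∈ Finset.range (n + 1), C * ((s - t) / (n + 1 : ℝ)) ^ 2 := by
          apply Finset.sum_le_sum
          intro k hk
          rw [Finset.mem_range] at hk
          obtain ⟨a1, a2⟩ := hmem k (by omega)
          obtain ⟨b1, b2⟩ := hmem (k + 1) (by omega)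
          have := h _ _ a1 a2 b1 b2
          refine this.trans (le_of_eq ?_)
          simp only [hq]; push_cast; ring
      _ = C * (s - t) ^ 2 / (n + 1 : ℝ) := by
          rw [Finset.sum_const, Finset.card_range, nsmul_eq_mul]
          push_cast; field_simp
  have hlim : Filter.Tendsto (fun n : ℕ => C * (s - t) ^ 2 / ((n : ℝ) + 1)) Filter.atTop
      (nhds 0) := by
    exact (tendsto_const_nhds (x := C * (s - t) ^ 2)).div_atTop
      (Filter.tendsto_atTop_add_const_right _ _ tendsto_natCast_atTop_atTop)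
  have := ge_of_tendsto' hlim key
  linarith

theorem noneuc_hom {μ : ℂ → ℝ} {a b : ℝ} (hμ : Nrm μ a b) (t : ℝ) (ht : 0 ≤ t) (x : ℂ) :
    μ (t • x) = t * μ x := by
  have := hμ.hom t x ht
  rwa [← Complex.real_smul] at this

/-- continuity of `μ` -/
theorem noneuc_cont {μ : ℂ → ℝ} {a b : ℝ} (hμ : Nrm μ a b) : Continuous μ := by
  have hb : 0 ≤ b := le_trans hμ.pos.le hμ.le_b
  have : LipschitzWith ⟨b, hb⟩ μ := by
    apply LipschitzWith.of_dist_le_mul
    intro x y
    rw [Real.dist_eq, dist_eq_norm]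
    exact hμ.abs_sub_le x y
  exact this.continuous

/-- if the chamber is `Euclidean` then `μ` is -/
theorem noneuc_step1 {μ : ℂ → ℝ} {a b : ℝ} (hμ : Nrm μ a b)
    (h : ∀ u x : ℂ, ‖u‖ = 1 → 0 < u.im → u.im < u.re → dot x u = 1 → μ u ≤ μ x) :
    ∃ c : ℝ, ∀ z, μ z = c * ‖z‖ := by
  -- the function on slopes
  have hN : ∀ s : ℝ, ‖(⟨1, s⟩ : ℂ)‖ = Real.sqrt (1 + s ^ 2) := by
    intro s
    rw [Complex.norm_def, Complex.normSq_mk]
    congr 1; ring
  have hpos : ∀ s : ℝ, 0 < Real.sqrt (1 + s ^ 2) := fun s => Real.sqrt_pos.2 (by positivity)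
  have hb : 0 ≤ b := le_trans hμ.pos.le hμ.le_b
  set g : ℝ → ℝ := fun s => μ ⟨1, s⟩ / Real.sqrt (1 + s ^ 2) with hg
  have g0 : ∀ s, 0 ≤ g s := fun s => div_nonneg (hμ.nonneg _) (hpos s).le
  have gb : ∀ s, g s ≤ b := by
    intro s
    simp only [hg]
    rw [div_le_iff₀ (hpos s), ← hN s]
    exact hμ.up _
  have hquad : ∀ s t : ℝ, 0 < s → s < 1 → 0 < t → t < 1 → g s - g t ≤ b * (s - t) ^ 2 := by
    intro s t hs0 hs1 ht0 ht1
    set A := Real.sqrt (1 + s ^ 2) with hA
    set B := Real.sqrt (1 + t ^ 2) with hB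
    have hA0 : 0 < A := hpos s
    have hB0 : 0 < B := hpos t
    have hA2 : A ^ 2 = 1 + s ^ 2 := Real.sq_sqrt (by positivity)
    have hB2 : B ^ 2 = 1 + t ^ 2 := Real.sq_sqrt (by positivity)
    have hst : 0 < 1 + s * t := by positivity
    have e := h (((1 / A : ℝ) : ℂ) * ⟨1, s⟩) (((A / (1 + s * t) : ℝ) : ℂ) * ⟨1, t⟩) ?_ ?_ ?_ ?_
    · rw [hμ.hom _ _ (by positivity), hμ.hom _ _ (by positivity)] at e
      -- g s ≤ A / (1 + s t) * μ ⟨1,t⟩ = A * B / (1 + s t) * g t
      have e1 : g s = 1 / A * μ ⟨1, s⟩ := by simp only [hg]; rw [← hA]; ring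
      have e2 : μ ⟨1, t⟩ = B * g t := by simp only [hg]; rw [← hB]; field_simp
      rw [← e1, e2] at e
      -- (1 + s t) g s ≤ A B g t
      have e3 : (1 + s * t) * g s ≤ A * B * g t := by
        have := mul_le_mul_of_nonneg_left e hst.le
        calc (1 + s * t) * g s ≤ (1 + s * t) * (A / (1 + s * t) * (B * g t)) := this
          _ = A * B * g t := by field_simp
      -- (1 + st)^2 = (AB)^2 - (s-t)^2
      have hAB : (A * B) ^ 2 = (1 + s * t) ^ 2 + (s - t) ^ 2 := by
        rw [mul_pow, hA2, hB2]; ring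
      have hABpos : 0 < A * B := mul_pos hA0 hB0
      have hAB1 : 1 ≤ A * B := by
        have : 1 ≤ (A * B) ^ 2 := by
          rw [hAB]; nlinarith [mul_pos hs0 ht0, sq_nonneg (s - t), sq_nonneg (s * t)]
        nlinarith
      -- AB (1 - (s-t)^2) ≤ 1 + s t
      have e4 : A * B * (1 - (s - t) ^ 2) ≤ 1 + s * t := by
        have hd : (s - t) ^ 2 ≤ 1 := by nlinarith
        have h1 : 0 ≤ A * B * (1 - (s - t) ^ 2) := mul_nonneg hABpos.le (by linarith)
        have h2 : (A * B * (1 - (s - t) ^ 2)) ^ 2 ≤ (1 + s * t) ^ 2 := by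
          have h3 : (1 + s * t) ^ 2 = (A * B) ^ 2 - (s - t) ^ 2 := by rw [hAB]; ring
          rw [h3, mul_pow]
          set D := (s - t) ^ 2 with hD
          have hD0 : 0 ≤ D := sq_nonneg _
          have hP : 1 ≤ (A * B) ^ 2 := by nlinarith
          have : (1 - D) ^ 2 ≤ 1 - D := by nlinarith
          have : (A * B) ^ 2 * (1 - D) ^ 2 ≤ (A * B) ^ 2 * (1 - D) :=
            mul_le_mul_of_nonneg_left this (sq_nonneg _)
          nlinarith
        exact abs_le_of_sq_le_sq' h2 hst.le |>.2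
      have e5 : A * B * (1 - (s - t) ^ 2) * g s ≤ A * B * g t :=
        le_trans (mul_le_mul_of_nonneg_right e4 (g0 s)) e3
      have e6 : (1 - (s - t) ^ 2) * g s ≤ g t := by
        have : A * B * ((1 - (s - t) ^ 2) * g s) ≤ A * B * g t := by
          rw [← mul_assoc]; exact e5
        exact le_of_mul_le_mul_left this hABpos
      have e7 : (s - t) ^ 2 * g s ≤ (s - t) ^ 2 * b :=
        mul_le_mul_of_nonneg_left (gb s) (sq_nonneg _)
      nlinarith
    · rw [norm_mul, Complex.norm_real, Real.norm_eq_abs, abs_of_pos (by positivity), hN s, ← hA]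
      field_simp
    · simp only [Complex.mul_im, Complex.ofReal_re, Complex.ofReal_im]
      have : 0 < 1 / A * s := by positivity
      simpa using this
    · simp only [Complex.mul_im, Complex.mul_re, Complex.ofReal_re, Complex.ofReal_im]
      have : 1 / A * s < 1 / A * 1 := mul_lt_mul_of_pos_left hs1 (by positivity)
      linarith
    · simp only [dot, Complex.mul_im, Complex.mul_re, Complex.ofReal_re, Complex.ofReal_im]
      field_simp
      ring
  set c := g (1 / 2) with hc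
  have hgc : ∀ s : ℝ, 0 < s → s < 1 → g s = c := by
    intro s hs0 hs1
    apply le_antisymm
    · exact noneuc_const hquad hs0 hs1 (by norm_num) (by norm_num)
    · exact noneuc_const hquad (by norm_num) (by norm_num) hs0 hs1
  -- open chamber
  have hopen : ∀ z : ℂ, 0 < z.im → z.im < z.re → μ z = c * ‖z‖ := by
    intro z h0 h1
    have hr : 0 < z.re := h0.trans h1
    have ez : z = ((z.re : ℝ) : ℂ) * ⟨1, z.im / z.re⟩ := by
      apply Complex.ext
      · simp
      · simp; field_simp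
    have hs0 : 0 < z.im / z.re := div_pos h0 hr
    have hs1 : z.im / z.re < 1 := by rw [div_lt_one hr]; exact h1
    have e1 : μ z = z.re * μ ⟨1, z.im / z.re⟩ := by
      conv_lhs => rw [ez]
      exact hμ.hom _ _ hr.le
    have e2 : ‖z‖ = z.re * Real.sqrt (1 + (z.im / z.re) ^ 2) := by
      conv_lhs => rw [ez]
      rw [norm_mul, Complex.norm_real, Real.norm_eq_abs, abs_of_pos hr, hN]
    have e3 := hgc _ hs0 hs1
    simp only [hg] at e3
    rw [div_eq_iff (hpos _).ne'] at e3
    rw [e1, e2, e3]; ring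
  -- closed chamber
  have hclosed : ∀ z : ℂ, 0 ≤ z.im → z.im ≤ z.re → μ z = c * ‖z‖ := by
    intro z h0 h1
    set w : ℂ := ⟨2, 1⟩ with hw
    have hcont1 : Filter.Tendsto (fun ε : ℝ => μ (z + (ε : ℂ) * w)) (nhdsWithin 0 (Set.Ioi 0))
        (nhds (μ (z + ((0 : ℝ) : ℂ) * w))) := by
      apply Filter.Tendsto.mono_left _ nhdsWithin_le_nhds
      have : Continuous (fun ε : ℝ => μ (z + (ε : ℂ) * w)) :=
        (noneuc_cont hμ).comp (by fun_prop)
      exact this.tendsto 0
    have hcont2 : Filter.Tendsto (fun ε : ℝ => c * ‖z + (ε : ℂ) * w‖) (nhdsWithin 0 (Set.Ioi 0))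
        (nhds (c * ‖z + ((0 : ℝ) : ℂ) * w‖)) := by
      apply Filter.Tendsto.mono_left _ nhdsWithin_le_nhds
      have : Continuous (fun ε : ℝ => c * ‖z + (ε : ℂ) * w‖) := by fun_prop
      exact this.tendsto 0
    have heq : (fun ε : ℝ => μ (z + (ε : ℂ) * w)) =ᶠ[nhdsWithin 0 (Set.Ioi 0)]
        (fun ε : ℝ => c * ‖z + (ε : ℂ) * w‖) := by
      filter_upwards [self_mem_nhdsWithin] with ε hε
      have hε' : (0 : ℝ) < ε := hε
      apply hopen
      · simp [hw]; linarith
      · simp [hw]; linarith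
    have := tendsto_nhds_unique (hcont1.congr' heq) hcont2
    simpa using this
  refine ⟨c, ?_⟩
  -- all
  have h1 : ∀ z : ℂ, 0 ≤ z.im → 0 ≤ z.re → μ z = c * ‖z‖ := by
    intro z hi hr
    rcases le_total z.im z.re with h | h
    · exact hclosed z hi h
    · have e := hclosed (Complex.I * (starRingEnd ℂ) z) (by simpa using hr) (by simpa using h)
      rw [hμ.symI, hμ.symC, norm_mul, Complex.norm_I, Complex.norm_conj, one_mul] at e
      exact e
  have h2 : ∀ z : ℂ, 0 ≤ z.im → μ z = c * ‖z‖ := by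
    intro z hi
    rcases le_total 0 z.re with h | h
    · exact h1 z hi h
    · have e := h1 (-(starRingEnd ℂ) z) (by simpa using hi) (by simpa using h)
      rw [hμ.neg, hμ.symC, norm_neg, Complex.norm_conj] at e
      exact e
  intro z
  rcases le_total 0 z.im with h | h
  · exact h2 z h
  · have e := h2 ((starRingEnd ℂ) z) (by simpa using h)
    rw [hμ.symC, Complex.norm_conj] at e
    exact e

theorem noneuc_hb {μ : ℂ → ℝ} {a b : ℝ} (hμ : Nrm μ a b) (u : ℂ) (hu : u ≠ 0) :
    ∃ p : ℂ, (∀ z, dot p z ≤ μ z) ∧ dot p u = μ u := by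
  set f : ℂ →ₗ.[ℝ] ℝ := LinearPMap.mkSpanSingleton u (μ u) hu with hf
  have hle : ∀ x : f.domain, f x ≤ μ x := by
    rintro ⟨x, hx⟩
    have hx' : x ∈ Submodule.span ℝ {u} := by simpa [hf] using hx
    obtain ⟨t, rfl⟩ := Submodule.mem_span_singleton.1 hx'
    have e : f ⟨t • u, hx⟩ = t • μ u := LinearPMap.mkSpanSingleton'_apply _ _ _ _ _
    rw [e]
    simp only [smul_eq_mul]
    rcases le_total 0 t with h | h
    · exact le_of_eq (noneuc_hom hμ t h u).symm
    · have h1 : t * μ u ≤ 0 := mul_nonpos_of_nonpos_of_nonneg h (hμ.nonneg _)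
      exact h1.trans (hμ.nonneg _)
  obtain ⟨g, hg1, hg2⟩ := exists_extension_of_le_sublinear f μ
    (fun c hc x => noneuc_hom hμ c hc.le x) hμ.sub hle
  refine ⟨⟨g 1, g Complex.I⟩, ?_, ?_⟩
  · intro z
    have e : dot ⟨g 1, g Complex.I⟩ z = g z := by
      have : z = z.re • (1 : ℂ) + z.im • Complex.I := by
        apply Complex.ext <;> simp
      conv_rhs => rw [this]
      rw [map_add, map_smul, map_smul]
      simp only [dot, smul_eq_mul]; ring
    rw [e]; exact hg2 z
  · have e : dot ⟨g 1, g Complex.I⟩ u = g u := by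
      have : u = u.re • (1 : ℂ) + u.im • Complex.I := by
        apply Complex.ext <;> simp
      conv_rhs => rw [this]
      rw [map_add, map_smul, map_smul]
      simp only [dot, smul_eq_mul]; ring
    rw [e]
    have hmem : (1 : ℝ) • u ∈ f.domain := by
      rw [one_smul]
      simp only [hf, LinearPMap.domain_mkSpanSingleton]
      exact Submodule.mem_span_singleton_self u
    have h1 : g ((1 : ℝ) • u) = f ⟨(1 : ℝ) • u, hmem⟩ := hg1 ⟨(1 : ℝ) • u, hmem⟩
    have e2 : f ⟨(1 : ℝ) • u, hmem⟩ = (1 : ℝ) • μ u :=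
      LinearPMap.mkSpanSingleton'_apply _ _ _ _ _
    rw [e2, one_smul, one_smul] at h1
    exact h1

theorem exists_data {μ : ℂ → ℝ} {a b : ℝ} (hμ : Nrm μ a b)
    (hne : ¬ ∃ c : ℝ, ∀ z, μ z = c * ‖z‖) :
    ∃ u p x : ℂ, ‖u‖ = 1 ∧ (∀ z, dot p z ≤ μ z) ∧ dot x u = 1 ∧ μ x < dot p u ∧
      0 < u.im ∧ u.im < u.re ∧ 0 < p.im ∧ p.im < p.re ∧
      (u.im * p.re < p.im * u.re ∨ p.im * u.re < u.im * p.re) := by
  have h1 : ∃ u x : ℂ, ‖u‖ = 1 ∧ 0 < u.im ∧ u.im < u.re ∧ dot x u = 1 ∧ μ x < μ u := by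
    by_contra hcon
    push Not at hcon
    exact hne (noneuc_step1 hμ (fun u x hu h0 h1 h2 => hcon u x hu h0 h1 h2))
  obtain ⟨u, x0, hu, hu0, hu1, hx0, hlt⟩ := h1
  have hune : u ≠ 0 := by intro h; rw [h] at hu; simp at hu
  obtain ⟨p0, hp0, hp0u⟩ := noneuc_hb hμ u hune
  have hsq : u.re ^ 2 + u.im ^ 2 = 1 := by
    have := dot_self u
    rw [hu] at this
    simp only [dot] at this
    nlinarith
  set A : Set ℝ := {r | ∃ x : ℂ, dot x u = 1 ∧ μ x = r} with hA
  have hAne : A.Nonempty := ⟨μ x0, x0, hx0, rfl⟩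
  have hAlow : ∀ r ∈ A, a ≤ r := by
    rintro r ⟨x, hx, rfl⟩
    have h2 := abs_dot_le x u
    rw [hx, hu, abs_one, mul_one] at h2
    have h3 := hμ.low x
    have := hμ.pos
    nlinarith
  have hbdd : BddBelow A := ⟨a, hAlow⟩
  set s := sInf A with hs
  have hsa : a ≤ s := le_csInf hAne hAlow
  have hs0 : 0 < s := lt_of_lt_of_le hμ.pos hsa
  have hsle : s ≤ μ x0 := csInf_le hbdd ⟨x0, hx0, rfl⟩
  have hslt : s < μ u := lt_of_le_of_lt hsle hlt
  have hsu : ∀ z, s * dot u z ≤ μ z := by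
    intro z
    rcases le_or_gt (dot u z) 0 with h | h
    · exact (mul_nonpos_of_nonneg_of_nonpos hs0.le h).trans (hμ.nonneg z)
    · have hz : dot (((1 / dot u z : ℝ) : ℂ) * z) u = 1 := by
        rw [dot_comm, dot_mul]; field_simp
      have h3 : s ≤ μ (((1 / dot u z : ℝ) : ℂ) * z) := csInf_le hbdd ⟨_, hz, rfl⟩
      rw [hμ.hom _ _ (by positivity)] at h3
      rw [one_div, inv_mul_eq_div, le_div_iff₀ h] at h3
      exact h3
  -- the perturbed functional
  set P : ℝ → ℂ := fun t => (((1 - t) * s : ℝ) : ℂ) * u + ((t : ℝ) : ℂ) * p0 with hP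
  have hdotP : ∀ t z, dot (P t) z = (1 - t) * (s * dot u z) + t * dot p0 z := by
    intro t z
    simp only [hP]
    rw [dot_comm, dot_add, dot_mul, dot_mul, dot_comm z u, dot_comm z p0]; ring
  have hPle : ∀ t, 0 ≤ t → t ≤ 1 → ∀ z, dot (P t) z ≤ μ z := by
    intro t ht0 ht1 z
    rw [hdotP]
    have h4 := hsu z
    have h5 := hp0 z
    nlinarith [mul_le_mul_of_nonneg_left h4 (by linarith : 0 ≤ 1 - t),
      mul_le_mul_of_nonneg_left h5 ht0]
  have hPre : ∀ t, (P t).re = (1 - t) * s * u.re + t * p0.re := by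
    intro t; simp [hP]
  have hPim : ∀ t, (P t).im = (1 - t) * s * u.im + t * p0.im := by
    intro t; simp [hP]
  have hcont1 : Continuous (fun t => (P t).im) := by
    simp only [hPim]; fun_prop
  have hcont2 : Continuous (fun t => (P t).re - (P t).im) := by
    simp only [hPim, hPre]; fun_prop
  have hev1 : ∀ᶠ t in nhds (0 : ℝ), 0 < (P t).im := by
    apply (hcont1.tendsto 0).eventually_const_lt
    simp only [hPim]
    have : 0 < s * u.im := mul_pos hs0 hu0
    linarith
  have hev2 : ∀ᶠ t in nhds (0 : ℝ), 0 < (P t).re - (P t).im := by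
    apply (hcont2.tendsto 0).eventually_const_lt
    simp only [hPim, hPre]
    have : 0 < s * (u.re - u.im) := mul_pos hs0 (by linarith)
    linarith
  have hev3 : ∀ᶠ t in nhds (0 : ℝ), t < 1 := by
    have h01 : Filter.Tendsto (fun t : ℝ => t) (nhds (0 : ℝ)) (nhds 0) := Filter.tendsto_id
    exact h01.eventually_lt_const (by norm_num)
  obtain ⟨t, ht0, ht1, hti, htr⟩ : ∃ t : ℝ, 0 < t ∧ t < 1 ∧ 0 < (P t).im ∧
      0 < (P t).re - (P t).im := by
    have hev : ∀ᶠ t in nhdsWithin (0 : ℝ) (Set.Ioi 0),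
        t < 1 ∧ 0 < (P t).im ∧ 0 < (P t).re - (P t).im :=
      (hev3.and (hev1.and hev2)).filter_mono nhdsWithin_le_nhds
    obtain ⟨t, h1, h2⟩ := (hev.and self_mem_nhdsWithin).exists
    exact ⟨t, h2, h1.1, h1.2.1, h1.2.2⟩
  have huu : dot u u = 1 := by rw [dot_self, hu]; norm_num
  have hPu : dot (P t) u = s + t * (μ u - s) := by
    rw [hdotP, huu, hp0u]; ring
  have hgt : s < dot (P t) u := by
    rw [hPu]
    have : 0 < t * (μ u - s) := mul_pos ht0 (by linarith)
    linarith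
  obtain ⟨r, ⟨x, hx, rfl⟩, hr⟩ := exists_lt_of_csInf_lt hAne (hs ▸ hgt)
  refine ⟨u, P t, x, hu, hPle t ht0.le ht1.le, hx, hr, hu0, hu1, hti, by linarith, ?_⟩
  have hcr : (P t).im * u.re - u.im * (P t).re = t * (u.re * p0.im - u.im * p0.re) := by
    rw [hPre, hPim]; ring
  have hne0 : u.re * p0.im - u.im * p0.re ≠ 0 := by
    intro h0
    -- then p0 = (dot p0 u) u
    have e1 : p0.re = μ u * u.re := by
      rw [← hp0u]; simp only [dot]
      have : u.re * p0.im = u.im * p0.re := by linarith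
      calc p0.re = p0.re * (u.re ^ 2 + u.im ^ 2) := by rw [hsq]; ring
        _ = p0.re * u.re * u.re + u.im * (u.im * p0.re) := by ring
        _ = p0.re * u.re * u.re + u.im * (u.re * p0.im) := by rw [this]
        _ = _ := by ring
    have e2 : p0.im = μ u * u.im := by
      rw [← hp0u]; simp only [dot]
      have : u.re * p0.im = u.im * p0.re := by linarith
      calc p0.im = p0.im * (u.re ^ 2 + u.im ^ 2) := by rw [hsq]; ring
        _ = u.re * (u.re * p0.im) + p0.im * u.im * u.im := by ring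
        _ = u.re * (u.im * p0.re) + p0.im * u.im * u.im := by rw [this]
        _ = _ := by ring
    have e3 : dot p0 x0 = μ u * dot x0 u := by
      simp only [dot]; rw [e1, e2]; ring
    rw [hx0, mul_one] at e3
    have := hp0 x0
    linarith
  have hne1 : (P t).im * u.re - u.im * (P t).re ≠ 0 := by
    rw [hcr]; exact mul_ne_zero ht0.ne' hne0
  rcases lt_or_gt_of_ne hne1 with h | h
  · right; linarith
  · left; linarith

end ConeE
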