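import Pool.Agent.ConeE.Trap
import Pool.Agent.ConeE.NonEuc
import Pool.Agent.ConeE.Euc
import Pool.Agent.ConeE.Fin

/-! Deterministic assembly: the reflected embedding, explosion, and the two cases. -/

set_option autoImplicit false

namespace ConeE

open Complex

theorem flp_apply (z : ℂ) :
    flp z = ⟨(z.re + z.im) / Real.sqrt 2, (z.re - z.im) / Real.sqrt 2⟩ := by
  unfold flp
  have h2 : (Real.sqrt 2 : ℂ) ≠ 0 := by
    exact_mod_cast (Real.sqrt_pos.mpr (by norm_num : (0:ℝ) < 2)).ne'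
  have h : (1 + Complex.I) / (Real.sqrt 2 : ℂ) * (starRingEnd ℂ) z
      = ((1 + Complex.I) * (starRingEnd ℂ) z) / (Real.sqrt 2 : ℂ) := by ring
  rw [h]
  apply Complex.ext
  · rw [Complex.div_ofReal_re]
    simp
  · rw [Complex.div_ofReal_im]
    simp
    ring

theorem sqrt_two_pos : (0:ℝ) < Real.sqrt 2 := Real.sqrt_pos.mpr (by norm_num)

theorem sqrt_two_sq : Real.sqrt 2 * Real.sqrt 2 = 2 := Real.mul_self_sqrt (by norm_num)

theorem flp_flp (z : ℂ) : flp (flp z) = z := by
  rw [flp_apply (flp z), flp_apply z]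
  have h := sqrt_two_pos
  have h2 := sqrt_two_sq
  apply Complex.ext
  · simp only
    rw [← add_div, div_div, h2]; ring
  · simp only
    rw [← sub_div, div_div, h2]; ring

theorem flp_add (z w : ℂ) : flp (z + w) = flp z + flp w := by
  unfold flp; rw [map_add]; ring

theorem flp_mul (t : ℝ) (z : ℂ) : flp ((t : ℂ) * z) = (t : ℂ) * flp z := by
  unfold flp; rw [map_mul, Complex.conj_ofReal]; ring

theorem dot_flp (x z : ℂ) : dot (flp x) (flp z) = dot x z := by
  rw [flp_apply, flp_apply]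
  unfold dot
  simp only
  rw [div_mul_div_comm, div_mul_div_comm, sqrt_two_sq]
  ring

theorem norm_flp (z : ℂ) : ‖flp z‖ = ‖z‖ := by
  have h := dot_flp z z
  rw [dot_self, dot_self] at h
  have h1 := norm_nonneg (flp z)
  have h2 := norm_nonneg z
  nlinarith [sq_nonneg (‖flp z‖ - ‖z‖), abs_of_nonneg h1, abs_of_nonneg h2, sq_eq_sq₀ h1 h2]

/-- the reflected embedding -/
noncomputable def flpHom (ι : V →+ ℂ) : V →+ ℂ where
  toFun x := flp (ι x)
  map_zero' := by rw [map_zero]; unfold flp; simp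
  map_add' x y := by rw [map_add, flp_add]

theorem flpHom_apply (ι : V →+ ℂ) (x : V) : flpHom ι x = flp (ι x) := rfl

theorem emb_flp {ι : V →+ ℂ} (h : Emb ι) : Emb (flpHom ι) where
  norm_eq x := by rw [flpHom_apply, norm_flp, h.norm_eq]
  near z := by
    obtain ⟨x, hx⟩ := h.near (flp z)
    refine ⟨x, ?_⟩
    have h1 : flpHom ι x - z = flp (ι x - flp z) := by
      have h2 : flp (ι x) = flp ((ι x - flp z) + flp z) := by rw [sub_add_cancel]
      rw [flpHom_apply, h2, flp_add, flp_flp]; ring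
    rw [h1, norm_flp]; exact hx

theorem nrm_flp {μ : ℂ → ℝ} {a b : ℝ} (h : Nrm μ a b) : Nrm (fun z => μ (flp z)) a b where
  pos := h.pos
  sub x y := by
    show μ (flp (x + y)) ≤ _
    rw [flp_add]; exact h.sub _ _
  hom t x ht := by
    show μ (flp ((t : ℂ) * x)) = _
    rw [flp_mul]; exact h.hom t _ ht
  low x := by
    have := h.low (flp x)
    rwa [norm_flp] at this
  up x := by
    have := h.up (flp x)
    rwa [norm_flp] at this
  symI x := by
    show μ (flp (Complex.I * x)) = μ (flp x)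
    have h1 : flp (Complex.I * x) = -(Complex.I * flp x) := by
      unfold flp; rw [map_mul, Complex.conj_I]; ring
    rw [h1, h.neg, h.symI]
  symC x := by
    show μ (flp ((starRingEnd ℂ) x)) = μ (flp x)
    have h1 : flp ((starRingEnd ℂ) x) = Complex.I * (starRingEnd ℂ) (flp x) := by
      rw [flp_apply, flp_apply]
      apply Complex.ext
      · simp
        ring
      · simp
    rw [h1, h.symI, h.symC]

theorem lln_flp {ι : V →+ ℂ} {μ : ℂ → ℝ} {E : Edge → ℝ} (h : LLN ι μ E) :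
    LLN (flpHom ι) (fun z => μ (flp z)) E := by
  intro ε hε
  obtain ⟨R0, hR⟩ := h ε hε
  refine ⟨R0, fun R hRR x y hx hy => ?_⟩
  have := hR R hRR x y hx hy
  have h1 : flp (flpHom ι x - flpHom ι y) = ι x - ι y := by
    have h2 : flpHom ι x - flpHom ι y = flp (ι x - ι y) := by
      have h3 : flp (ι x) = flp ((ι x - ι y) + ι y) := by rw [sub_add_cancel]
      rw [flpHom_apply, flpHom_apply, h3, flp_add]; ring
    rw [h2, flp_flp]
  show |T E x y - μ (flp (flpHom ι x - flpHom ι y))| ≤ _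
  rw [h1]; exact this

/-- explosion -/
theorem explodes_of_lln {ι : V →+ ℂ} (hι : Emb ι) {μ : ℂ → ℝ} {a b : ℝ} (hμ : Nrm μ a b)
    {α : ℝ} (hα : 1 < α) {E : Edge → ℝ} (hE : ∀ e, 0 ≤ E e) (hL : LLN ι μ E) :
    Explodes (tau α E) := by
  obtain ⟨K, δ0, hK, hδ0, H⟩ := sup_bound hι hμ hα (le_refl (1:ℝ))
  obtain ⟨R0, hR0⟩ := hL (δ0 ^ 2) (by positivity)
  set R : ℝ := max (2 * R0) (max (1 / δ0 ^ 2) 0) + 1 with hR
  obtain ⟨y, hy⟩ := hι.near ((R + 1 : ℝ) : ℂ)
  have hy1 : R ≤ nrm y := by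
    rw [← hι.norm_eq]
    have h1 : ‖((R + 1 : ℝ) : ℂ)‖ ≤ ‖ι y‖ + ‖ι y - ((R + 1 : ℝ) : ℂ)‖ := by
      have := norm_sub_le (ι y) (ι y - ((R + 1 : ℝ) : ℂ))
      rwa [sub_sub_cancel] at this
    have h2 : ‖((R + 1 : ℝ) : ℂ)‖ = R + 1 := by
      rw [Complex.norm_real]
      have : 0 ≤ R + 1 := by positivity
      rw [Real.norm_of_nonneg this]
    linarith
  have hRpos : 0 < R := by positivity
  have hRa : 2 * R0 ≤ R := by
    rw [hR]; linarith [le_max_left (2 * R0) (max (1 / δ0 ^ 2) 0)]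
  have hRb : 1 / δ0 ^ 2 ≤ R := by
    rw [hR]
    linarith [le_max_right (2 * R0) (max (1 / δ0 ^ 2) 0), le_max_left (1 / δ0 ^ 2) (0:ℝ)]
  have hny : 0 < nrm y := lt_of_lt_of_le hRpos hy1
  obtain ⟨t, -, ht⟩ := H δ0 hδ0 le_rfl E hE y
    (by
      have : 1 / δ0 ^ 2 ≤ nrm y := hRb.trans hy1
      rw [div_le_iff₀ (by positivity)] at this
      linarith)
    (fun R' hR' => hR0 R' (by linarith))
    (ι y / (nrm y : ℂ))
    (by
      rw [norm_div, hι.norm_eq, Complex.norm_real, Real.norm_of_nonneg (nrm_nonneg y),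
        div_self hny.ne'])
    (by
      have h1 : ι y / (nrm y : ℂ) = ((1 / nrm y : ℝ) : ℂ) * ι y := by
        push_cast; ring
      rw [h1, dot_comm, dot_mul, dot_self, hι.norm_eq]
      field_simp)
  exact explodes_of_one (fun e => tau_nonneg hE e) ht

/-- the conclusion in the reflected embedding -/
theorem conf_of_conf_flp {τ : Edge → ℝ} {c : ℝ} (hc : 0 < c)
    (h : ∃ (ν : ℂ) (M : ℝ), ‖ν‖ = 1 ∧ ∀ x ∈ Ainf τ, c * nrm x - M ≤ dot ν (flpHom toC x)) :
    Conf τ := by
  obtain ⟨ν, M, hν, h⟩ := h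
  refine ⟨flp ν, c, M, by rw [norm_flp, hν], hc, fun x hx => ?_⟩
  have h1 := h x hx
  rw [flpHom_apply] at h1
  have h2 : dot (flp ν) (toC x) = dot ν (flp (toC x)) := by
    rw [← dot_flp (flp ν) (toC x), flp_flp]
  rw [h2]; exact h1

/-- the case of a norm which is not Euclidean -/
theorem conf_noneuc {μ : ℂ → ℝ} {a b : ℝ} (hμ : Nrm μ a b)
    (hne : ¬ ∃ c : ℝ, ∀ z, μ z = c * ‖z‖) :
    ∃ α0 : ℝ, ∀ α : ℝ, α0 < α → ∀ E : Edge → ℝ, (∀ e, 0 ≤ E e) → LLN toC μ E →
      Explodes (tau α E) →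
      (∀ e, (Via (tau α E) e).Finite ∨ (Avoid (tau α E) e).Finite) → Conf (tau α E) := by
  obtain ⟨u, p, x, hu, hp, hx, hA, h1, h2, h3, h4, h5⟩ := exists_data hμ hne
  rcases h5 with h5 | h5
  · obtain ⟨c, hc, α0, H⟩ := trapped_of_data emb_toC hμ hu hp hx hA (h1.trans h2) h1 h5 h4
    refine ⟨α0, fun α hα E hE hL hS hU => ?_⟩
    obtain ⟨ν, M, hν, h⟩ := conf_of_trapped (fun e => tau_nonneg hE e) hS hU hc (H α hα E hE hL)
    exact ⟨ν, c, M, hν, hc, h⟩
  · have hs := sqrt_two_pos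
    obtain ⟨c, hc, α0, H⟩ := trapped_of_data (u := flp u) (p := flp p) (x := flp x)
      (emb_flp emb_toC) (nrm_flp hμ)
      (by rw [norm_flp, hu])
      (fun z => by
        have h := hp (flp z)
        rw [← dot_flp, flp_flp] at h
        exact h)
      (by rw [dot_flp, hx])
      (by rw [dot_flp]; show μ (flp (flp x)) < _; rw [flp_flp]; exact hA)
      (by rw [flp_apply]; simp only; apply div_pos _ hs; linarith)
      (by rw [flp_apply]; simp only; apply div_pos _ hs; linarith)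
      (by
        rw [flp_apply, flp_apply]
        simp only
        rw [div_mul_div_comm, div_mul_div_comm]
        apply div_lt_div_of_pos_right _ (by positivity)
        nlinarith)
      (by
        rw [flp_apply]; simp only
        apply div_lt_div_of_pos_right _ hs
        linarith)
    refine ⟨α0, fun α hα E hE hL hS hU => ?_⟩
    exact conf_of_conf_flp hc (conf_of_trapped (fun e => tau_nonneg hE e) hS hU hc
      (H α hα E hE (lln_flp hL)))

end ConeE
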