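import Pool.Agent.ConeE.Inward
import Pool.Agent.ConeE.Chop

/-! Euclidean case: angular displacement during one stage (module EUS). -/

set_option autoImplicit false

namespace ConeE

theorem eus_convex {α s t : ℝ} (hα : 1 < α) (hs : 0 < s) (ht : 0 < t) :
    (s ^ (1 - α) - t ^ (1 - α)) / (α - 1) ≤ s ^ (-α) * (t - s) := by
  have hβ : 0 < α - 1 := by linarith
  rw [div_le_iff₀ hβ]
  have hq : 0 < t / s := div_pos ht hs
  have h1 : (t / s) ^ (1 - α) ≥ 1 - (α - 1) * (t / s - 1) := by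
    have e : (t / s) ^ (1 - α) = Real.exp (-((α - 1) * Real.log (t / s))) := by
      rw [Real.rpow_def_of_pos hq]; congr 1; ring
    rw [e]
    have h2 := Real.add_one_le_exp (-((α - 1) * Real.log (t / s)))
    have h3 := Real.log_le_sub_one_of_pos hq
    have h4 := mul_le_mul_of_nonneg_left h3 hβ.le
    linarith
  have h5 : t ^ (1 - α) = s ^ (1 - α) * (t / s) ^ (1 - α) := by
    rw [← Real.mul_rpow hs.le hq.le]; congr 1; field_simp
  have h6 : s ^ (1 - α) = s * s ^ (-α) := by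
    rw [show (1 - α) = 1 + (-α) by ring, Real.rpow_add hs, Real.rpow_one]
  have h7 : 0 < s ^ (-α) := Real.rpow_pos_of_pos hs _
  rw [h5, h6]
  have h8 : s * s ^ (-α) * (1 - (α - 1) * (t / s - 1)) ≤ s * s ^ (-α) * (t / s) ^ (1 - α) :=
    mul_le_mul_of_nonneg_left h1 (by positivity)
  have h9 : s * s ^ (-α) * (1 - (α - 1) * (t / s - 1))
      = s * s ^ (-α) - s ^ (-α) * (t - s) * (α - 1) := by
    field_simp
  linarith

theorem eus_tele {α : ℝ} (hα : 1 < α) (f : ℕ → ℝ) (n : ℕ) (hf : ∀ i, i ≤ n → 0 < f i) :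
    (f 0 ^ (1 - α) - f n ^ (1 - α)) / (α - 1) ≤
      ∑ i ∈ Finset.range n, f i ^ (-α) * (f (i + 1) - f i) := by
  have h1 : (f 0 ^ (1 - α) - f n ^ (1 - α)) / (α - 1) =
      ∑ i ∈ Finset.range n, (f i ^ (1 - α) / (α - 1) - f (i + 1) ^ (1 - α) / (α - 1)) := by
    rw [Finset.sum_range_sub', sub_div]
  rw [h1]
  apply Finset.sum_le_sum
  intro i hi
  rw [Finset.mem_range] at hi
  rw [← sub_div]
  exact eus_convex hα (hf i hi.le) (hf (i + 1) hi)

/-- the angular displacement -/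
theorem eus_angle {a b : ℂ} {ρ : ℝ} (hρ : 0 < ρ) (ha : ρ ≤ ‖a‖) (hb : ρ ≤ ‖b‖) :
    ‖b / (‖b‖ : ℂ) - a / (‖a‖ : ℂ)‖ ≤
      Real.sqrt 2 / ρ * (Real.sqrt ‖b - a‖ * Real.sqrt (‖b - a‖ - (‖b‖ - ‖a‖))) := by
  have hA : 0 < ‖a‖ := lt_of_lt_of_le hρ ha
  have hB : 0 < ‖b‖ := lt_of_lt_of_le hρ hb
  have hex : 0 ≤ ‖b - a‖ - (‖b‖ - ‖a‖) := by
    have := norm_sub_norm_le b a
    linarith
  have e1 : ‖b / (‖b‖ : ℂ) - a / (‖a‖ : ℂ)‖ ^ 2 * (‖a‖ * ‖b‖) =
      ‖b - a‖ ^ 2 - (‖b‖ - ‖a‖) ^ 2 := by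
    have ha2 : ‖a‖ ^ 2 = a.re ^ 2 + a.im ^ 2 := by
      rw [← Complex.normSq_eq_norm_sq, Complex.normSq_apply]; ring
    have hb2 : ‖b‖ ^ 2 = b.re ^ 2 + b.im ^ 2 := by
      rw [← Complex.normSq_eq_norm_sq, Complex.normSq_apply]; ring
    rw [← Complex.normSq_eq_norm_sq, ← Complex.normSq_eq_norm_sq, Complex.normSq_apply,
      Complex.normSq_apply]
    have r1 : (b / (‖b‖ : ℂ) - a / (‖a‖ : ℂ)).re = b.re / ‖b‖ - a.re / ‖a‖ := by
      rw [Complex.sub_re, Complex.div_ofReal_re, Complex.div_ofReal_re]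
    have r2 : (b / (‖b‖ : ℂ) - a / (‖a‖ : ℂ)).im = b.im / ‖b‖ - a.im / ‖a‖ := by
      rw [Complex.sub_im, Complex.div_ofReal_im, Complex.div_ofReal_im]
    rw [r1, r2, Complex.sub_re, Complex.sub_im]
    set A := ‖a‖ with hAdef
    set B := ‖b‖ with hBdef
    have : ((b.re / B - a.re / A) * (b.re / B - a.re / A) +
        (b.im / B - a.im / A) * (b.im / B - a.im / A)) * (A * B) =
        (b.re ^ 2 + b.im ^ 2) * A / B + (a.re ^ 2 + a.im ^ 2) * B / A
          - 2 * (a.re * b.re + a.im * b.im) := by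
      field_simp
      ring
    rw [this, ← ha2, ← hb2]
    have : B ^ 2 * A / B + A ^ 2 * B / A = 2 * (A * B) := by
      field_simp; ring
    rw [this]
    nlinarith
  have e2 : ‖b / (‖b‖ : ℂ) - a / (‖a‖ : ℂ)‖ ^ 2 * (‖a‖ * ‖b‖) ≤
      2 * (‖b - a‖ * (‖b - a‖ - (‖b‖ - ‖a‖))) := by
    rw [e1]
    have h1 : ‖b - a‖ ^ 2 - (‖b‖ - ‖a‖) ^ 2 =
        (‖b - a‖ + (‖b‖ - ‖a‖)) * (‖b - a‖ - (‖b‖ - ‖a‖)) := by ring
    rw [h1]
    have h2 : ‖b - a‖ + (‖b‖ - ‖a‖) ≤ 2 * ‖b - a‖ := by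
      have := norm_sub_norm_le b a
      linarith
    calc _ ≤ (2 * ‖b - a‖) * (‖b - a‖ - (‖b‖ - ‖a‖)) := mul_le_mul_of_nonneg_right h2 hex
      _ = _ := by ring
  have e3 : ρ ^ 2 ≤ ‖a‖ * ‖b‖ := by
    rw [pow_two]; exact mul_le_mul ha hb hρ.le hA.le
  have e4 : ‖b / (‖b‖ : ℂ) - a / (‖a‖ : ℂ)‖ ^ 2 * ρ ^ 2 ≤
      2 * (‖b - a‖ * (‖b - a‖ - (‖b‖ - ‖a‖))) :=
    le_trans (mul_le_mul_of_nonneg_left e3 (sq_nonneg _)) e2
  have e5 : (‖b / (‖b‖ : ℂ) - a / (‖a‖ : ℂ)‖ * ρ) ^ 2 ≤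
      (Real.sqrt 2 * (Real.sqrt ‖b - a‖ * Real.sqrt (‖b - a‖ - (‖b‖ - ‖a‖)))) ^ 2 := by
    rw [mul_pow, mul_pow, mul_pow, Real.sq_sqrt (by norm_num : (0 : ℝ) ≤ 2),
      Real.sq_sqrt (norm_nonneg _), Real.sq_sqrt hex]
    exact e4
  have e6 := abs_le_of_sq_le_sq' e5 (by positivity)
  rw [div_mul_eq_mul_div, le_div_iff₀ hρ]
  exact e6.2

theorem eus_last {a b : ℂ} (ha : 0 < ‖a‖) (hb : 0 < ‖b‖) {δ : ℝ}
    (h : ‖a - b‖ ≤ δ * ‖b‖) : ‖a / (‖a‖ : ℂ) - b / (‖b‖ : ℂ)‖ ≤ 2 * δ := by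
  have hAne : (‖a‖ : ℂ) ≠ 0 := by exact_mod_cast ha.ne'
  have hBne : (‖b‖ : ℂ) ≠ 0 := by exact_mod_cast hb.ne'
  have e : a / (‖a‖ : ℂ) - b / (‖b‖ : ℂ) =
      a / (‖a‖ : ℂ) * (((‖b‖ - ‖a‖ : ℝ) : ℂ) / (‖b‖ : ℂ)) + (a - b) / (‖b‖ : ℂ) := by
    push_cast
    field_simp
    ring
  rw [e]
  refine (norm_add_le _ _).trans ?_
  have h1 : ‖a / (‖a‖ : ℂ)‖ = 1 := by
    rw [norm_div, Complex.norm_real, norm_norm, div_self ha.ne']
  rw [norm_mul, h1, one_mul, norm_div, norm_div, Complex.norm_real, Complex.norm_real, norm_norm]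
  have h2 : ‖‖b‖ - ‖a‖‖ ≤ ‖a - b‖ := by
    rw [Real.norm_eq_abs]
    have := abs_norm_sub_norm_le b a
    rwa [norm_sub_rev] at this
  have h3 : ‖‖b‖ - ‖a‖‖ / ‖b‖ ≤ δ := by rw [div_le_iff₀ hb]; linarith
  have h4 : ‖a - b‖ / ‖b‖ ≤ δ := by rw [div_le_iff₀ hb]; exact h
  linarith

/-- a near point has comparable `-β` power -/
theorem eus_near {α δ s t : ℝ} (hα : 1 < α) (hs : 0 < s) (ht : 0 < t) (hδ : 0 < δ)
    (hst : t ≤ (1 + δ) * s) (hβδ : (α - 1) * δ ≤ 1 / 2) :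
    s ^ (1 - α) ≤ (1 + 2 * (α - 1) * δ) * t ^ (1 - α) := by
  have hβ : 0 < α - 1 := by linarith
  have h1 : ((1 + δ) * s) ^ (1 - α) ≤ t ^ (1 - α) :=
    Real.rpow_le_rpow_of_nonpos ht hst (by linarith)
  rw [Real.mul_rpow (by linarith) hs.le] at h1
  have h2 : (1 + δ) ^ (α - 1) ≤ 1 + 2 * (α - 1) * δ := by
    have h3 : (1 + δ) ^ (α - 1) ≤ Real.exp ((α - 1) * δ) := by
      rw [Real.rpow_def_of_pos (by linarith)]
      apply Real.exp_le_exp.2
      have := Real.log_le_sub_one_of_pos (show (0 : ℝ) < 1 + δ by linarith)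
      have := mul_le_mul_of_nonneg_right this hβ.le
      nlinarith
    have h4 : |(α - 1) * δ| ≤ 1 := by
      rw [abs_of_nonneg (by positivity)]; linarith
    have h5 := abs_le.1 (Real.abs_exp_sub_one_sub_id_le h4)
    have h6 : ((α - 1) * δ) ^ 2 ≤ (α - 1) * δ := by
      have : 0 ≤ (α - 1) * δ := by positivity
      nlinarith
    nlinarith [h5.2]
  have h7 : (1 + δ) ^ (1 - α) * (1 + δ) ^ (α - 1) = 1 := by
    rw [← Real.rpow_add (by linarith)]
    simp
  have h8 : 0 < (1 + δ) ^ (α - 1) := Real.rpow_pos_of_pos (by linarith) _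
  calc s ^ (1 - α) = (1 + δ) ^ (α - 1) * ((1 + δ) ^ (1 - α) * s ^ (1 - α)) := by
        rw [← mul_assoc, mul_comm ((1 + δ) ^ (α - 1)), h7, one_mul]
    _ ≤ (1 + δ) ^ (α - 1) * t ^ (1 - α) := mul_le_mul_of_nonneg_left h1 h8.le
    _ ≤ (1 + 2 * (α - 1) * δ) * t ^ (1 - α) :=
        mul_le_mul_of_nonneg_right h2 (Real.rpow_nonneg ht.le _)

theorem eus_nrm {c : ℝ} (hc : 0 < c) : Nrm (fun z : ℂ => c * ‖z‖) c c where
  pos := hc
  sub := by
    intro x y
    have := norm_add_le x y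
    have := mul_le_mul_of_nonneg_left this hc.le
    linarith
  hom := by
    intro t x ht
    simp only [norm_mul, Complex.norm_real, Real.norm_eq_abs, abs_of_nonneg ht]
    ring
  low := fun x => le_rfl
  up := fun x => le_rfl
  symI := by intro x; simp
  symC := by intro x; simp

theorem appr_mono {ι : V →+ ℂ} {μ : ℂ → ℝ} {E : Edge → ℝ} {ε ε' R : ℝ} (hR : 0 ≤ R)
    (h : Appr ι μ E ε R) (hε : ε ≤ ε') : Appr ι μ E ε' R := by
  intro x y hx hy
  exact (h x y hx hy).trans (mul_le_mul_of_nonneg_right hε hR)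

/-- the polynomial rate implies the law of large numbers -/
theorem eus_lln {ι : V →+ ℂ} {μ : ℂ → ℝ} {E : Edge → ℝ} {η : ℝ} (hη : 0 < η)
    (h : ∃ R1 : ℝ, ∀ R, R1 ≤ R → Appr ι μ E (R ^ (-η)) R) : LLN ι μ E := by
  obtain ⟨R1, hR1⟩ := h
  intro ε hε
  have h1 := (tendsto_rpow_neg_atTop hη).eventually_lt_const hε
  obtain ⟨R2, hR2⟩ := Filter.eventually_atTop.1 h1
  refine ⟨max (max R1 R2) 0, fun R hR => ?_⟩
  have a1 : R1 ≤ R := (le_max_left _ _).trans ((le_max_left _ _).trans hR)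
  have a2 : R2 ≤ R := (le_max_right _ _).trans ((le_max_left _ _).trans hR)
  have a3 : 0 ≤ R := (le_max_right _ _).trans hR
  exact appr_mono a3 (hR1 R a1) (hR2 R a2).le

/-- the main numerical estimate -/
theorem eus_main {α K1 K2 δ c P Z X G W1 W2 : ℝ} (hα : 2 ≤ α) (hc : 0 < c) (hK1 : 0 < K1)
    (hδ : 0 < δ) (hK2δ : K2 * δ ≤ 1 / 2) (hK2 : 0 < K2)
    (hP : 0 < P)
    (hZP : Z ≤ 2 ^ (α - 1) * P)
    (h1 : (1 - K2 * δ) * (c * ((P - (1 + 2 * (α - 1) * δ) * Z) / (α - 1) + G)) ≤ W1)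
    (h2 : (1 - K2 * δ) * (c * ((Z - 2 * X) / (α - 1))) ≤ W2)
    (h3 : W1 + W2 ≤ (1 + K1 * δ) * (c / (α - 1)) * P) :
    (α - 1) * G ≤ (2 * (K1 + K2) + 2 * (α - 1) * 2 ^ (α - 1)) * δ * P + 2 * X := by
  set β := α - 1 with hβ
  have hβ1 : 1 ≤ β := by linarith
  have hβ0 : 0 < β := by linarith
  have e1 : (1 - K2 * δ) * (c * ((P - (1 + 2 * β * δ) * Z) / β + G)) +
      (1 - K2 * δ) * (c * ((Z - 2 * X) / β)) =
      (c / β) * ((1 - K2 * δ) * (P - 2 * β * δ * Z + β * G - 2 * X)) := by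
    field_simp
    ring
  have e2 : (c / β) * ((1 - K2 * δ) * (P - 2 * β * δ * Z + β * G - 2 * X)) ≤
      (c / β) * ((1 + K1 * δ) * P) := by
    rw [← e1]
    calc _ ≤ W1 + W2 := add_le_add h1 h2
      _ ≤ _ := h3
      _ = _ := by ring
  have e3 : (1 - K2 * δ) * (P - 2 * β * δ * Z + β * G - 2 * X) ≤ (1 + K1 * δ) * P :=
    le_of_mul_le_mul_left e2 (by positivity)
  have hq : 1 / 2 ≤ 1 - K2 * δ := by linarith
  have hq0 : 0 < 1 - K2 * δ := by linarith
  -- (1-K2δ)(βG - 2βδZ - 2X) ≤ (K1+K2)δP ≤ (1-K2δ) 2 (K1+K2) δ P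
  have e4 : (1 - K2 * δ) * (β * G - 2 * β * δ * Z - 2 * X) ≤
      (1 - K2 * δ) * (2 * (K1 + K2) * δ * P) := by
    have h5 : (K1 + K2) * δ * P ≤ (1 - K2 * δ) * (2 * (K1 + K2) * δ * P) := by
      have : 0 ≤ (K1 + K2) * δ * P := by positivity
      nlinarith
    nlinarith
  have e5 : β * G - 2 * β * δ * Z - 2 * X ≤ 2 * (K1 + K2) * δ * P :=
    le_of_mul_le_mul_left e4 hq0
  have e6 : 2 * β * δ * Z ≤ 2 * β * δ * (2 ^ β * P) :=
    mul_le_mul_of_nonneg_left hZP (by positivity)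
  nlinarith

theorem euc_stage {ι : V →+ ℂ} (hι : Emb ι) {c η : ℝ} (hc : 0 < c) (hη : 0 < η) (hη1 : η ≤ 1) :
    ∃ C α1 : ℝ, 0 < C ∧ 2 ≤ α1 ∧ ∀ α : ℝ, α1 ≤ α → ∃ K : ℝ, 0 < K ∧
      ∀ E : Edge → ℝ, (∀ e, 0 ≤ E e) →
      (∃ R1 : ℝ, ∀ R, R1 ≤ R → Appr ι (fun z => c * ‖z‖) E (R ^ (-η)) R) →
      ∃ R0 : ℝ, 0 < R0 ∧ ∀ y : V, R0 ≤ nrm y → ∀ l1 l2 : List Step,
        wt (tau α E) y (l1 ++ l2) < S (tau α E) y →
        (∀ l3 l4, l1 = l3 ++ l4 →
          nrm (endp y l3) ≤ Real.exp (1 / (α - 1)) * nrm y + 1) →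
        ‖ι (endp y l1) / (nrm (endp y l1) : ℂ) - ι y / (nrm y : ℂ)‖ ≤
          K * nrm y ^ (-(η / 4)) +
          C / (α - 1) * (nrm y / nrm (endp y (l1 ++ l2))) ^ ((α - 1) / 2) := by
  have hμ := eus_nrm hc
  obtain ⟨Kin, hKin, hin⟩ := inward hι hμ
  refine ⟨8 * Real.exp 3, max 2 (1 + 2 * Kin), by positivity, le_max_left _ _, ?_⟩
  intro α hα1
  have hα2 : 2 ≤ α := (le_max_left _ _).trans hα1
  have hαK : 1 + 2 * Kin ≤ α := (le_max_right _ _).trans hα1
  have hα : 1 < α := by linarith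
  obtain ⟨K1, δ1, hK1, hδ1, hsup⟩ := sup_bound hι hμ hα (le_refl (1 : ℝ))
  obtain ⟨K2, δ2, hK2, hδ2, hchop⟩ := chop hι hμ hα
  set β := α - 1 with hβdef
  have hβ1 : 1 ≤ β := by linarith
  have hβ0 : 0 < β := by linarith
  set K3 : ℝ := 2 * (K1 + K2) + 2 * β * 2 ^ β with hK3def
  have hK3 : 0 < K3 := by positivity
  refine ⟨4 * Real.exp 3 / β * Real.sqrt 2 * Real.sqrt (2 * K3) + 4, by positivity, ?_⟩
  intro E hE hrate
  have hlln := eus_lln hη hrate
  obtain ⟨Rin, hRin⟩ := hin α hα2 E hE hlln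
  obtain ⟨R1, hR1⟩ := hrate
  -- smallness of δ
  set δs : ℝ := min (min δ1 δ2) (min (1 / (2 * K2)) (min (1 / K1) (1 / (2 * β)))) with hδs
  have hδs0 : 0 < δs := by
    rw [hδs]; simp only [lt_min_iff]
    refine ⟨⟨hδ1, hδ2⟩, by positivity, by positivity, by positivity⟩
  obtain ⟨R3, hR3⟩ : ∃ R3 : ℝ, ∀ r, R3 ≤ r → 2 * r ^ (-(η / 2)) ≤ δs := by
    have h1 := (tendsto_rpow_neg_atTop (show 0 < η / 2 by linarith)).eventually_lt_const
      (show 0 < δs / 2 by linarith)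
    obtain ⟨R2, hR2⟩ := Filter.eventually_atTop.1 h1
    refine ⟨R2, fun r hr => ?_⟩
    have := (hR2 r hr).le
    linarith
  refine ⟨max (max (max 1 Rin) (max (2 * R1) R3)) α,
    lt_of_lt_of_le zero_lt_one (le_max_of_le_left (le_max_of_le_left (le_max_left _ _))), ?_⟩
  intro y hy l1 l2 hwt hup
  have hr1 : 1 ≤ nrm y := by
    exact (le_max_of_le_left (le_max_of_le_left (le_max_left _ _))).trans hy
  have hrin : Rin ≤ nrm y :=
    (le_max_of_le_left (le_max_of_le_left (le_max_right _ _))).trans hy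
  have hrR1 : 2 * R1 ≤ nrm y :=
    (le_max_of_le_left (le_max_of_le_right (le_max_left _ _))).trans hy
  have hrR3 : R3 ≤ nrm y :=
    (le_max_of_le_left (le_max_of_le_right (le_max_right _ _))).trans hy
  have hrα : α ≤ nrm y := (le_max_right _ _).trans hy
  set r := nrm y with hrdef
  have hr0 : 0 < r := by linarith
  set δ : ℝ := 2 * r ^ (-(η / 2)) with hδdef
  have hδ0 : 0 < δ := by positivity
  have hδle : δ ≤ δs := hR3 r hrR3
  have hδ1' : δ ≤ δ1 := hδle.trans (by rw [hδs]; simp)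
  have hδ2' : δ ≤ δ2 := hδle.trans (by rw [hδs]; simp)
  have hδK2 : K2 * δ ≤ 1 / 2 := by
    have : δ ≤ 1 / (2 * K2) := hδle.trans (by rw [hδs]; simp)
    rw [le_div_iff₀ (by positivity)] at this
    linarith
  have hδK1 : K1 * δ ≤ 1 := by
    have : δ ≤ 1 / K1 := hδle.trans (by rw [hδs]; simp)
    rw [le_div_iff₀ (by positivity)] at this
    linarith
  have hδβ : β * δ ≤ 1 / 2 := by
    have : δ ≤ 1 / (2 * β) := hδle.trans (by rw [hδs]; simp)
    rw [le_div_iff₀ (by positivity)] at this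
    linarith
  have hδsq : δ ^ 2 = 4 * r ^ (-η) := by
    rw [hδdef, mul_pow, ← Real.rpow_natCast (r ^ (-(η / 2))), ← Real.rpow_mul hr0.le]
    norm_num
  have hδr : 2 ≤ δ ^ 2 * r := by
    rw [hδsq]
    have e : r ^ (-η) * r = r ^ (1 - η) := by
      rw [show (1 - η) = -η + 1 by ring, Real.rpow_add hr0, Real.rpow_one]
    have h1 : 1 ≤ r ^ (1 - η) := Real.one_le_rpow hr1 (by linarith)
    nlinarith
  -- the approximation
  have happr : ∀ R, r / 2 ≤ R → Appr ι (fun z => c * ‖z‖) E (δ ^ 2) R := by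
    intro R hR
    have hRpos : 0 < R := by linarith
    refine appr_mono hRpos.le (hR1 R (by linarith)) ?_
    rw [hδsq]
    have h1 : R ^ (-η) ≤ (r / 2) ^ (-η) :=
      Real.rpow_le_rpow_of_nonpos (by linarith) hR (by linarith)
    have h2 : (r / 2) ^ (-η) = r ^ (-η) * 2 ^ η := by
      rw [Real.div_rpow hr0.le (by norm_num), Real.rpow_neg (by norm_num : (0 : ℝ) ≤ 2)]
      field_simp
    have h3 : (2 : ℝ) ^ η ≤ 2 := by
      calc (2 : ℝ) ^ η ≤ 2 ^ (1 : ℝ) := Real.rpow_le_rpow_of_exponent_le (by norm_num) hη1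
        _ = 2 := Real.rpow_one 2
    have h4 : 0 < r ^ (-η) := Real.rpow_pos_of_pos hr0 _
    calc R ^ (-η) ≤ r ^ (-η) * 2 ^ η := by rw [← h2]; exact h1
      _ ≤ r ^ (-η) * 2 := mul_le_mul_of_nonneg_left h3 h4.le
      _ ≤ 4 * r ^ (-η) := by linarith
  have hτ : ∀ e, 0 ≤ tau α E e := tau_nonneg hE
  -- vertices are far
  have hfar : ∀ l3 l4, l1 ++ l2 = l3 ++ l4 → r / 2 ≤ nrm (endp y l3) := by
    intro l3 l4 h
    have h1 : wt (tau α E) y l3 < S (tau α E) y := by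
      refine lt_of_le_of_lt ?_ hwt
      rw [h, wt_append]
      have := wt_nonneg hτ (endp y l3) l4
      linarith
    have h2 := hRin y hrin l3 h1
    refine le_trans ?_ h2
    have h3 : Kin / (α - 1) ≤ 1 / 2 := by
      rw [div_le_iff₀ (by linarith)]; linarith
    nlinarith
  set z := endp y l1 with hz
  set x := endp y (l1 ++ l2) with hx
  have hzr : r / 2 ≤ nrm z := hfar l1 l2 rfl
  have hxr : r / 2 ≤ nrm x := hfar (l1 ++ l2) [] (by simp)
  have hz0 : 0 < nrm z := by linarith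
  have hx0 : 0 < nrm x := by linarith
  have hxz : x = endp z l2 := by rw [hx, endp_append]
  -- chop on l1
  obtain ⟨n, C1, hC10, hC1v, hC1step, hC1last, hC1sum⟩ := hchop δ hδ0 hδ2' E hE (r / 2)
    (by linarith) happr y l1 (fun l3 l4 h => hfar l3 (l4 ++ l2) (by rw [h, List.append_assoc]))
  -- chop on l2
  obtain ⟨m, C2, hC20, hC2v, hC2step, hC2last, hC2sum⟩ := hchop δ hδ0 hδ2' E hE (r / 2)
    (by linarith) happr z l2 (fun l3 l4 h => by
      have := hfar (l1 ++ l3) l4 (by rw [h, List.append_assoc])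
      rwa [endp_append] at this)
  -- explosion time
  obtain ⟨t, ht, htinf⟩ := hsup δ hδ0 hδ1' E hE y (by linarith) (by
      intro R hR; exact happr R hR) (ι y / (nrm y : ℂ)) (by
        rw [norm_div, hι.norm_eq, Complex.norm_real, Real.norm_eq_abs, ← hrdef,
          abs_of_pos hr0, div_self hr0.ne'])
      (by
        have e : ι y / (nrm y : ℂ) = (((1 / nrm y : ℝ)) : ℂ) * ι y := by
          push_cast; ring
        rw [e, dot_comm, dot_mul, dot_self, hι.norm_eq, ← hrdef]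
        field_simp)
  have hSt : S (tau α E) y ≤ t := S_le_of_infinite hτ htinf
  have hnorm1 : ‖ι y / (nrm y : ℂ)‖ = 1 := by
    rw [norm_div, hι.norm_eq, Complex.norm_real, Real.norm_eq_abs, ← hrdef,
          abs_of_pos hr0, div_self hr0.ne']
  simp only [hnorm1, mul_one] at ht
  -- positivity of the vertices
  have hC1pos : ∀ i, i ≤ n → r / 2 ≤ nrm (C1 i) := by
    intro i hi
    obtain ⟨l3, l4, h3, h4⟩ := hC1v i hi
    rw [h4]; exact hfar l3 (l4 ++ l2) (by rw [h3, List.append_assoc])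
  have hC2pos : ∀ i, i ≤ m → r / 2 ≤ nrm (C2 i) := by
    intro i hi
    obtain ⟨l3, l4, h3, h4⟩ := hC2v i hi
    rw [h4]
    have := hfar (l1 ++ l3) l4 (by rw [h3, List.append_assoc])
    rwa [endp_append] at this
  set D : ℕ → ℝ := fun i => ‖ι (C1 (i + 1)) - ι (C1 i)‖ with hD
  set ex : ℕ → ℝ := fun i => D i - (nrm (C1 (i + 1)) - nrm (C1 i)) with hex
  have hD0 : ∀ i, 0 ≤ D i := fun i => norm_nonneg _
  have hex0 : ∀ i, 0 ≤ ex i := by
    intro i
    simp only [hex, hD]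
    have := norm_sub_norm_le (ι (C1 (i + 1))) (ι (C1 i))
    rw [hι.norm_eq, hι.norm_eq] at this
    linarith
  set G : ℝ := ∑ i ∈ Finset.range n, nrm (C1 i) ^ (-α) * ex i with hG
  set P : ℝ := r ^ (1 - α) with hP
  set Z : ℝ := nrm z ^ (1 - α) with hZ
  set X : ℝ := nrm x ^ (1 - α) with hX
  have hP0 : 0 < P := Real.rpow_pos_of_pos hr0 _
  have hZ0 : 0 < Z := Real.rpow_pos_of_pos hz0 _
  have hX0 : 0 < X := Real.rpow_pos_of_pos hx0 _
  have hq0 : 0 < 1 - K2 * δ := by linarith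
  have hlast1 : nrm z ≤ (1 + δ) * nrm (C1 n) := by
    have h1 : ‖ι z‖ ≤ ‖ι z - ι (C1 n)‖ + ‖ι (C1 n)‖ := by
      have := norm_add_le (ι z - ι (C1 n)) (ι (C1 n))
      simpa using this
    rw [hι.norm_eq, hι.norm_eq] at h1
    linarith
  have hlast2 : nrm x ≤ (1 + δ) * nrm (C2 m) := by
    have h1 : ‖ι x‖ ≤ ‖ι x - ι (C2 m)‖ + ‖ι (C2 m)‖ := by
      have := norm_add_le (ι x - ι (C2 m)) (ι (C2 m))
      simpa using this
    rw [hι.norm_eq, hι.norm_eq, hxz] at h1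
    rw [hxz]
    linarith
  -- lower bound for the first part
  have hW1 : (1 - K2 * δ) * (c * ((P - (1 + 2 * (α - 1) * δ) * Z) / (α - 1) + G)) ≤
      wt (tau α E) y l1 := by
    refine le_trans ?_ hC1sum
    apply mul_le_mul_of_nonneg_left _ hq0.le
    have h1 : ∑ i ∈ Finset.range n, nrm (C1 i) ^ (-α) * (c * ‖ι (C1 (i + 1)) - ι (C1 i)‖) =
        c * (∑ i ∈ Finset.range n, nrm (C1 i) ^ (-α) * (nrm (C1 (i + 1)) - nrm (C1 i)) + G) := by
      rw [hG, ← Finset.sum_add_distrib, Finset.mul_sum]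
      apply Finset.sum_congr rfl
      intro i _
      simp only [hex, hD]; ring
    rw [h1]
    apply mul_le_mul_of_nonneg_left _ hc.le
    have h2 := eus_tele hα (fun i => nrm (C1 i)) n (fun i hi => by
      have := hC1pos i hi; linarith)
    simp only [hC10] at h2
    have h3 := eus_near (s := nrm (C1 n)) (t := nrm z) hα
      (by have := hC1pos n le_rfl; linarith) hz0 hδ0 hlast1 hδβ
    have h4 : (P - (1 + 2 * (α - 1) * δ) * Z) / (α - 1) ≤
        (nrm y ^ (1 - α) - nrm (C1 n) ^ (1 - α)) / (α - 1) := by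
      apply div_le_div_of_nonneg_right _ (by linarith)
      simp only [hP, hZ]; linarith
    linarith
  have hW2 : (1 - K2 * δ) * (c * ((Z - 2 * X) / (α - 1))) ≤ wt (tau α E) z l2 := by
    refine le_trans ?_ hC2sum
    apply mul_le_mul_of_nonneg_left _ hq0.le
    have h1 : c * (∑ i ∈ Finset.range m, nrm (C2 i) ^ (-α) * (nrm (C2 (i + 1)) - nrm (C2 i))) ≤
        ∑ i ∈ Finset.range m, nrm (C2 i) ^ (-α) * (c * ‖ι (C2 (i + 1)) - ι (C2 i)‖) := by
      rw [Finset.mul_sum]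
      apply Finset.sum_le_sum
      intro i hi
      rw [Finset.mem_range] at hi
      have h5 : nrm (C2 (i + 1)) - nrm (C2 i) ≤ ‖ι (C2 (i + 1)) - ι (C2 i)‖ := by
        have := norm_sub_norm_le (ι (C2 (i + 1))) (ι (C2 i))
        rwa [hι.norm_eq, hι.norm_eq] at this
      have h6 : 0 ≤ nrm (C2 i) ^ (-α) := Real.rpow_nonneg (nrm_nonneg _) _
      have h7 := mul_le_mul_of_nonneg_left (mul_le_mul_of_nonneg_left h5 hc.le) h6
      linarith
    refine le_trans ?_ h1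
    apply mul_le_mul_of_nonneg_left _ hc.le
    have h2 := eus_tele hα (fun i => nrm (C2 i)) m (fun i hi => by
      have := hC2pos i hi; linarith)
    simp only [hC20] at h2
    refine le_trans ?_ h2
    apply div_le_div_of_nonneg_right _ (by linarith)
    have h3 := eus_near (s := nrm (C2 m)) (t := nrm x) hα
      (by have := hC2pos m le_rfl; linarith) hx0 hδ0 hlast2 hδβ
    have h4 : (1 + 2 * (α - 1) * δ) * X ≤ 2 * X := by
      apply mul_le_mul_of_nonneg_right _ hX0.le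
      linarith
    simp only [hX, hZ] at *
    linarith
  have hsumW : wt (tau α E) y l1 + wt (tau α E) z l2 ≤
      (1 + K1 * δ) * (c / (α - 1)) * P := by
    have h1 : wt (tau α E) y l1 + wt (tau α E) z l2 = wt (tau α E) y (l1 ++ l2) := by
      rw [wt_append]
    rw [h1]
    exact (hwt.le.trans hSt).trans ht
  have hZP : Z ≤ 2 ^ (α - 1) * P := by
    have h1 : Z ≤ (r / 2) ^ (1 - α) :=
      Real.rpow_le_rpow_of_nonpos (by linarith) hzr (by linarith)
    refine h1.trans (le_of_eq ?_)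
    rw [Real.div_rpow hr0.le (by norm_num), hP, show (1 - α) = -(α - 1) by ring,
      Real.rpow_neg (by norm_num : (0 : ℝ) ≤ 2)]
    field_simp
  have hGbound := eus_main hα2 hc hK1 hδ0 hδK2 hK2 hP0 hZP hW1 hW2 hsumW
  -- lower bound for the weights
  have hupn : ∀ i, i < n → Real.exp (-3) * r ^ (-α) ≤ nrm (C1 i) ^ (-α) := by
    intro i hi
    obtain ⟨l3, l4, h3, h4⟩ := hC1v i hi.le
    have h5 := hup l3 l4 h3
    rw [← h4] at h5
    have h6 : 0 < nrm (C1 i) := by have := hC1pos i hi.le; linarith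
    have h7 : Real.exp (1 / (α - 1)) * r + 1 ≤ Real.exp (1 / (α - 1)) * r * (1 + 1 / r) := by
      have e : Real.exp (1 / (α - 1)) * r * (1 + 1 / r) =
          Real.exp (1 / (α - 1)) * r + Real.exp (1 / (α - 1)) := by field_simp
      rw [e]
      have : 1 ≤ Real.exp (1 / (α - 1)) := Real.one_le_exp (by positivity)
      linarith
    have h8 : nrm (C1 i) ≤ Real.exp (3 / α) * r := by
      refine (h5.trans h7).trans ?_
      have h9 : 1 + 1 / r ≤ Real.exp (1 / r) := by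
        have := Real.add_one_le_exp (1 / r)
        linarith
      have h10 : Real.exp (1 / (α - 1)) * Real.exp (1 / r) ≤ Real.exp (3 / α) := by
        rw [← Real.exp_add]
        apply Real.exp_le_exp.2
        have h11 : 1 / r ≤ 1 / α := one_div_le_one_div_of_le (by linarith) hrα
        have h12 : 1 / (α - 1) ≤ 2 / α := by
          rw [div_le_div_iff₀ (by linarith) (by linarith)]; linarith
        have h13 : 3 / α = 2 / α + 1 / α := by ring
        linarith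
      calc Real.exp (1 / (α - 1)) * r * (1 + 1 / r)
          ≤ Real.exp (1 / (α - 1)) * r * Real.exp (1 / r) :=
            mul_le_mul_of_nonneg_left h9 (by positivity)
        _ = Real.exp (1 / (α - 1)) * Real.exp (1 / r) * r := by ring
        _ ≤ Real.exp (3 / α) * r := mul_le_mul_of_nonneg_right h10 hr0.le
    have h14 : (Real.exp (3 / α) * r) ^ (-α) ≤ nrm (C1 i) ^ (-α) :=
      Real.rpow_le_rpow_of_nonpos h6 h8 (by linarith)
    refine le_trans (le_of_eq ?_) h14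
    rw [Real.mul_rpow (Real.exp_pos _).le hr0.le, ← Real.exp_mul]
    congr 2
    field_simp
  have hrαpos : 0 < r ^ (-α) := Real.rpow_pos_of_pos hr0 _
  -- sum of the excesses
  have hsumex : Real.exp (-3) * r ^ (-α) * ∑ i ∈ Finset.range n, ex i ≤ G := by
    rw [hG, Finset.mul_sum]
    apply Finset.sum_le_sum
    intro i hi
    rw [Finset.mem_range] at hi
    exact mul_le_mul_of_nonneg_right (hupn i hi) (hex0 i)
  have hsumD : Real.exp (-3) * r ^ (-α) * ∑ i ∈ Finset.range n, D i ≤ 4 * P / β := by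
    have h1 : Real.exp (-3) * r ^ (-α) * ∑ i ∈ Finset.range n, D i ≤
        ∑ i ∈ Finset.range n, nrm (C1 i) ^ (-α) * D i := by
      rw [Finset.mul_sum]
      apply Finset.sum_le_sum
      intro i hi
      rw [Finset.mem_range] at hi
      exact mul_le_mul_of_nonneg_right (hupn i hi) (hD0 i)
    refine h1.trans ?_
    have h2 : (1 - K2 * δ) * (c * ∑ i ∈ Finset.range n, nrm (C1 i) ^ (-α) * D i) ≤
        (1 + K1 * δ) * (c / (α - 1)) * P := by
      have e : c * ∑ i ∈ Finset.range n, nrm (C1 i) ^ (-α) * D i =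
          ∑ i ∈ Finset.range n, nrm (C1 i) ^ (-α) * (c * ‖ι (C1 (i + 1)) - ι (C1 i)‖) := by
        rw [Finset.mul_sum]
        apply Finset.sum_congr rfl
        intro i _
        simp only [hD]; ring
      rw [e]
      refine hC1sum.trans (le_trans ?_ hsumW)
      have := wt_nonneg hτ z l2
      linarith
    set Q := ∑ i ∈ Finset.range n, nrm (C1 i) ^ (-α) * D i with hQ
    have hQ0 : 0 ≤ Q := Finset.sum_nonneg (fun i _ =>
      mul_nonneg (Real.rpow_nonneg (nrm_nonneg _) _) (hD0 i))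
    have h3 : c * ((1 - K2 * δ) * Q) ≤ c * ((1 + K1 * δ) * P / β) := by
      calc c * ((1 - K2 * δ) * Q) = (1 - K2 * δ) * (c * Q) := by ring
        _ ≤ (1 + K1 * δ) * (c / (α - 1)) * P := h2
        _ = c * ((1 + K1 * δ) * P / β) := by rw [hβdef]; ring
    have h4 := le_of_mul_le_mul_left h3 hc
    have h5 : (1 + K1 * δ) * P / β ≤ 2 * P / β := by
      apply div_le_div_of_nonneg_right _ hβ0.le
      apply mul_le_mul_of_nonneg_right _ hP0.le
      linarith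
    have h6 : 1 / 2 * Q ≤ (1 - K2 * δ) * Q := mul_le_mul_of_nonneg_right (by linarith) hQ0
    have h7 : 4 * P / β = 2 * (2 * P / β) := by ring
    linarith
  have hPr : P = r * r ^ (-α) := by
    rw [hP, show (1 - α) = 1 + (-α) by ring, Real.rpow_add hr0, Real.rpow_one]
  have hXr : X = r * r ^ (-α) * (r / nrm x) ^ β := by
    rw [Real.div_rpow hr0.le hx0.le, ← hPr, hP, hX, hβdef, show (1 - α) = -(α - 1) by ring,
      Real.rpow_neg hr0.le, Real.rpow_neg hx0.le]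
    have : 0 < r ^ (α - 1) := Real.rpow_pos_of_pos hr0 _
    field_simp
  have hexp3 : Real.exp (-3) * Real.exp 3 = 1 := by
    rw [← Real.exp_add]; simp
  set y1 : ℝ := (r / nrm x) ^ β with hy1
  have hy10 : 0 ≤ y1 := Real.rpow_nonneg (by positivity) _
  have hsumD' : ∑ i ∈ Finset.range n, D i ≤ 4 * Real.exp 3 * r / β := by
    rw [hPr] at hsumD
    have h1 : r ^ (-α) * (Real.exp (-3) * ∑ i ∈ Finset.range n, D i) ≤
        r ^ (-α) * (4 * r / β) := by
      calc _ = Real.exp (-3) * r ^ (-α) * ∑ i ∈ Finset.range n, D i := by ring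
        _ ≤ _ := hsumD
        _ = _ := by ring
    have h2 := le_of_mul_le_mul_left h1 hrαpos
    have h3 := mul_le_mul_of_nonneg_left h2 (Real.exp_pos 3).le
    calc ∑ i ∈ Finset.range n, D i = (Real.exp (-3) * Real.exp 3) * ∑ i ∈ Finset.range n, D i := by
          rw [hexp3, one_mul]
      _ = Real.exp 3 * (Real.exp (-3) * ∑ i ∈ Finset.range n, D i) := by ring
      _ ≤ Real.exp 3 * (4 * r / β) := h3
      _ = _ := by ring
  have hsumex' : ∑ i ∈ Finset.range n, ex i ≤ Real.exp 3 * r / β * (K3 * δ + 2 * y1) := by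
    have h1 : G ≤ (K3 * δ * P + 2 * X) / β := by
      rw [le_div_iff₀ hβ0]
      calc G * β = (α - 1) * G := by rw [hβdef]; ring
        _ ≤ _ := hGbound
    have h2 := hsumex.trans h1
    have h3 : r ^ (-α) * (Real.exp (-3) * ∑ i ∈ Finset.range n, ex i) ≤
        r ^ (-α) * (r / β * (K3 * δ + 2 * y1)) := by
      calc _ = Real.exp (-3) * r ^ (-α) * ∑ i ∈ Finset.range n, ex i := by ring
        _ ≤ _ := h2
        _ = (K3 * δ * (r * r ^ (-α)) + 2 * (r * r ^ (-α) * y1)) / β := by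
            rw [← hPr, hy1, hXr, ← hPr]
        _ = _ := by ring
    have h4 := le_of_mul_le_mul_left h3 hrαpos
    have h5 := mul_le_mul_of_nonneg_left h4 (Real.exp_pos 3).le
    calc ∑ i ∈ Finset.range n, ex i
        = (Real.exp (-3) * Real.exp 3) * ∑ i ∈ Finset.range n, ex i := by
          rw [hexp3, one_mul]
      _ = Real.exp 3 * (Real.exp (-3) * ∑ i ∈ Finset.range n, ex i) := by ring
      _ ≤ Real.exp 3 * (r / β * (K3 * δ + 2 * y1)) := h5
      _ = _ := by ring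
  -- angular displacement
  set v : ℕ → ℂ := fun i => ι (C1 i) / (nrm (C1 i) : ℂ) with hv
  have hang : ‖v n - v 0‖ ≤ Real.sqrt 2 / (r / 2) *
      (Real.sqrt (∑ i ∈ Finset.range n, D i) * Real.sqrt (∑ i ∈ Finset.range n, ex i)) := by
    have h1 : ‖v n - v 0‖ ≤ ∑ i ∈ Finset.range n, ‖v (i + 1) - v i‖ := by
      have := dist_le_range_sum_dist v n
      rw [dist_comm, dist_eq_norm] at this
      refine this.trans (le_of_eq ?_)
      apply Finset.sum_congr rfl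
      intro i _
      rw [dist_comm, dist_eq_norm]
    refine h1.trans ?_
    have h2 : ∑ i ∈ Finset.range n, ‖v (i + 1) - v i‖ ≤
        ∑ i ∈ Finset.range n, Real.sqrt 2 / (r / 2) * (Real.sqrt (D i) * Real.sqrt (ex i)) := by
      apply Finset.sum_le_sum
      intro i hi
      rw [Finset.mem_range] at hi
      have h3 := eus_angle (a := ι (C1 i)) (b := ι (C1 (i + 1))) (ρ := r / 2) (by linarith)
        (by rw [hι.norm_eq]; exact hC1pos i hi.le) (by rw [hι.norm_eq]; exact hC1pos (i + 1) hi)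
      rw [hι.norm_eq, hι.norm_eq] at h3
      exact h3
    refine h2.trans ?_
    rw [← Finset.mul_sum]
    apply mul_le_mul_of_nonneg_left _ (by positivity)
    exact Real.sum_sqrt_mul_sqrt_le _ hD0 hex0
  have hang2 : ‖v n - v 0‖ ≤ 4 * Real.sqrt 2 * Real.exp 3 / β * Real.sqrt (K3 * δ + 2 * y1) := by
    refine hang.trans ?_
    have h1 : Real.sqrt (∑ i ∈ Finset.range n, D i) * Real.sqrt (∑ i ∈ Finset.range n, ex i) ≤
        Real.sqrt (4 * Real.exp 3 * r / β) *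
          Real.sqrt (Real.exp 3 * r / β * (K3 * δ + 2 * y1)) :=
      mul_le_mul (Real.sqrt_le_sqrt hsumD') (Real.sqrt_le_sqrt hsumex') (Real.sqrt_nonneg _)
        (Real.sqrt_nonneg _)
    have h2 : Real.sqrt (4 * Real.exp 3 * r / β) *
          Real.sqrt (Real.exp 3 * r / β * (K3 * δ + 2 * y1)) =
        2 * (Real.exp 3 * r / β) * Real.sqrt (K3 * δ + 2 * y1) := by
      rw [← Real.sqrt_mul (by positivity)]
      have e : 4 * Real.exp 3 * r / β * (Real.exp 3 * r / β * (K3 * δ + 2 * y1)) =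
          (2 * (Real.exp 3 * r / β)) ^ 2 * (K3 * δ + 2 * y1) := by ring
      rw [e, Real.sqrt_mul (by positivity), Real.sqrt_sq (by positivity)]
    calc _ ≤ Real.sqrt 2 / (r / 2) *
          (2 * (Real.exp 3 * r / β) * Real.sqrt (K3 * δ + 2 * y1)) := by
            apply mul_le_mul_of_nonneg_left _ (by positivity)
            rw [← h2]; exact h1
      _ = _ := by field_simp; ring
  -- last piece
  have hlastang : ‖ι z / (nrm z : ℂ) - v n‖ ≤ 2 * δ := by
    have h1 := eus_last (a := ι z) (b := ι (C1 n)) (by rw [hι.norm_eq]; exact hz0)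
      (by rw [hι.norm_eq]; have := hC1pos n le_rfl; linarith) (δ := δ)
      (by rw [hι.norm_eq]; exact hC1last)
    rw [hι.norm_eq, hι.norm_eq] at h1
    exact h1
  have hv0 : v 0 = ι y / (nrm y : ℂ) := by simp only [hv, hC10]
  have htot : ‖ι z / (nrm z : ℂ) - ι y / (nrm y : ℂ)‖ ≤
      2 * δ + 4 * Real.sqrt 2 * Real.exp 3 / β * Real.sqrt (K3 * δ + 2 * y1) := by
    have h1 : ι z / (nrm z : ℂ) - ι y / (nrm y : ℂ) =
        (ι z / (nrm z : ℂ) - v n) + (v n - v 0) := by rw [hv0]; ring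
    rw [h1]
    exact (norm_add_le _ _).trans (add_le_add hlastang hang2)
  refine htot.trans ?_
  -- square roots
  have hs1 : Real.sqrt (K3 * δ + 2 * y1) ≤ Real.sqrt (K3 * δ) + Real.sqrt (2 * y1) := by
    have hp1 : 0 ≤ K3 * δ := by positivity
    have hp2 : 0 ≤ 2 * y1 := by positivity
    rw [Real.sqrt_le_left (by positivity)]
    have q1 := Real.sq_sqrt hp1
    have q2 := Real.sq_sqrt hp2
    have q3 : 0 ≤ Real.sqrt (K3 * δ) * Real.sqrt (2 * y1) := by positivity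
    nlinarith
  have hs2 : Real.sqrt (K3 * δ) = Real.sqrt (2 * K3) * r ^ (-(η / 4)) := by
    rw [hδdef, show K3 * (2 * r ^ (-(η / 2))) = (2 * K3) * r ^ (-(η / 2)) by ring,
      Real.sqrt_mul (by positivity), Real.sqrt_eq_rpow (r ^ (-(η / 2))), ← Real.rpow_mul hr0.le]
    congr 2; ring
  have hs3 : Real.sqrt (2 * y1) = Real.sqrt 2 * (r / nrm x) ^ (β / 2) := by
    rw [Real.sqrt_mul (by norm_num), hy1, Real.sqrt_eq_rpow ((r / nrm x) ^ β),
      ← Real.rpow_mul (by positivity)]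
    congr 2; ring
  have hδr4 : 2 * δ ≤ 4 * r ^ (-(η / 4)) := by
    have : r ^ (-(η / 2)) ≤ r ^ (-(η / 4)) := Real.rpow_le_rpow_of_exponent_le hr1 (by linarith)
    rw [hδdef]; linarith
  have hcoef : 0 ≤ 4 * Real.sqrt 2 * Real.exp 3 / β := by positivity
  have hfin := mul_le_mul_of_nonneg_left hs1 hcoef
  rw [hs2, hs3] at hfin
  have h22 : Real.sqrt 2 * Real.sqrt 2 = 2 := Real.mul_self_sqrt (by norm_num)
  have e1 : 4 * Real.sqrt 2 * Real.exp 3 / β *
      (Real.sqrt (2 * K3) * r ^ (-(η / 4)) + Real.sqrt 2 * (r / nrm x) ^ (β / 2)) =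
      (4 * Real.exp 3 / β * Real.sqrt 2 * Real.sqrt (2 * K3)) * r ^ (-(η / 4)) +
      (Real.sqrt 2 * Real.sqrt 2) * 4 * Real.exp 3 / β * (r / nrm x) ^ (β / 2) := by ring
  rw [e1, h22] at hfin
  have e2 : (2 : ℝ) * 4 * Real.exp 3 / β = 8 * Real.exp 3 / β := by ring
  rw [e2] at hfin
  calc _ ≤ 4 * r ^ (-(η / 4)) +
        ((4 * Real.exp 3 / β * Real.sqrt 2 * Real.sqrt (2 * K3)) * r ^ (-(η / 4)) +
        8 * Real.exp 3 / β * (r / nrm x) ^ (β / 2)) := add_le_add hδr4 hfin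
    _ = _ := by ring

end ConeE
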