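import Pool.Agent.ConeE.Defs

/-! Elementary facts on the exponential law `mE` (module EXP). -/

set_option autoImplicit false

namespace ConeE

open MeasureTheory ProbabilityTheory

/-- the density of `mE` -/
noncomputable def exDens (x : ℝ) : ENNReal :=
  Set.indicator (Set.Ici (0 : ℝ)) (fun x => ENNReal.ofReal (Real.exp (-x))) x

theorem exDens_eq : exDens = exponentialPDF 1 := by
  funext x
  rw [exponentialPDF_eq, exDens]
  by_cases hx : 0 ≤ x
  · rw [Set.indicator_of_mem (show x ∈ Set.Ici (0 : ℝ) from hx), if_pos hx, one_mul, one_mul]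
  · rw [Set.indicator_of_notMem (show x ∉ Set.Ici (0 : ℝ) from hx), if_neg hx, ENNReal.ofReal_zero]

theorem mE_eq_withDensity : mE = (volume : Measure ℝ).withDensity exDens := by
  rw [exDens_eq]; rfl

theorem exDens_measurable : Measurable exDens := by
  refine Measurable.indicator ?_ measurableSet_Ici
  fun_prop

theorem mE_singleton (x : ℝ) : mE {x} = 0 := by
  rw [mE_eq_withDensity]
  exact withDensity_absolutelyContinuous _ _ Real.volume_singleton

/-- lintegral against `mE` -/
theorem lintegral_mE (f : ℝ → ENNReal) (hf : Measurable f) :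
    ∫⁻ x, f x ∂mE = ∫⁻ x in Set.Ioi (0 : ℝ), f x * ENNReal.ofReal (Real.exp (-x)) := by
  rw [mE_eq_withDensity, lintegral_withDensity_eq_lintegral_mul _ exDens_measurable hf,
    ← setLIntegral_congr (Ioi_ae_eq_Ici (a := (0 : ℝ)) (μ := volume)).symm,
    ← lintegral_indicator measurableSet_Ici]
  congr 1
  funext x
  by_cases hx : x ∈ Set.Ici (0 : ℝ)
  · rw [Set.indicator_of_mem hx, Pi.mul_apply, exDens, Set.indicator_of_mem hx, mul_comm]
  · rw [Set.indicator_of_notMem hx, Pi.mul_apply, exDens, Set.indicator_of_notMem hx, zero_mul]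

theorem mE_ae_pos : ∀ᵐ x ∂mE, 0 < x := by
  rw [ae_iff]
  have hset : {a : ℝ | ¬ 0 < a} = Set.Iic 0 := by ext a; simp
  rw [hset, ← lintegral_indicator_one measurableSet_Iic,
    lintegral_mE _ (measurable_one.indicator measurableSet_Iic)]
  refine setLIntegral_eq_zero measurableSet_Ioi (fun x hx => ?_)
  rw [Set.indicator_of_notMem (by simpa using hx), zero_mul]
  rfl

theorem mE_Ioi {t : ℝ} (ht : 0 ≤ t) : mE (Set.Ioi t) = ENNReal.ofReal (Real.exp (-t)) := by
  rw [← lintegral_indicator_one measurableSet_Ioi,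
    lintegral_mE _ (measurable_one.indicator measurableSet_Ioi)]
  have h1 : ∫⁻ x in Set.Ioi (0 : ℝ), (Set.Ioi t).indicator (1 : ℝ → ENNReal) x *
      ENNReal.ofReal (Real.exp (-x)) = ∫⁻ x in Set.Ioi t, ENNReal.ofReal (Real.exp (-x)) := by
    have h2 : ∀ x, (Set.Ioi t).indicator (1 : ℝ → ENNReal) x * ENNReal.ofReal (Real.exp (-x)) =
        (Set.Ioi t).indicator (fun x => ENNReal.ofReal (Real.exp (-x))) x := by
      intro x
      by_cases hx : x ∈ Set.Ioi t
      · rw [Set.indicator_of_mem hx, Set.indicator_of_mem hx]; simp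
      · rw [Set.indicator_of_notMem hx, Set.indicator_of_notMem hx, zero_mul]
    simp only [h2]
    rw [lintegral_indicator measurableSet_Ioi, Measure.restrict_restrict measurableSet_Ioi,
      Set.inter_eq_left.mpr (Set.Ioi_subset_Ioi ht)]
  rw [h1, ← ofReal_integral_eq_lintegral_ofReal, integral_exp_neg_Ioi]
  · exact (integrableOn_exp_neg_Ioi t)
  · exact Filter.Eventually.of_forall (fun x => (Real.exp_pos _).le)

theorem lintegral_exp_mE {s : ℝ} (hs : s < 1) :
    ∫⁻ x, ENNReal.ofReal (Real.exp (s * x)) ∂mE = ENNReal.ofReal (1 / (1 - s)) := by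
  rw [lintegral_mE _ (by fun_prop)]
  have h2 : ∀ x : ℝ, ENNReal.ofReal (Real.exp (s * x)) * ENNReal.ofReal (Real.exp (-x)) =
      ENNReal.ofReal (Real.exp ((s - 1) * x)) := by
    intro x
    rw [← ENNReal.ofReal_mul (Real.exp_pos _).le, ← Real.exp_add]
    congr 2
    ring
  simp only [h2]
  have hs' : s - 1 < 0 := by linarith
  rw [← ofReal_integral_eq_lintegral_ofReal, integral_exp_mul_Ioi hs' 0]
  · congr 1
    rw [mul_zero, Real.exp_zero]
    have : 1 - s ≠ 0 := by linarith
    have : s - 1 ≠ 0 := by linarith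
    field_simp
    ring
  · exact integrableOn_exp_mul_Ioi hs' 0
  · exact Filter.Eventually.of_forall (fun x => (Real.exp_pos _).le)

theorem ex_lintegral_pow (n : ℕ) :
    ∫⁻ x, ENNReal.ofReal (x ^ n) ∂mE = ENNReal.ofReal (n.factorial : ℝ) := by
  rw [lintegral_mE _ (by fun_prop)]
  have h1 : ∫⁻ x in Set.Ioi (0 : ℝ), ENNReal.ofReal (x ^ n) * ENNReal.ofReal (Real.exp (-x)) =
      ∫⁻ x in Set.Ioi (0 : ℝ), ENNReal.ofReal (Real.exp (-x) * x ^ (((n : ℝ) + 1) - 1)) := by
    refine setLIntegral_congr_fun measurableSet_Ioi (fun x hx => ?_)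
    have hx' : (0 : ℝ) < x := hx
    rw [add_sub_cancel_right, Real.rpow_natCast, mul_comm,
      ← ENNReal.ofReal_mul (Real.exp_pos _).le]
  have hn : (0 : ℝ) < (n : ℝ) + 1 := by positivity
  rw [h1, ← ofReal_integral_eq_lintegral_ofReal (Real.GammaIntegral_convergent hn),
    ← Real.Gamma_eq_integral hn, Real.Gamma_nat_eq_factorial]
  refine (ae_restrict_iff' measurableSet_Ioi).mpr (Filter.Eventually.of_forall (fun x hx => ?_))
  have hx' : (0 : ℝ) < x := hx
  exact mul_nonneg (Real.exp_pos _).le (Real.rpow_nonneg hx'.le _)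

theorem ex_pow_nonneg (n : ℕ) : ∀ᵐ x ∂mE, (0 : ℝ) ≤ x ^ n := by
  filter_upwards [mE_ae_pos] with x hx
  positivity

theorem ex_integrable_pow (n : ℕ) : Integrable (fun x : ℝ => x ^ n) mE := by
  refine ⟨by fun_prop, ?_⟩
  rw [hasFiniteIntegral_iff_ofReal (ex_pow_nonneg n), ex_lintegral_pow]
  exact ENNReal.ofReal_lt_top

theorem ex_integral_pow (n : ℕ) : ∫ x, x ^ n ∂mE = n.factorial := by
  rw [integral_eq_lintegral_of_nonneg_ae (ex_pow_nonneg n) (by fun_prop), ex_lintegral_pow,
    ENNReal.toReal_ofReal (by positivity)]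

theorem integrable_sq_mE : Integrable (fun x : ℝ => x ^ 2) mE := ex_integrable_pow 2

theorem memLp_mE : MemLp (fun x : ℝ => x) 2 mE :=
  (memLp_two_iff_integrable_sq (by fun_prop)).mpr integrable_sq_mE

theorem integrable_mE : Integrable (fun x : ℝ => x) mE := by
  simpa using ex_integrable_pow 1

theorem integral_mE : ∫ x, x ∂mE = 1 := by
  simpa using ex_integral_pow 1

theorem integral_sq_mE : ∫ x, x ^ 2 ∂mE = 2 := by
  simpa using ex_integral_pow 2

end ConeE
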