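import Pool.Agent.ConeE.ExplDefs
import Pool.Agent.ConeE.Basic

/-! Deterministic properties of the exploration (module EXPL). -/

set_option autoImplicit false

namespace ConeE

theorem mem_bd {σ : List Edge} {f : Edge} :
    f ∈ bd σ ↔ f ∉ σ ∧ (f.1 ∈ vs σ ∨ f.1 + ev f.2 ∈ vs σ) := by
  unfold bd
  simp only [Finset.mem_filter, Finset.mem_union, Finset.mem_product, Finset.mem_univ, and_true,
    Finset.mem_image]
  constructor
  · rintro ⟨h | ⟨q, hq, rfl⟩, hf⟩
    · exact ⟨hf, Or.inl h⟩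
    · refine ⟨hf, Or.inr ?_⟩
      simpa using hq
  · rintro ⟨hf, h | h⟩
    · exact ⟨Or.inl h, hf⟩
    · refine ⟨Or.inr ⟨(f.1 + ev f.2, f.2), h, ?_⟩, hf⟩
      simp

theorem expl_ends_subset {σ : List Edge} {s : Edge} (h : s ∈ σ) : ends s ⊆ vs σ := by
  induction σ with
  | nil => simp at h
  | cons a σ ih =>
    rcases List.mem_cons.mp h with rfl | h
    · exact Finset.subset_union_right
    · exact (ih h).trans Finset.subset_union_left

theorem expl_fst_mem {σ : List Edge} {s : Edge} (h : s ∈ σ) : s.1 ∈ vs σ :=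
  expl_ends_subset h (by simp [ends])

theorem expl_snd_mem {σ : List Edge} {s : Edge} (h : s ∈ σ) : s.1 + ev s.2 ∈ vs σ :=
  expl_ends_subset h (by simp [ends])

theorem expl_zero_mem (σ : List Edge) : (0 : V) ∈ vs σ := by
  induction σ with
  | nil => simp [vs]
  | cons a σ ih => exact Finset.mem_union_left _ ih

theorem bd_nonempty (σ : List Edge) : (bd σ).Nonempty := by
  obtain ⟨v, hv, hmax⟩ := Finset.exists_max_image (vs σ) (fun v => v 0) ⟨0, expl_zero_mem σ⟩
  refine ⟨(v, 0), mem_bd.mpr ⟨fun h => ?_, Or.inl hv⟩⟩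
  have h1 := hmax _ (expl_snd_mem h)
  simp [ev] at h1

theorem expl_st_congr {τ τ' : Edge → ℝ} {σ : List Edge} (h : ∀ e ∈ σ, τ e = τ' e) :
    st τ σ = st τ' σ := by
  induction σ with
  | nil => rfl
  | cons s σ ih =>
    have h1 : st τ σ = st τ' σ := ih (fun e he => h e (List.mem_cons_of_mem _ he))
    simp only [st, h1, h s List.mem_cons_self]

theorem tm_congr {τ τ' : Edge → ℝ} {σ : List Edge} (h : ∀ e ∈ σ, τ e = τ' e) :
    tm τ σ = tm τ' σ := by
  unfold tm
  rw [expl_st_congr h]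

theorem ac_congr {τ τ' : Edge → ℝ} {σ : List Edge} (h : ∀ e ∈ σ, τ e = τ' e) (f : Edge) :
    ac τ σ f = ac τ' σ f := by
  have h1 : th τ σ = th τ' σ := by
    funext v
    unfold th
    rw [expl_st_congr h]
  unfold ac
  rw [h1]

theorem D_congr {τ τ' : Edge → ℝ} {σ : List Edge} (h : ∀ e ∈ σ, τ e = τ' e) :
    D τ σ ↔ D τ' σ := by
  induction σ with
  | nil => exact Iff.rfl
  | cons s σ ih =>
    have h0 : ∀ e ∈ σ, τ e = τ' e := fun e he => h e (List.mem_cons_of_mem _ he)
    unfold D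
    rw [ih h0, tm_congr h0, ac_congr h0, h s List.mem_cons_self]

theorem expl_tm_cons (τ : Edge → ℝ) (s : Edge) (σ : List Edge) :
    tm τ (s :: σ) = ac τ σ s + τ s := rfl

theorem expl_th_cons_of_mem (τ : Edge → ℝ) (s : Edge) {σ : List Edge} {v : V} (h : v ∈ vs σ) :
    th τ (s :: σ) v = th τ σ v := by
  show (if v ∈ vs σ then (st τ σ).2 v else _) = _
  rw [if_pos h]
  rfl

theorem expl_th_cons_of_notMem (τ : Edge → ℝ) (s : Edge) {σ : List Edge} {v : V}
    (h : v ∉ vs σ) : th τ (s :: σ) v = tm τ (s :: σ) := by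
  show (if v ∈ vs σ then (st τ σ).2 v else _) = _
  rw [if_neg h]
  rfl

theorem expl_th_zero (τ : Edge → ℝ) (σ : List Edge) : th τ σ 0 = 0 := by
  induction σ with
  | nil => rfl
  | cons s σ ih => rw [expl_th_cons_of_mem τ s (expl_zero_mem σ), ih]

theorem expl_accs_mem {W : Finset V} {θ : V → ℝ} {f : Edge} {P : ℝ → Prop}
    (h : f.1 ∈ W ∨ f.1 + ev f.2 ∈ W) (hP : ∀ v ∈ W, P (θ v)) : P (accs W θ f) := by
  unfold accs
  split_ifs with h1 h2
  · rcases min_choice (θ f.1) (θ (f.1 + ev f.2)) with h3 | h3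
    · rw [h3]; exact hP _ h1
    · rw [h3]; exact hP _ h2
  · exact hP _ h1
  · exact hP _ (h.resolve_left h1)

theorem expl_th_bounds {τ : Edge → ℝ} {σ : List Edge} (hD : D τ σ) :
    0 ≤ tm τ σ ∧ ∀ v ∈ vs σ, 0 ≤ th τ σ v ∧ th τ σ v ≤ tm τ σ := by
  induction σ with
  | nil =>
    refine ⟨le_rfl, fun v _ => ⟨le_rfl, le_rfl⟩⟩
  | cons s σ ih =>
    obtain ⟨hD1, hs, hlt⟩ := hD
    obtain ⟨h0, h1⟩ := ih hD1
    have h2 : tm τ σ < tm τ (s :: σ) := hlt
    refine ⟨h0.trans h2.le, fun v hv => ?_⟩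
    by_cases hv' : v ∈ vs σ
    · rw [expl_th_cons_of_mem τ s hv']
      exact ⟨(h1 v hv').1, (h1 v hv').2.trans h2.le⟩
    · rw [expl_th_cons_of_notMem τ s hv']
      exact ⟨h0.trans h2.le, le_rfl⟩

theorem ac_le_tm {τ : Edge → ℝ} (hτ : ∀ e, 0 < τ e) {σ : List Edge} (hD : D τ σ)
    {f : Edge} (hf : f ∈ bd σ) : 0 ≤ ac τ σ f ∧ ac τ σ f ≤ tm τ σ := by
  have h1 := (expl_th_bounds hD).2
  exact expl_accs_mem (P := fun t => 0 ≤ t ∧ t ≤ tm τ σ) (mem_bd.mp hf).2 h1

/-- an edge at one explored vertex only -/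
theorem expl_ac_one {τ : Edge → ℝ} {σ : List Edge} {f : Edge} {a b : V}
    (hab : (f.1 = a ∧ f.1 + ev f.2 = b) ∨ (f.1 = b ∧ f.1 + ev f.2 = a))
    (ha : a ∈ vs σ) (hb : b ∉ vs σ) : ac τ σ f = th τ σ a := by
  unfold ac accs
  rcases hab with ⟨h1, h2⟩ | ⟨h1, h2⟩
  · rw [h2, h1, if_pos ha, if_neg hb]
  · rw [h2, h1, if_neg hb]

theorem expl_ac_cons {τ : Edge → ℝ} {s : Edge} {σ : List Edge} (hD : D τ (s :: σ)) {f : Edge}
    (hf : f.1 ∈ vs σ ∨ f.1 + ev f.2 ∈ vs σ) : ac τ (s :: σ) f = ac τ σ f := by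
  have hlt : tm τ σ < tm τ (s :: σ) := hD.2.2
  have hb := (expl_th_bounds hD.1).2
  have hm : ∀ v, v ∈ vs σ → v ∈ vs (s :: σ) := fun v hv => Finset.mem_union_left _ hv
  unfold ac accs
  by_cases h1 : f.1 ∈ vs σ
  · by_cases h2 : f.1 + ev f.2 ∈ vs σ
    · rw [if_pos (hm _ h1), if_pos (hm _ h2), if_pos h1, if_pos h2,
        expl_th_cons_of_mem τ s h1, expl_th_cons_of_mem τ s h2]
    · rw [if_pos (hm _ h1), if_pos h1, if_neg h2, expl_th_cons_of_mem τ s h1,
        expl_th_cons_of_notMem τ s h2]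
      have := (hb _ h1).2
      split_ifs
      · exact min_eq_left (by linarith)
      · rfl
  · have h2 := hf.resolve_left h1
    have := (hb _ h2).2
    rw [if_neg h1, if_pos (hm _ h2), expl_th_cons_of_mem τ s h2, expl_th_cons_of_notMem τ s h1]
    split_ifs
    · exact min_eq_right (by linarith)
    · rfl

theorem expl_ac_cons_new {τ : Edge → ℝ} {s : Edge} {σ : List Edge} {f : Edge}
    (h1 : f.1 ∉ vs σ) (h2 : f.1 + ev f.2 ∉ vs σ) : ac τ (s :: σ) f = tm τ (s :: σ) := by
  unfold ac accs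
  rw [expl_th_cons_of_notMem τ s h1, expl_th_cons_of_notMem τ s h2]
  split_ifs
  · exact min_self _
  · rfl
  · rfl

theorem G_iff {τ : Edge → ℝ} (hτ : ∀ e, 0 < τ e) (σ : List Edge) :
    G τ σ ↔ D τ σ ∧ ∀ f ∈ bd σ, tm τ σ < ac τ σ f + τ f := by
  induction σ with
  | nil =>
    have h0 : ∀ f, ac τ [] f = 0 := fun f => by
      unfold ac accs
      split_ifs <;> simp [th, st]
    refine ⟨fun _ => ⟨trivial, fun f _ => ?_⟩, fun _ => trivial⟩
    rw [h0 f, zero_add]
    exact hτ f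
  | cons s σ ih =>
    constructor
    · rintro ⟨hG, hs, hmin⟩
      obtain ⟨hD, hall⟩ := ih.mp hG
      have hD' : D τ (s :: σ) := ⟨hD, hs, hall s hs⟩
      refine ⟨hD', fun f hf => ?_⟩
      obtain ⟨hf1, hf2⟩ := mem_bd.mp hf
      have hf1' : f ∉ σ := fun h => hf1 (List.mem_cons_of_mem _ h)
      have hfs : f ≠ s := fun h => hf1 (by rw [h]; exact List.mem_cons_self)
      by_cases h : f.1 ∈ vs σ ∨ f.1 + ev f.2 ∈ vs σ
      · rw [expl_ac_cons hD' h]
        exact hmin f (mem_bd.mpr ⟨hf1', h⟩) hfs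
      · push Not at h
        rw [expl_ac_cons_new h.1 h.2]
        linarith [hτ f]
    · rintro ⟨hD', hall⟩
      obtain ⟨hD, hs, hlt⟩ := hD'
      have hlt' : tm τ σ < tm τ (s :: σ) := hlt
      have hkey : ∀ f ∈ bd σ, f ≠ s → ac τ σ s + τ s < ac τ σ f + τ f := fun f hf hfs => by
        obtain ⟨hf1, hf2⟩ := mem_bd.mp hf
        have h1 : f ∈ bd (s :: σ) := mem_bd.mpr ⟨by
          rw [List.mem_cons]; push Not; exact ⟨hfs, hf1⟩,
          hf2.imp (fun h => Finset.mem_union_left _ h) (fun h => Finset.mem_union_left _ h)⟩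
        have h2 := hall f h1
        rw [expl_ac_cons ⟨hD, hs, hlt⟩ hf2] at h2
        exact h2
      refine ⟨ih.mpr ⟨hD, fun f hf => ?_⟩, hs, hkey⟩
      by_cases hfs : f = s
      · rw [hfs]; exact hlt
      · exact hlt.trans (hkey f hf hfs)

/-- two different lists of the same length are not both beginnings of the exploration -/
theorem G_unique {τ : Edge → ℝ} {σ σ' : List Edge} (hl : σ.length = σ'.length)
    (h : G τ σ) (h' : G τ σ') : σ = σ' := by
  induction σ generalizing σ' with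
  | nil =>
    cases σ' with
    | nil => rfl
    | cons s' σ' => simp at hl
  | cons s σ ih =>
    cases σ' with
    | nil => simp at hl
    | cons s' σ' =>
      obtain ⟨hG, hs, hmin⟩ := h
      obtain ⟨hG', hs', hmin'⟩ := h'
      have hσ : σ = σ' := ih (by simpa using hl) hG hG'
      subst hσ
      by_cases hss : s = s'
      · rw [hss]
      · have h1 := hmin s' hs' (Ne.symm hss)
        have h2 := hmin' s hs hss
        linarith

theorem G_tail {τ : Edge → ℝ} {s : Edge} {σ : List Edge} (h : G τ (s :: σ)) : G τ σ := h.1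

/-- the arrival times are Lipschitz along the edges with both ends explored -/
theorem expl_th_lip {τ : Edge → ℝ} (hτ : ∀ e, 0 < τ e) {σ : List Edge} (hG : G τ σ) :
    ∀ f : Edge, f.1 ∈ vs σ → f.1 + ev f.2 ∈ vs σ → |th τ σ f.1 - th τ σ (f.1 + ev f.2)| ≤ τ f := by
  induction σ with
  | nil =>
    intro f _ _
    show |(0:ℝ) - 0| ≤ τ f
    simpa using (hτ f).le
  | cons s σ ih =>
    intro f h1 h2
    have hD := ((G_iff hτ (s :: σ)).mp hG).1
    have hlt : tm τ σ < tm τ (s :: σ) := hD.2.2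
    have hb := (expl_th_bounds hD.1).2
    have hle : ∀ f ∈ bd σ, tm τ (s :: σ) ≤ ac τ σ f + τ f := fun f hf => by
      by_cases hfs : f = s
      · rw [hfs]; exact le_rfl
      · exact (hG.2.2 f hf hfs).le
    by_cases k1 : f.1 ∈ vs σ
    · by_cases k2 : f.1 + ev f.2 ∈ vs σ
      · rw [expl_th_cons_of_mem τ s k1, expl_th_cons_of_mem τ s k2]
        exact ih hG.1 f k1 k2
      · rw [expl_th_cons_of_mem τ s k1, expl_th_cons_of_notMem τ s k2]
        have hf : f ∈ bd σ := mem_bd.mpr ⟨fun h => k2 (expl_snd_mem h), Or.inl k1⟩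
        have h3 := hle f hf
        rw [expl_ac_one (Or.inl ⟨rfl, rfl⟩) k1 k2] at h3
        have h4 := (hb _ k1).2
        rw [abs_sub_comm, abs_of_nonneg (by linarith)]
        linarith
    · by_cases k2 : f.1 + ev f.2 ∈ vs σ
      · rw [expl_th_cons_of_mem τ s k2, expl_th_cons_of_notMem τ s k1]
        have hf : f ∈ bd σ := mem_bd.mpr ⟨fun h => k1 (expl_fst_mem h), Or.inr k2⟩
        have h3 := hle f hf
        rw [expl_ac_one (Or.inr ⟨rfl, rfl⟩) k2 k1] at h3
        have h4 := (hb _ k2).2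
        rw [abs_of_nonneg (by linarith)]
        linarith
      · rw [expl_th_cons_of_notMem τ s k1, expl_th_cons_of_notMem τ s k2]
        simpa using (hτ f).le

/-- a walk leaving the explored vertices is long -/
theorem expl_walk_out {τ : Edge → ℝ} (hτ : ∀ e, 0 < τ e) {σ : List Edge} (hG : G τ σ) {t1 : ℝ}
    (ht1 : ∀ f ∈ bd σ, t1 ≤ ac τ σ f + τ f) (l : List Step) :
    ∀ x ∈ vs σ, endp x l ∉ vs σ → t1 ≤ th τ σ x + wt τ x l := by
  induction l with
  | nil => intro x hx h; exact absurd hx h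
  | cons s l ih =>
    intro x hx h
    rw [endp_cons] at h
    rw [wt_cons]
    have hends := edg_cases x s
    by_cases hy : x + vec s ∈ vs σ
    · have h1 := ih _ hy h
      have hl : |th τ σ x - th τ σ (x + vec s)| ≤ τ (edg x s) := by
        rcases hends with ⟨h2, h3⟩ | ⟨h2, h3⟩
        · have := expl_th_lip hτ hG (edg x s) (by rw [h2]; exact hx) (by rw [h3]; exact hy)
          rw [h3, h2] at this
          exact this
        · have := expl_th_lip hτ hG (edg x s) (by rw [h2]; exact hy) (by rw [h3]; exact hx)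
          rw [h3, h2, abs_sub_comm] at this
          exact this
      have := (abs_le.mp hl).1
      linarith
    · have hw : 0 ≤ wt τ (x + vec s) l := wt_nonneg (fun e => (hτ e).le) _ _
      have hcases : ((edg x s).1 = x ∧ (edg x s).1 + ev (edg x s).2 = x + vec s) ∨
          ((edg x s).1 = x + vec s ∧ (edg x s).1 + ev (edg x s).2 = x) := hends
      have hf : edg x s ∈ bd σ := by
        rw [mem_bd]
        rcases hends with ⟨h2, h3⟩ | ⟨h2, h3⟩
        · exact ⟨fun h4 => hy (by rw [← h3]; exact expl_snd_mem h4), Or.inl (by rw [h2]; exact hx)⟩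
        · exact ⟨fun h4 => hy (by rw [← h2]; exact expl_fst_mem h4), Or.inr (by rw [h3]; exact hx)⟩
      have h5 := ht1 _ hf
      rw [expl_ac_one hcases hx hy] at h5
      linarith

/-- explored vertices are reached by walks of weight the arrival time -/
theorem expl_exists_walk {τ : Edge → ℝ} (hτ : ∀ e, 0 < τ e) {σ : List Edge} (hG : G τ σ) :
    ∀ v ∈ vs σ, ∃ l : List Step, endp 0 l = v ∧ wt τ 0 l = th τ σ v := by
  induction σ with
  | nil =>
    intro v hv
    have : v = 0 := by simpa [vs] using hv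
    exact ⟨[], by rw [this]; rfl, rfl⟩
  | cons s σ ih =>
    intro v hv
    by_cases hv' : v ∈ vs σ
    · rw [expl_th_cons_of_mem τ s hv']
      exact ih hG.1 v hv'
    · rw [expl_th_cons_of_notMem τ s hv', expl_tm_cons]
      have hve : v ∈ ends s := (Finset.mem_union.mp hv).resolve_left hv'
      have hs := (mem_bd.mp hG.2.1).2
      have hve' : v = s.1 ∨ v = s.1 + ev s.2 := by simpa [ends] using hve
      rcases hve' with h | h
      · -- v is the first end
        have hu : s.1 + ev s.2 ∈ vs σ := hs.resolve_left (by rw [← h]; exact hv')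
        obtain ⟨l, hl1, hl2⟩ := ih hG.1 _ hu
        refine ⟨l ++ [(s.2, false)], ?_, ?_⟩
        · rw [endp_append, hl1, endp_cons, endp_nil, h]
          simp [vec]
        · rw [wt_append, hl1, hl2, wt_cons, wt_nil,
            expl_ac_one (Or.inr ⟨h.symm, rfl⟩) hu hv']
          have : edg (s.1 + ev s.2) (s.2, false) = s := by
            simp [edg]
          rw [this, add_zero]
      · have hu : s.1 ∈ vs σ := hs.resolve_right (by rw [← h]; exact hv')
        obtain ⟨l, hl1, hl2⟩ := ih hG.1 _ hu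
        refine ⟨l ++ [(s.2, true)], ?_, ?_⟩
        · rw [endp_append, hl1, endp_cons, endp_nil, h]
          simp [vec]
        · rw [wt_append, hl1, hl2, wt_cons, wt_nil,
            expl_ac_one (Or.inl ⟨rfl, h.symm⟩) hu hv']
          have : edg s.1 (s.2, true) = s := by
            simp [edg]
          rw [this, add_zero]

/-- explored vertices are reached before the explosion -/
theorem explore_good {τ : Edge → ℝ} (hτ : ∀ e, 0 < τ e) (hS : Explodes τ) {σ : List Edge}
    (hG : G τ σ) : ∀ v ∈ vs σ, v ∈ Ainf τ := by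
  intro v hv
  obtain ⟨hD, hall⟩ := (G_iff hτ σ).mp hG
  obtain ⟨f0, hf0, hmin⟩ := Finset.exists_min_image (bd σ) (fun f => ac τ σ f + τ f)
    (bd_nonempty σ)
  have h1 : ac τ σ f0 + τ f0 ≤ S τ 0 := by
    refine le_S_of_finite hS (F := ((vs σ : Finset V) : Set V)) (Finset.finite_toSet _)
      (fun l hl => ?_)
    have := expl_walk_out hτ hG hmin l 0 (expl_zero_mem σ) (by simpa using hl)
    rwa [expl_th_zero, zero_add] at this
  obtain ⟨l, hl1, hl2⟩ := expl_exists_walk hτ hG v hv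
  refine ⟨l, hl1, ?_⟩
  rw [hl2]
  exact (((expl_th_bounds hD).2 v hv).2.trans_lt (hall f0 hf0)).trans_le h1

end ConeE
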