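import Pool.Agent.ConeE.Basic

/-! The limit norm of a subadditive function on the lattice (module MU). -/

set_option autoImplicit false

namespace ConeE

open Filter Topology

/-- a lattice point near `x` -/
noncomputable def mu_fl (x : ℂ) : V := ![⌊x.re⌋, ⌊x.im⌋]

theorem mu_fl_near (x : ℂ) : ‖toC (mu_fl x) - x‖ ≤ 2 := by
  have h1 : |(toC (mu_fl x) - x).re| ≤ 1 := by
    have : (toC (mu_fl x) - x).re = (⌊x.re⌋ : ℝ) - x.re := by
      simp [toC, mu_fl]
    rw [this, abs_le]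
    constructor <;> linarith [Int.floor_le x.re, Int.lt_floor_add_one x.re]
  have h2 : |(toC (mu_fl x) - x).im| ≤ 1 := by
    have : (toC (mu_fl x) - x).im = (⌊x.im⌋ : ℝ) - x.im := by
      simp [toC, mu_fl]
    rw [this, abs_le]
    constructor <;> linarith [Int.floor_le x.im, Int.lt_floor_add_one x.im]
  calc ‖toC (mu_fl x) - x‖ ≤ |(toC (mu_fl x) - x).re| + |(toC (mu_fl x) - x).im| :=
        Complex.norm_le_abs_re_add_abs_im _
    _ ≤ 2 := by linarith

theorem mu_fl_toC (z : V) : mu_fl (toC z) = z := by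
  funext j
  fin_cases j <;> simp [mu_fl, toC]

theorem mu_toC_rot (z : V) : toC (rot z) = Complex.I * toC z := by
  apply Complex.ext <;> simp [toC, rot]

theorem mu_toC_cj (z : V) : toC (cj z) = (starRingEnd ℂ) (toC z) := by
  apply Complex.ext <;> simp [toC, cj]

theorem exists_mu (h : V → ℝ) {a C : ℝ} (ha : 0 < a) (h0 : ∀ z, 0 ≤ h z)
    (hsub : ∀ z w, h (z + w) ≤ h z + h w) (hup : ∀ z, h z ≤ C * nrm z)
    (hlow : ∀ z, a * nrm z - C ≤ h z) (hrot : ∀ z, h (rot z) = h z)
    (hcj : ∀ z, h (cj z) = h z) :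
    ∃ μ : ℂ → ℝ, Nrm μ a C ∧ (∀ z, μ (toC z) ≤ h z) ∧
      ∀ ε : ℝ, 0 < ε → ∃ R0 : ℝ, ∀ z, R0 ≤ nrm z → h z ≤ μ (toC z) + ε * nrm z := by
  have nz : nrm 0 = 0 := by simp [nrm]
  have hC : 0 ≤ C := by
    have h1 := hup 0
    have h2 := hlow 0
    rw [nz] at h1 h2
    linarith [h0 0]
  -- Lipschitz
  have hlip : ∀ z w : V, h z ≤ h w + C * ‖toC z - toC w‖ := by
    intro z w
    have h1 := hsub w (z - w)
    have h2 := hup (z - w)
    rw [nrm_eq, map_sub] at h2
    rw [add_sub_cancel] at h1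
    linarith
  have Hlip : ∀ x y : ℂ, h (mu_fl x) ≤ h (mu_fl y) + C * (‖x - y‖ + 4) := by
    intro x y
    refine (hlip _ (mu_fl y)).trans ?_
    have : ‖toC (mu_fl x) - toC (mu_fl y)‖ ≤ ‖x - y‖ + 4 := by
      have e : toC (mu_fl x) - toC (mu_fl y)
          = (toC (mu_fl x) - x) + (x - y) + -(toC (mu_fl y) - y) := by ring
      rw [e]
      refine (norm_add_le _ _).trans ?_
      refine (add_le_add_left (norm_add_le _ _) _).trans ?_
      rw [norm_neg]
      linarith [mu_fl_near x, mu_fl_near y]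
    nlinarith
  have Hsub : ∀ x y : ℂ, h (mu_fl (x + y)) ≤ h (mu_fl x) + h (mu_fl y) + 6 * C := by
    intro x y
    have h1 := hlip (mu_fl (x + y)) (mu_fl x + mu_fl y)
    have h2 := hsub (mu_fl x) (mu_fl y)
    have h3 : ‖toC (mu_fl (x + y)) - toC (mu_fl x + mu_fl y)‖ ≤ 6 := by
      have e : toC (mu_fl (x + y)) - toC (mu_fl x + mu_fl y)
          = (toC (mu_fl (x + y)) - (x + y)) + -(toC (mu_fl x) - x) + -(toC (mu_fl y) - y) := by
        rw [map_add]; ring
      rw [e]
      refine (norm_add_le _ _).trans ?_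
      refine (add_le_add_left (norm_add_le _ _) _).trans ?_
      rw [norm_neg, norm_neg]
      linarith [mu_fl_near x, mu_fl_near y, mu_fl_near (x + y)]
    nlinarith
  have Hup : ∀ x : ℂ, h (mu_fl x) ≤ C * (‖x‖ + 2) := by
    intro x
    refine (hup _).trans ?_
    rw [nrm_eq]
    have : ‖toC (mu_fl x)‖ ≤ ‖x‖ + 2 := by
      have e : toC (mu_fl x) = (toC (mu_fl x) - x) + x := by ring
      rw [e]
      exact (norm_add_le _ _).trans (by linarith [mu_fl_near x])
    nlinarith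
  have Hlow : ∀ x : ℂ, a * (‖x‖ - 2) - C ≤ h (mu_fl x) := by
    intro x
    refine le_trans ?_ (hlow _)
    rw [nrm_eq]
    have : ‖x‖ - 2 ≤ ‖toC (mu_fl x)‖ := by
      have e : x = toC (mu_fl x) + -(toC (mu_fl x) - x) := by ring
      have : ‖x‖ ≤ ‖toC (mu_fl x)‖ + ‖toC (mu_fl x) - x‖ := by
        conv_lhs => rw [e]
        refine (norm_add_le _ _).trans ?_
        rw [norm_neg]
      linarith [mu_fl_near x]
    nlinarith
  -- limits
  have hlim : ∀ x : ℂ, ∃ L : ℝ, Tendsto (fun n : ℕ => h (mu_fl ((n : ℂ) * x)) / n) atTop (𝓝 L) := by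
    intro x
    have hs : Subadditive (fun n : ℕ => h (mu_fl ((n : ℂ) * x)) + 6 * C) := by
      intro m n
      have := Hsub ((m : ℂ) * x) ((n : ℂ) * x)
      have e : ((m + n : ℕ) : ℂ) * x = (m : ℂ) * x + (n : ℂ) * x := by push_cast; ring
      simp only [e]
      linarith
    have hb : BddBelow (Set.range fun n : ℕ => (h (mu_fl ((n : ℂ) * x)) + 6 * C) / (n : ℝ)) := by
      refine ⟨0, ?_⟩
      rintro _ ⟨n, rfl⟩
      have := h0 (mu_fl ((n : ℂ) * x))
      positivity
    refine ⟨hs.lim, ?_⟩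
    have t1 := hs.tendsto_lim hb
    have t2 : Tendsto (fun n : ℕ => 6 * C / (n : ℝ)) atTop (𝓝 0) :=
      tendsto_const_nhds.div_atTop tendsto_natCast_atTop_atTop
    have t3 := t1.sub t2
    rw [sub_zero] at t3
    refine t3.congr fun n => ?_
    ring
  choose μ hμ using hlim
  -- tool: comparison of limits
  have hcmp : ∀ (u : ℕ → ℝ) (L M K : ℝ) (x : ℂ),
      Tendsto u atTop (𝓝 L) → (∀ n : ℕ, 1 ≤ n → h (mu_fl ((n : ℂ) * x)) / n ≤ u n + K / n) →
      L ≤ M → μ x ≤ M := by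
    intro u L M K x hu hle hLM
    refine le_trans ?_ hLM
    have t2 : Tendsto (fun n : ℕ => K / (n : ℝ)) atTop (𝓝 0) :=
      tendsto_const_nhds.div_atTop tendsto_natCast_atTop_atTop
    have t3 := hu.add t2
    rw [add_zero] at t3
    exact le_of_tendsto_of_tendsto (hμ x) t3
      ((eventually_ge_atTop 1).mono fun n hn => hle n hn)
  have hcmp' : ∀ (u : ℕ → ℝ) (L K : ℝ) (x : ℂ),
      Tendsto u atTop (𝓝 L) → (∀ n : ℕ, 1 ≤ n → u n ≤ h (mu_fl ((n : ℂ) * x)) / n + K / n) →
      L ≤ μ x := by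
    intro u L K x hu hle
    have t2 : Tendsto (fun n : ℕ => K / (n : ℝ)) atTop (𝓝 0) :=
      tendsto_const_nhds.div_atTop tendsto_natCast_atTop_atTop
    have t3 := (hμ x).add t2
    rw [add_zero] at t3
    exact le_of_tendsto_of_tendsto hu t3
      ((eventually_ge_atTop 1).mono fun n hn => hle n hn)
  have μadd : ∀ x y, μ (x + y) ≤ μ x + μ y := by
    intro x y
    refine hcmp _ _ _ (6 * C) _ ((hμ x).add (hμ y)) (fun n hn => ?_) le_rfl
    have hn' : (0 : ℝ) < n := by exact_mod_cast hn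
    rw [← add_div, ← add_div]
    refine div_le_div_of_nonneg_right ?_ hn'.le
    rw [mul_add]
    exact Hsub _ _
  have μlip : ∀ x y, μ x ≤ μ y + C * ‖x - y‖ := by
    intro x y
    refine hcmp (fun n : ℕ => h (mu_fl ((n : ℂ) * y)) / n + C * ‖x - y‖) _ _ (4 * C) _
      ((hμ y).add_const _) (fun n hn => ?_) le_rfl
    have hn' : (0 : ℝ) < n := by exact_mod_cast hn
    have := Hlip ((n : ℂ) * x) ((n : ℂ) * y)
    rw [← mul_sub, norm_mul, Complex.norm_natCast] at this
    have e : h (mu_fl ((n : ℂ) * y)) / n + C * ‖x - y‖ + 4 * C / n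
        = (h (mu_fl ((n : ℂ) * y)) + C * (n * ‖x - y‖ + 4)) / n := by
      field_simp; ring
    rw [e]
    exact div_le_div_of_nonneg_right this hn'.le
  have μup : ∀ x, μ x ≤ C * ‖x‖ := by
    intro x
    refine hcmp (fun _ => C * ‖x‖) _ _ (2 * C) _ tendsto_const_nhds (fun n hn => ?_) le_rfl
    have hn' : (0 : ℝ) < n := by exact_mod_cast hn
    have := Hup ((n : ℂ) * x)
    rw [norm_mul, Complex.norm_natCast] at this
    have e : C * ‖x‖ + 2 * C / n = C * (n * ‖x‖ + 2) / n := by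
      field_simp
    rw [e]
    exact div_le_div_of_nonneg_right this hn'.le
  have μlow : ∀ x, a * ‖x‖ ≤ μ x := by
    intro x
    refine hcmp' (fun _ => a * ‖x‖) _ (2 * a + C) _ tendsto_const_nhds (fun n hn => ?_)
    have hn' : (0 : ℝ) < n := by exact_mod_cast hn
    have := Hlow ((n : ℂ) * x)
    rw [norm_mul, Complex.norm_natCast] at this
    rw [← add_div, le_div_iff₀ hn']
    linarith
  have μhom : ∀ (t : ℝ) (x : ℂ), 0 ≤ t → μ ((t : ℂ) * x) = t * μ x := by
    intro t x ht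
    rcases ht.eq_or_lt with rfl | htp
    · have h1 := μup 0
      have h2 := μlow 0
      simp only [norm_zero, mul_zero] at h1 h2
      simp only [Complex.ofReal_zero, zero_mul]
      linarith
    -- the sequence along the integer parts
    have tf : Tendsto (fun n : ℕ => ⌊t * (n : ℝ)⌋₊) atTop atTop :=
      tendsto_nat_floor_atTop.comp
        (tendsto_natCast_atTop_atTop.const_mul_atTop htp)
    have t1 : Tendsto (fun n : ℕ => h (mu_fl ((⌊t * (n : ℝ)⌋₊ : ℂ) * x)) / (⌊t * (n : ℝ)⌋₊ : ℝ))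
        atTop (𝓝 (μ x)) := (hμ x).comp tf
    have t2 : Tendsto (fun n : ℕ => (⌊t * (n : ℝ)⌋₊ : ℝ) / (n : ℝ)) atTop (𝓝 t) :=
      (tendsto_nat_floor_mul_div_atTop ht).comp tendsto_natCast_atTop_atTop
    have t3 : Tendsto (fun n : ℕ => h (mu_fl ((⌊t * (n : ℝ)⌋₊ : ℂ) * x)) / (n : ℝ))
        atTop (𝓝 (t * μ x)) := by
      refine ((t2.mul t1)).congr' ?_
      filter_upwards [tf.eventually_ge_atTop 1, eventually_ge_atTop 1] with n hn hn1
      have hn' : (0 : ℝ) < (⌊t * (n : ℝ)⌋₊ : ℝ) := by exact_mod_cast hn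
      have hn1' : (0 : ℝ) < n := by exact_mod_cast hn1
      field_simp
    have key : ∀ n : ℕ, ‖(n : ℂ) * ((t : ℂ) * x) - (⌊t * (n : ℝ)⌋₊ : ℂ) * x‖ ≤ ‖x‖ := by
      intro n
      have e : (n : ℂ) * ((t : ℂ) * x) - (⌊t * (n : ℝ)⌋₊ : ℂ) * x
          = ((t * (n : ℝ) - (⌊t * (n : ℝ)⌋₊ : ℝ) : ℝ) : ℂ) * x := by
        push_cast; ring
      rw [e, norm_mul, Complex.norm_real, Real.norm_eq_abs]
      have h1 : |t * (n : ℝ) - (⌊t * (n : ℝ)⌋₊ : ℝ)| ≤ 1 := by
        rw [abs_le]
        constructor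
        · linarith [Nat.floor_le (show (0 : ℝ) ≤ t * n by positivity)]
        · linarith [Nat.lt_floor_add_one (t * (n : ℝ))]
      nlinarith [norm_nonneg x]
    have b1 : μ ((t : ℂ) * x) ≤ t * μ x := by
      refine hcmp _ _ _ (C * (‖x‖ + 4)) _ t3 (fun n hn => ?_) le_rfl
      have hn' : (0 : ℝ) < n := by exact_mod_cast hn
      rw [← add_div]
      refine div_le_div_of_nonneg_right ?_ hn'.le
      have := Hlip ((n : ℂ) * ((t : ℂ) * x)) ((⌊t * (n : ℝ)⌋₊ : ℂ) * x)
      nlinarith [key n]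
    have b2 : t * μ x ≤ μ ((t : ℂ) * x) := by
      refine hcmp' _ _ (C * (‖x‖ + 4)) _ t3 (fun n hn => ?_)
      have hn' : (0 : ℝ) < n := by exact_mod_cast hn
      rw [← add_div]
      refine div_le_div_of_nonneg_right ?_ hn'.le
      have := Hlip ((⌊t * (n : ℝ)⌋₊ : ℂ) * x) ((n : ℂ) * ((t : ℂ) * x))
      rw [norm_sub_rev] at this
      nlinarith [key n]
    linarith
  -- symmetries
  have μsym : ∀ (S : V → V) (φ : ℂ → ℂ), (∀ z, h (S z) = h z) → (∀ z, toC (S z) = φ (toC z)) →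
      (∀ x y, ‖φ x - φ y‖ = ‖x - y‖) → (∀ (n : ℕ) x, φ ((n : ℂ) * x) = (n : ℂ) * φ x) →
      ∀ x, μ (φ x) = μ x := by
    intro S φ hS hφ hn hh x
    have key : ∀ y : ℂ, ‖toC (mu_fl (φ y)) - toC (S (mu_fl y))‖ ≤ 4 := by
      intro y
      have e : toC (mu_fl (φ y)) - toC (S (mu_fl y))
          = (toC (mu_fl (φ y)) - φ y) + (φ y - φ (toC (mu_fl y))) := by rw [hφ]; ring
      rw [e]
      refine (norm_add_le _ _).trans ?_
      rw [hn, norm_sub_rev y]
      linarith [mu_fl_near y, mu_fl_near (φ y)]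
    apply le_antisymm
    · refine hcmp _ _ _ (4 * C) _ (hμ x) (fun n hn => ?_) le_rfl
      have hn' : (0 : ℝ) < n := by exact_mod_cast hn
      rw [← add_div]
      refine div_le_div_of_nonneg_right ?_ hn'.le
      rw [← hh]
      have := hlip (mu_fl (φ ((n : ℂ) * x))) (S (mu_fl ((n : ℂ) * x)))
      rw [hS] at this
      nlinarith [key ((n : ℂ) * x)]
    · refine hcmp' _ _ (4 * C) _ (hμ x) (fun n hn => ?_)
      have hn' : (0 : ℝ) < n := by exact_mod_cast hn
      rw [← add_div]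
      refine div_le_div_of_nonneg_right ?_ hn'.le
      rw [← hh]
      have := hlip (S (mu_fl ((n : ℂ) * x))) (mu_fl (φ ((n : ℂ) * x)))
      rw [hS, norm_sub_rev] at this
      nlinarith [key ((n : ℂ) * x)]
  refine ⟨μ, ⟨ha, μadd, μhom, μlow, μup, ?_, ?_⟩, ?_, ?_⟩
  · refine μsym rot (fun x => Complex.I * x) hrot mu_toC_rot (fun x y => ?_) (fun n x => ?_)
    · simp only [← mul_sub, norm_mul, Complex.norm_I, one_mul]
    · ring
  · refine μsym cj (fun x => (starRingEnd ℂ) x) hcj mu_toC_cj (fun x y => ?_) (fun n x => ?_)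
    · simp only [← map_sub, Complex.norm_conj]
    · simp
  · intro z
    have hnat : ∀ n : ℕ, h (n • z) ≤ n * h z := by
      intro n
      induction n with
      | zero =>
        have := hup 0
        rw [nz] at this
        simp only [zero_smul, Nat.cast_zero, zero_mul]
        linarith
      | succ n ih =>
        rw [succ_nsmul]
        have := hsub (n • z) z
        push_cast
        linarith
    refine hcmp (fun _ => h z) _ _ 0 _ tendsto_const_nhds (fun n hn => ?_) le_rfl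
    have hn' : (0 : ℝ) < n := by exact_mod_cast hn
    have e : mu_fl ((n : ℂ) * toC z) = n • z := by
      have : (n : ℂ) * toC z = toC (n • z) := by rw [map_nsmul, nsmul_eq_mul]
      rw [this, mu_fl_toC]
    rw [e, zero_div, add_zero, div_le_iff₀ hn']
    linarith [hnat n]
  · intro ε hε
    -- a net of the unit circle
    set δ : ℝ := ε / (2 * (1 + 2 * C)) with hδ
    have hδ0 : 0 < δ := by positivity
    obtain ⟨t, -, htf, htc⟩ := (isCompact_sphere (0 : ℂ) 1).finite_cover_balls hδ0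
    have hev : ∀ x ∈ t, ∀ᶠ n : ℕ in atTop, h (mu_fl ((n : ℂ) * x)) / n ≤ μ x + δ := by
      intro x _
      exact (hμ x).eventually_le_const (by linarith)
    have hev2 := (htf.eventually_all).2 hev
    obtain ⟨N, hN⟩ := eventually_atTop.1 hev2
    refine ⟨max (N + 1 : ℝ) (max 1 (12 * C / ε)), fun z hz => ?_⟩
    have hz1 : (N : ℝ) + 1 ≤ nrm z := (le_max_left _ _).trans hz
    have hz2 : 1 ≤ nrm z := ((le_max_left _ _).trans (le_max_right _ _)).trans hz
    have hz3 : 12 * C / ε ≤ nrm z := ((le_max_right _ _).trans (le_max_right _ _)).trans hz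
    set r := nrm z with hr
    have hr0 : 0 < r := by linarith
    set n : ℕ := ⌊r⌋₊ with hn
    have hn1 : (n : ℝ) ≤ r := Nat.floor_le hr0.le
    have hn2 : r < n + 1 := Nat.lt_floor_add_one r
    have hnN : N ≤ n := by
      have : (N : ℝ) < n + 1 - 1 + 0 := by linarith
      have : (N : ℝ) < n := by linarith
      exact_mod_cast this.le
    have hn0 : (0 : ℝ) < n := by
      have : (0 : ℝ) ≤ N := Nat.cast_nonneg _
      linarith
    have hxs : (((1 / r : ℝ) : ℂ) * toC z) ∈ Metric.sphere (0 : ℂ) 1 := by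
      rw [mem_sphere_zero_iff_norm, norm_mul, ← nrm_eq, ← hr, Complex.norm_real,
        Real.norm_eq_abs, abs_of_pos (by positivity)]
      field_simp
    obtain ⟨x, hx⟩ := Set.mem_iUnion.1 (htc hxs)
    obtain ⟨hxt, hxb⟩ := Set.mem_iUnion.1 hx
    have hNx := hN n hnN x hxt
    rw [div_le_iff₀ hn0] at hNx
    have hdist : ‖toC z - (n : ℂ) * x‖ ≤ 1 + n * δ := by
      rw [Metric.mem_ball, dist_eq_norm] at hxb
      have hw : ‖(((1 / r : ℝ) : ℂ) * toC z)‖ = 1 := mem_sphere_zero_iff_norm.1 hxs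
      have ez : toC z = (r : ℂ) * (((1 / r : ℝ) : ℂ) * toC z) := by
        rw [← mul_assoc, ← Complex.ofReal_mul]
        rw [mul_one_div_cancel hr0.ne', Complex.ofReal_one, one_mul]
      generalize (((1 / r : ℝ) : ℂ) * toC z) = w at hw ez hxb
      have e : toC z - (n : ℂ) * x = ((r - n : ℝ) : ℂ) * w + (n : ℂ) * (w - x) := by
        rw [ez]; push_cast; ring
      rw [e]
      refine (norm_add_le _ _).trans ?_
      rw [norm_mul, norm_mul, Complex.norm_real, hw, Complex.norm_natCast, Real.norm_eq_abs,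
        abs_of_nonneg (sub_nonneg.2 hn1)]
      nlinarith
    have e1 := Hlip (toC z) ((n : ℂ) * x)
    rw [mu_fl_toC] at e1
    have e2 := μlip ((n : ℂ) * x) (toC z)
    rw [norm_sub_rev] at e2
    have e3 : μ ((n : ℂ) * x) = n * μ x := by
      have := μhom (n : ℝ) x hn0.le
      rwa [Complex.ofReal_natCast] at this
    rw [e3] at e2
    have e4 : h z ≤ μ (toC z) + n * δ + C * (6 + 2 * (n * δ)) := by
      nlinarith
    have e5 : n * δ + C * (6 + 2 * (n * δ)) ≤ ε * r := by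
      have e6 : n * δ * (1 + 2 * C) ≤ r * (ε / 2) := by
        have : δ * (1 + 2 * C) = ε / 2 := by rw [hδ]; field_simp
        rw [mul_assoc, this]
        nlinarith
      have e7 : 12 * C ≤ r * ε := by
        rwa [div_le_iff₀ hε] at hz3
      nlinarith
    linarith

end ConeE
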