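import Pool.Agent.ConeE.Basic

/-! Rate of convergence when the limit norm is Euclidean (module RATE). -/

set_option autoImplicit false

namespace ConeE

/-- first step entering the set `P` -/
theorem rate_exit (P : V → Prop) (l : List Step) : ∀ x : V, ¬ P x → P (endp x l) →
    ∃ (l1 : List Step) (s : Step) (l2 : List Step), l = l1 ++ s :: l2 ∧ ¬ P (endp x l1) ∧
      P (endp x l1 + vec s) := by
  induction l with
  | nil => intro x h0 h1; exact absurd h1 h0
  | cons s l ih =>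
    intro x h0 h1
    by_cases hs : P (x + vec s)
    · exact ⟨[], s, l, rfl, h0, hs⟩
    · obtain ⟨l1, s', l2, h2, h3, h4⟩ := ih _ hs h1
      exact ⟨s :: l1, s', l2, by rw [h2]; rfl, h3, h4⟩

theorem rate_pt {u : ℂ} (hu : ‖u‖ = 1) {n : ℝ} (hn : 0 ≤ n) :
    ∃ x : V, n ≤ dot u (toC x) ∧ nrm x ≤ n + 2 := by
  obtain ⟨x, hx⟩ := emb_toC.near (((n + 1 : ℝ) : ℂ) * u)
  refine ⟨x, ?_, ?_⟩
  · have h1 := abs_dot_le u (toC x - ((n + 1 : ℝ) : ℂ) * u)
    rw [hu, one_mul, dot_sub, dot_mul, dot_self, hu] at h1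
    have h2 := (abs_le.mp (h1.trans hx)).1
    linarith
  · rw [nrm_eq]
    have h1 : ‖((n + 1 : ℝ) : ℂ) * u‖ = n + 1 := by
      rw [norm_mul, hu, mul_one, Complex.norm_real, Real.norm_eq_abs, abs_of_nonneg (by linarith)]
    have h2 : ‖toC x‖ ≤ ‖toC x - ((n + 1 : ℝ) : ℂ) * u‖ + ‖((n + 1 : ℝ) : ℂ) * u‖ := by
      have := norm_add_le (toC x - ((n + 1 : ℝ) : ℂ) * u) (((n + 1 : ℝ) : ℂ) * u)
      rwa [sub_add_cancel] at this
    linarith

theorem rate_dot_le {u : ℂ} (hu : ‖u‖ = 1) (x : V) : dot u (toC x) ≤ nrm x := by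
  have := (le_abs_self _).trans (abs_dot_le u (toC x))
  rwa [hu, one_mul, ← nrm_eq] at this

/-- smallest value of `h` beyond the line at distance `n` in direction `u` -/
noncomputable def rateM (h : V → ℝ) (u : ℂ) (n : ℝ) : ℝ :=
  sInf (h '' {y : V | n ≤ dot u (toC y)})

theorem rateM_le {h : V → ℝ} (h0 : ∀ z, 0 ≤ h z) {u : ℂ} {n : ℝ} {y : V}
    (hy : n ≤ dot u (toC y)) : rateM h u n ≤ h y :=
  csInf_le ⟨0, by rintro _ ⟨z, _, rfl⟩; exact h0 z⟩ ⟨y, hy, rfl⟩

theorem rateM_exists (h : V → ℝ) {u : ℂ} (hu : ‖u‖ = 1) {n : ℝ} (hn : 0 ≤ n) :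
    ∃ y : V, n ≤ dot u (toC y) ∧ h y < rateM h u n + 1 := by
  obtain ⟨x, hx, _⟩ := rate_pt hu hn
  have hne : (h '' {y : V | n ≤ dot u (toC y)}).Nonempty := ⟨h x, x, hx, rfl⟩
  obtain ⟨_, ⟨y, hy, rfl⟩, hlt⟩ := exists_lt_of_csInf_lt hne (lt_add_one (sInf _))
  exact ⟨y, hy, hlt⟩

/-- one doubling step -/
theorem rate_double (h : V → ℝ) {c C K R : ℝ} (hc : 0 < c)
    (hsub : ∀ z w, h (z + w) ≤ h z + h w) (hneg : ∀ z, h (-z) = h z)
    (hup : ∀ z, h z ≤ C * nrm z) (hlow : ∀ z, c * nrm z ≤ h z)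
    {E : Edge → ℝ} (hE : ∀ e, 0 ≤ E e) {δ : ℝ}
    (hT : ∀ x y : V, nrm x ≤ R → nrm y ≤ R → |T E x y - h (x - y)| ≤ δ)
    {u : ℂ} (hu : ‖u‖ = 1) {n : ℝ} (hn : 1 ≤ n) (hC : 0 < C) (hK : K = 2 * (4 * C + 2 + c) / c)
    (hR : R = K * n) (hδ : δ ≤ c / 4 * R) (hδ0 : 0 ≤ δ) :
    2 * rateM h u n ≤ rateM h u (2 * n) + (C + 2 + 3 * δ) := by
  have h0 : ∀ z, 0 ≤ h z := fun z => (mul_nonneg hc.le (nrm_nonneg z)).trans (hlow z)
  obtain ⟨y, hy, hhy⟩ := rateM_exists h hu (n := 2 * n) (by linarith)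
  -- bound of `h y`
  have hm2 : rateM h u (2 * n) ≤ 4 * C * n := by
    obtain ⟨x, hx, hx2⟩ := rate_pt hu (n := 2 * n) (by linarith)
    have h1 := (rateM_le h0 hx).trans (hup x)
    have h2 : C * nrm x ≤ C * (2 * n + 2) := mul_le_mul_of_nonneg_left hx2 hC.le
    have h3 : C * (2 * n + 2) ≤ C * (4 * n) := mul_le_mul_of_nonneg_left (by linarith) hC.le
    linarith
  have hhy2 : h y ≤ (4 * C + 1) * n := by nlinarith
  have hcR : c * R = 2 * (4 * C + 2 + c) * n := by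
    rw [hR, hK]; field_simp
  have hyR : nrm y ≤ R := by
    have h1 := hlow y
    have h2 : c * nrm y ≤ c * R := by
      rw [hcR]
      nlinarith
    exact le_of_mul_le_mul_left h2 hc
  have hR1 : 2 < R := by
    have h2 : c * 2 < c * R := by
      rw [hcR]
      nlinarith
    exact lt_of_mul_lt_mul_left h2 hc.le
  have h0R : nrm (0 : V) ≤ R := by rw [nrm_zero]; linarith
  -- a short walk
  have hT0 := hT 0 y h0R hyR
  rw [zero_sub, hneg] at hT0
  obtain ⟨l, hl1, hl2⟩ := exists_wt_lt (lt_add_one (T E 0 y))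
  have hwt : wt E 0 l ≤ h y + δ + 1 := by
    have := (abs_le.mp hT0).2
    linarith
  -- the walk stays in the ball
  have hball : ∀ l1 l2 : List Step, l = l1 ++ l2 → nrm (endp 0 l1) ≤ R := by
    intro l1 l2 hl
    by_contra hcon
    push Not at hcon
    obtain ⟨a, s, b, hab, ha1, ha2⟩ := rate_exit (fun v => R - 1 < nrm v) l1 0
      (by rw [nrm_zero]; push Not; linarith) (by linarith)
    push Not at ha1
    have hv : nrm (endp 0 a + vec s) ≤ R := by
      have := nrm_add_le (endp 0 a) (vec s)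
      rw [nrm_vec] at this
      linarith
    have hend : endp 0 (a ++ [s]) = endp 0 a + vec s := by
      rw [endp_append]; rfl
    have h1 : T E 0 (endp 0 a + vec s) ≤ wt E 0 (a ++ [s]) := T_le_wt hE hend
    have h2 : wt E 0 (a ++ [s]) ≤ wt E 0 l := by
      have hthis : l = (a ++ [s]) ++ (b ++ l2) := by rw [hl, hab]; simp
      have h20 := wt_append E 0 (a ++ [s]) (b ++ l2)
      rw [← hthis] at h20
      have := wt_nonneg hE (endp 0 (a ++ [s])) (b ++ l2)
      linarith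
    have h3 := hT 0 _ h0R hv
    rw [zero_sub, hneg] at h3
    have h4 := (abs_le.mp h3).1
    have h5 := hlow (endp 0 a + vec s)
    have h6 : c * (R - 1) < c * nrm (endp 0 a + vec s) := mul_lt_mul_of_pos_left ha2 hc
    nlinarith
  -- crossing of the line at distance `n`
  obtain ⟨l1, s, l2, hl, hv1, hv2⟩ := rate_exit (fun v => n ≤ dot u (toC v)) l 0
    (by simp [dot]; linarith) (by rw [hl1]; linarith)
  push Not at hv1
  set v' := endp 0 l1 with hv'
  set v := endp 0 l1 + vec s with hv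
  have hl' : l = (l1 ++ [s]) ++ l2 := by rw [hl]; simp
  have hend : endp 0 (l1 ++ [s]) = v := by rw [endp_append]; rfl
  have hend2 : endp v l2 = y := by rw [← hend, ← endp_append, ← hl', hl1]
  have hvR : nrm v ≤ R := by
    have := hball _ _ hl'
    rwa [hend] at this
  have hw : wt E 0 l = wt E 0 (l1 ++ [s]) + wt E v l2 := by
    conv_lhs => rw [hl', wt_append, hend]
  have h1 : T E 0 v ≤ wt E 0 (l1 ++ [s]) := T_le_wt hE hend
  have h2 : T E v y ≤ wt E v l2 := T_le_wt hE hend2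
  have h3 := hT 0 v h0R hvR
  rw [zero_sub, hneg] at h3
  have h4 := hT v y hvR hyR
  have h5 : h (v - y) = h (y - v) := by rw [← hneg, neg_sub]
  rw [h5] at h4
  have h6 : rateM h u n ≤ h v := rateM_le h0 hv2
  have h7 : rateM h u n ≤ h (y - v') := by
    apply rateM_le h0
    rw [map_sub, dot_sub]
    linarith
  have h8 : h (y - v') ≤ h (y - v) + C := by
    have h9 : y - v' = (y - v) + vec s := by rw [hv]; abel
    rw [h9]
    refine (hsub _ _).trans ?_
    have h10 := hup (vec s)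
    rw [nrm_vec, mul_one] at h10
    linarith
  have h11 := (abs_le.mp h3).1
  have h12 := (abs_le.mp h4).1
  linarith

theorem rate_arith {a b n B X : ℝ} (h4 : a ≤ b - n ^ 2) (h5 : b ≤ (n + B * X) ^ 2)
    (h8 : B ^ 2 * (X * X) ≤ B ^ 2 * (n * X)) (h9 : 0 ≤ n * X) :
    a ≤ (B + 1) ^ 2 * (n * X) := by
  linarith

theorem euc_rate (h : V → ℝ) {c C η : ℝ} (hc : 0 < c) (hη : 0 < η) (hη1 : η < 1)
    (hsub : ∀ z w, h (z + w) ≤ h z + h w) (hneg : ∀ z, h (-z) = h z)
    (hup : ∀ z, h z ≤ C * nrm z) (hlow : ∀ z, c * nrm z ≤ h z)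
    (hlim : ∀ ε : ℝ, 0 < ε → ∃ R0 : ℝ, ∀ z, R0 ≤ nrm z → h z ≤ (c + ε) * nrm z)
    (hT : ∃ R1 : ℝ, ∀ R, R1 ≤ R → ∃ E : Edge → ℝ, (∀ e, 0 ≤ E e) ∧
      ∀ x y : V, nrm x ≤ R → nrm y ≤ R → |T E x y - h (x - y)| ≤ R ^ (1 - η)) :
    ∃ K R2 : ℝ, ∀ z, R2 ≤ nrm z → h z ≤ c * nrm z + K * nrm z ^ (1 - η / 2) := by
  have h0 : ∀ z, 0 ≤ h z := fun z => (mul_nonneg hc.le (nrm_nonneg z)).trans (hlow z)
  have hC : 0 < C := by
    have h1 := (hlow (vec (0, true))).trans (hup (vec (0, true)))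
    rw [nrm_vec, mul_one, mul_one] at h1
    linarith
  obtain ⟨R1, hR1⟩ := hT
  -- `R ^ (1 - η) ≤ c / 4 * R` for large `R`
  have hlim1 : Filter.Tendsto (fun R : ℝ => R ^ (-η)) Filter.atTop (nhds 0) :=
    tendsto_rpow_neg_atTop hη
  obtain ⟨R3, hR3⟩ := Filter.eventually_atTop.mp (hlim1.eventually (gt_mem_nhds
    (show (0:ℝ) < c / 4 by positivity)))
  set K : ℝ := 2 * (4 * C + 2 + c) / c with hK
  have hK2 : 2 ≤ K := by
    rw [hK, le_div_iff₀ hc]; nlinarith
  have hKpos : 0 < K := by linarith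
  set n0 : ℝ := max 1 (max (R1 / K) (R3 / K)) with hn0
  set C1 : ℝ := C + 2 + 3 * K ^ (1 - η) with hC1
  have hKη : 0 ≤ K ^ (1 - η) := Real.rpow_nonneg hKpos.le _
  have hC1pos : 0 < C1 := by rw [hC1]; linarith
  -- doubling
  have hdouble : ∀ u : ℂ, ‖u‖ = 1 → ∀ n : ℝ, n0 ≤ n →
      2 * rateM h u n ≤ rateM h u (2 * n) + C1 * n ^ (1 - η) := by
    intro u hu n hn
    have hn1 : 1 ≤ n := (le_max_left _ _).trans hn
    have hnR1 : R1 ≤ K * n := by
      have := ((le_max_left _ _).trans (le_max_right _ _)).trans hn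
      rw [div_le_iff₀ hKpos] at this
      linarith
    have hnR3 : R3 ≤ K * n := by
      have := ((le_max_right _ _).trans (le_max_right _ _)).trans hn
      rw [div_le_iff₀ hKpos] at this
      linarith
    obtain ⟨E, hE, hTE⟩ := hR1 (K * n) hnR1
    have hRpos : 0 < K * n := by positivity
    have h1 : (K * n) ^ (1 - η) ≤ c / 4 * (K * n) := by
      have h2 : (K * n) ^ (1 - η) = (K * n) ^ (-η) * (K * n) := by
        conv_rhs => rw [← Real.rpow_one (K * n), ← Real.rpow_mul hRpos.le]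
        rw [one_mul, ← Real.rpow_add hRpos]
        congr 1; ring
      rw [h2]
      exact mul_le_mul_of_nonneg_right (hR3 _ hnR3).le hRpos.le
    have h3 := rate_double h hc hsub hneg hup hlow hE hTE hu hn1 hC hK rfl h1
      (Real.rpow_nonneg hRpos.le _)
    have h4 : (K * n) ^ (1 - η) = K ^ (1 - η) * n ^ (1 - η) :=
      Real.mul_rpow hKpos.le (by linarith)
    have h5 : 1 ≤ n ^ (1 - η) := Real.one_le_rpow hn1 (by linarith)
    rw [h4] at h3
    have h6 : C + 2 + 3 * (K ^ (1 - η) * n ^ (1 - η)) ≤ C1 * n ^ (1 - η) := by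
      rw [hC1]; nlinarith
    linarith
  -- the bound on `m(n)`
  have h2η : (2:ℝ) ^ (1 - η) < 2 := by
    conv_rhs => rw [← Real.rpow_one 2]
    exact Real.rpow_lt_rpow_of_exponent_lt (by norm_num) (by linarith)
  set B : ℝ := C1 / (2 - 2 ^ (1 - η)) with hB
  have hBpos : 0 < B := div_pos hC1pos (by linarith)
  have hBeq : B * (2 - 2 ^ (1 - η)) = C1 := by
    rw [hB]; field_simp [show (2:ℝ) - 2 ^ (1 - η) ≠ 0 by linarith]
  have hn0pos : 0 < n0 := lt_of_lt_of_le one_pos (le_max_left _ _)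
  have hiter : ∀ u : ℂ, ‖u‖ = 1 → ∀ n : ℝ, n0 ≤ n → ∀ k : ℕ,
      2 ^ k * (rateM h u n - B * n ^ (1 - η)) ≤
        rateM h u (2 ^ k * n) - B * (2 ^ k * n) ^ (1 - η) := by
    intro u hu n hn k
    induction k with
    | zero => simp
    | succ k ih =>
      have h1k : (1:ℝ) ≤ 2 ^ k := one_le_pow₀ (by norm_num)
      have hnk : n0 ≤ 2 ^ k * n := hn.trans (le_mul_of_one_le_left (by linarith) h1k)
      have h1 := hdouble u hu _ hnk
      have h2 : (2 ^ (k + 1) * n : ℝ) = 2 * (2 ^ k * n) := by ring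
      have h3 : (2 * (2 ^ k * n) : ℝ) ^ (1 - η) = 2 ^ (1 - η) * (2 ^ k * n) ^ (1 - η) :=
        Real.mul_rpow (by norm_num) (by linarith)
      rw [h2, h3, pow_succ]
      set X : ℝ := (2 ^ k * n) ^ (1 - η) with hX
      have h4 : B * (2 ^ (1 - η) * X) = 2 * (B * X) - C1 * X := by
        rw [← hBeq]; ring
      rw [h4]
      linarith
  have hm : ∀ u : ℂ, ‖u‖ = 1 → ∀ n : ℝ, n0 ≤ n → rateM h u n ≤ c * n + B * n ^ (1 - η) := by
    intro u hu n hn
    have hnpos : 0 < n := lt_of_lt_of_le hn0pos hn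
    have hkey : rateM h u n - B * n ^ (1 - η) ≤ c * n := by
      refine le_of_forall_pos_le_add (fun ε hε => ?_)
      -- choose ε' with ε' n + 2 (c + ε') / 2^k ≤ ε
      set ε' : ℝ := min 1 (ε / (2 * n)) with hε'
      have hε'pos : 0 < ε' := lt_min one_pos (by positivity)
      obtain ⟨R0, hR0⟩ := hlim ε' hε'pos
      obtain ⟨k, hk⟩ := pow_unbounded_of_one_lt (max R0 (4 * (c + 1) / ε) + 1)
        (by norm_num : (1:ℝ) < 2)
      have hk1 : R0 < 2 ^ k := by
        have := le_max_left R0 (4 * (c + 1) / ε); linarith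
      have hk2 : 4 * (c + 1) / ε < 2 ^ k := by
        have := le_max_right R0 (4 * (c + 1) / ε); linarith
      have h2k : (0:ℝ) < 2 ^ k := by positivity
      have hn1 : 1 ≤ n := (le_max_left _ _).trans hn
      obtain ⟨x, hx1, hx2⟩ := rate_pt hu (n := 2 ^ k * n) (by positivity)
      have hx3 : 2 ^ k * n ≤ nrm x := hx1.trans (rate_dot_le hu x)
      have hx4 : R0 ≤ nrm x := by
        have : (2:ℝ) ^ k ≤ 2 ^ k * n := le_mul_of_one_le_right h2k.le hn1
        linarith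
      have h1 := hR0 x hx4
      have h2 := rateM_le h0 hx1
      have h3 : (c + ε') * nrm x ≤ (c + ε') * (2 ^ k * n + 2) :=
        mul_le_mul_of_nonneg_left hx2 (by linarith)
      have h4 := hiter u hu n hn k
      have h5 : 0 ≤ B * (2 ^ k * n) ^ (1 - η) := by positivity
      have h6 : 2 ^ k * (rateM h u n - B * n ^ (1 - η)) ≤ 2 ^ k * (c * n + ε) := by
        have h7 : ε' * n ≤ ε / 2 := by
          have : ε' ≤ ε / (2 * n) := min_le_right _ _
          calc ε' * n ≤ ε / (2 * n) * n := mul_le_mul_of_nonneg_right this hnpos.le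
            _ = ε / 2 := by field_simp
        have h8 : 2 * (c + ε') ≤ 2 ^ k * (ε / 2) := by
          have h9 : ε' ≤ 1 := min_le_left _ _
          rw [div_lt_iff₀ hε] at hk2
          nlinarith
        have h10 : 2 ^ k * (ε' * n) ≤ 2 ^ k * (ε / 2) := mul_le_mul_of_nonneg_left h7 h2k.le
        nlinarith
      exact le_of_mul_le_mul_left h6 h2k
    linarith
  -- conclusion
  set B' : ℝ := (B + 1) / c with hB'
  have hB'pos : 0 < B' := by positivity
  refine ⟨(B + 1) + C * (B' + 1), n0, fun z hz => ?_⟩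
  set n : ℝ := nrm z with hn
  have hnpos : 0 < n := lt_of_lt_of_le hn0pos hz
  have hn1 : 1 ≤ n := (le_max_left _ _).trans hz
  set u : ℂ := ((1 / n : ℝ) : ℂ) * toC z with hu'
  have hzu : toC z = (n : ℂ) * u := by
    rw [hu', ← mul_assoc, ← Complex.ofReal_mul, mul_one_div_cancel hnpos.ne', Complex.ofReal_one,
      one_mul]
  have hu : ‖u‖ = 1 := by
    rw [hu', norm_mul, ← nrm_eq, ← hn, Complex.norm_real, Real.norm_eq_abs,
      abs_of_nonneg (by positivity), one_div_mul_cancel hnpos.ne']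
  obtain ⟨y, hy1, hy2⟩ := rateM_exists h hu hnpos.le
  have hp1 : 1 ≤ n ^ (1 - η) := Real.one_le_rpow hn1 (by linarith)
  have hhy : h y ≤ c * n + (B + 1) * n ^ (1 - η) := by
    have := hm u hu n hz
    nlinarith
  have hyn : nrm y ≤ n + B' * n ^ (1 - η) := by
    have h1 := (hlow y).trans hhy
    have h2 : c * (n + B' * n ^ (1 - η)) = c * n + (B + 1) * n ^ (1 - η) := by
      rw [hB']; field_simp
    rw [← h2] at h1
    exact le_of_mul_le_mul_left h1 hc
  -- `nrm (z - y) ≤ (B' + 1) n ^ (1 - η/2)`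
  have hpp : n ^ (1 - η / 2) * n ^ (1 - η / 2) = n * n ^ (1 - η) := by
    rw [← Real.rpow_add hnpos]
    conv_rhs => lhs; rw [← Real.rpow_one n]
    rw [← Real.rpow_add hnpos]
    congr 1; ring
  have hple : n ^ (1 - η) ≤ n := by
    conv_rhs => rw [← Real.rpow_one n]
    exact Real.rpow_le_rpow_of_exponent_le hn1 (by linarith)
  have hdist : nrm (z - y) ≤ (B' + 1) * n ^ (1 - η / 2) := by
    have hsq : nrm (z - y) ^ 2 ≤ ((B' + 1) * n ^ (1 - η / 2)) ^ 2 := by
      have h1 : nrm (z - y) ^ 2 = nrm y ^ 2 - 2 * n * dot u (toC y) + n ^ 2 := by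
        rw [nrm_eq, nrm_eq, map_sub, ← dot_self, ← dot_self, dot_sub, dot_comm _ (toC z),
          dot_comm _ (toC y), dot_sub, dot_sub, dot_comm (toC y) (toC z)]
        have h2 : dot (toC z) (toC y) = n * dot u (toC y) := by
          rw [dot_comm, hzu, dot_mul, dot_comm]
        have h3 : dot (toC z) (toC z) = n ^ 2 := by
          rw [dot_self, ← nrm_eq]
        rw [h2, h3]; ring
      have h4 : nrm (z - y) ^ 2 ≤ nrm y ^ 2 - n ^ 2 := by
        rw [h1]; nlinarith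
      have h5 : nrm y ^ 2 ≤ (n + B' * n ^ (1 - η)) ^ 2 :=
        pow_le_pow_left₀ (nrm_nonneg y) hyn 2
      have h6 : ((B' + 1) * n ^ (1 - η / 2)) ^ 2 = (B' + 1) ^ 2 * (n * n ^ (1 - η)) := by
        rw [mul_pow, pow_two (n ^ (1 - η / 2)), hpp]
      rw [h6]
      set X : ℝ := n ^ (1 - η) with hX
      have hXpos : 0 ≤ X := by linarith
      have h7 : X * X ≤ n * X := mul_le_mul_of_nonneg_right hple hXpos
      have h8 : B' ^ 2 * (X * X) ≤ B' ^ 2 * (n * X) :=
        mul_le_mul_of_nonneg_left h7 (by positivity)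
      have h9 : 0 ≤ n * X := by positivity
      exact rate_arith h4 h5 h8 h9
    exact abs_le_of_sq_le_sq' hsq (by positivity) |>.2
  have h1 : h z ≤ h y + h (z - y) := by
    have := hsub y (z - y)
    rwa [add_sub_cancel] at this
  have h2 := hup (z - y)
  have h3 : C * nrm (z - y) ≤ C * ((B' + 1) * n ^ (1 - η / 2)) :=
    mul_le_mul_of_nonneg_left hdist hC.le
  have h4 : n ^ (1 - η) ≤ n ^ (1 - η / 2) :=
    Real.rpow_le_rpow_of_exponent_le hn1 (by linarith)
  have h5 : (B + 1) * n ^ (1 - η) ≤ (B + 1) * n ^ (1 - η / 2) :=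
    mul_le_mul_of_nonneg_left h4 (by positivity)
  nlinarith

end ConeE
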