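import Pool.Agent.ConeE.TProp

/-! Invariance of the mean passage times under the symmetries of the square (module SYM). -/

set_option autoImplicit false

namespace ConeE

open MeasureTheory

/-- transport of walks by a symmetry of the lattice -/
theorem Sym_endp (φ : V → V) (g : Step ≃ Step) (h1 : ∀ x s, φ (x + vec s) = φ x + vec (g s))
    (x : V) (l : List Step) : endp (φ x) (l.map g) = φ (endp x l) := by
  induction l generalizing x with
  | nil => rfl
  | cons s l ih =>
    rw [List.map_cons, endp_cons, endp_cons, ← h1]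
    exact ih _

theorem Sym_wt (φ : V → V) (g : Step ≃ Step) (ψ : Edge → Edge)
    (h1 : ∀ x s, φ (x + vec s) = φ x + vec (g s)) (h2 : ∀ x s, edg (φ x) (g s) = ψ (edg x s))
    (E : Edge → ℝ) (x : V) (l : List Step) :
    wt E (φ x) (l.map g) = wt (fun e => E (ψ e)) x l := by
  induction l generalizing x with
  | nil => rfl
  | cons s l ih =>
    rw [List.map_cons, wt_cons, wt_cons, ← h1, h2, ih]

theorem Sym_T (φ : V → V) (hφ : Function.Injective φ) (g : Step ≃ Step) (ψ : Edge → Edge)
    (h1 : ∀ x s, φ (x + vec s) = φ x + vec (g s)) (h2 : ∀ x s, edg (φ x) (g s) = ψ (edg x s))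
    (E : Edge → ℝ) (x y : V) : T E (φ x) (φ y) = T (fun e => E (ψ e)) x y := by
  unfold T
  refine (Equiv.iInf_congr (⟨fun l => ⟨l.1.map g, ?_⟩, fun l => ⟨l.1.map g.symm, ?_⟩,
    fun l => ?_, fun l => ?_⟩ : {l : List Step // endp x l = y} ≃
      {l : List Step // endp (φ x) l = φ y}) ?_).symm
  · rw [Sym_endp φ g h1, l.2]
  · apply hφ
    rw [← Sym_endp φ g h1, List.map_map, Equiv.self_comp_symm, List.map_id]
    exact l.2
  · apply Subtype.ext
    simp
  · apply Subtype.ext
    simp
  · intro l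
    exact Sym_wt φ g ψ h1 h2 E x l.1

theorem Sym_hm (φ : V → V) (hφ : Function.Injective φ) (h0 : φ 0 = 0) (g : Step ≃ Step)
    (ψ : Edge ≃ Edge) (h1 : ∀ x s, φ (x + vec s) = φ x + vec (g s))
    (h2 : ∀ x s, edg (φ x) (g s) = ψ (edg x s)) (z : V) : hm (φ z) = hm z := by
  have h3 : hm (φ z) = ∫ E, T (fun e => E (ψ e)) 0 z ∂PE := by
    unfold hm
    congr 1
    ext E
    have := Sym_T φ hφ g ψ h1 h2 E 0 z
    rw [h0] at this
    exact this
  have h4 := measurePreserving_perm ψ
  have h5 : ∫ E, T E 0 z ∂PE = ∫ E, T (fun e => E (ψ e)) 0 z ∂PE := by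
    conv_lhs => rw [← h4.map_eq]
    exact integral_map h4.measurable.aemeasurable (measurable_T 0 z).aestronglyMeasurable
  rw [h3, ← h5]
  rfl

/-- rotation of the steps -/
def Sym_stepRot : Step ≃ Step where
  toFun s := if s.1 = 0 then (1, s.2) else (0, !s.2)
  invFun s := if s.1 = 0 then (1, !s.2) else (0, s.2)
  left_inv s := by
    rcases s with ⟨j, b⟩
    fin_cases j <;> simp
  right_inv s := by
    rcases s with ⟨j, b⟩
    fin_cases j <;> simp

/-- inverse rotation of the lattice -/
def Sym_irot (x : V) : V := ![x 1, -x 0]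

theorem Sym_irot_rot (x : V) : Sym_irot (rot x) = x := by
  funext j
  fin_cases j <;> simp [Sym_irot, rot]

theorem Sym_rot_irot (x : V) : rot (Sym_irot x) = x := by
  funext j
  fin_cases j <;> simp [Sym_irot, rot]

theorem Sym_rot_add (x y : V) : rot (x + y) = rot x + rot y := by
  funext j
  fin_cases j <;> simp [rot, add_comm]

theorem Sym_irot_add (x y : V) : Sym_irot (x + y) = Sym_irot x + Sym_irot y := by
  funext j
  fin_cases j <;> simp [Sym_irot, add_comm]

/-- rotation of the edges -/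
def Sym_edgeRot : Edge ≃ Edge where
  toFun e := if e.2 = 0 then (rot e.1, 1) else (rot e.1 - ev 0, 0)
  invFun e := if e.2 = 0 then (Sym_irot (e.1 + ev 0), 1) else (Sym_irot e.1, 0)
  left_inv e := by
    rcases e with ⟨v, j⟩
    fin_cases j <;> simp [Sym_irot_rot]
  right_inv e := by
    rcases e with ⟨v, j⟩
    fin_cases j <;> simp [Sym_rot_irot]

theorem hm_rot (z : V) : hm (rot z) = hm z := by
  refine Sym_hm rot (fun x y h => ?_) ?_ Sym_stepRot Sym_edgeRot ?_ ?_ z
  · rw [← Sym_irot_rot x, h, Sym_irot_rot]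
  · funext j
    fin_cases j <;> simp [rot]
  · rintro x ⟨j, b⟩
    rw [Sym_rot_add]
    congr 1
    funext k
    fin_cases j <;> fin_cases k <;> cases b <;> simp [rot, vec, ev, Sym_stepRot]
  · rintro x ⟨j, b⟩
    fin_cases j <;> cases b <;> simp [edg, Sym_stepRot, Sym_edgeRot]
    · funext k
      fin_cases k <;> simp [rot, ev]
    · funext k
      fin_cases k <;> simp [rot, ev]

/-- reflection of the steps -/
def Sym_stepCj : Step ≃ Step where
  toFun s := if s.1 = 0 then s else (1, !s.2)
  invFun s := if s.1 = 0 then s else (1, !s.2)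
  left_inv s := by
    rcases s with ⟨j, b⟩
    fin_cases j <;> simp
  right_inv s := by
    rcases s with ⟨j, b⟩
    fin_cases j <;> simp

theorem Sym_cj_cj (x : V) : cj (cj x) = x := by
  funext j
  fin_cases j <;> simp [cj]

theorem Sym_cj_add (x y : V) : cj (x + y) = cj x + cj y := by
  funext j
  fin_cases j <;> simp [cj, add_comm]

/-- reflection of the edges -/
def Sym_edgeCj : Edge ≃ Edge where
  toFun e := if e.2 = 0 then (cj e.1, 0) else (cj e.1 - ev 1, 1)
  invFun e := if e.2 = 0 then (cj e.1, 0) else (cj (e.1 + ev 1), 1)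
  left_inv e := by
    rcases e with ⟨v, j⟩
    fin_cases j <;> simp [Sym_cj_cj]
  right_inv e := by
    rcases e with ⟨v, j⟩
    fin_cases j <;> simp [Sym_cj_cj]

theorem hm_cj (z : V) : hm (cj z) = hm z := by
  refine Sym_hm cj (fun x y h => ?_) ?_ Sym_stepCj Sym_edgeCj ?_ ?_ z
  · rw [← Sym_cj_cj x, h, Sym_cj_cj]
  · funext j
    fin_cases j <;> simp [cj]
  · rintro x ⟨j, b⟩
    rw [Sym_cj_add]
    congr 1
    funext k
    fin_cases j <;> fin_cases k <;> cases b <;> simp [cj, vec, ev, Sym_stepCj]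
  · rintro x ⟨j, b⟩
    fin_cases j <;> cases b <;> simp [edg, Sym_stepCj, Sym_edgeCj]
    · funext k
      fin_cases k <;> simp [cj, ev]
    · funext k
      fin_cases k <;> simp [cj, ev]

end ConeE
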