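import Pool.Agent.ConeE.Basic
import Pool.Agent.ConeE.Prod

/-! Every edge is essential or negligible (module UNIQ). -/

set_option autoImplicit false

namespace ConeE

open MeasureTheory

namespace UNIQAux

/-- cut at the first use of `e` -/
theorem first_use (e : Edge) : ∀ (x : V) (l : List Step), e ∈ edges x l →
    ∃ l1 s l2, l = l1 ++ s :: l2 ∧ edg (endp x l1) s = e ∧ e ∉ edges x l1
  | x, [], h => by simp [edges] at h
  | x, s :: l, h => by
    by_cases hs : edg x s = e
    · exact ⟨[], s, l, rfl, hs, by simp [edges]⟩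
    · have h' : e ∈ edges (x + vec s) l := by
        rcases List.mem_cons.1 h with h1 | h1
        · exact absurd h1.symm hs
        · exact h1
      obtain ⟨l1, s', l2, h1, h2, h3⟩ := first_use e (x + vec s) l h'
      refine ⟨s :: l1, s', l2, by rw [h1]; rfl, h2, ?_⟩
      intro hm
      rcases List.mem_cons.1 hm with h4 | h4
      · exact hs h4.symm
      · exact h3 h4

/-- cut at the last use of `e` -/
theorem last_use (e : Edge) : ∀ (x : V) (l : List Step), e ∈ edges x l →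
    ∃ l1 s l2, l = l1 ++ s :: l2 ∧ edg (endp x l1) s = e ∧
      e ∉ edges (endp x l1 + vec s) l2
  | x, [], h => by simp [edges] at h
  | x, s :: l, h => by
    by_cases h' : e ∈ edges (x + vec s) l
    · obtain ⟨l1, s', l2, h1, h2, h3⟩ := last_use e (x + vec s) l h'
      exact ⟨s :: l1, s', l2, by rw [h1]; rfl, h2, h3⟩
    · have hs : edg x s = e := by
        rcases List.mem_cons.1 h with h1 | h1
        · exact h1.symm
        · exact absurd h1 h'
      exact ⟨[], s, l, rfl, hs, h'⟩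

/-- `x` is reached from the origin avoiding `e`, with weight `< q` -/
def A0 (τ : Edge → ℝ) (e : Edge) (q : ℝ) : Set V :=
  {x | ∃ l : List Step, endp 0 l = x ∧ e ∉ edges 0 l ∧ wt τ 0 l < q}

/-- `x` is reached from the origin through `e`, the weight of `e` not counted -/
def A1 (τ : Edge → ℝ) (e : Edge) (q : ℝ) : Set V :=
  {x | ∃ (l1 : List Step) (b : V) (l2 : List Step),
    (endp 0 l1 = e.1 ∨ endp 0 l1 = e.1 + ev e.2) ∧ (b = e.1 ∨ b = e.1 + ev e.2) ∧
    endp b l2 = x ∧ e ∉ edges 0 l1 ∧ e ∉ edges b l2 ∧ wt τ 0 l1 + wt τ b l2 < q}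

theorem A0_mono {τ : Edge → ℝ} {e : Edge} {q q' : ℝ} (h : q ≤ q') : A0 τ e q ⊆ A0 τ e q' := by
  rintro x ⟨l, h1, h2, h3⟩
  exact ⟨l, h1, h2, h3.trans_le h⟩

theorem A1_mono {τ : Edge → ℝ} {e : Edge} {q q' : ℝ} (h : q ≤ q') : A1 τ e q ⊆ A1 τ e q' := by
  rintro x ⟨l1, b, l2, h1, h2, h3, h4, h5, h6⟩
  exact ⟨l1, b, l2, h1, h2, h3, h4, h5, h6.trans_le h⟩

theorem wt_congr {τ τ' : Edge → ℝ} (x : V) (l : List Step) (h : ∀ e ∈ edges x l, τ e = τ' e) :
    wt τ x l = wt τ' x l :=
  le_antisymm (wt_mono x l fun e he => (h e he).le) (wt_mono x l fun e he => (h e he).ge)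

theorem A0_congr {τ τ' : Edge → ℝ} {e : Edge} (h : ∀ f, f ≠ e → τ f = τ' f) (q : ℝ) :
    A0 τ e q = A0 τ' e q := by
  ext x
  constructor
  · rintro ⟨l, h1, h2, h3⟩
    refine ⟨l, h1, h2, ?_⟩
    rwa [← wt_congr 0 l fun f hf => h f fun hfe => h2 (hfe ▸ hf)]
  · rintro ⟨l, h1, h2, h3⟩
    refine ⟨l, h1, h2, ?_⟩
    rwa [wt_congr 0 l fun f hf => h f fun hfe => h2 (hfe ▸ hf)]

theorem A1_congr {τ τ' : Edge → ℝ} {e : Edge} (h : ∀ f, f ≠ e → τ f = τ' f) (q : ℝ) :
    A1 τ e q = A1 τ' e q := by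
  ext x
  constructor
  · rintro ⟨l1, b, l2, h1, h2, h3, h4, h5, h6⟩
    refine ⟨l1, b, l2, h1, h2, h3, h4, h5, ?_⟩
    rwa [← wt_congr 0 l1 fun f hf => h f fun hfe => h4 (hfe ▸ hf),
      ← wt_congr b l2 fun f hf => h f fun hfe => h5 (hfe ▸ hf)]
  · rintro ⟨l1, b, l2, h1, h2, h3, h4, h5, h6⟩
    refine ⟨l1, b, l2, h1, h2, h3, h4, h5, ?_⟩
    rwa [wt_congr 0 l1 fun f hf => h f fun hfe => h4 (hfe ▸ hf),
      wt_congr b l2 fun f hf => h f fun hfe => h5 (hfe ▸ hf)]

/-- the level from which `A0` is infinite -/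
noncomputable def N0 (τ : Edge → ℝ) (e : Edge) : EReal :=
  ⨅ q : ℚ, ⨅ (_ : (A0 τ e q).Infinite), ((q : ℝ) : EReal)

/-- the level from which `A1` is infinite -/
noncomputable def N1 (τ : Edge → ℝ) (e : Edge) : EReal :=
  ⨅ q : ℚ, ⨅ (_ : (A1 τ e q).Infinite), ((q : ℝ) : EReal)

/-- generic computation of such an infimum -/
theorem inf_eq {A : ℝ → Set V} (hmono : ∀ q q', q ≤ q' → A q ⊆ A q') {s : ℝ}
    (hs : (A s).Infinite) (hlow : ∀ q, (A q).Infinite → s ≤ q) :
    (⨅ q : ℚ, ⨅ (_ : (A q).Infinite), ((q : ℝ) : EReal)) = (s : EReal) := by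
  apply le_antisymm
  · refine EReal.le_of_forall_lt_iff_le.1 fun z hz => ?_
    have hz' : s < z := by exact_mod_cast hz
    obtain ⟨q, hq1, hq2⟩ := exists_rat_btwn hz'
    refine (iInf₂_le q (hs.mono (hmono _ _ hq1.le))).trans ?_
    exact_mod_cast hq2.le
  · refine le_iInf₂ fun q hq => ?_
    exact_mod_cast hlow q hq

theorem N0_eq {τ : Edge → ℝ} (hτ : ∀ e, 0 ≤ τ e) {e : Edge} (h : (Avoid τ e).Infinite) :
    N0 τ e = ((S τ 0 : ℝ) : EReal) := by
  apply inf_eq (A := A0 τ e) fun q q' => A0_mono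
  · refine h.mono ?_
    rintro x ⟨l, h1, h2, h3⟩
    exact ⟨l, h1, h3, h2⟩
  · intro q hq
    apply S_le_of_infinite hτ
    refine hq.mono ?_
    rintro x ⟨l, h1, h2, h3⟩
    exact (T_le_wt hτ h1).trans h3.le

/-- the edge `e` joins its ends -/
theorem step_edge (e : Edge) : ∃ s : Step, e.1 + vec s = e.1 + ev e.2 ∧ edg e.1 s = e :=
  ⟨(e.2, true), by simp [vec], by simp [edg]⟩

theorem exists_step {e : Edge} {a b : V} (ha : a = e.1 ∨ a = e.1 + ev e.2)
    (hb : b = e.1 ∨ b = e.1 + ev e.2) :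
    ∃ l : List Step, endp a l = b ∧ ∀ τ : Edge → ℝ, (∀ e, 0 ≤ τ e) → wt τ a l ≤ τ e := by
  rcases ha with rfl | rfl <;> rcases hb with rfl | rfl
  · exact ⟨[], rfl, fun τ hτ => hτ e⟩
  · exact ⟨[(e.2, true)], by simp [endp, vec], fun τ _ => by simp [wt, edg]⟩
  · exact ⟨[(e.2, false)], by simp [endp, vec], fun τ _ => by simp [wt, edg]⟩
  · exact ⟨[], rfl, fun τ hτ => hτ e⟩

theorem N1_eq {τ : Edge → ℝ} (hτ : ∀ e, 0 ≤ τ e) {e : Edge} (h : (Via τ e).Infinite) :
    N1 τ e = ((S τ 0 - τ e : ℝ) : EReal) := by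
  apply inf_eq (A := A1 τ e) fun q q' => A1_mono
  · refine h.mono ?_
    rintro x ⟨l, h1, h2, h3⟩
    obtain ⟨l1, s, l2, hl, hs, hn⟩ := first_use e 0 l h3
    have h4 : e ∈ edges (endp 0 l1) (s :: l2) := by
      rw [← hs]; exact List.mem_cons_self
    obtain ⟨m1, s', m2, hm, hs', hn'⟩ := last_use e (endp 0 l1) (s :: l2) h4
    refine ⟨l1, endp (endp 0 l1) m1 + vec s', m2, ?_, ?_, ?_, hn, hn', ?_⟩
    · rcases edg_cases (endp 0 l1) s with ⟨h5, _⟩ | ⟨_, h5⟩
      · left; rw [← h5, hs]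
      · right; rw [hs] at h5; exact h5.symm
    · rcases edg_cases (endp (endp 0 l1) m1) s' with ⟨_, h5⟩ | ⟨h5, _⟩
      · right; rw [hs'] at h5; exact h5.symm
      · left; rw [← h5, hs']
    · rw [← h1, hl, endp_append, hm, endp_append]
      rfl
    · have e1 : wt τ 0 l = wt τ 0 l1 + (wt τ (endp 0 l1) m1 +
          (τ e + wt τ (endp (endp 0 l1) m1 + vec s') m2)) := by
        rw [hl, wt_append, hm, wt_append, wt_cons, hs']
      have e2 := wt_nonneg hτ (endp 0 l1) m1
      linarith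
  · intro q hq
    have : S τ 0 ≤ q + τ e := by
      apply S_le_of_infinite hτ
      refine hq.mono ?_
      rintro x ⟨l1, b, l2, h1, h2, h3, _, _, h6⟩
      obtain ⟨m, hm1, hm2⟩ := exists_step h1 h2
      have h7 : endp 0 (l1 ++ (m ++ l2)) = x := by
        rw [endp_append, endp_append, hm1, h3]
      refine (T_le_wt hτ h7).trans ?_
      rw [wt_append, wt_append, hm1]
      have := hm2 τ hτ
      linarith
    linarith

theorem meas_wt {X : Type*} [MeasurableSpace X] (τ : X → Edge → ℝ)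
    (hτ : ∀ e, Measurable fun y => τ y e) (x : V) (l : List Step) :
    Measurable fun y => wt (τ y) x l := by
  induction l generalizing x with
  | nil => exact measurable_const
  | cons s l ih => exact (hτ _).add (ih _)

theorem meas_inf {X : Type*} [MeasurableSpace X] (A : X → Set V)
    (hA : ∀ v, MeasurableSet {y | v ∈ A y}) : MeasurableSet {y | (A y).Infinite} := by
  have h : {y | (A y).Infinite} = ⋂ F : Finset V, ⋃ v : V, ⋃ (_ : v ∉ F), {y | v ∈ A y} := by
    ext y
    simp only [Set.mem_ofPred_eq, Set.mem_iInter, Set.mem_iUnion, exists_prop]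
    constructor
    · intro h F
      obtain ⟨v, hv, hvF⟩ := h.exists_notMem_finset F
      exact ⟨v, hvF, hv⟩
    · intro h hfin
      obtain ⟨v, hv, hvA⟩ := h hfin.toFinset
      exact hv (hfin.mem_toFinset.2 hvA)
  rw [h]
  exact MeasurableSet.iInter fun F => MeasurableSet.iUnion fun v =>
    MeasurableSet.iUnion fun _ => hA v

theorem meas_A0 {X : Type*} [MeasurableSpace X] (τ : X → Edge → ℝ)
    (hτ : ∀ e, Measurable fun y => τ y e) (e : Edge) (q : ℝ) (v : V) :
    MeasurableSet {y | v ∈ A0 (τ y) e q} := by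
  have h : {y | v ∈ A0 (τ y) e q} = ⋃ l : List Step, ⋃ (_ : endp 0 l = v),
      ⋃ (_ : e ∉ edges 0 l), {y | wt (τ y) 0 l < q} := by
    ext y
    simp only [A0, Set.mem_ofPred_eq, Set.mem_iUnion, exists_prop]
  rw [h]
  exact MeasurableSet.iUnion fun l => MeasurableSet.iUnion fun _ => MeasurableSet.iUnion fun _ =>
    measurableSet_lt (meas_wt τ hτ 0 l) measurable_const

theorem meas_A1 {X : Type*} [MeasurableSpace X] (τ : X → Edge → ℝ)
    (hτ : ∀ e, Measurable fun y => τ y e) (e : Edge) (q : ℝ) (v : V) :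
    MeasurableSet {y | v ∈ A1 (τ y) e q} := by
  have h : {y | v ∈ A1 (τ y) e q} = ⋃ l1 : List Step, ⋃ b : V, ⋃ l2 : List Step,
      ⋃ (_ : (endp 0 l1 = e.1 ∨ endp 0 l1 = e.1 + ev e.2) ∧ (b = e.1 ∨ b = e.1 + ev e.2) ∧
        endp b l2 = v ∧ e ∉ edges 0 l1 ∧ e ∉ edges b l2),
      {y | wt (τ y) 0 l1 + wt (τ y) b l2 < q} := by
    ext y
    simp only [A1, Set.mem_ofPred_eq, Set.mem_iUnion, exists_prop]
    constructor
    · rintro ⟨l1, b, l2, h1, h2, h3, h4, h5, h6⟩
      exact ⟨l1, b, l2, ⟨h1, h2, h3, h4, h5⟩, h6⟩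
    · rintro ⟨l1, b, l2, ⟨h1, h2, h3, h4, h5⟩, h6⟩
      exact ⟨l1, b, l2, h1, h2, h3, h4, h5, h6⟩
  rw [h]
  exact MeasurableSet.iUnion fun l1 => MeasurableSet.iUnion fun b => MeasurableSet.iUnion fun l2 =>
    MeasurableSet.iUnion fun _ =>
    measurableSet_lt ((meas_wt τ hτ 0 l1).add (meas_wt τ hτ b l2)) measurable_const

theorem meas_level {X : Type*} [MeasurableSpace X] (A : X → ℝ → Set V)
    (hA : ∀ q v, MeasurableSet {y | v ∈ A y q}) :
    Measurable fun y => (⨅ q : ℚ, ⨅ (_ : (A y q).Infinite), ((q : ℝ) : EReal)) := by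
  classical
  refine Measurable.iInf fun q => ?_
  have h : (fun y => ⨅ (_ : (A y q).Infinite), ((q : ℝ) : EReal)) =
      fun y => if (A y q).Infinite then ((q : ℝ) : EReal) else ⊤ := by
    funext y
    split_ifs with h
    · simp [h]
    · simp [h]
  rw [h]
  exact Measurable.ite (meas_inf (fun y => A y q) (hA q)) measurable_const measurable_const

end UNIQAux

open UNIQAux

theorem via_or_avoid (α : ℝ) :
    ∀ᵐ E ∂PE, Explodes (tau α E) → ∀ e : Edge,
      (Via (tau α E) e).Finite ∨ (Avoid (tau α E) e).Finite := by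
  have hτm : ∀ e, Measurable fun E : Edge → ℝ => tau α E e := fun e => by
    unfold tau
    exact (measurable_pi_apply e).div_const _
  -- the bad event has probability zero
  have hbad : ∀ e : Edge, ∀ᵐ E ∂PE,
      E e / mid e ^ α ≠ (N0 (tau α E) e - N1 (tau α E) e).toReal := by
    intro e
    have hmid : 0 < mid e ^ α := Real.rpow_pos_of_pos (mid_pos e) α
    set h : (Edge → ℝ) → ℝ := fun E => (N0 (tau α E) e - N1 (tau α E) e).toReal with hh
    have hm0 : Measurable fun E : Edge → ℝ => N0 (tau α E) e :=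
      meas_level (fun E => A0 (tau α E) e) fun q v => meas_A0 (fun E => tau α E) hτm e q v
    have hm1 : Measurable fun E : Edge → ℝ => N1 (tau α E) e :=
      meas_level (fun E => A1 (tau α E) e) fun q v => meas_A1 (fun E => tau α E) hτm e q v
    have hhm : Measurable h := (hm0.sub hm1).ereal_toReal
    have hindep : ∀ E t, h (Function.update E e t) = h E := by
      intro E t
      have hc : ∀ f, f ≠ e → tau α (Function.update E e t) f = tau α E f := by
        intro f hf
        simp [tau, Function.update_of_ne hf]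
      simp only [hh, N0, N1, A0_congr hc, A1_congr hc]
    have hB : MeasurableSet {E : Edge → ℝ | E e / mid e ^ α = h E} :=
      measurableSet_eq_fun ((measurable_pi_apply e).div_const _) hhm
    rw [ae_iff]
    have hset : {E : Edge → ℝ | ¬ E e / mid e ^ α ≠ h E} =
        {E : Edge → ℝ | E e / mid e ^ α = h E} := by
      ext E; simp
    rw [hset, ← (measurePreserving_update e).measure_preimage hB.nullMeasurableSet,
      Measure.prod_apply ((measurePreserving_update e).measurable hB), lintegral_eq_zero_iff]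
    · filter_upwards with E
      have : (Prod.mk E ⁻¹' ((fun q : (Edge → ℝ) × ℝ => Function.update q.1 e q.2) ⁻¹'
          {E : Edge → ℝ | E e / mid e ^ α = h E})) = {h E * mid e ^ α} := by
        ext t
        simp only [Set.mem_preimage, Set.mem_ofPred_eq, Function.update_self, hindep,
          Set.mem_singleton_iff]
        rw [div_eq_iff hmid.ne']
      rw [this]
      exact mE_singleton _
    · exact measurable_measure_prodMk_left ((measurePreserving_update e).measurable hB)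
  filter_upwards [ae_pos, ae_all_iff.2 hbad] with E hE hb _ e
  by_contra hcon
  rw [not_or] at hcon
  obtain ⟨h1, h2⟩ := hcon
  have hτ : ∀ e, 0 ≤ tau α E e := tau_nonneg fun e => (hE e).le
  apply hb e
  rw [N0_eq hτ h2, N1_eq hτ h1, ← EReal.coe_sub, EReal.toReal_coe]
  simp [tau]

end ConeE
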