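import Pool.Agent.ConeE.Det
import Pool.Agent.ConeE.Mu
import Pool.Agent.ConeE.Rate
import Pool.Agent.ConeE.Conc
import Pool.Agent.ConeE.Uniq
import Pool.Agent.ConeE.Sym

/-! The confinement theorem for first passage percolation. -/

set_option autoImplicit false

namespace ConeE

open MeasureTheory

/-- the law of large numbers from concentration and convergence of the means -/
theorem lln_of_conc {h : V → ℝ} {μ : ℂ → ℝ} {C : ℝ}
    (hup : ∀ z, h z ≤ C * nrm z)
    (hmu : ∀ z, μ (toC z) ≤ h z) (hmu0 : ∀ z, 0 ≤ μ z)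
    (hlim : ∀ ε : ℝ, 0 < ε → ∃ R0 : ℝ, ∀ z, R0 ≤ nrm z → h z ≤ μ (toC z) + ε * nrm z)
    {E : Edge → ℝ} (hE : ∃ R0 : ℝ, ∀ R, R0 ≤ R → ∀ x y : V, nrm x ≤ R → nrm y ≤ R →
      |T E x y - h (x - y)| ≤ R ^ (9 / 10 : ℝ)) : LLN toC μ E := by
  intro ε hε
  obtain ⟨R0, hR0⟩ := hE
  obtain ⟨R1, hR1⟩ := hlim (ε / 4) (by positivity)
  have hC : 0 ≤ |C| := abs_nonneg C
  -- for large R, R^(9/10) ≤ (ε/4) R and |C| * R1 ≤ ε / 4 * R
  have hlim1 : Filter.Tendsto (fun R : ℝ => R ^ (-(1 / 10) : ℝ)) Filter.atTop (nhds 0) :=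
    tendsto_rpow_neg_atTop (by norm_num)
  obtain ⟨R2, hR2⟩ := Filter.eventually_atTop.mp (hlim1.eventually (gt_mem_nhds
    (show (0:ℝ) < ε / 4 by positivity)))
  refine ⟨max (max R0 R2) (max 1 (4 * (|C| * |R1|) / ε)), fun R hR x y hx hy => ?_⟩
  have hRa : R0 ≤ R := (le_max_left _ _).trans ((le_max_left _ _).trans hR)
  have hRb : R2 ≤ R := (le_max_right _ _).trans ((le_max_left _ _).trans hR)
  have hRc : 1 ≤ R := (le_max_left _ _).trans ((le_max_right _ _).trans hR)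
  have hRd : 4 * (|C| * |R1|) / ε ≤ R := (le_max_right _ _).trans ((le_max_right _ _).trans hR)
  have hRpos : 0 < R := by linarith
  have h1 := hR0 R hRa x y hx hy
  have h2 : R ^ (9 / 10 : ℝ) ≤ ε / 4 * R := by
    have h3 := hR2 R hRb
    have h4 : R ^ (9 / 10 : ℝ) = R ^ (-(1 / 10) : ℝ) * R := by
      conv_rhs => rw [← Real.rpow_one R, ← Real.rpow_mul hRpos.le]
      rw [one_mul, ← Real.rpow_add hRpos]
      norm_num
    rw [h4]
    have : R ^ (-(1 / 10) : ℝ) ≤ ε / 4 := h3.le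
    exact mul_le_mul_of_nonneg_right this hRpos.le
  have h5 : toC x - toC y = toC (x - y) := (map_sub _ _ _).symm
  have h6 : |h (x - y) - μ (toC x - toC y)| ≤ ε * (3 / 4) * R := by
    rw [h5]
    have h7 := hmu (x - y)
    rw [abs_of_nonneg (by linarith)]
    have hn : nrm (x - y) ≤ 2 * R := by
      have := nrm_sub_le x y
      linarith
    by_cases hz : R1 ≤ nrm (x - y)
    · have h8 := hR1 _ hz
      have h9 : ε / 4 * nrm (x - y) ≤ ε / 4 * (2 * R) :=
        mul_le_mul_of_nonneg_left hn (by positivity)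
      nlinarith
    · have hz' : nrm (x - y) ≤ |R1| := by
        push Not at hz
        exact hz.le.trans (le_abs_self _)
      have h8 := hup (x - y)
      have h9 : C * nrm (x - y) ≤ |C| * |R1| :=
        (mul_le_mul_of_nonneg_right (le_abs_self C) (nrm_nonneg _)).trans
          (mul_le_mul_of_nonneg_left hz' hC)
      have h10 : |C| * |R1| ≤ ε / 4 * R := by
        rw [div_le_iff₀ hε] at hRd
        linarith
      have h11 := hmu0 (toC (x - y))
      nlinarith
  have h12 : T E x y - μ (toC x - toC y) =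
      (T E x y - h (x - y)) + (h (x - y) - μ (toC x - toC y)) := by ring
  rw [h12]
  refine (abs_add_le _ _).trans ?_
  have : ε * R = ε / 4 * R + ε * (3 / 4) * R := by ring
  rw [this]
  exact add_le_add (h1.trans h2) h6

/-- the rate version in the Euclidean case -/
theorem appr_of_rate {h : V → ℝ} {c C K R2 : ℝ}
    (hc : 0 < c) (hup : ∀ z, h z ≤ C * nrm z) (hlow : ∀ z, c * nrm z ≤ h z)
    (hrate : ∀ z, R2 ≤ nrm z → h z ≤ c * nrm z + K * nrm z ^ (1 - (1 / 10 : ℝ) / 2))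
    {E : Edge → ℝ} (hE : ∃ R0 : ℝ, ∀ R, R0 ≤ R → ∀ x y : V, nrm x ≤ R → nrm y ≤ R →
      |T E x y - h (x - y)| ≤ R ^ (9 / 10 : ℝ)) :
    ∃ R1 : ℝ, ∀ R, R1 ≤ R → Appr toC (fun z => c * ‖z‖) E (R ^ (-(1 / 40) : ℝ)) R := by
  obtain ⟨R0, hR0⟩ := hE
  have hlim1 : Filter.Tendsto (fun R : ℝ => R ^ (-(1 / 40) : ℝ)) Filter.atTop (nhds 0) :=
    tendsto_rpow_neg_atTop (by norm_num)
  set A : ℝ := 1 + |K| * 2 + |C| * |R2| with hA
  have hA1 : 1 ≤ A := by
    rw [hA]; nlinarith [abs_nonneg K, mul_nonneg (abs_nonneg C) (abs_nonneg R2)]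
  obtain ⟨R3, hR3⟩ := Filter.eventually_atTop.mp (hlim1.eventually (gt_mem_nhds
    (show (0:ℝ) < 1 / A by positivity)))
  refine ⟨max (max R0 R3) 1, fun R hR x y hx hy => ?_⟩
  have hRa : R0 ≤ R := (le_max_left _ _).trans ((le_max_left _ _).trans hR)
  have hRb : R3 ≤ R := (le_max_right _ _).trans ((le_max_left _ _).trans hR)
  have hRc : 1 ≤ R := (le_max_right _ _).trans hR
  have hRpos : 0 < R := by linarith
  have h1 := hR0 R hRa x y hx hy
  have h5 : toC x - toC y = toC (x - y) := (map_sub _ _ _).symm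
  have hn : nrm (x - y) ≤ 2 * R := by
    have := nrm_sub_le x y
    linarith
  have hpow : R ^ (9 / 10 : ℝ) ≤ R ^ (19 / 20 : ℝ) :=
    Real.rpow_le_rpow_of_exponent_le hRc (by norm_num)
  have hone : (1:ℝ) ≤ R ^ (19 / 20 : ℝ) := Real.one_le_rpow hRc (by norm_num)
  have h6 : |h (x - y) - c * ‖toC x - toC y‖| ≤ (|K| * 2 + |C| * |R2|) * R ^ (19 / 20 : ℝ) := by
    rw [h5, ← nrm_eq]
    have h7 := hlow (x - y)
    rw [abs_of_nonneg (by linarith)]
    by_cases hz : R2 ≤ nrm (x - y)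
    · have h8 := hrate _ hz
      have h9 : nrm (x - y) ^ (1 - (1 / 10 : ℝ) / 2) ≤ 2 * R ^ (19 / 20 : ℝ) := by
        have h10 : nrm (x - y) ^ (1 - (1 / 10 : ℝ) / 2) ≤ (2 * R) ^ (1 - (1 / 10 : ℝ) / 2) :=
          Real.rpow_le_rpow (nrm_nonneg _) hn (by norm_num)
        refine h10.trans ?_
        rw [Real.mul_rpow (by norm_num) hRpos.le]
        have h11 : (2:ℝ) ^ (1 - (1 / 10 : ℝ) / 2) ≤ 2 := by
          conv_rhs => rw [← Real.rpow_one 2]
          exact Real.rpow_le_rpow_of_exponent_le (by norm_num) (by norm_num)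
        have h12 : R ^ (1 - (1 / 10 : ℝ) / 2) = R ^ (19 / 20 : ℝ) := by norm_num
        rw [h12]
        exact mul_le_mul_of_nonneg_right h11 (by positivity)
      have h13 : K * nrm (x - y) ^ (1 - (1 / 10 : ℝ) / 2) ≤ |K| * (2 * R ^ (19 / 20 : ℝ)) :=
        (mul_le_mul_of_nonneg_right (le_abs_self K)
          (Real.rpow_nonneg (nrm_nonneg _) _)).trans
          (mul_le_mul_of_nonneg_left h9 (abs_nonneg K))
      have h14 : 0 ≤ |C| * |R2| * R ^ (19 / 20 : ℝ) := by positivity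
      nlinarith
    · have hz' : nrm (x - y) ≤ |R2| := by
        push Not at hz
        exact hz.le.trans (le_abs_self _)
      have h8 := hup (x - y)
      have h9 : C * nrm (x - y) ≤ |C| * |R2| :=
        (mul_le_mul_of_nonneg_right (le_abs_self C) (nrm_nonneg _)).trans
          (mul_le_mul_of_nonneg_left hz' (abs_nonneg C))
      have h10 : |C| * |R2| ≤ |C| * |R2| * R ^ (19 / 20 : ℝ) :=
        le_mul_of_one_le_right (by positivity) hone
      have h11 : 0 ≤ |K| * 2 * R ^ (19 / 20 : ℝ) := by positivity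
      have h12 : 0 ≤ c * nrm (x - y) := mul_nonneg hc.le (nrm_nonneg _)
      nlinarith
  have h12 : T E x y - c * ‖toC x - toC y‖ =
      (T E x y - h (x - y)) + (h (x - y) - c * ‖toC x - toC y‖) := by ring
  show |T E x y - c * ‖toC x - toC y‖| ≤ _
  rw [h12]
  refine (abs_add_le _ _).trans ?_
  have h13 : A * R ^ (19 / 20 : ℝ) ≤ R ^ (-(1 / 40) : ℝ) * R := by
    have h14 := (hR3 R hRb).le
    have h15 : R ^ (-(1 / 40) : ℝ) * R = R ^ (39 / 40 : ℝ) := by
      conv_lhs => rw [← Real.rpow_one R, ← Real.rpow_mul hRpos.le]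
      rw [one_mul, ← Real.rpow_add hRpos]
      norm_num
    have h16 : R ^ (19 / 20 : ℝ) = R ^ (-(1 / 40) : ℝ) * R ^ (39 / 40 : ℝ) := by
      rw [← Real.rpow_add hRpos]; norm_num
    rw [h15, h16]
    have h17 : A * R ^ (-(1 / 40) : ℝ) ≤ 1 := by
      have := mul_le_mul_of_nonneg_left h14 (by linarith : (0:ℝ) ≤ A)
      rwa [mul_one_div_cancel (by linarith : A ≠ 0)] at this
    calc A * (R ^ (-(1 / 40) : ℝ) * R ^ (39 / 40 : ℝ))
        = (A * R ^ (-(1 / 40) : ℝ)) * R ^ (39 / 40 : ℝ) := by ring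
      _ ≤ 1 * R ^ (39 / 40 : ℝ) := mul_le_mul_of_nonneg_right h17 (by positivity)
      _ = _ := one_mul _
  refine le_trans ?_ h13
  rw [hA]
  have h18 := h1.trans hpow
  nlinarith

theorem fpp_conf : ∃ α0 : ℝ, 1 ≤ α0 ∧ ∀ α : ℝ, α0 < α →
    ∀ᵐ E ∂PE, (∀ e, 0 < E e) ∧ Explodes (tau α E) ∧ Conf (tau α E) := by
  obtain ⟨a, C, ha, hlow⟩ := hm_low
  set C' : ℝ := max C 2 with hC'
  have hup' : ∀ z, hm z ≤ C' * nrm z := fun z => (hm_le z).trans
    (mul_le_mul_of_nonneg_right (le_max_right _ _) (nrm_nonneg z))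
  have hlow' : ∀ z, a * nrm z - C' ≤ hm z := fun z => by
    have := hlow z
    have h2 := le_max_left C 2
    rw [← hC'] at h2
    linarith
  obtain ⟨μ, hμ, hμle, hμlim⟩ := exists_mu hm ha hm_nonneg hm_add_le hup' hlow' hm_rot hm_cj
  have hlln : ∀ᵐ E ∂PE, LLN toC μ E := by
    filter_upwards [conc] with E hE
    exact lln_of_conc hup' hμle hμ.nonneg hμlim hE
  by_cases hne : ∃ c : ℝ, ∀ z, μ z = c * ‖z‖
  · obtain ⟨c, hcz⟩ := hne
    have hc : 0 < c := by
      have h1 := hμ.low 1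
      rw [hcz 1, norm_one] at h1
      have := hμ.pos
      linarith
    have hlowc : ∀ z, c * nrm z ≤ hm z := fun z => by
      have := hμle z
      rw [hcz, ← nrm_eq] at this
      exact this
    obtain ⟨K, R2, hrate⟩ := euc_rate hm (C := C') hc (η := 1 / 10) (by norm_num)
      (by norm_num) hm_add_le hm_neg hup' hlowc
      (fun ε hε => by
        obtain ⟨R0, h⟩ := hμlim ε hε
        refine ⟨R0, fun z hz => ?_⟩
        have := h z hz
        rw [hcz, ← nrm_eq] at this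
        linarith)
      (by
        obtain ⟨E, hE1, R0, hE2⟩ := (ae_pos.and conc).exists
        refine ⟨R0, fun R hR => ⟨E, fun e => (hE1 e).le, fun x y hx hy => ?_⟩⟩
        have := hE2 R hR x y hx hy
        have h2 : (1 - 1 / 10 : ℝ) = 9 / 10 := by norm_num
        rw [h2]; exact this)
    obtain ⟨α0, H⟩ := trapped_euc emb_toC hc (η := 1 / 40) (by norm_num) (by norm_num)
    refine ⟨max α0 1, le_max_right _ _, fun α hα => ?_⟩
    have hα0 : α0 < α := (le_max_left _ _).trans_lt hα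
    have hα1 : 1 < α := (le_max_right _ _).trans_lt hα
    filter_upwards [ae_pos, hlln, conc, via_or_avoid α] with E hE hL hcon hvia
    have hE0 : ∀ e, 0 ≤ E e := fun e => (hE e).le
    have hS := explodes_of_lln emb_toC hμ hα1 hE0 hL
    refine ⟨hE, hS, ?_⟩
    have happ := appr_of_rate hc hup' hlowc hrate hcon
    obtain ⟨ν, M, hν, h⟩ := conf_of_trapped (fun e => tau_nonneg hE0 e) hS (hvia hS)
      (by norm_num) (H α hα0 E hE0 happ)
    exact ⟨ν, 1 / 2, M, hν, by norm_num, h⟩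
  · obtain ⟨α0, H⟩ := conf_noneuc hμ hne
    refine ⟨max α0 1, le_max_right _ _, fun α hα => ?_⟩
    have hα0 : α0 < α := (le_max_left _ _).trans_lt hα
    have hα1 : 1 < α := (le_max_right _ _).trans_lt hα
    filter_upwards [ae_pos, hlln, via_or_avoid α] with E hE hL hvia
    have hE0 : ∀ e, 0 ≤ E e := fun e => (hE e).le
    have hS := explodes_of_lln emb_toC hμ hα1 hE0 hL
    exact ⟨hE, hS, H α hα0 E hE0 hL hS (hvia hS)⟩

end ConeE
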