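import Pool.Agent.ConeE.Sup

/-! Good walks cannot go inwards (module INW). -/

set_option autoImplicit false

namespace ConeE

/-- lower bound for the weight of a walk staying in a ball -/
theorem inw_le_wt {α m : ℝ} (hα : 0 ≤ α) (hm : 0 < m) {E : Edge → ℝ} (hE : ∀ e, 0 ≤ E e)
    (c : V) (l : List Step)
    (h : ∀ l1 s l2, l = l1 ++ s :: l2 → mid (edg (endp c l1) s) ≤ m) :
    m ^ (-α) * wt E c l ≤ wt (tau α E) c l := by
  induction l generalizing c with
  | nil => simp [wt]
  | cons s t ih =>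
    rw [wt_cons, wt_cons, mul_add]
    have h1 : m ^ (-α) * E (edg c s) ≤ tau α E (edg c s) := by
      have h2 := h [] s t rfl
      rw [endp_nil] at h2
      unfold tau
      rw [Real.rpow_neg hm.le, div_eq_inv_mul]
      apply mul_le_mul_of_nonneg_right _ (hE _)
      apply inv_anti₀ (Real.rpow_pos_of_pos (mid_pos _) _)
      exact Real.rpow_le_rpow (mid_pos _).le h2 hα
    have h3 := ih (c + vec s) (fun l1 s' l2 hl => by
      have := h (s :: l1) s' l2 (by rw [hl]; rfl)
      rwa [endp_cons] at this)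
    linarith

/-- last exit: if the walk ends inside the ball of radius `r`, the final piece after the last
visit outside stays inside -/
theorem inw_last_exit (r : ℝ) (y : V) (l : List Step) (hy : r ≤ nrm y)
    (hz : nrm (endp y l) < r) :
    ∃ l1 l2, l = l1 ++ l2 ∧ r ≤ nrm (endp y l1) ∧ nrm (endp y l1) ≤ r + 1 ∧
      ∀ l3 l4, l2 = l3 ++ l4 → nrm (endp (endp y l1) l3) ≤ r + 1 := by
  induction l using List.reverseRecOn with
  | nil => rw [endp_nil] at hz; linarith
  | append_singleton l s ih =>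
    rw [endp_append, endp_cons, endp_nil] at hz
    by_cases h : nrm (endp y l) < r
    · obtain ⟨l1, l2, h1, h2, h3, h4⟩ := ih h
      refine ⟨l1, l2 ++ [s], by rw [h1, List.append_assoc], h2, h3, ?_⟩
      intro l3 l4 hl
      rcases List.eq_nil_or_concat l4 with h5 | ⟨l5, s', h5⟩
      · rw [h5, List.append_nil] at hl
        rw [← hl, endp_append]
        have h6 : endp (endp y l1) l2 = endp y l := by rw [h1, endp_append]
        rw [h6, endp_cons, endp_nil]
        linarith
      · rw [h5, List.concat_eq_append, ← List.append_assoc] at hl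
        have h6 := List.append_inj' hl rfl
        exact h4 l3 l5 h6.1
    · push Not at h
      have h7 : nrm (endp y l) ≤ nrm (endp y l + vec s) + 1 := by
        have := nrm_sub_le (endp y l + vec s) (vec s)
        rw [add_sub_cancel_right, nrm_vec] at this
        exact this
      refine ⟨l, [s], rfl, h, by linarith, ?_⟩
      intro l3 l4 hl
      rcases l3 with _ | ⟨s3, l3⟩
      · rw [endp_nil]; linarith
      · rw [List.cons_append, List.cons.injEq] at hl
        have h8 : l3 = [] := by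
          have := hl.2.symm
          exact (List.append_eq_nil_iff.mp this).1
        rw [h8, endp_cons, endp_nil, ← hl.1]
        linarith

theorem inward {ι : V →+ ℂ} (hι : Emb ι) {μ : ℂ → ℝ} {a b : ℝ} (hμ : Nrm μ a b) :
    ∃ K : ℝ, 0 < K ∧ ∀ α : ℝ, 2 ≤ α → ∀ E : Edge → ℝ, (∀ e, 0 ≤ E e) → LLN ι μ E →
      ∃ R0 : ℝ, ∀ y : V, R0 ≤ nrm y → ∀ l : List Step,
        wt (tau α E) y l < S (tau α E) y →
        (1 - K / (α - 1)) * nrm y ≤ nrm (endp y l) := by
  have ha := hμ.pos
  have hab := hμ.le_b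
  have hb : 0 < b := ha.trans_le hab
  refine ⟨8 * b / a, by positivity, ?_⟩
  intro α hα E hE hL
  obtain ⟨K, δ0, hK, hδ0, H⟩ := sup_bound hι hμ (show 1 < α by linarith) (le_refl (1:ℝ))
  set δ := min δ0 (1 / K) with hδ
  have hδpos : 0 < δ := lt_min hδ0 (by positivity)
  have hδK : K * δ ≤ 1 := by
    have := min_le_right δ0 (1 / K)
    rw [← hδ, le_div_iff₀ hK] at this
    linarith
  set β := α - 1 with hβ
  have hβpos : 0 < β := by rw [hβ]; linarith
  obtain ⟨R1, hR1⟩ := hL (δ ^ 2) (by positivity)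
  set ε := b / β with hε
  have hεpos : 0 < ε := by positivity
  obtain ⟨R2, hR2⟩ := hL ε hεpos
  -- (1 + 2/r)^α ≤ 3/2 for large r
  have hlim : Filter.Tendsto (fun r : ℝ => (1 + 2 / r) ^ α) Filter.atTop (nhds 1) := by
    have h1 : Filter.Tendsto (fun r : ℝ => 1 + 2 / r) Filter.atTop (nhds (1 + 0)) :=
      tendsto_const_nhds.add (Filter.Tendsto.const_div_atTop Filter.tendsto_id 2)
    rw [add_zero] at h1
    have h2 := h1.rpow_const (p := α) (Or.inl one_ne_zero)
    rwa [Real.one_rpow] at h2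
  obtain ⟨R3, hR3⟩ := Filter.eventually_atTop.mp (hlim.eventually (gt_mem_nhds
    (show (1:ℝ) < 3 / 2 by norm_num)))
  refine ⟨max (max (2 * R1) (1 / δ ^ 2)) (max (max R2 R3) 1), ?_⟩
  intro y hy l hl
  have hy1 : 2 * R1 ≤ nrm y := (le_max_left _ _).trans ((le_max_left _ _).trans hy)
  have hy2 : 1 / δ ^ 2 ≤ nrm y := (le_max_right _ _).trans ((le_max_left _ _).trans hy)
  have hy3 : R2 ≤ nrm y :=
    (le_max_left _ _).trans ((le_max_left _ _).trans ((le_max_right _ _).trans hy))
  have hy4 : R3 ≤ nrm y :=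
    (le_max_right _ _).trans ((le_max_left _ _).trans ((le_max_right _ _).trans hy))
  have hy5 : 1 ≤ nrm y := (le_max_right _ _).trans ((le_max_right _ _).trans hy)
  set r := nrm y with hr
  have hr0 : 0 < r := by linarith
  by_cases hz : r ≤ nrm (endp y l)
  · have : 0 ≤ 8 * b / a / β := by positivity
    nlinarith
  push Not at hz
  -- upper bound for S
  have hS : S (tau α E) y ≤ 2 * (b / β) * r ^ (1 - α) := by
    obtain ⟨t, ht1, ht2⟩ := H δ hδpos (min_le_left _ _) E hE y
      (by rw [div_le_iff₀ (by positivity)] at hy2; linarith)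
      (fun R hR => hR1 R (by linarith))
      (ι y / (r : ℂ))
      (by
        rw [norm_div, hι.norm_eq, Complex.norm_real, Real.norm_of_nonneg hr0.le, ← hr,
          div_self hr0.ne'])
      (by
        have h1 : ι y / (r : ℂ) = ((1 / r : ℝ) : ℂ) * ι y := by push_cast; ring
        rw [h1, dot_comm, dot_mul, dot_self, hι.norm_eq, ← hr]
        field_simp)
    refine (S_le_of_infinite (fun e => tau_nonneg hE e) ht2).trans (ht1.trans ?_)
    have h2 : μ (ι y / (r : ℂ)) ≤ b := by
      have := hμ.up (ι y / (r : ℂ))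
      rwa [norm_div, hι.norm_eq, Complex.norm_real, Real.norm_of_nonneg hr0.le, ← hr,
        div_self hr0.ne', mul_one] at this
    have h3 : μ (ι y / (r : ℂ)) / (α - 1) ≤ b / β := by
      rw [← hβ]
      exact div_le_div_of_nonneg_right h2 hβpos.le
    have h4 : 0 ≤ r ^ (1 - α) := Real.rpow_nonneg hr0.le _
    have h5 : 0 ≤ μ (ι y / (r : ℂ)) / (α - 1) := div_nonneg (hμ.nonneg _) (by linarith)
    apply mul_le_mul_of_nonneg_right _ h4
    exact mul_le_mul (by linarith) h3 h5 (by norm_num)
  obtain ⟨l1, l2, hl12, hv1, hv2, hv3⟩ := inw_last_exit r y l le_rfl hz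
  set v := endp y l1 with hv
  have hend : endp v l2 = endp y l := by rw [hl12, endp_append]
  have hτ : ∀ e, 0 ≤ tau α E e := fun e => tau_nonneg hE e
  have hw1 : wt (tau α E) v l2 ≤ wt (tau α E) y l := by
    rw [hl12, wt_append]
    linarith [wt_nonneg hτ y l1]
  have hw2 : (r + 2) ^ (-α) * wt E v l2 ≤ wt (tau α E) v l2 := by
    apply inw_le_wt (by linarith) (by linarith) hE
    intro l3 s l4 h34
    have h1 := mid_edg_le (endp v l3) s
    have h2 := hv3 l3 (s :: l4) h34
    linarith
  have hT : T E v (endp y l) ≤ wt E v l2 := T_le_wt hE hend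
  have hA := hR2 (2 * r) (by linarith) v (endp y l) (by linarith) (by linarith)
  rw [abs_le] at hA
  have hlow := hμ.low (ι v - ι (endp y l))
  have hd : r - nrm (endp y l) ≤ ‖ι v - ι (endp y l)‖ := by
    have := norm_sub_norm_le (ι v) (ι (endp y l))
    rw [hι.norm_eq, hι.norm_eq] at this
    linarith
  have hmain : a * (r - nrm (endp y l)) - ε * (2 * r) ≤ wt E v l2 := by
    have : a * (r - nrm (endp y l)) ≤ a * ‖ι v - ι (endp y l)‖ :=
      mul_le_mul_of_nonneg_left hd ha.le
    linarith [hA.1]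
  have hp1 : 0 < (r + 2) ^ (-α) := Real.rpow_pos_of_pos (by linarith) _
  have hchain : (r + 2) ^ (-α) * (a * (r - nrm (endp y l)) - ε * (2 * r)) ≤
      2 * (b / β) * r ^ (1 - α) :=
    (mul_le_mul_of_nonneg_left hmain hp1.le).trans
      (hw2.trans (hw1.trans (hl.le.trans hS)))
  have hratio : r ^ (1 - α) = (r + 2) ^ (-α) * ((1 + 2 / r) ^ α * r) := by
    have h1 : (1 + 2 / r) = (r + 2) / r := by field_simp
    rw [h1, Real.div_rpow (by linarith) hr0.le, Real.rpow_neg (by linarith : (0:ℝ) ≤ r + 2)]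
    have h2 : r ^ (1 - α) = r / r ^ α := by
      rw [Real.rpow_sub hr0, Real.rpow_one]
    rw [h2]
    have h3 : 0 < (r + 2) ^ α := Real.rpow_pos_of_pos (by linarith) _
    have h4 : 0 < r ^ α := Real.rpow_pos_of_pos hr0 _
    field_simp
  rw [hratio] at hchain
  have hc2 : a * (r - nrm (endp y l)) - ε * (2 * r) ≤ 2 * (b / β) * ((1 + 2 / r) ^ α * r) := by
    have h1 : (r + 2) ^ (-α) * (a * (r - nrm (endp y l)) - ε * (2 * r)) ≤
        (r + 2) ^ (-α) * (2 * (b / β) * ((1 + 2 / r) ^ α * r)) := by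
      calc _ ≤ _ := hchain
        _ = _ := by ring
    exact le_of_mul_le_mul_left h1 hp1
  have h32 := (hR3 r hy4).le
  have hc3 : a * (r - nrm (endp y l)) ≤ 5 * (b / β) * r := by
    have h1 : 2 * (b / β) * ((1 + 2 / r) ^ α * r) ≤ 2 * (b / β) * (3 / 2 * r) :=
      mul_le_mul_of_nonneg_left (mul_le_mul_of_nonneg_right h32 hr0.le) (by positivity)
    rw [hε] at hc2
    linarith
  have hfin : r - nrm (endp y l) ≤ 8 * b / a / β * r := by
    have h1 : 8 * b / a / β * r = (8 * (b / β) * r) / a := by field_simp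
    rw [h1, le_div_iff₀ ha]
    have : 0 ≤ b / β * r := by positivity
    linarith
  linarith

end ConeE
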