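import Pool.Agent.ConeE.ExplDet
import Pool.Agent.ConeE.Memless

/-! Law of the exploration (module LAW). -/

set_option autoImplicit false

namespace ConeE

open MeasureTheory

namespace LAWAux

theorem meas_accs {X : Type*} [MeasurableSpace X] (W : Finset V) (θ : X → V → ℝ)
    (hθ : ∀ v, Measurable fun x => θ x v) (f : Edge) :
    Measurable fun x => accs W (θ x) f := by
  unfold accs
  by_cases h1 : f.1 ∈ W
  · by_cases h2 : f.1 + ev f.2 ∈ W
    · simp only [h1, h2, if_true]
      exact (hθ _).min (hθ _)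
    · simp only [h1, h2, if_true, if_false]
      exact hθ _
  · simp only [h1, if_false]
    exact hθ _

theorem meas_st {X : Type*} [MeasurableSpace X] (τ : X → Edge → ℝ)
    (hτ : ∀ e, Measurable fun x => τ x e) (σ : List Edge) :
    (Measurable fun x => tm (τ x) σ) ∧ ∀ v, Measurable fun x => th (τ x) σ v := by
  induction σ with
  | nil => exact ⟨measurable_const, fun v => measurable_const⟩
  | cons s σ ih =>
    have h1 : Measurable fun x => accs (vs σ) (st (τ x) σ).2 s + τ x s :=
      (meas_accs (vs σ) (fun x => (st (τ x) σ).2) ih.2 s).add (hτ s)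
    refine ⟨h1, fun v => ?_⟩
    by_cases hv : v ∈ vs σ
    · have : (fun x => th (τ x) (s :: σ) v) = fun x => th (τ x) σ v := by
        funext x
        simp [th, st, hv]
      rw [this]
      exact ih.2 v
    · have : (fun x => th (τ x) (s :: σ) v) =
          fun x => accs (vs σ) (st (τ x) σ).2 s + τ x s := by
        funext x
        simp [th, st, hv]
      rw [this]
      exact h1

theorem meas_ac {X : Type*} [MeasurableSpace X] (τ : X → Edge → ℝ)
    (hτ : ∀ e, Measurable fun x => τ x e) (σ : List Edge) (f : Edge) :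
    Measurable fun x => ac (τ x) σ f :=
  meas_accs (vs σ) (fun x => th (τ x) σ) (meas_st τ hτ σ).2 f

theorem meas_G {X : Type*} [MeasurableSpace X] (τ : X → Edge → ℝ)
    (hτ : ∀ e, Measurable fun x => τ x e) (σ : List Edge) :
    MeasurableSet {x | G (τ x) σ} := by
  induction σ with
  | nil => simp [G]
  | cons s σ ih =>
    have h : {x | G (τ x) (s :: σ)} = {x | G (τ x) σ} ∩ ({_x | s ∈ bd σ} ∩
        ⋂ f ∈ bd σ, ⋂ (_ : f ≠ s), {x | ac (τ x) σ s + τ x s < ac (τ x) σ f + τ x f}) := by
      ext x; simp [G]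
    rw [h]
    refine ih.inter ((MeasurableSet.const _).inter
      (Finset.measurableSet_biInter _ fun f _ => MeasurableSet.iInter fun _ => ?_))
    exact measurableSet_lt ((meas_ac τ hτ σ s).add (hτ s)) ((meas_ac τ hτ σ f).add (hτ f))

theorem meas_D {X : Type*} [MeasurableSpace X] (τ : X → Edge → ℝ)
    (hτ : ∀ e, Measurable fun x => τ x e) (σ : List Edge) :
    MeasurableSet {x | D (τ x) σ} := by
  induction σ with
  | nil => simp [D]
  | cons s σ ih =>
    have h : {x | D (τ x) (s :: σ)} = {x | D (τ x) σ} ∩ ({_x | s ∈ bd σ} ∩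
        {x | tm (τ x) σ < ac (τ x) σ s + τ x s}) := by
      ext x; simp [D]
    rw [h]
    refine ih.inter ((MeasurableSet.const _).inter ?_)
    exact measurableSet_lt (meas_st τ hτ σ).1 ((meas_ac τ hτ σ s).add (hτ s))

end LAWAux

open LAWAux

theorem measurableSet_G (w : Edge → ℝ) (σ : List Edge) :
    MeasurableSet {E : Edge → ℝ | G (fun e => E e / w e) σ} :=
  meas_G (fun (E : Edge → ℝ) e => E e / w e) (fun e => (measurable_pi_apply e).div_const _) σ

theorem law_step (w : Edge → ℝ) (hw : ∀ e, 0 < w e) (σ : List Edge) {s : Edge}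
    (hs : s ∈ bd σ) :
    PE {E | G (fun e => E e / w e) (s :: σ)} =
      PE {E | G (fun e => E e / w e) σ} * ENNReal.ofReal (w s / ∑ f ∈ bd σ, w f) := by
  classical
  set F := bd σ with hF
  have hdisj : ∀ f ∈ F, f ∉ σ := fun f hf => (mem_bd.1 hf).1
  have hm := measurePreserving_merge F
  set mg : (Edge → ℝ) × (Edge → ℝ) → Edge → ℝ :=
    fun q e => if e ∈ F then q.2 e else q.1 e with hmg
  -- positivity on the product
  have hpos1 : ∀ᵐ E ∂PE, ∀ e, 0 < E e := ae_pos
  -- general formula
  have key : ∀ (B : Set (Edge → ℝ)), MeasurableSet B →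
      PE B = ∫⁻ E, PE {E' | mg (E, E') ∈ B} ∂PE := by
    intro B hB
    rw [← hm.measure_preimage hB.nullMeasurableSet, Measure.prod_apply (hm.measurable hB)]
    rfl
  -- conditions
  set τ : (Edge → ℝ) → Edge → ℝ := fun E e => E e / w e with hτ
  set a : (Edge → ℝ) → Edge → ℝ := fun E f => tm (τ E) σ - ac (τ E) σ f with ha
  have hcongr : ∀ E E' : Edge → ℝ, ∀ e ∈ σ, τ (mg (E, E')) e = τ E e := by
    intro E E' e he
    have : e ∉ F := fun h => hdisj e h he
    simp [hτ, hmg, this]
  have htm : ∀ E E', tm (τ (mg (E, E'))) σ = tm (τ E) σ := fun E E' => tm_congr (hcongr E E')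
  have hac : ∀ E E' f, ac (τ (mg (E, E'))) σ f = ac (τ E) σ f :=
    fun E E' f => ac_congr (hcongr E E') f
  have hD : ∀ E E', D (τ (mg (E, E'))) σ ↔ D (τ E) σ := fun E E' => D_congr (hcongr E E')
  have hτF : ∀ E E' : Edge → ℝ, ∀ f ∈ F, τ (mg (E, E')) f = E' f / w f := by
    intro E E' f hf
    simp [hτ, hmg, hf]
  have hpos2 : ∀ E E' : Edge → ℝ, (∀ e, 0 < E e) → (∀ e, 0 < E' e) →
      ∀ e, 0 < τ (mg (E, E')) e := by
    intro E E' hE hE' e
    by_cases he : e ∈ F
    · rw [hτF E E' e he]; exact div_pos (hE' e) (hw e)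
    · have : τ (mg (E, E')) e = E e / w e := by simp [hτ, hmg, he]
      rw [this]; exact div_pos (hE e) (hw e)
  have hG1 : ∀ E, (∀ e, 0 < E e) → PE {E' | mg (E, E') ∈ {E | G (τ E) σ}} =
      PE {E' | D (τ E) σ ∧ ∀ f ∈ F, a E f < E' f / w f} := by
    intro E hE
    apply measure_congr
    filter_upwards [hpos1] with E' hE'
    apply propext
    show G (τ (mg (E, E'))) σ ↔ D (τ E) σ ∧ ∀ f ∈ F, a E f < E' f / w f
    rw [G_iff (hpos2 E E' hE hE'), hD, htm]
    refine and_congr_right fun _ => forall₂_congr fun f hf => ?_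
    rw [hac, hτF E E' f hf, ha]
    constructor <;> intro h <;> simp only at h ⊢ <;> linarith
  have hG2 : ∀ E, (∀ e, 0 < E e) → PE {E' | mg (E, E') ∈ {E | G (τ E) (s :: σ)}} =
      PE {E' | D (τ E) σ ∧ ((∀ f ∈ F, a E f < E' f / w f) ∧
        ∀ f ∈ F, f ≠ s → E' s / w s - a E s < E' f / w f - a E f)} := by
    intro E hE
    apply measure_congr
    filter_upwards [hpos1] with E' hE'
    apply propext
    show G (τ (mg (E, E'))) (s :: σ) ↔ D (τ E) σ ∧ ((∀ f ∈ F, a E f < E' f / w f) ∧
        ∀ f ∈ F, f ≠ s → E' s / w s - a E s < E' f / w f - a E f)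
    show (G (τ (mg (E, E'))) σ ∧ s ∈ F ∧ ∀ f ∈ F, f ≠ s →
      ac (τ (mg (E, E'))) σ s + τ (mg (E, E')) s < ac (τ (mg (E, E'))) σ f + τ (mg (E, E')) f) ↔ _
    rw [G_iff (hpos2 E E' hE hE'), hD, htm, and_assoc]
    refine and_congr_right fun _ => and_congr (forall₂_congr fun f hf => ?_) ?_
    · rw [hac, hτF E E' f hf, ha]
      constructor <;> intro h <;> simp only at h ⊢ <;> linarith
    · constructor
      · rintro ⟨_, h⟩ f hf hfs
        have h1 := h f hf hfs
        rw [hac, hac, hτF E E' f hf, hτF E E' s hs] at h1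
        simp only [ha]
        linarith
      · intro h
        refine ⟨hs, fun f hf hfs => ?_⟩
        have h1 := h f hf hfs
        rw [hac, hac, hτF E E' f hf, hτF E E' s hs]
        simp only [ha] at h1
        linarith
  rw [key _ (measurableSet_G w (s :: σ)), key _ (measurableSet_G w σ),
    ← lintegral_mul_const'' _ ?_]
  · apply lintegral_congr_ae
    filter_upwards [hpos1] with E hE
    refine (hG2 E hE).trans (Eq.trans ?_
      (congrArg (· * ENNReal.ofReal (w s / ∑ f ∈ F, w f)) (hG1 E hE).symm))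
    by_cases hd : D (τ E) σ
    · simp only [hd, true_and]
      rw [mul_comm]
      refine memoryless w hw F hs (a E) fun f hf => ?_
      have := (ac_le_tm (τ := τ E) (fun e => div_pos (hE e) (hw e)) hd hf).2
      simp only [ha]
      linarith
    · simp [hd]
  · have : Measurable fun E => PE {E' | mg (E, E') ∈ {E | G (τ E) σ}} :=
      measurable_measure_prodMk_left (hm.measurable (measurableSet_G w σ))
    exact this.aemeasurable

end ConeE
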