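import Pool.Agent.ConeE.Tail

/-! Light walks (module LIGHT). -/

set_option autoImplicit false

namespace ConeE

open MeasureTheory

/-- the constant of the lemma on light walks -/
noncomputable def lightA : ℝ := Real.exp (-2) / 4

theorem lightA_pos : 0 < lightA := by
  unfold lightA
  positivity

/-- some walk of length `k` from the origin with distinct edges is light -/
def lightSet (k : ℕ) : Set (Edge → ℝ) :=
  ⋃ f : Fin k → Step, {E | (edges 0 (List.ofFn f)).Nodup ∧ wt E 0 (List.ofFn f) < lightA * k}

theorem measurableSet_lightSet (k : ℕ) : MeasurableSet (lightSet k) := by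
  refine MeasurableSet.iUnion fun f => ?_
  by_cases h : (edges 0 (List.ofFn f)).Nodup
  · simp only [h, true_and]
    exact measurableSet_lt (measurable_wt 0 _) measurable_const
  · simp [h]

theorem measure_lightSet_le (k : ℕ) :
    PE (lightSet k) ≤ ENNReal.ofReal (Real.exp (-(k : ℝ))) := by
  have h1 : ∀ f : Fin k → Step,
      PE {E | (edges 0 (List.ofFn f)).Nodup ∧ wt E 0 (List.ofFn f) < lightA * k} ≤
        ENNReal.ofReal ((Real.exp 1 * lightA) ^ k) := by
    intro f
    by_cases h : (edges 0 (List.ofFn f)).Nodup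
    · simp only [h, true_and]
      have h2 := lower_tail 0 (List.ofFn f) h lightA_pos
      rwa [List.length_ofFn] at h2
    · simp [h]
  refine (measure_iUnion_fintype_le _ _).trans ?_
  refine (Finset.sum_le_sum fun f _ => h1 f).trans ?_
  rw [Finset.sum_const, Finset.card_univ, Fintype.card_fun, Fintype.card_prod, Fintype.card_fin,
    Fintype.card_bool, Fintype.card_fin, nsmul_eq_mul, ← ENNReal.ofReal_natCast,
    ← ENNReal.ofReal_mul (by positivity)]
  refine ENNReal.ofReal_le_ofReal (le_of_eq ?_)
  push_cast
  rw [← mul_pow]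
  have h3 : (4 * (Real.exp 1 * lightA) : ℝ) = Real.exp (-1) := by
    unfold lightA
    have h4 : Real.exp (-1) = Real.exp 1 * Real.exp (-2) := by
      rw [← Real.exp_add]
      norm_num
    rw [h4]
    ring
  rw [h3, ← Real.exp_nat_mul, mul_neg, mul_one]

/-- the function counting the light walks, with values in the extended reals -/
noncomputable def lightF (E : Edge → ℝ) : ENNReal :=
  ∑' k : ℕ, (lightSet k).indicator (fun _ => (k : ENNReal)) E

theorem measurable_lightF : Measurable lightF :=
  Measurable.tsum fun k => measurable_const.indicator (measurableSet_lightSet k)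

theorem lintegral_lightF : ∫⁻ E, lightF E ∂PE ≠ ⊤ := by
  unfold lightF
  rw [lintegral_tsum fun k => (measurable_const.indicator (measurableSet_lightSet k)).aemeasurable]
  have h1 : ∀ k : ℕ, ∫⁻ E, (lightSet k).indicator (fun _ => (k : ENNReal)) E ∂PE ≤
      ENNReal.ofReal ((k : ℝ) ^ 1 * Real.exp (-1) ^ k) := by
    intro k
    rw [lintegral_indicator (measurableSet_lightSet k), setLIntegral_const]
    refine (mul_le_mul_right (measure_lightSet_le k) _).trans ?_
    rw [← ENNReal.ofReal_natCast, ← ENNReal.ofReal_mul (by positivity), pow_one,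
      ← Real.exp_nat_mul, mul_neg, mul_one]
  have h2 : Summable fun k : ℕ => (k : ℝ) ^ 1 * Real.exp (-1) ^ k := by
    refine summable_pow_mul_geometric_of_norm_lt_one 1 ?_
    rw [Real.norm_of_nonneg (Real.exp_pos _).le]
    exact Real.exp_lt_one_iff.2 (by norm_num)
  refine ne_top_of_le_ne_top ?_ (ENNReal.tsum_le_tsum h1)
  rw [← ENNReal.ofReal_tsum_of_nonneg (fun k => by positivity) h2]
  exact ENNReal.ofReal_ne_top

theorem exists_light :
    ∃ (a : ℝ) (X : (Edge → ℝ) → ℝ), 0 < a ∧ (∀ E, 0 ≤ X E) ∧ Integrable X PE ∧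
      ∀ᵐ E ∂PE, ∀ l : List Step, (edges 0 l).Nodup →
        a * ((l.length : ℝ) - X E) ≤ wt E 0 l := by
  refine ⟨lightA, fun E => (lightF E).toReal, lightA_pos, fun E => ENNReal.toReal_nonneg,
    integrable_toReal_of_lintegral_ne_top measurable_lightF.aemeasurable lintegral_lightF, ?_⟩
  filter_upwards [ae_lt_top measurable_lightF lintegral_lightF, ae_pos] with E hE hpos l hl
  by_cases h : E ∈ lightSet l.length
  · have h1 : (l.length : ENNReal) ≤ lightF E := by
      have h2 : (lightSet l.length).indicator (fun _ => (l.length : ENNReal)) E ≤ lightF E :=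
        ENNReal.le_tsum (f := fun k : ℕ => (lightSet k).indicator (fun _ => (k : ENNReal)) E)
          l.length
      rwa [Set.indicator_of_mem h] at h2
    have h2 : (l.length : ℝ) ≤ (lightF E).toReal := by
      have := (ENNReal.toReal_le_toReal (ENNReal.natCast_ne_top _) hE.ne).2 h1
      rwa [ENNReal.toReal_natCast] at this
    have h3 : lightA * ((l.length : ℝ) - (lightF E).toReal) ≤ 0 :=
      mul_nonpos_of_nonneg_of_nonpos lightA_pos.le (by linarith)
    exact h3.trans (wt_nonneg (fun e => (hpos e).le) 0 l)
  · have h1 : lightA * l.length ≤ wt E 0 l := by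
      by_contra hcon
      push Not at hcon
      apply h
      refine Set.mem_iUnion.2 ⟨l.get, ?_⟩
      rw [Set.mem_ofPred_eq, List.ofFn_get]
      exact ⟨hl, hcon⟩
    refine le_trans ?_ h1
    have h2 : (0 : ℝ) ≤ (lightF E).toReal := ENNReal.toReal_nonneg
    exact mul_le_mul_of_nonneg_left (by linarith) lightA_pos.le

end ConeE
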