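import Pool.Agent.ConeE.Basic

/-! Upper bound for the explosion time (module SUP). -/

set_option autoImplicit false

namespace ConeE

/-- comparison of the weighted and homogeneous weights of a walk far from the origin -/
theorem sup_wt_le {α m : ℝ} (hα : 0 ≤ α) (hm : 0 < m) {E : Edge → ℝ} (hE : ∀ e, 0 ≤ E e)
    (c : V) (l : List Step)
    (h : ∀ l1 s l2, l = l1 ++ s :: l2 → m ≤ mid (edg (endp c l1) s)) :
    wt (tau α E) c l ≤ m ^ (-α) * wt E c l := by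
  induction l generalizing c with
  | nil => simp [wt]
  | cons s t ih =>
    rw [wt_cons, wt_cons, mul_add]
    have h1 : tau α E (edg c s) ≤ m ^ (-α) * E (edg c s) := by
      have h2 := h [] s t rfl
      rw [endp_nil] at h2
      unfold tau
      rw [Real.rpow_neg hm.le, div_eq_inv_mul]
      apply mul_le_mul_of_nonneg_right _ (hE _)
      apply inv_anti₀ (Real.rpow_pos_of_pos hm _)
      exact Real.rpow_le_rpow hm.le h2 hα
    have h3 := ih (c + vec s) (fun l1 s' l2 hl => by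
      have := h (s :: l1) s' l2 (by rw [hl]; rfl)
      rwa [endp_cons] at this)
    linarith

/-- Bernoulli for negative powers -/
theorem sup_bern {α s : ℝ} (hα : 1 ≤ α) (hs : 0 ≤ s) (hs2 : α * s ≤ 1 / 2) :
    (1 - s) ^ (-α) ≤ 1 + 2 * α * s := by
  have hs3 : s ≤ 1 / 2 := by nlinarith
  have h1 : 1 + α * (-s) ≤ (1 + (-s)) ^ α :=
    one_add_mul_self_le_rpow_one_add (by linarith) hα
  have h2 : (1 + (-s)) = 1 - s := by ring
  rw [h2] at h1
  rw [Real.rpow_neg (by linarith)]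
  have h3 : 0 < 1 + α * (-s) := by nlinarith
  have h4 : ((1 - s) ^ α)⁻¹ ≤ (1 + α * (-s))⁻¹ := inv_anti₀ h3 h1
  refine h4.trans ?_
  rw [inv_le_iff_one_le_mul₀ h3]
  nlinarith [mul_nonneg (by linarith : (0:ℝ) ≤ α) hs]

theorem sup_bern2 {α δ : ℝ} (hα : 1 ≤ α) (hδ : 0 ≤ δ) (h : α * δ ≤ 1 / 2) :
    (1 + δ) ^ α ≤ 1 + 2 * α * δ := by
  have h0 : (0:ℝ) < 1 + δ := by linarith
  have hs : 0 ≤ δ / (1 + δ) := by positivity
  have hs1 : δ / (1 + δ) ≤ δ := by
    rw [div_le_iff₀ h0]; nlinarith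
  have h1 := sup_bern hα hs ((mul_le_mul_of_nonneg_left hs1 (by linarith)).trans h)
  have h2 : 1 - δ / (1 + δ) = (1 + δ)⁻¹ := by
    field_simp; ring
  rw [h2, Real.rpow_neg (by positivity), Real.inv_rpow h0.le, inv_inv] at h1
  refine h1.trans ?_
  have : 2 * α * (δ / (1 + δ)) ≤ 2 * α * δ := mul_le_mul_of_nonneg_left hs1 (by linarith)
  linarith

/-- one mesoscopic step -/
theorem sup_step {ι : V →+ ℂ} (hι : Emb ι) {μ : ℂ → ℝ} {a b : ℝ} (hμ : Nrm μ a b)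
    {α C K2 : ℝ} (hα : 1 < α) (hC : 1 ≤ C) (hK2 : K2 = (b * (C + 2) + 2 * C + 7) / a)
    {δ ρ : ℝ} (hδ : 0 < δ) (hδ1 : δ ≤ 1) (hδ2 : (K2 + 2) * δ ≤ 1 / 2) (hδ3 : (C + 2) * δ ≤ 1)
    (hρ : 1 ≤ δ ^ 2 * ρ)
    {E : Edge → ℝ} (hE : ∀ e, 0 ≤ E e) (hA : Appr ι μ E (δ ^ 2) ((C + 3) * ρ))
    {c c' : V} (hc1 : ρ - 1 ≤ nrm c) (hc2 : nrm c ≤ C * ρ + 1)
    (hcc : ‖ι c' - ι c‖ ≤ (C + 2) * δ * ρ) :
    ∃ l : List Step, endp c l = c' ∧
      wt (tau α E) c l ≤ (ρ * (1 - (K2 + 2) * δ)) ^ (-α) *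
        (μ (ι c' - ι c) + (C + 4) * δ ^ 2 * ρ) := by
  have ha := hμ.pos
  have hb : 0 ≤ b := hμ.pos.le.trans hμ.le_b
  have hρ0 : 0 < ρ := by
    by_contra h
    push Not at h
    nlinarith [sq_nonneg δ]
  have hK2pos : 0 ≤ K2 := by rw [hK2]; positivity
  have hδsq : δ ^ 2 ≤ δ := by nlinarith
  have hδρ : δ ^ 2 * ρ ≤ δ * ρ := mul_le_mul_of_nonneg_right hδsq hρ0.le
  have hδρ2 : 2 * (δ * ρ) ≤ ρ / 2 := by nlinarith [mul_nonneg hK2pos hδ.le]
  have hK2δ : K2 * (δ * ρ) ≤ ρ / 2 := by nlinarith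
  have hcnorm : nrm c' ≤ (C + 3) * ρ := by
    have h1 : nrm c' ≤ nrm c + ‖ι c' - ι c‖ := by
      rw [← hι.norm_eq, ← hι.norm_eq]
      have := norm_add_le (ι c) (ι c' - ι c)
      rwa [add_sub_cancel] at this
    have h2 : (C + 2) * δ * ρ ≤ 1 * ρ := mul_le_mul_of_nonneg_right hδ3 hρ0.le
    nlinarith
  have hcn : nrm c ≤ (C + 3) * ρ := by nlinarith
  have hT := hA c c' hcn hcnorm
  rw [abs_le] at hT
  have hneg : μ (ι c - ι c') = μ (ι c' - ι c) := by
    rw [← hμ.neg, neg_sub]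
  obtain ⟨l, hl, hwl⟩ := exists_wt_lt (τ := E) (x := c) (y := c')
    (t := μ (ι c' - ι c) + (C + 4) * δ ^ 2 * ρ) (by
      have h2 := hT.2
      rw [hneg] at h2
      nlinarith [mul_pos (pow_pos hδ 2) hρ0])
  refine ⟨l, hl, ?_⟩
  -- confinement
  have hμcc : μ (ι c' - ι c) ≤ b * ((C + 2) * δ * ρ) :=
    (hμ.up _).trans (mul_le_mul_of_nonneg_left hcc hb)
  have hconf : ∀ l1 : List Step, (∃ l2, l = l1 ++ l2) →
      ‖ι (endp c l1) - ι c‖ ≤ K2 * (δ * ρ) := by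
    intro l1
    induction l1 using List.reverseRecOn with
    | nil =>
      intro _
      rw [endp_nil, sub_self, norm_zero]
      positivity
    | append_singleton l1 s ih =>
      rintro ⟨l2, hl2⟩
      have h1 := ih ⟨s :: l2, by rw [hl2]; simp⟩
      have h2 : ‖ι (endp c (l1 ++ [s])) - ι c‖ ≤ K2 * (δ * ρ) + 1 := by
        rw [endp_append, endp_cons, endp_nil, map_add]
        have h3 : ι (endp c l1) + ι (vec s) - ι c = (ι (endp c l1) - ι c) + ι (vec s) := by ring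
        rw [h3]
        refine (norm_add_le _ _).trans ?_
        rw [hι.norm_eq (vec s), nrm_vec]
        linarith
      set v := endp c (l1 ++ [s]) with hv
      have hvn : nrm v ≤ (C + 3) * ρ := by
        have h4 : nrm v ≤ nrm c + ‖ι v - ι c‖ := by
          rw [← hι.norm_eq, ← hι.norm_eq]
          have := norm_add_le (ι c) (ι v - ι c)
          rwa [add_sub_cancel] at this
        nlinarith
      have h5 := hA c v hcn hvn
      rw [abs_le] at h5
      have h6 : T E c v ≤ wt E c (l1 ++ [s]) := T_le_wt hE hv.symm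
      have h7 : wt E c (l1 ++ [s]) ≤ wt E c l := by
        rw [hl2, wt_append E c (l1 ++ [s]) l2]
        linarith [wt_nonneg hE (endp c (l1 ++ [s])) l2]
      have h8 := hμ.low (ι c - ι v)
      have h9 : ‖ι c - ι v‖ = ‖ι v - ι c‖ := norm_sub_rev _ _
      rw [h9] at h8
      have h10 : a * ‖ι v - ι c‖ ≤ (b * (C + 2) + 2 * C + 7) * (δ * ρ) := by
        have h11 : a * ‖ι v - ι c‖ ≤ b * ((C + 2) * δ * ρ) + (C + 4) * δ ^ 2 * ρ
            + δ ^ 2 * ((C + 3) * ρ) := by linarith [h5.1]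
        have h12 : (C + 4) * δ ^ 2 * ρ + δ ^ 2 * ((C + 3) * ρ) = (2 * C + 7) * (δ ^ 2 * ρ) := by
          ring
        have h13 : (2 * C + 7) * (δ ^ 2 * ρ) ≤ (2 * C + 7) * (δ * ρ) :=
          mul_le_mul_of_nonneg_left hδρ (by linarith)
        nlinarith
      rw [hK2]
      rw [div_mul_eq_mul_div, le_div_iff₀ ha]
      linarith
  have hm : 0 < ρ * (1 - (K2 + 2) * δ) := mul_pos hρ0 (by linarith)
  have hmid : ∀ l1 s l2, l = l1 ++ s :: l2 →
      ρ * (1 - (K2 + 2) * δ) ≤ mid (edg (endp c l1) s) := by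
    intro l1 s l2 hl2
    have h1 := hconf l1 ⟨s :: l2, hl2⟩
    have h2 := le_mid_edg (endp c l1) s
    have h3 : nrm c ≤ nrm (endp c l1) + ‖ι (endp c l1) - ι c‖ := by
      rw [← hι.norm_eq, ← hι.norm_eq]
      have := norm_sub_le (ι (endp c l1)) (ι (endp c l1) - ι c)
      rwa [sub_sub_cancel] at this
    nlinarith
  refine (sup_wt_le (by linarith) hm hE c l hmid).trans ?_
  exact mul_le_mul_of_nonneg_left hwl.le (Real.rpow_nonneg hm.le _)

/-- sum of the geometric series of the stages -/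
theorem sup_geom {α δ r : ℝ} (hα : 1 < α) (hδ : 0 < δ) (hr0 : 0 < r) (n : ℕ) :
    ∑ i ∈ Finset.range n, δ * (r * (1 + δ) ^ i) ^ (1 - α) ≤
      r ^ (1 - α) * ((1 + δ) ^ α / (α - 1)) := by
  set q : ℝ := (1 + δ) ^ (1 - α) with hq
  have hq0 : 0 < q := Real.rpow_pos_of_pos (by linarith) _
  have hbern : 1 + α * δ ≤ (1 + δ) ^ α :=
    one_add_mul_self_le_rpow_one_add (by linarith) hα.le
  have hqα : q * (1 + δ) ^ α = 1 + δ := by
    rw [hq, ← Real.rpow_add (by linarith)]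
    norm_num
  have hαp : 0 < (1 + δ) ^ α := Real.rpow_pos_of_pos (by linarith) _
  have hkey : (α - 1) * δ ≤ (1 - q) * (1 + δ) ^ α := by
    rw [sub_mul 1 q, hqα]; linarith
  have hq1 : 0 < 1 - q := by
    by_contra h
    push Not at h
    have h1 : (1 - q) * (1 + δ) ^ α ≤ 0 := mul_nonpos_of_nonpos_of_nonneg h hαp.le
    nlinarith [mul_pos (by linarith : (0:ℝ) < α - 1) hδ]
  have hterm : ∀ i : ℕ, (r * (1 + δ) ^ i) ^ (1 - α) = r ^ (1 - α) * q ^ i := by
    intro i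
    rw [Real.mul_rpow hr0.le (by positivity), hq, ← Real.rpow_natCast,
      ← Real.rpow_mul (by linarith), ← Real.rpow_natCast, ← Real.rpow_mul (by linarith),
      mul_comm (i : ℝ)]
  have hsum : ∑ i ∈ Finset.range n, δ * (r * (1 + δ) ^ i) ^ (1 - α) =
      r ^ (1 - α) * (δ * ∑ i ∈ Finset.range n, q ^ i) := by
    rw [Finset.mul_sum, Finset.mul_sum]
    apply Finset.sum_congr rfl
    intro i _
    rw [hterm]; ring
  rw [hsum]
  apply mul_le_mul_of_nonneg_left _ (Real.rpow_nonneg hr0.le _)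
  have hgs : (∑ i ∈ Finset.range n, q ^ i) * (1 - q) ≤ 1 := by
    have h1 : (∑ i ∈ Finset.range n, q ^ i) * (1 - q) = 1 - q ^ n := by
      have := geom_sum_mul_neg q n
      linarith
    rw [h1]
    have := pow_pos hq0 n
    linarith
  rw [le_div_iff₀ (by linarith)]
  have hS0 : 0 ≤ ∑ i ∈ Finset.range n, q ^ i := Finset.sum_nonneg (fun i _ => (pow_pos hq0 i).le)
  calc δ * (∑ i ∈ Finset.range n, q ^ i) * (α - 1)
      = (∑ i ∈ Finset.range n, q ^ i) * ((α - 1) * δ) := by ring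
    _ ≤ (∑ i ∈ Finset.range n, q ^ i) * ((1 - q) * (1 + δ) ^ α) :=
        mul_le_mul_of_nonneg_left hkey hS0
    _ = ((∑ i ∈ Finset.range n, q ^ i) * (1 - q)) * (1 + δ) ^ α := by ring
    _ ≤ 1 * (1 + δ) ^ α := mul_le_mul_of_nonneg_right hgs hαp.le
    _ = (1 + δ) ^ α := one_mul _

/-- product of three small factors -/
theorem sup_prod3 {A1 A2 A3 δ X : ℝ} (h1 : 0 < A1) (h2 : 0 < A2) (h3 : 0 < A3) (hδ : 0 < δ)
    (hδ1 : δ ≤ 1) (hX : X ≤ 1 + A3 * δ) :
    (1 + A1 * δ) * (1 + A2 * δ) * X ≤ 1 + (1 + A1) * (1 + A2) * (1 + A3) * δ := by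
  have h3' : (1 + A1 * δ) * (1 + A2 * δ) * X ≤
      (1 + A1 * δ) * (1 + A2 * δ) * (1 + A3 * δ) :=
    mul_le_mul_of_nonneg_left hX (by positivity)
  refine h3'.trans ?_
  have hδδ : δ * δ ≤ δ := by nlinarith
  have h4 : (1 + A1 * δ) * (1 + A2 * δ) ≤ 1 + (A1 + A2 + A1 * A2) * δ := by
    have : A1 * A2 * (δ * δ) ≤ A1 * A2 * δ :=
      mul_le_mul_of_nonneg_left hδδ (by positivity)
    nlinarith
  have h5 : (1 + A1 * δ) * (1 + A2 * δ) * (1 + A3 * δ) ≤
      (1 + (A1 + A2 + A1 * A2) * δ) * (1 + A3 * δ) :=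
    mul_le_mul_of_nonneg_right h4 (by positivity)
  refine h5.trans ?_
  set W := A1 + A2 + A1 * A2 with hW
  have hWp : 0 < W := by positivity
  have h6 : W * A3 * (δ * δ) ≤ W * A3 * δ :=
    mul_le_mul_of_nonneg_left hδδ (by positivity)
  have h7 : (1 + A1) * (1 + A2) * (1 + A3) = 1 + W + A3 + W * A3 := by rw [hW]; ring
  rw [h7]
  nlinarith

theorem sup_bound {ι : V →+ ℂ} (hι : Emb ι) {μ : ℂ → ℝ} {a b : ℝ} (hμ : Nrm μ a b)
    {α : ℝ} (hα : 1 < α) {C : ℝ} (hC : 1 ≤ C) :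
    ∃ K δ0 : ℝ, 0 < K ∧ 0 < δ0 ∧ ∀ δ : ℝ, 0 < δ → δ ≤ δ0 →
      ∀ E : Edge → ℝ, (∀ e, 0 ≤ E e) → ∀ y : V, 1 ≤ δ ^ 2 * nrm y →
      (∀ R, nrm y / 2 ≤ R → Appr ι μ E (δ ^ 2) R) →
      ∀ x : ℂ, ‖x‖ ≤ C → dot x (ι y) = nrm y →
      ∃ t : ℝ, t ≤ (1 + K * δ) * (μ x / (α - 1)) * nrm y ^ (1 - α) ∧
        {v : V | T (tau α E) y v ≤ t}.Infinite := by
  have ha := hμ.pos
  have hb : 0 ≤ b := hμ.pos.le.trans hμ.le_b
  set K2 : ℝ := (b * (C + 2) + 2 * C + 7) / a with hK2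
  have hK2pos : 0 ≤ K2 := by rw [hK2]; positivity
  set A1 : ℝ := 2 * α * (K2 + 2) with hA1
  set A2 : ℝ := (2 * b + C + 4) / a with hA2
  set A3 : ℝ := 2 * α with hA3
  have hA1p : 0 < A1 := by rw [hA1]; positivity
  have hA2p : 0 < A2 := by rw [hA2]; positivity
  have hA3p : 0 < A3 := by rw [hA3]; positivity
  refine ⟨(1 + A1) * (1 + A2) * (1 + A3), min (1 / (2 * α * (K2 + 2))) (1 / (C + 2)),
    by positivity, by positivity, ?_⟩
  intro δ hδ hδ0' E hE y hy hA x hx hxy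
  have hδ0 : δ ≤ 1 / (2 * α * (K2 + 2)) := hδ0'.trans (min_le_left _ _)
  have hδ3 : (C + 2) * δ ≤ 1 := by
    have := hδ0'.trans (min_le_right _ _)
    rw [le_div_iff₀ (by positivity)] at this
    linarith
  have hαpos : 0 < α := by linarith
  have hαK : α * ((K2 + 2) * δ) ≤ 1 / 2 := by
    rw [le_div_iff₀ (by positivity)] at hδ0
    nlinarith
  have hδ2 : (K2 + 2) * δ ≤ 1 / 2 := by
    have : (K2 + 2) * δ ≤ α * ((K2 + 2) * δ) :=
      le_mul_of_one_le_left (by positivity) hα.le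
    linarith
  have hδ1 : δ ≤ 1 := by nlinarith
  have hαδ : α * δ ≤ 1 / 2 := by nlinarith [mul_nonneg hK2pos (mul_pos hαpos hδ).le]
  set r := nrm y with hr
  have hr0 : 0 < r := by
    by_contra h
    push Not at h
    nlinarith [sq_nonneg δ]
  -- points
  set ρ : ℕ → ℝ := fun i => r * (1 + δ) ^ i with hρ
  have hρpos : ∀ i, 0 < ρ i := fun i => by simp only [hρ]; positivity
  have hρge : ∀ i, r ≤ ρ i := fun i => by
    simp only [hρ]
    exact le_mul_of_one_le_right hr0.le (one_le_pow₀ (by linarith))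
  have hρsucc : ∀ i, ρ (i + 1) = ρ i + δ * ρ i := fun i => by
    simp only [hρ]; ring
  set P : ℕ → ℂ := fun i => ι y + ((ρ i - r : ℝ) : ℂ) * x with hP
  have hP0 : P 0 = ι y := by simp [hP, hρ]
  have hPlow : ∀ i, ρ i ≤ ‖P i‖ := by
    intro i
    have h1 : dot (ι y) (P i) = r * ρ i := by
      simp only [hP]
      rw [dot_add, dot_self, dot_mul, dot_comm (ι y) x, hxy, hι.norm_eq]
      ring
    have h2 := (le_abs_self _).trans (abs_dot_le (ι y) (P i))
    rw [h1, hι.norm_eq] at h2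
    exact le_of_mul_le_mul_left h2 hr0
  have hPup : ∀ i, ‖P i‖ ≤ C * ρ i := by
    intro i
    have h1 : ‖P i‖ ≤ r + (ρ i - r) * ‖x‖ := by
      simp only [hP]
      refine (norm_add_le _ _).trans ?_
      rw [hι.norm_eq, norm_mul, Complex.norm_real, Real.norm_of_nonneg (by linarith [hρge i])]
    have h2 : (ρ i - r) * ‖x‖ ≤ (ρ i - r) * C :=
      mul_le_mul_of_nonneg_left hx (by linarith [hρge i])
    nlinarith
  have hex : ∀ i, ∃ c : V, ‖ι c - P i‖ ≤ 1 ∧ (i = 0 → c = y) := by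
    intro i
    by_cases hi : i = 0
    · refine ⟨y, ?_, fun _ => rfl⟩
      rw [hi, hP0, sub_self, norm_zero]; norm_num
    · obtain ⟨c, hc⟩ := hι.near (P i)
      exact ⟨c, hc, fun h => absurd h hi⟩
  choose c hc1 hc0 using hex
  have hc00 : c 0 = y := hc0 0 rfl
  have hnx : 1 ≤ ‖x‖ := by
    have h2 := (le_abs_self _).trans (abs_dot_le x (ι y))
    rw [hxy, hι.norm_eq] at h2
    have : 1 * r ≤ ‖x‖ * r := by rw [one_mul]; exact h2
    exact le_of_mul_le_mul_right this hr0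
  have hμx : a ≤ μ x := by
    have := hμ.low x
    nlinarith
  have hρ1 : ∀ i, 1 ≤ δ ^ 2 * ρ i := fun i =>
    hy.trans (mul_le_mul_of_nonneg_left (hρge i) (sq_nonneg δ))
  -- steps
  have hstep : ∀ i, ∃ l : List Step, endp (c i) l = c (i + 1) ∧
      wt (tau α E) (c i) l ≤ (1 + A1 * δ) * (1 + A2 * δ) * (δ * μ x * (ρ i) ^ (1 - α)) := by
    intro i
    have hci1 : ρ i - 1 ≤ nrm (c i) := by
      have h1 := hPlow i
      have h2 : ‖P i‖ ≤ ‖ι (c i)‖ + ‖ι (c i) - P i‖ := by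
        have := norm_sub_le (ι (c i)) (ι (c i) - P i)
        rwa [sub_sub_cancel] at this
      rw [hι.norm_eq] at h2
      linarith [hc1 i]
    have hci2 : nrm (c i) ≤ C * ρ i + 1 := by
      rw [← hι.norm_eq]
      have h2 : ‖ι (c i)‖ ≤ ‖P i‖ + ‖ι (c i) - P i‖ := by
        have := norm_add_le (P i) (ι (c i) - P i)
        rwa [add_sub_cancel] at this
      linarith [hc1 i, hPup i]
    have hPP : P (i + 1) - P i = ((δ * ρ i : ℝ) : ℂ) * x := by
      simp only [hP]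
      rw [hρsucc i]
      push_cast
      ring
    have hdiff : ι (c (i + 1)) - ι (c i) =
        ((ι (c (i + 1)) - P (i + 1)) + (P (i + 1) - P i)) - (ι (c i) - P i) := by ring
    have hnn : 0 ≤ δ * ρ i := mul_nonneg hδ.le (hρpos i).le
    have hcc : ‖ι (c (i + 1)) - ι (c i)‖ ≤ (C + 2) * δ * ρ i := by
      rw [hdiff]
      have h1 := norm_sub_le ((ι (c (i + 1)) - P (i + 1)) + (P (i + 1) - P i)) (ι (c i) - P i)
      have h2 := norm_add_le (ι (c (i + 1)) - P (i + 1)) (P (i + 1) - P i)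
      have h3 : ‖P (i + 1) - P i‖ ≤ δ * ρ i * C := by
        rw [hPP, norm_mul, Complex.norm_real, Real.norm_of_nonneg hnn]
        exact mul_le_mul_of_nonneg_left hx hnn
      have h4 : δ ^ 2 * ρ i ≤ δ * ρ i := by nlinarith [hρpos i]
      have h5 := hρ1 i
      nlinarith [hc1 i, hc1 (i + 1)]
    have hμcc : μ (ι (c (i + 1)) - ι (c i)) ≤ δ * ρ i * μ x + 2 * b := by
      have h1 := hμ.abs_sub_le (ι (c (i + 1)) - ι (c i)) (P (i + 1) - P i)
      have h2 : μ (P (i + 1) - P i) = δ * ρ i * μ x := by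
        rw [hPP]; exact hμ.hom _ _ hnn
      rw [abs_le, h2] at h1
      have h3 : ‖ι (c (i + 1)) - ι (c i) - (P (i + 1) - P i)‖ ≤ 2 := by
        have h4 : ι (c (i + 1)) - ι (c i) - (P (i + 1) - P i) =
            (ι (c (i + 1)) - P (i + 1)) - (ι (c i) - P i) := by ring
        rw [h4]
        refine (norm_sub_le _ _).trans ?_
        linarith [hc1 i, hc1 (i + 1)]
      have h4 : b * ‖ι (c (i + 1)) - ι (c i) - (P (i + 1) - P i)‖ ≤ b * 2 :=
        mul_le_mul_of_nonneg_left h3 hb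
      linarith [h1.2]
    obtain ⟨l, hl, hwl⟩ := sup_step hι hμ hα hC hK2 hδ hδ1 hδ2 hδ3 (hρ1 i) hE
      (hA ((C + 3) * ρ i) (by nlinarith [hρge i])) hci1 hci2 hcc
    refine ⟨l, hl, hwl.trans ?_⟩
    have hs0 : 0 ≤ (K2 + 2) * δ := by positivity
    have h1 : (ρ i * (1 - (K2 + 2) * δ)) ^ (-α) ≤ (ρ i) ^ (-α) * (1 + A1 * δ) := by
      rw [Real.mul_rpow (hρpos i).le (by linarith)]
      apply mul_le_mul_of_nonneg_left _ (Real.rpow_nonneg (hρpos i).le _)
      have := sup_bern hα.le hs0 hαK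
      rw [hA1]
      linarith
    have h2 : μ (ι (c (i + 1)) - ι (c i)) + (C + 4) * δ ^ 2 * ρ i ≤
        (δ * ρ i * μ x) * (1 + A2 * δ) := by
      have h3 : 2 * b ≤ 2 * b * (δ ^ 2 * ρ i) :=
        le_mul_of_one_le_right (by positivity) (hρ1 i)
      have h4 : (2 * b + C + 4) * (δ ^ 2 * ρ i) ≤ (δ * ρ i * μ x) * (A2 * δ) := by
        have h5 : (2 * b + C + 4) = A2 * a := by
          rw [hA2]; field_simp
        rw [h5]
        have h6 : A2 * a * (δ ^ 2 * ρ i) ≤ A2 * μ x * (δ ^ 2 * ρ i) := by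
          apply mul_le_mul_of_nonneg_right _ (by positivity)
          exact mul_le_mul_of_nonneg_left hμx hA2p.le
        refine h6.trans (le_of_eq ?_)
        ring
      nlinarith
    have h0 : 0 ≤ μ (ι (c (i + 1)) - ι (c i)) + (C + 4) * δ ^ 2 * ρ i := by
      have := hμ.nonneg (ι (c (i + 1)) - ι (c i))
      positivity
    calc (ρ i * (1 - (K2 + 2) * δ)) ^ (-α) *
          (μ (ι (c (i + 1)) - ι (c i)) + (C + 4) * δ ^ 2 * ρ i)
        ≤ ((ρ i) ^ (-α) * (1 + A1 * δ)) * ((δ * ρ i * μ x) * (1 + A2 * δ)) :=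
          mul_le_mul h1 h2 h0 (by positivity)
      _ = (1 + A1 * δ) * (1 + A2 * δ) * (δ * μ x * ((ρ i) ^ (-α) * ρ i)) := by ring
      _ = _ := by
          congr 2
          have h7 : (ρ i) ^ (1 - α) = (ρ i) ^ (-α) * ρ i := by
            have h8 : (1 - α) = -α + 1 := by ring
            rw [h8, Real.rpow_add (hρpos i), Real.rpow_one]
          rw [h7]
  choose l hl hwl using hstep
  -- total
  set Bd : ℝ := (1 + A1 * δ) * (1 + A2 * δ) * μ x with hBd
  have hBd0 : 0 ≤ Bd := by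
    have := hμ.nonneg x
    rw [hBd]; positivity
  have hτ : ∀ e, 0 ≤ tau α E e := fun e => tau_nonneg hE e
  have hT : ∀ n, T (tau α E) y (c n) ≤
      Bd * ∑ i ∈ Finset.range n, δ * (ρ i) ^ (1 - α) := by
    intro n
    induction n with
    | zero =>
      rw [hc00, T_self hτ]
      simp
    | succ n ih =>
      have h1 := T_triangle hτ y (c n) (c (n + 1))
      have h2 : T (tau α E) (c n) (c (n + 1)) ≤ wt (tau α E) (c n) (l n) := T_le_wt hτ (hl n)
      rw [Finset.sum_range_succ, mul_add]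
      have h3 := hwl n
      have h4 : (1 + A1 * δ) * (1 + A2 * δ) * (δ * μ x * (ρ n) ^ (1 - α)) =
          Bd * (δ * (ρ n) ^ (1 - α)) := by rw [hBd]; ring
      linarith
  have hgeom : ∀ n, ∑ i ∈ Finset.range n, δ * (ρ i) ^ (1 - α) ≤
      r ^ (1 - α) * ((1 + δ) ^ α / (α - 1)) := fun n => sup_geom hα hδ hr0 n
  refine ⟨Bd * (r ^ (1 - α) * ((1 + δ) ^ α / (α - 1))), ?_, ?_⟩
  · have h1 := sup_bern2 hα.le hδ.le hαδ
    have hrp : 0 ≤ r ^ (1 - α) := Real.rpow_nonneg hr0.le _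
    have hμx0 := hμ.nonneg x
    have h2 : (1 + A1 * δ) * (1 + A2 * δ) * (1 + δ) ^ α ≤
        1 + (1 + A1) * (1 + A2) * (1 + A3) * δ :=
      sup_prod3 hA1p hA2p hA3p hδ hδ1 (by rw [hA3]; exact h1)
    calc Bd * (r ^ (1 - α) * ((1 + δ) ^ α / (α - 1)))
        = ((1 + A1 * δ) * (1 + A2 * δ) * (1 + δ) ^ α) * (μ x / (α - 1) * r ^ (1 - α)) := by
          rw [hBd]; ring
      _ ≤ (1 + (1 + A1) * (1 + A2) * (1 + A3) * δ) * (μ x / (α - 1) * r ^ (1 - α)) := by
          apply mul_le_mul_of_nonneg_right h2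
          apply mul_nonneg _ hrp
          exact div_nonneg hμx0 (by linarith)
      _ = _ := by ring
  · intro hfin
    obtain ⟨M, hM⟩ := (hfin.image nrm).bddAbove
    have hcM : ∀ n, nrm (c n) ≤ M := fun n => hM ⟨c n,
      (hT n).trans (mul_le_mul_of_nonneg_left (hgeom n) hBd0), rfl⟩
    have hlow : ∀ n : ℕ, r * (1 + n * δ) - 1 ≤ M := by
      intro n
      have h1 : r * (1 + n * δ) ≤ ρ n := by
        simp only [hρ]
        exact mul_le_mul_of_nonneg_left (one_add_mul_le_pow (by linarith) n) hr0.le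
      have h2 : ‖P n‖ ≤ ‖ι (c n)‖ + ‖ι (c n) - P n‖ := by
        have := norm_sub_le (ι (c n)) (ι (c n) - P n)
        rwa [sub_sub_cancel] at this
      rw [hι.norm_eq] at h2
      linarith [hc1 n, hPlow n, hcM n]
    obtain ⟨n, hn⟩ := exists_nat_gt ((M + 1) / (r * δ))
    rw [div_lt_iff₀ (by positivity)] at hn
    have := hlow n
    nlinarith

end ConeE
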