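import Pool.Agent.ConeE.Basic
import Pool.Agent.ConeE.Prod

/-! Weights of walks under `PE`: tails and moments (module TAIL). -/

set_option autoImplicit false

namespace ConeE

open MeasureTheory

theorem measurable_wt (x : V) (l : List Step) : Measurable (fun E : Edge → ℝ => wt E x l) := by
  induction l generalizing x with
  | nil => exact measurable_const
  | cons s l ih => exact (measurable_pi_apply (edg x s)).add (ih (x + vec s))

theorem memLp_eval (e : Edge) : MemLp (fun E : Edge → ℝ => E e) 2 PE :=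
  memLp_mE.comp_measurePreserving (measurePreserving_eval e)

theorem integrable_eval (e : Edge) : Integrable (fun E : Edge → ℝ => E e) PE :=
  (measurePreserving_eval e).integrable_comp_of_integrable integrable_mE

theorem integral_eval (e : Edge) : ∫ E : Edge → ℝ, E e ∂PE = 1 := by
  rw [← integral_mE, ← (measurePreserving_eval e).map_eq]
  exact (integral_map (μ := PE) (φ := fun E : Edge → ℝ => E e) (f := fun x : ℝ => x)
    (measurable_pi_apply e).aemeasurable measurable_id.aestronglyMeasurable).symm

theorem memLp_wt (x : V) (l : List Step) :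
    MemLp (fun E : Edge → ℝ => wt E x l) 2 PE := by
  induction l generalizing x with
  | nil => exact memLp_const 0
  | cons s l ih => exact (memLp_eval (edg x s)).add (ih (x + vec s))

theorem integrable_wt (x : V) (l : List Step) :
    Integrable (fun E : Edge → ℝ => wt E x l) PE :=
  (memLp_wt x l).integrable (by norm_num)

theorem integral_wt (x : V) (l : List Step) : ∫ E, wt E x l ∂PE = l.length := by
  induction l generalizing x with
  | nil => simp [wt]
  | cons s l ih =>
    have h : ∫ E : Edge → ℝ, (E (edg x s) + wt E (x + vec s) l) ∂PE =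
        ∫ E : Edge → ℝ, E (edg x s) ∂PE + ∫ E : Edge → ℝ, wt E (x + vec s) l ∂PE :=
      integral_add (integrable_eval _) (integrable_wt _ _)
    show ∫ E : Edge → ℝ, (E (edg x s) + wt E (x + vec s) l) ∂PE = _
    rw [h, ih, integral_eval, List.length_cons]
    push_cast
    ring

/-- exponential moments of the weight of a walk with distinct edges -/
theorem lintegral_exp_wt (x : V) (l : List Step) (hl : (edges x l).Nodup) {s : ℝ} (hs : s < 1) :
    ∫⁻ E, ENNReal.ofReal (Real.exp (s * wt E x l)) ∂PE =
      ENNReal.ofReal (1 / (1 - s)) ^ l.length := by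
  classical
  have hm : Measurable fun y : ℝ => ENNReal.ofReal (Real.exp (s * y)) := by fun_prop
  have hind : ProbabilityTheory.iIndepFun
      (fun (e : Edge) (E : Edge → ℝ) => ENNReal.ofReal (Real.exp (s * E e))) PE :=
    iIndepFun_eval.comp (fun _ y => ENNReal.ofReal (Real.exp (s * y))) fun _ => hm
  have h1 : ∀ E : Edge → ℝ, ENNReal.ofReal (Real.exp (s * wt E x l)) =
      ∏ e ∈ (edges x l).toFinset, ENNReal.ofReal (Real.exp (s * E e)) := by
    intro E
    rw [List.prod_toFinset _ hl, wt_eq_sum]
    induction edges x l with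
    | nil => simp
    | cons e L ih =>
      rw [List.map_cons, List.sum_cons, mul_add, Real.exp_add,
        ENNReal.ofReal_mul (Real.exp_pos _).le, ih, List.map_cons, List.prod_cons]
  simp_rw [h1]
  rw [ProbabilityTheory.lintegral_prod_eq_prod_lintegral_of_indepFun _ _ hind
    fun e => hm.comp (measurable_pi_apply e)]
  have h2 : ∀ e ∈ (edges x l).toFinset,
      ∫⁻ E : Edge → ℝ, ENNReal.ofReal (Real.exp (s * E e)) ∂PE = ENNReal.ofReal (1 / (1 - s)) := by
    intro e _
    rw [← lintegral_exp_mE hs, ← (measurePreserving_eval e).map_eq]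
    exact (lintegral_map hm (measurable_pi_apply e)).symm
  rw [Finset.prod_congr rfl h2, Finset.prod_const, List.toFinset_card_of_nodup hl, length_edges]

theorem lower_tail (x : V) (l : List Step) (hl : (edges x l).Nodup) {r : ℝ} (hr : 0 < r) :
    PE {E | wt E x l < r * l.length} ≤ ENNReal.ofReal ((Real.exp 1 * r) ^ l.length) := by
  set k := l.length with hk
  have hs : -(1 / r) < 1 := by
    have : 0 < 1 / r := by positivity
    linarith
  have h1 := lintegral_exp_wt x l hl hs
  have hmeas : Measurable fun E : Edge → ℝ => ENNReal.ofReal (Real.exp (-(1 / r) * wt E x l)) := by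
    have := measurable_wt x l
    fun_prop
  have h2 := mul_meas_ge_le_lintegral (μ := PE) hmeas (ENNReal.ofReal (Real.exp (-(k : ℝ))))
  have h3 : {E : Edge → ℝ | wt E x l < r * k} ⊆
      {E : Edge → ℝ | ENNReal.ofReal (Real.exp (-(k : ℝ))) ≤
        ENNReal.ofReal (Real.exp (-(1 / r) * wt E x l))} := by
    intro E hE
    refine ENNReal.ofReal_le_ofReal (Real.exp_le_exp.2 ?_)
    have h4 : wt E x l < r * k := hE
    have h5 : wt E x l / r ≤ k := by
      rw [div_le_iff₀ hr]
      linarith
    have h6 : -(1 / r) * wt E x l = -(wt E x l / r) := by ring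
    rw [h6]
    linarith
  refine (measure_mono h3).trans ?_
  rw [h1] at h2
  have h4 : ENNReal.ofReal (1 / (1 - -(1 / r))) ≤ ENNReal.ofReal r := by
    refine ENNReal.ofReal_le_ofReal ?_
    rw [sub_neg_eq_add, div_le_iff₀ (by positivity)]
    have : r * (1 + 1 / r) = r + 1 := by field_simp
    linarith
  have h5 : ENNReal.ofReal (Real.exp k) *
      (ENNReal.ofReal (Real.exp (-(k : ℝ))) *
        PE {E : Edge → ℝ | ENNReal.ofReal (Real.exp (-(k : ℝ))) ≤
        ENNReal.ofReal (Real.exp (-(1 / r) * wt E x l))}) ≤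
      ENNReal.ofReal (Real.exp k) * ENNReal.ofReal r ^ k :=
    mul_le_mul_right (h2.trans (pow_le_pow_left' h4 k)) _
  rw [← mul_assoc, ← ENNReal.ofReal_mul (Real.exp_pos _).le, ← Real.exp_add, add_neg_cancel,
    Real.exp_zero, ENNReal.ofReal_one, one_mul, ← ENNReal.ofReal_pow hr.le,
    ← ENNReal.ofReal_mul (Real.exp_pos _).le] at h5
  refine h5.trans (ENNReal.ofReal_le_ofReal ?_)
  rw [mul_pow, ← Real.exp_nat_mul, mul_one]

theorem upper_tail (x : V) (l : List Step) (hl : (edges x l).Nodup) {M : ℝ}
    (hM : (l.length : ℝ) ≤ M) :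
    PE {E | 4 * M ≤ wt E x l} ≤ ENNReal.ofReal (Real.exp (-M)) := by
  have hs : (1 / 2 : ℝ) < 1 := by norm_num
  have h1 := lintegral_exp_wt x l hl hs
  have hmeas : Measurable fun E : Edge → ℝ => ENNReal.ofReal (Real.exp ((1 / 2) * wt E x l)) := by
    have := measurable_wt x l
    fun_prop
  have h2 := mul_meas_ge_le_lintegral (μ := PE) hmeas (ENNReal.ofReal (Real.exp (2 * M)))
  have h3 : {E : Edge → ℝ | 4 * M ≤ wt E x l} ⊆
      {E : Edge → ℝ | ENNReal.ofReal (Real.exp (2 * M)) ≤
        ENNReal.ofReal (Real.exp ((1 / 2) * wt E x l))} := by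
    intro E hE
    refine ENNReal.ofReal_le_ofReal (Real.exp_le_exp.2 ?_)
    have h4 : 4 * M ≤ wt E x l := hE
    linarith
  refine (measure_mono h3).trans ?_
  rw [h1] at h2
  have h4 : ENNReal.ofReal (1 / (1 - 1 / 2)) ^ l.length ≤ ENNReal.ofReal (Real.exp M) := by
    rw [← ENNReal.ofReal_pow (by norm_num)]
    refine ENNReal.ofReal_le_ofReal ?_
    have h5 : (1 / (1 - 1 / 2) : ℝ) ≤ Real.exp 1 := by
      have := Real.add_one_le_exp (1 : ℝ)
      norm_num at this ⊢
      linarith
    calc (1 / (1 - 1 / 2) : ℝ) ^ l.length ≤ Real.exp 1 ^ l.length :=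
          pow_le_pow_left₀ (by norm_num) h5 _
      _ = Real.exp l.length := by rw [← Real.exp_nat_mul, mul_one]
      _ ≤ Real.exp M := Real.exp_le_exp.2 hM
  have h5 : ENNReal.ofReal (Real.exp (-(2 * M))) *
      (ENNReal.ofReal (Real.exp (2 * M)) *
        PE {E : Edge → ℝ | ENNReal.ofReal (Real.exp (2 * M)) ≤
        ENNReal.ofReal (Real.exp ((1 / 2) * wt E x l))}) ≤
      ENNReal.ofReal (Real.exp (-(2 * M))) * ENNReal.ofReal (Real.exp M) :=
    mul_le_mul_right (h2.trans h4) _
  rw [← mul_assoc, ← ENNReal.ofReal_mul (Real.exp_pos _).le, ← Real.exp_add, neg_add_cancel,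
    Real.exp_zero, ENNReal.ofReal_one, one_mul,
    ← ENNReal.ofReal_mul (Real.exp_pos _).le, ← Real.exp_add] at h5
  refine h5.trans (ENNReal.ofReal_le_ofReal (Real.exp_le_exp.2 ?_))
  linarith

end ConeE
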