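import Pool.Agent.ConeE.Law

/-! From the exploration to the Markov chain of the problem (module TRANS). -/

set_option autoImplicit false

open MeasureTheory Classical

namespace ConeE

namespace TRANSAux

/-- the list of the first `n` terms, newest first -/
def lst (s : ℕ → Edge) : ℕ → List Edge
  | 0 => []
  | n + 1 => s n :: lst s n

theorem length_lst (s : ℕ → Edge) (n : ℕ) : (lst s n).length = n := by
  induction n with
  | zero => rfl
  | succ n ih => simp [lst, ih]

theorem mem_lst (s : ℕ → Edge) (n : ℕ) (f : Edge) : f ∈ lst s n ↔ ∃ i < n, f = s i := by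
  induction n with
  | zero => simp [lst]
  | succ n ih =>
    simp only [lst, List.mem_cons, ih]
    constructor
    · rintro (h | ⟨i, hi, h⟩)
      · exact ⟨n, Nat.lt_succ_self n, h⟩
      · exact ⟨i, Nat.lt_succ_of_lt hi, h⟩
    · rintro ⟨i, hi, h⟩
      rcases Nat.lt_succ_iff_lt_or_eq.1 hi with h1 | h1
      · exact Or.inr ⟨i, h1, h⟩
      · subst h1; exact Or.inl h

theorem lst_eq_iff (s t : ℕ → Edge) (n : ℕ) : lst s n = lst t n ↔ ∀ i < n, s i = t i := by
  induction n with
  | zero => simp [lst]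
  | succ n ih =>
    simp only [lst, List.cons.injEq, ih]
    constructor
    · rintro ⟨h1, h2⟩ i hi
      rcases Nat.lt_succ_iff_lt_or_eq.1 hi with h3 | h3
      · exact h2 i h3
      · subst h3; exact h1
    · intro h
      exact ⟨h n (Nat.lt_succ_self n), fun i hi => h i (Nat.lt_succ_of_lt hi)⟩

theorem exists_lst : ∀ σ : List Edge, ∃ s : ℕ → Edge, lst s σ.length = σ
  | [] => ⟨fun _ => (0, 0), rfl⟩
  | a :: σ => by
    obtain ⟨s, hs⟩ := exists_lst σ
    refine ⟨Function.update s σ.length a, ?_⟩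
    simp only [List.length_cons, lst, Function.update_self, List.cons.injEq, true_and]
    conv_rhs => rw [← hs]
    rw [lst_eq_iff]
    intro i hi
    rw [Function.update_of_ne hi.ne]

theorem mem_ends (v : V) (e : Edge) : v ∈ ends e ↔ v = e.1 ∨ v = e.1 + ev e.2 := by
  simp [ends]

theorem mem_vs_lst (s : ℕ → Edge) (n : ℕ) (v : V) :
    v ∈ vs (lst s n) ↔ v = 0 ∨ ∃ i < n, (v = (s i).1 ∨ v = (s i).1 + ev (s i).2) := by
  induction n with
  | zero => simp [lst, vs]
  | succ n ih =>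
    simp only [lst, vs, Finset.mem_union, ih, mem_ends]
    constructor
    · rintro ((h | ⟨i, hi, h⟩) | h)
      · exact Or.inl h
      · exact Or.inr ⟨i, Nat.lt_succ_of_lt hi, h⟩
      · exact Or.inr ⟨n, Nat.lt_succ_self n, h⟩
    · rintro (h | ⟨i, hi, h⟩)
      · exact Or.inl (Or.inl h)
      · rcases Nat.lt_succ_iff_lt_or_eq.1 hi with h3 | h3
        · exact Or.inl (Or.inr ⟨i, h3, h⟩)
        · subst h3; exact Or.inr h

theorem G_zero {τ : Edge → ℝ} {s : ℕ → Edge} {n : ℕ} (hn : 0 < n) (h : G τ (lst s n)) :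
    (0 : V) = (s 0).1 ∨ (0 : V) = (s 0).1 + ev (s 0).2 := by
  have h1 : ∀ n, G τ (lst s (n + 1)) → s 0 ∈ bd [] := by
    intro n
    induction n with
    | zero => intro h; exact h.2.1
    | succ n ih => intro h; exact ih h.1
  obtain ⟨m, rfl⟩ : ∃ m, n = m + 1 := ⟨n - 1, by omega⟩
  have h2 := (mem_bd.1 (h1 m h)).2
  simp only [vs, Finset.mem_singleton] at h2
  rcases h2 with h2 | h2
  · exact Or.inl h2.symm
  · exact Or.inr h2.symm

/-- the condition of the problem -/
def Cnd (n : ℕ) (s : ℕ → Edge) (f : Edge) : Prop :=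
  (∀ i < n, f ≠ s i) ∧
    (n = 0 → ((0 : Fin 2 → ℤ) = f.1 ∨ (0 : Fin 2 → ℤ) = f.1 + Pi.single f.2 1)) ∧
    (0 < n → ∃ i < n, ∃ p : Fin 2 → ℤ,
      (p = f.1 ∨ p = f.1 + Pi.single f.2 1) ∧
      (p = (s i).1 ∨ p = (s i).1 + Pi.single (s i).2 1))

theorem cnd_iff {n : ℕ} {s : ℕ → Edge}
    (h0 : 0 < n → (0 : V) = (s 0).1 ∨ (0 : V) = (s 0).1 + ev (s 0).2) (f : Edge) :
    Cnd n s f ↔ f ∈ bd (lst s n) := by
  rw [mem_bd, mem_lst, mem_vs_lst, mem_vs_lst]
  unfold Cnd
  constructor
  · rintro ⟨h1, h2, h3⟩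
    refine ⟨by rintro ⟨i, hi, h⟩; exact h1 i hi h, ?_⟩
    rcases Nat.eq_zero_or_pos n with hn | hn
    · rcases h2 hn with h | h
      · exact Or.inl (Or.inl h.symm)
      · exact Or.inr (Or.inl h.symm)
    · obtain ⟨i, hi, p, hp | hp, hp'⟩ := h3 hn
      · exact Or.inl (Or.inr ⟨i, hi, by rw [← hp]; exact hp'⟩)
      · refine Or.inr (Or.inr ⟨i, hi, ?_⟩)
        have : f.1 + ev f.2 = p := hp.symm
        rw [this]; exact hp'
  · rintro ⟨h1, h2⟩
    refine ⟨fun i hi h => h1 ⟨i, hi, h⟩, ?_, ?_⟩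
    · rintro rfl
      rcases h2 with (h | ⟨i, hi, _⟩) | (h | ⟨i, hi, _⟩)
      · exact Or.inl h.symm
      · exact absurd hi (Nat.not_lt_zero i)
      · exact Or.inr h.symm
      · exact absurd hi (Nat.not_lt_zero i)
    · intro hn
      rcases h2 with (h | ⟨i, hi, h⟩) | (h | ⟨i, hi, h⟩)
      · exact ⟨0, hn, 0, Or.inl h.symm, h0 hn⟩
      · exact ⟨i, hi, f.1, Or.inl rfl, h⟩
      · exact ⟨0, hn, 0, Or.inr h.symm, h0 hn⟩
      · exact ⟨i, hi, f.1 + ev f.2, Or.inr rfl, h⟩

end TRANSAux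

open TRANSAux

theorem transfer (α : ℝ)
    (hF : ∀ᵐ E ∂PE, (∀ e, 0 < E e) ∧ Explodes (tau α E) ∧ Conf (tau α E)) :
    ∀ (Ω : Type) [MeasurableSpace Ω] (P : Measure Ω), IsProbabilityMeasure P →
    ∀ e : ℕ → Ω → (Fin 2 → ℤ) × Fin 2,
      (∀ (n : ℕ) (f : (Fin 2 → ℤ) × Fin 2), MeasurableSet {ω | e n ω = f}) →
      (∀ (n : ℕ) (s : ℕ → (Fin 2 → ℤ) × Fin 2) (f : (Fin 2 → ℤ) × Fin 2),
        P {ω | (∀ i < n, e i ω = s i) ∧ e n ω = f}
          = P {ω | ∀ i < n, e i ω = s i} *
            ENNReal.ofReal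
              (if ((∀ i < n, f ≠ s i) ∧
                    (n = 0 → ((0 : Fin 2 → ℤ) = f.1 ∨ (0 : Fin 2 → ℤ) = f.1 + Pi.single f.2 1)) ∧
                    (0 < n → ∃ i < n, ∃ p : Fin 2 → ℤ,
                      (p = f.1 ∨ p = f.1 + Pi.single f.2 1) ∧
                      (p = (s i).1 ∨ p = (s i).1 + Pi.single (s i).2 1)))
               then
                (Real.sqrt (∑ j : Fin 2,
                    ((f.1 j : ℝ) + (if j = f.2 then (1 / 2 : ℝ) else 0)) ^ 2)) ^ α /
                (∑' g : (Fin 2 → ℤ) × Fin 2,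
                  if ((∀ i < n, g ≠ s i) ∧
                      (n = 0 → ((0 : Fin 2 → ℤ) = g.1 ∨ (0 : Fin 2 → ℤ) = g.1 + Pi.single g.2 1)) ∧
                      (0 < n → ∃ i < n, ∃ p : Fin 2 → ℤ,
                        (p = g.1 ∨ p = g.1 + Pi.single g.2 1) ∧
                        (p = (s i).1 ∨ p = (s i).1 + Pi.single (s i).2 1)))
                  then
                    (Real.sqrt (∑ j : Fin 2,
                      ((g.1 j : ℝ) + (if j = g.2 then (1 / 2 : ℝ) else 0)) ^ 2)) ^ α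
                  else 0)
               else 0)) →
      ∀ᵐ ω ∂P, ∃ a u : Fin 2 → ℝ, ∃ θ : ℝ, 0 < θ ∧ θ < Real.pi ∧
        ∑ j : Fin 2, u j ^ 2 = 1 ∧
        ∀ (n : ℕ) (p : Fin 2 → ℤ),
          (p = (e n ω).1 ∨ p = (e n ω).1 + Pi.single (e n ω).2 1) →
          Real.sqrt (∑ j : Fin 2, ((p j : ℝ) - a j) ^ 2) * Real.cos (θ / 2)
            ≤ ∑ j : Fin 2, ((p j : ℝ) - a j) * u j := by
  intro Ω _ P hP e hem hstep
  set w : Edge → ℝ := fun f => mid f ^ α with hw
  have hwpos : ∀ f, 0 < w f := fun f => Real.rpow_pos_of_pos (mid_pos f) α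
  set τ : (Edge → ℝ) → Edge → ℝ := fun E f => E f / w f with hτ
  have hτα : ∀ E, τ E = tau α E := fun E => rfl
  -- law of the prefixes
  have hlaw : ∀ (n : ℕ) (s : ℕ → Edge),
      P {ω | ∀ i < n, e i ω = s i} = PE {E | G (τ E) (lst s n)} := by
    intro n s
    induction n with
    | zero =>
      have h1 : {ω : Ω | ∀ i < 0, e i ω = s i} = Set.univ := by ext; simp
      have h2 : {E : Edge → ℝ | G (τ E) (lst s 0)} = Set.univ := by ext; simp [lst, G]
      rw [h1, h2, measure_univ, measure_univ]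
    | succ n ih =>
      have h1 : {ω : Ω | ∀ i < n + 1, e i ω = s i} =
          {ω | (∀ i < n, e i ω = s i) ∧ e n ω = s n} := by
        ext ω
        simp only [Set.mem_ofPred_eq]
        constructor
        · intro h
          exact ⟨fun i hi => h i (Nat.lt_succ_of_lt hi), h n (Nat.lt_succ_self n)⟩
        · rintro ⟨h2, h3⟩ i hi
          rcases Nat.lt_succ_iff_lt_or_eq.1 hi with h4 | h4
          · exact h2 i h4
          · subst h4; exact h3
      rw [h1, hstep n s (s n), ih]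
      by_cases hz : PE {E | G (τ E) (lst s n)} = 0
      · rw [hz, zero_mul]
        symm
        refine le_antisymm ?_ zero_le
        rw [← hz]
        exact measure_mono fun E hE => hE.1
      · obtain ⟨E, hE⟩ : {E | G (τ E) (lst s n)}.Nonempty := by
          rw [Set.nonempty_iff_ne_empty]
          intro h
          rw [h, measure_empty] at hz
          exact hz rfl
        have h0 : 0 < n → (0 : V) = (s 0).1 ∨ (0 : V) = (s 0).1 + ev (s 0).2 :=
          fun hn => G_zero hn hE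
        have hc := cnd_iff h0
        by_cases hb : s n ∈ bd (lst s n)
        · have hb' : Cnd n s (s n) := (hc _).2 hb
          unfold Cnd at hb'
          rw [if_pos hb']
          have hsum : (∑' g : (Fin 2 → ℤ) × Fin 2,
                  if ((∀ i < n, g ≠ s i) ∧
                      (n = 0 → ((0 : Fin 2 → ℤ) = g.1 ∨ (0 : Fin 2 → ℤ) = g.1 + Pi.single g.2 1)) ∧
                      (0 < n → ∃ i < n, ∃ p : Fin 2 → ℤ,
                        (p = g.1 ∨ p = g.1 + Pi.single g.2 1) ∧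
                        (p = (s i).1 ∨ p = (s i).1 + Pi.single (s i).2 1)))
                  then
                    (Real.sqrt (∑ j : Fin 2,
                      ((g.1 j : ℝ) + (if j = g.2 then (1 / 2 : ℝ) else 0)) ^ 2)) ^ α
                  else 0) = ∑ g ∈ bd (lst s n), w g := by
            rw [tsum_eq_sum (s := bd (lst s n))]
            · apply Finset.sum_congr rfl
              intro g hg
              have hg' : Cnd n s g := (hc g).2 hg
              exact if_pos hg'
            · intro g hg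
              have hg' : ¬ Cnd n s g := fun h => hg ((hc g).1 h)
              exact if_neg hg'
          rw [hsum]
          exact (law_step w hwpos (lst s n) hb).symm
        · have hb' : ¬ Cnd n s (s n) := fun h => hb ((hc _).1 h)
          unfold Cnd at hb'
          rw [if_neg hb', ENNReal.ofReal_zero, mul_zero]
          symm
          have : {E : Edge → ℝ | G (τ E) (lst s (n + 1))} = ∅ := by
            ext E
            simp only [Set.mem_ofPred_eq, Set.mem_empty_iff_false, iff_false]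
            intro h
            exact hb h.2.1
          rw [this, measure_empty]
  -- prefixes
  set pre : Ω → ℕ → List Edge := fun ω n => lst (fun i => e i ω) n with hpre
  have hpm : ∀ n σ, MeasurableSet {ω | pre ω n = σ} := by
    intro n
    induction n with
    | zero =>
      intro σ
      have : {ω | pre ω 0 = σ} = {_ω | [] = σ} := rfl
      rw [this]
      exact MeasurableSet.const _
    | succ n ih =>
      intro σ
      cases σ with
      | nil =>
        have : {ω | pre ω (n + 1) = []} = ∅ := by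
          ext ω; simp [hpre, lst]
        rw [this]; exact MeasurableSet.empty
      | cons a σ =>
        have : {ω | pre ω (n + 1) = a :: σ} = {ω | e n ω = a} ∩ {ω | pre ω n = σ} := by
          ext ω; simp [hpre, lst]
        rw [this]
        exact (hem n a).inter (ih σ)
  have hGm : ∀ σ, MeasurableSet {E | G (τ E) σ} := fun σ => measurableSet_G w σ
  -- marginal lemma
  have hmarg : ∀ (n : ℕ) (H : Set (List Edge)),
      P {ω | pre ω n ∈ H} = PE {E | ∃ σ ∈ H, σ.length = n ∧ G (τ E) σ} := by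
    intro n H
    have h1 : {ω | pre ω n ∈ H} = ⋃ σ : {σ : List Edge // σ ∈ H ∧ σ.length = n},
        {ω | pre ω n = σ.1} := by
      ext ω
      simp only [Set.mem_ofPred_eq, Set.mem_iUnion]
      constructor
      · intro h
        exact ⟨⟨pre ω n, h, length_lst _ n⟩, rfl⟩
      · rintro ⟨σ, hσ⟩
        rw [hσ]; exact σ.2.1
    have h2 : {E | ∃ σ ∈ H, σ.length = n ∧ G (τ E) σ} =
        ⋃ σ : {σ : List Edge // σ ∈ H ∧ σ.length = n}, {E | G (τ E) σ.1} := by
      ext E
      simp only [Set.mem_ofPred_eq, Set.mem_iUnion]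
      constructor
      · rintro ⟨σ, h3, h4, h5⟩
        exact ⟨⟨σ, h3, h4⟩, h5⟩
      · rintro ⟨σ, hσ⟩
        exact ⟨σ.1, σ.2.1, σ.2.2, hσ⟩
    rw [h1, h2, measure_iUnion, measure_iUnion]
    · apply tsum_congr
      rintro ⟨σ, hσ, hl⟩
      obtain ⟨s, hs⟩ := exists_lst σ
      rw [hl] at hs
      have h3 : {ω | pre ω n = σ} = {ω | ∀ i < n, e i ω = s i} := by
        ext ω
        simp only [Set.mem_ofPred_eq, hpre]
        rw [← hs, lst_eq_iff]
      show P {ω | pre ω n = σ} = PE {E | G (τ E) σ}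
      rw [h3, hlaw n s, hs]
    · rintro ⟨σ, hσ, hl⟩ ⟨σ', hσ', hl'⟩ hne
      rw [Function.onFun, Set.disjoint_left]
      intro E h3 h4
      exact hne (Subtype.ext (G_unique (hl.trans hl'.symm) h3 h4))
    · exact fun σ => hGm σ.1
    · rintro ⟨σ, hσ, hl⟩ ⟨σ', hσ', hl'⟩ hne
      rw [Function.onFun, Set.disjoint_left]
      intro ω h3 h4
      exact hne (Subtype.ext (h3.symm.trans h4))
    · exact fun σ => hpm n σ.1
  have hPm : ∀ n (H : Set (List Edge)), MeasurableSet {ω | pre ω n ∈ H} := by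
    intro n H
    have h1 : {ω | pre ω n ∈ H} = ⋃ σ : List Edge, ⋃ (_ : σ ∈ H), {ω | pre ω n = σ} := by
      ext ω; simp
    rw [h1]
    exact MeasurableSet.iUnion fun σ => MeasurableSet.iUnion fun _ => hpm n σ
  have hEm : ∀ n (H : Set (List Edge)),
      MeasurableSet {E | ∃ σ ∈ H, σ.length = n ∧ G (τ E) σ} := by
    intro n H
    have h1 : {E | ∃ σ ∈ H, σ.length = n ∧ G (τ E) σ} =
        ⋃ σ : List Edge, ⋃ (_ : σ ∈ H), ⋃ (_ : σ.length = n), {E | G (τ E) σ} := by
      ext E
      simp only [Set.mem_ofPred_eq, Set.mem_iUnion, exists_prop]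
    rw [h1]
    exact MeasurableSet.iUnion fun σ => MeasurableSet.iUnion fun _ =>
      MeasurableSet.iUnion fun _ => hGm σ
  -- law of the whole path in sets closed under tails
  have hpath : ∀ H : Set (List Edge), (∀ s σ, s :: σ ∈ H → σ ∈ H) →
      P {ω | ∀ n, pre ω n ∈ H} = PE {E | ∀ n, ∃ σ ∈ H, σ.length = n ∧ G (τ E) σ} := by
    intro H hH
    have h1 : {ω | ∀ n, pre ω n ∈ H} = ⋂ n, {ω | pre ω n ∈ H} := by ext; simp
    have h2 : {E | ∀ n, ∃ σ ∈ H, σ.length = n ∧ G (τ E) σ} =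
        ⋂ n, {E | ∃ σ ∈ H, σ.length = n ∧ G (τ E) σ} := by ext; simp
    have ha1 : Antitone fun n => {ω | pre ω n ∈ H} := by
      refine antitone_nat_of_succ_le fun n ω h => ?_
      exact hH _ _ h
    have ha2 : Antitone fun n => {E | ∃ σ ∈ H, σ.length = n ∧ G (τ E) σ} := by
      refine antitone_nat_of_succ_le fun n E h => ?_
      obtain ⟨σ, h3, h4, h5⟩ := h
      cases σ with
      | nil => simp at h4
      | cons a σ =>
        exact ⟨σ, hH _ _ h3, by simpa using h4, h5.1⟩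
    have t1 := tendsto_measure_iInter_atTop (μ := P)
      (fun n => (hPm n H).nullMeasurableSet) ha1 ⟨0, measure_ne_top _ _⟩
    have t2 := tendsto_measure_iInter_atTop (μ := PE)
      (fun n => (hEm n H).nullMeasurableSet) ha2 ⟨0, measure_ne_top _ _⟩
    rw [h1, h2]
    refine tendsto_nhds_unique t1 ?_
    have : (⇑P ∘ fun n => {ω | pre ω n ∈ H}) =
        (⇑PE ∘ fun n => {E | ∃ σ ∈ H, σ.length = n ∧ G (τ E) σ}) := by
      funext n
      exact hmarg n H
    rw [this]
    exact t2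
  -- the sets `H k`
  set H : ℕ → Set (List Edge) := fun k =>
    {σ | ∃ ν : ℂ, ‖ν‖ = 1 ∧ ∀ v ∈ vs σ, 1 / ((k : ℝ) + 1) * nrm v - k ≤ dot ν (toC v)} with hH
  have hHt : ∀ k s σ, s :: σ ∈ H k → σ ∈ H k := by
    rintro k s σ ⟨ν, h1, h2⟩
    exact ⟨ν, h1, fun v hv => h2 v (Finset.mem_union_left _ hv)⟩
  have hHm : Monotone H := by
    refine monotone_nat_of_le_succ fun k σ => ?_
    rintro ⟨ν, h1, h2⟩
    refine ⟨ν, h1, fun v hv => le_trans ?_ (h2 v hv)⟩
    have h3 : 1 / (((k + 1 : ℕ) : ℝ) + 1) ≤ 1 / ((k : ℝ) + 1) := by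
      apply one_div_le_one_div_of_le
      · positivity
      · push_cast; linarith
    have h4 := mul_le_mul_of_nonneg_right h3 (nrm_nonneg v)
    push_cast at h4 ⊢
    linarith
  have hall : ∀ᵐ E ∂PE, ∀ n, ∃ σ : List Edge, σ.length = n ∧ G (τ E) σ := by
    rw [ae_all_iff]
    intro n
    have h1 := hmarg n Set.univ
    have h2 : {ω : Ω | pre ω n ∈ (Set.univ : Set (List Edge))} = Set.univ := by ext; simp
    rw [h2, measure_univ] at h1
    have h3 := (mem_ae_iff_prob_eq_one (hEm n Set.univ)).2 h1.symm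
    filter_upwards [h3] with E hE
    obtain ⟨σ, _, h4, h5⟩ := hE
    exact ⟨σ, h4, h5⟩
  have hone : PE (⋃ k, {E | ∀ n, ∃ σ ∈ H k, σ.length = n ∧ G (τ E) σ}) = 1 := by
    rw [← mem_ae_iff_prob_eq_one]
    · filter_upwards [hF, hall] with E hE hE2
      obtain ⟨hpos, hex, ν, c, M, hν, hc, hconf⟩ := hE
      obtain ⟨k, hk⟩ := exists_nat_ge (max (1 / c) M)
      have hk1 : 1 / c ≤ k := (le_max_left _ _).trans hk
      have hk2 : M ≤ k := (le_max_right _ _).trans hk
      rw [Set.mem_iUnion]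
      refine ⟨k, fun n => ?_⟩
      obtain ⟨σ, h1, h2⟩ := hE2 n
      refine ⟨σ, ⟨ν, hν, fun v hv => ?_⟩, h1, h2⟩
      have h3 : v ∈ Ainf (tau α E) :=
        explore_good (τ := tau α E) (fun f => div_pos (hpos f) (hwpos f)) hex h2 v hv
      refine le_trans ?_ (hconf v h3)
      have h4 : 1 / ((k : ℝ) + 1) ≤ c := by
        rw [div_le_iff₀ (by positivity)]
        rw [div_le_iff₀ hc] at hk1
        nlinarith
      have := mul_le_mul_of_nonneg_right h4 (nrm_nonneg v)
      linarith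
    · refine MeasurableSet.iUnion fun k => ?_
      have : {E | ∀ n, ∃ σ ∈ H k, σ.length = n ∧ G (τ E) σ} =
        ⋂ n, {E | ∃ σ ∈ H k, σ.length = n ∧ G (τ E) σ} := by ext; simp
      rw [this]
      exact MeasurableSet.iInter fun n => hEm n (H k)
  have hone' : P (⋃ k, {ω | ∀ n, pre ω n ∈ H k}) = 1 := by
    have m1 : Monotone fun k => {ω | ∀ n, pre ω n ∈ H k} := fun k k' hkk ω h n =>
      hHm hkk (h n)
    have m2 : Monotone fun k => {E | ∀ n, ∃ σ ∈ H k, σ.length = n ∧ G (τ E) σ} := by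
      intro k k' hkk E h n
      obtain ⟨σ, h1, h2⟩ := h n
      exact ⟨σ, hHm hkk h1, h2⟩
    rw [m1.measure_iUnion, ← hone, m2.measure_iUnion]
    exact iSup_congr fun k => hpath (H k) (hHt k)
  have hPu : MeasurableSet (⋃ k, {ω | ∀ n, pre ω n ∈ H k}) := by
    refine MeasurableSet.iUnion fun k => ?_
    have : {ω | ∀ n, pre ω n ∈ H k} = ⋂ n, {ω | pre ω n ∈ H k} := by ext; simp
    rw [this]
    exact MeasurableSet.iInter fun n => hPm n (H k)
  filter_upwards [(mem_ae_iff_prob_eq_one hPu).2 hone'] with ω hω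
  rw [Set.mem_iUnion] at hω
  obtain ⟨k, hk⟩ := hω
  -- one direction for all times
  obtain ⟨ν, hν, hνk⟩ : ∃ ν : ℂ, ‖ν‖ = 1 ∧ ∀ n, ∀ v ∈ vs (pre ω n),
      1 / ((k : ℝ) + 1) * nrm v - k ≤ dot ν (toC v) := by
    have hcl : ∀ n, IsClosed {ν : ℂ | ‖ν‖ = 1 ∧ ∀ v ∈ vs (pre ω n),
        1 / ((k : ℝ) + 1) * nrm v - k ≤ dot ν (toC v)} := by
      intro n
      have : {ν : ℂ | ‖ν‖ = 1 ∧ ∀ v ∈ vs (pre ω n),
        1 / ((k : ℝ) + 1) * nrm v - k ≤ dot ν (toC v)} = {ν : ℂ | ‖ν‖ = 1} ∩
        ⋂ v ∈ vs (pre ω n), {ν : ℂ | 1 / ((k : ℝ) + 1) * nrm v - k ≤ dot ν (toC v)} := by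
        ext; simp
      rw [this]
      refine (isClosed_eq continuous_norm continuous_const).inter
        (isClosed_biInter fun v _ => ?_)
      refine isClosed_le continuous_const ?_
      unfold dot
      fun_prop
    have hne := IsCompact.nonempty_iInter_of_sequence_nonempty_isCompact_isClosed
      (fun n => {ν : ℂ | ‖ν‖ = 1 ∧ ∀ v ∈ vs (pre ω n),
        1 / ((k : ℝ) + 1) * nrm v - k ≤ dot ν (toC v)})
      (fun n ν h => ⟨h.1, fun v hv => h.2 v (Finset.mem_union_left _ hv)⟩)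
      (fun n => hk n) ?_ hcl
    · obtain ⟨ν, hν⟩ := hne
      rw [Set.mem_iInter] at hν
      exact ⟨ν, (hν 0).1, fun n => (hν n).2⟩
    · refine (isCompact_sphere (0 : ℂ) 1).of_isClosed_subset (hcl 0) ?_
      rintro ν ⟨h, _⟩
      simpa using h
  -- the cone
  set c : ℝ := 1 / ((k : ℝ) + 1) with hc
  have hc0 : 0 < c := by rw [hc]; positivity
  have hc1 : c ≤ 1 := by
    rw [hc, div_le_one (by positivity)]
    have : (0 : ℝ) ≤ k := Nat.cast_nonneg k
    linarith
  have hk0 : (0 : ℝ) ≤ k := Nat.cast_nonneg k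
  set L : ℝ := 2 * k with hL
  refine ⟨![-L * ν.re, -L * ν.im], ![ν.re, ν.im], 2 * Real.arccos (c / 2), ?_, ?_, ?_, ?_⟩
  · have := Real.arccos_pos.2 (show c / 2 < 1 by linarith)
    linarith
  · have := Real.arccos_lt_pi_div_two.2 (show 0 < c / 2 by linarith)
    linarith
  · have h1 : ‖ν‖ ^ 2 = 1 := by rw [hν]; norm_num
    rw [Complex.sq_norm, Complex.normSq_apply] at h1
    simp only [Fin.sum_univ_two, Matrix.cons_val_zero, Matrix.cons_val_one]
    nlinarith
  · intro n p hp
    have hpv : p ∈ vs (pre ω (n + 1)) := by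
      refine Finset.mem_union_right _ ?_
      rw [mem_ends]
      exact hp
    have h1 := hνk (n + 1) p hpv
    have h2 : Real.cos (2 * Real.arccos (c / 2) / 2) = c / 2 := by
      rw [mul_div_cancel_left₀ _ (two_ne_zero)]
      exact Real.cos_arccos (by linarith) (by linarith)
    rw [h2]
    have h3 : Real.sqrt (∑ j : Fin 2, ((p j : ℝ) - (![-L * ν.re, -L * ν.im] : Fin 2 → ℝ) j) ^ 2)
        = ‖toC p + (L : ℂ) * ν‖ := by
      rw [Complex.norm_def, Complex.normSq_apply]
      simp only [Fin.sum_univ_two, Matrix.cons_val_zero, Matrix.cons_val_one, toC,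
        AddMonoidHom.coe_mk, ZeroHom.coe_mk, Complex.add_re, Complex.add_im, Complex.mul_re,
        Complex.mul_im, Complex.ofReal_re, Complex.ofReal_im]
      congr 1
      ring
    have h4 : ‖toC p + (L : ℂ) * ν‖ ≤ nrm p + L := by
      refine (norm_add_le _ _).trans ?_
      rw [norm_mul, hν, ← nrm_eq, Complex.norm_real, Real.norm_of_nonneg (by positivity), mul_one]
    have h5 : ∑ j : Fin 2, ((p j : ℝ) - (![-L * ν.re, -L * ν.im] : Fin 2 → ℝ) j) *
        (![ν.re, ν.im] : Fin 2 → ℝ) j = dot ν (toC p) + L := by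
      have h6 : ‖ν‖ ^ 2 = 1 := by rw [hν]; norm_num
      rw [Complex.sq_norm, Complex.normSq_apply] at h6
      simp only [Fin.sum_univ_two, Matrix.cons_val_zero, Matrix.cons_val_one, toC,
        AddMonoidHom.coe_mk, ZeroHom.coe_mk, dot]
      have h7 : L * (ν.re * ν.re + ν.im * ν.im) = L := by rw [h6, mul_one]
      linarith
    rw [h3, h5]
    have h8 : ‖toC p + (L : ℂ) * ν‖ * (c / 2) ≤ (nrm p + L) * (c / 2) :=
      mul_le_mul_of_nonneg_right h4 (by positivity)
    have h9 : L * (c / 2) ≤ L * (1 / 2) := by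
      apply mul_le_mul_of_nonneg_left _ (by positivity)
      linarith
    have h10 := nrm_nonneg p
    nlinarith [mul_nonneg h10 hc0.le]

end ConeE
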