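import Pool.Agent.ConeE.TrapAxis

/-! The four traps and the four gaps (module TRAP). -/

set_option autoImplicit false

namespace ConeE

/-- the embedding multiplied by a unit complex number -/
noncomputable def Trap_emb (ω : ℂ) (ι : V →+ ℂ) : V →+ ℂ where
  toFun x := ω * ι x
  map_zero' := by simp
  map_add' x y := by rw [map_add, mul_add]

theorem Trap_emb_apply (ω : ℂ) (ι : V →+ ℂ) (x : V) : Trap_emb ω ι x = ω * ι x := rfl

theorem Trap_isEmb {ι : V →+ ℂ} (hι : Emb ι) {ω : ℂ} (hω : ‖ω‖ = 1) : Emb (Trap_emb ω ι) where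
  norm_eq x := by rw [Trap_emb_apply, norm_mul, hω, one_mul, hι.norm_eq]
  near z := by
    have h0 : ω ≠ 0 := by
      rintro rfl
      simp at hω
    obtain ⟨x, hx⟩ := hι.near (ω⁻¹ * z)
    refine ⟨x, ?_⟩
    have : Trap_emb ω ι x - z = ω * (ι x - ω⁻¹ * z) := by
      rw [Trap_emb_apply, mul_sub, ← mul_assoc, mul_inv_cancel₀ h0, one_mul]
    rw [this, norm_mul, hω, one_mul]
    exact hx

theorem Trap_lln {ι : V →+ ℂ} {μ : ℂ → ℝ} {ω : ℂ} (hμ : ∀ z, μ (ω * z) = μ z)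
    {E : Edge → ℝ} (h : LLN ι μ E) : LLN (Trap_emb ω ι) μ E := by
  intro ε hε
  obtain ⟨R0, hR⟩ := h ε hε
  refine ⟨R0, fun R hRR x y hx hy => ?_⟩
  have := hR R hRR x y hx hy
  rw [Trap_emb_apply, Trap_emb_apply, ← mul_sub, hμ]
  exact this

theorem Trap_dot_conj (a z : ℂ) : dot ((starRingEnd ℂ) a) z = (a * z).re := by
  simp only [dot, Complex.conj_re, Complex.conj_im, Complex.mul_re]
  ring

/-- the open gap between the axes -/
def Trap_gap (u z : ℂ) : Prop :=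
  0 < z.re ∧ 0 < z.im ∧ u.im * z.re < z.im * u.re ∧ u.im * z.im < z.re * u.re

theorem Trap_norm_le {z : ℂ} (h1 : 0 ≤ z.re) (h2 : 0 ≤ z.im) : ‖z‖ ≤ z.re + z.im := by
  have := Complex.norm_le_abs_re_add_abs_im z
  rwa [abs_of_nonneg h1, abs_of_nonneg h2] at this

/-- one step out of the gap far from the origin leads to one of the two axes sectors -/
theorem Trap_step {u z z' : ℂ} (h0 : 0 < u.re) (h1 : 0 < u.im) (hz : Trap_gap u z)
    (hfar : (u.re + u.im) / u.im < ‖z‖) (hd : ‖z' - z‖ ≤ 1) :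
    Trap_gap u z' ∨ |z'.im| * u.re ≤ u.im * z'.re ∨ |z'.re| * u.re ≤ u.im * z'.im := by
  obtain ⟨g1, g2, g3, g4⟩ := hz
  have hn := Trap_norm_le g1.le g2.le
  have hre := (Complex.abs_re_le_norm (z' - z)).trans hd
  have him := (Complex.abs_im_le_norm (z' - z)).trans hd
  rw [Complex.sub_re, abs_le] at hre
  rw [Complex.sub_im, abs_le] at him
  have hs : 1 < z.re := by
    by_contra hcon
    push Not at hcon
    rw [div_lt_iff₀ h1] at hfar
    nlinarith
  have ht : 1 < z.im := by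
    by_contra hcon
    push Not at hcon
    rw [div_lt_iff₀ h1] at hfar
    nlinarith
  have hs' : 0 < z'.re := by linarith
  have ht' : 0 < z'.im := by linarith
  rw [abs_of_pos hs', abs_of_pos ht']
  by_cases a1 : u.im * z'.re < z'.im * u.re
  · by_cases a2 : u.im * z'.im < z'.re * u.re
    · exact Or.inl ⟨hs', ht', a1, a2⟩
    · exact Or.inr (Or.inr (not_lt.1 a2))
  · exact Or.inr (Or.inl (not_lt.1 a1))

/-- a good walk from the gap ends in the gap or in one of the two larger axes sectors -/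
theorem Trap_walk {ι : V →+ ℂ} (hι : Emb ι) {τ : Edge → ℝ} {u p : ℂ} (h0 : 0 < u.re)
    (h1 : 0 < u.im) {R1 : ℝ} (hR1 : (u.re + u.im) / u.im < R1)
    (hax1 : ∀ v : V, R1 ≤ nrm v → |(ι v).im| * u.re ≤ u.im * (ι v).re →
      ∀ l : List Step, Good τ v l → |(ι (endp v l)).im| * p.re ≤ p.im * (ι (endp v l)).re)
    (hax2 : ∀ v : V, R1 ≤ nrm v → |(ι v).re| * u.re ≤ u.im * (ι v).im →
      ∀ l : List Step, Good τ v l → |(ι (endp v l)).re| * p.re ≤ p.im * (ι (endp v l)).im)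
    (l : List Step) (v : V) (hv : Trap_gap u (ι v)) (hl : Good τ v l)
    (hfar : ∀ l1 l2, l = l1 ++ l2 → R1 ≤ nrm (endp v l1)) :
    Trap_gap u (ι (endp v l)) ∨ |(ι (endp v l)).im| * p.re ≤ p.im * (ι (endp v l)).re ∨
      |(ι (endp v l)).re| * p.re ≤ p.im * (ι (endp v l)).im := by
  induction l generalizing v with
  | nil => exact Or.inl hv
  | cons s l ih =>
    have hl' : Good τ (v + vec s) l := Good.right (l1 := [s]) hl
    have hn0 : R1 ≤ nrm v := hfar [] (s :: l) rfl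
    have hn1 : R1 ≤ nrm (v + vec s) := hfar [s] l rfl
    have hd : ‖ι (v + vec s) - ι v‖ ≤ 1 := by
      rw [hι.sub_eq, add_sub_cancel_left, nrm_vec]
    rcases Trap_step h0 h1 hv (by rw [hι.norm_eq]; linarith) hd with h | h | h
    · exact ih (v + vec s) h hl' (fun l1 l2 h2 => hfar (s :: l1) l2 (by rw [h2]; rfl))
    · exact Or.inr (Or.inl (hax1 _ hn1 h l hl'))
    · exact Or.inr (Or.inr (hax2 _ hn1 h l hl'))

theorem Trap_axis_le {p z : ℂ} (hpre : 0 < p.re) (hpim : 0 < p.im) (hlt : p.im < p.re)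
    (hz : |z.im| * p.re ≤ p.im * z.re) : ‖z‖ ≤ 2 * z.re ∧ |z.im| ≤ p.im / p.re * z.re := by
  have hq1 : p.im / p.re < 1 := (div_lt_one hpre).2 hlt
  have h4 : |z.im| ≤ p.im / p.re * z.re := by
    rw [div_mul_eq_mul_div, le_div_iff₀ hpre]
    exact hz
  have h5 : 0 ≤ z.re := by
    by_contra hcon
    push Not at hcon
    have := abs_nonneg z.im
    nlinarith
  refine ⟨?_, h4⟩
  have h6 := Complex.norm_le_abs_re_add_abs_im z
  rw [abs_of_nonneg h5] at h6
  nlinarith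

/-- the bisector of the first quadrant -/
noncomputable def Trap_zeta : ℂ := ⟨1 / Real.sqrt 2, -(1 / Real.sqrt 2)⟩

theorem Trap_zeta_norm : ‖Trap_zeta‖ = 1 := by
  have hs : (0 : ℝ) < Real.sqrt 2 := Real.sqrt_pos.2 (by norm_num)
  have hs2 : Real.sqrt 2 * Real.sqrt 2 = 2 := Real.mul_self_sqrt (by norm_num)
  have : Complex.normSq Trap_zeta = 1 := by
    rw [Complex.normSq_apply]
    unfold Trap_zeta
    simp only
    have h1 : 1 / Real.sqrt 2 * (1 / Real.sqrt 2) = 1 / 2 := by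
      rw [div_mul_div_comm, hs2, one_mul]
    have h2 : -(1 / Real.sqrt 2) * -(1 / Real.sqrt 2) = 1 / 2 := by
      rw [neg_mul_neg, h1]
    rw [h1, h2]
    norm_num
  rw [Complex.norm_def, this, Real.sqrt_one]

theorem Trap_zeta_mul (z : ℂ) : (Trap_zeta * z).re = (z.re + z.im) / Real.sqrt 2 := by
  rw [Complex.mul_re]
  unfold Trap_zeta
  simp only
  ring

theorem Trap_final {u p z : ℂ} (hpre : 0 < p.re) (hpim : 0 < p.im) (hlt : p.im < p.re)
    (h : Trap_gap u z ∨ |z.im| * p.re ≤ p.im * z.re ∨ |z.re| * p.re ≤ p.im * z.im) :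
    (1 - p.im / p.re) / 3 * ‖z‖ ≤ (z.re + z.im) / Real.sqrt 2 := by
  have hq : 0 < p.im / p.re := div_pos hpim hpre
  have hq1 : p.im / p.re < 1 := (div_lt_one hpre).2 hlt
  have hs : (0 : ℝ) < Real.sqrt 2 := Real.sqrt_pos.2 (by norm_num)
  have hs3 : Real.sqrt 2 ≤ 3 / 2 := by
    rw [show (3 / 2 : ℝ) = Real.sqrt ((3 / 2) ^ 2) from (Real.sqrt_sq (by norm_num)).symm]
    exact Real.sqrt_le_sqrt (by norm_num)
  have hn := norm_nonneg z
  rw [le_div_iff₀ hs]
  have h1 : (1 - p.im / p.re) / 3 * ‖z‖ * Real.sqrt 2 ≤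
      (1 - p.im / p.re) / 3 * ‖z‖ * (3 / 2) :=
    mul_le_mul_of_nonneg_left hs3 (mul_nonneg (by linarith) hn)
  refine h1.trans ?_
  rcases h with h | h | h
  · have h6 := Trap_norm_le h.1.le h.2.1.le
    nlinarith
  · obtain ⟨h2, h3⟩ := Trap_axis_le hpre hpim hlt h
    have h4 := neg_abs_le z.im
    have h5 : (1 - p.im / p.re) * ‖z‖ ≤ (1 - p.im / p.re) * (2 * z.re) :=
      mul_le_mul_of_nonneg_left h2 (by linarith)
    nlinarith
  · have h' : |(⟨z.im, z.re⟩ : ℂ).im| * p.re ≤ p.im * (⟨z.im, z.re⟩ : ℂ).re := h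
    obtain ⟨h2, h3⟩ := Trap_axis_le hpre hpim hlt h'
    have h6 : ‖(⟨z.im, z.re⟩ : ℂ)‖ = ‖z‖ := by
      rw [Complex.norm_def, Complex.norm_def, Complex.normSq_apply, Complex.normSq_apply]
      simp only
      rw [add_comm]
    rw [h6] at h2
    simp only at h2 h3
    have h4 := neg_abs_le z.re
    have h5 : (1 - p.im / p.re) * ‖z‖ ≤ (1 - p.im / p.re) * (2 * z.im) :=
      mul_le_mul_of_nonneg_left h2 (by linarith)
    nlinarith

/-- the geometric part: traps and gap for the embedding `ι` -/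
theorem Trap_geom {ι : V →+ ℂ} (hι : Emb ι) {τ : Edge → ℝ} (hτ : ∀ e, 0 ≤ τ e) {u p : ℂ}
    (h0 : 0 < u.re) (h1 : 0 < u.im) (hpre : 0 < p.re) (hpim : 0 < p.im) (hlt : p.im < p.re)
    {R1 : ℝ} (hR1 : (u.re + u.im) / u.im < R1)
    (hax1 : ∀ v : V, R1 ≤ nrm v → |(ι v).im| * u.re ≤ u.im * (ι v).re →
      ∀ l : List Step, Good τ v l → |(ι (endp v l)).im| * p.re ≤ p.im * (ι (endp v l)).re)
    (hax2 : ∀ v : V, R1 ≤ nrm v → |(ι v).re| * u.re ≤ u.im * (ι v).im →
      ∀ l : List Step, Good τ v l → |(ι (endp v l)).re| * p.re ≤ p.im * (ι (endp v l)).im)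
    {w : V} (hw : R1 ≤ nrm w) (hfar : ∀ l, Good τ w l → R1 ≤ nrm (endp w l))
    (hre : 0 < (ι w).re) (him : 0 ≤ (ι w).im) :
    ∃ ν : ℂ, ‖ν‖ = 1 ∧ ∀ l : List Step, Good τ w l →
      (1 - p.im / p.re) / 3 * nrm (endp w l) ≤ (ν * ι (endp w l)).re := by
  have hq : 0 < p.im / p.re := div_pos hpim hpre
  have hq1 : p.im / p.re < 1 := (div_lt_one hpre).2 hlt
  by_cases k1 : |(ι w).im| * u.re ≤ u.im * (ι w).re
  · refine ⟨1, norm_one, fun l hl => ?_⟩
    have h4 := (Trap_axis_le hpre hpim hlt (hax1 w hw k1 l hl)).1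
    have h5 := norm_nonneg (ι (endp w l))
    rw [one_mul, ← hι.norm_eq]
    nlinarith
  by_cases k2 : |(ι w).re| * u.re ≤ u.im * (ι w).im
  · refine ⟨-Complex.I, by rw [norm_neg, Complex.norm_I], fun l hl => ?_⟩
    have h3 : |(⟨(ι (endp w l)).im, (ι (endp w l)).re⟩ : ℂ).im| * p.re ≤
      p.im * (⟨(ι (endp w l)).im, (ι (endp w l)).re⟩ : ℂ).re := hax2 w hw k2 l hl
    have h4 := (Trap_axis_le hpre hpim hlt h3).1
    have h6 : ‖(⟨(ι (endp w l)).im, (ι (endp w l)).re⟩ : ℂ)‖ = ‖ι (endp w l)‖ := by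
      rw [Complex.norm_def, Complex.norm_def, Complex.normSq_apply, Complex.normSq_apply]
      simp only
      rw [add_comm]
    rw [h6] at h4
    simp only at h4
    have h5 := norm_nonneg (ι (endp w l))
    have h7 : (-Complex.I * ι (endp w l)).re = (ι (endp w l)).im := by simp
    rw [h7, ← hι.norm_eq]
    nlinarith
  · push Not at k1 k2
    have him' : 0 < (ι w).im := by
      rcases him.lt_or_eq with h | h
      · exact h
      · rw [← h, abs_zero, zero_mul] at k1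
        have := mul_pos h1 hre
        linarith
    rw [abs_of_pos him'] at k1
    rw [abs_of_pos hre] at k2
    have hgap : Trap_gap u (ι w) := ⟨hre, him', k1, k2⟩
    refine ⟨Trap_zeta, Trap_zeta_norm, fun l hl => ?_⟩
    have h5 := Trap_walk hι (τ := τ) (p := p) h0 h1 hR1 hax1 hax2 l w hgap hl
      (fun l1 l2 h12 => hfar l1 (Good.left hτ (l2 := l2) (h12 ▸ hl)))
    rw [Trap_zeta_mul, ← hι.norm_eq]
    exact Trap_final hpre hpim hlt h5

theorem Trap_quad {ι : V →+ ℂ} (hι : Emb ι) {μ : ℂ → ℝ} {a b : ℝ} (hμ : Nrm μ a b)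
    {u p x : ℂ} (hu : ‖u‖ = 1) (hp : ∀ z, dot p z ≤ μ z) (hx : dot x u = 1)
    (hA : μ x < dot p u) (h0 : 0 < u.re) (h1 : 0 < u.im)
    (h2 : u.im * p.re < p.im * u.re) (h3 : p.im < p.re) {ω : ℂ} (hω : ‖ω‖ = 1)
    (hμω : ∀ z, μ (ω * z) = μ z) :
    ∃ α0 : ℝ, ∀ α : ℝ, α0 < α → ∀ E : Edge → ℝ, (∀ e, 0 ≤ E e) → LLN ι μ E →
      ∃ R0 : ℝ, ∀ w : V, R0 ≤ nrm w → 0 < (ω * ι w).re → 0 ≤ (ω * ι w).im →
      ∃ ν : ℂ, ‖ν‖ = 1 ∧
      ∀ l : List Step, Good (tau α E) w l →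
        (1 - p.im / p.re) / 3 * nrm (endp w l) ≤ dot ν (ι (endp w l)) := by
  have hω' : ‖-Complex.I * ω‖ = 1 := by rw [norm_mul, norm_neg, Complex.norm_I, hω, one_mul]
  have hμω' : ∀ z, μ (-Complex.I * ω * z) = μ z := by
    intro z
    rw [mul_assoc, neg_mul, hμ.neg, hμ.symI, hμω]
  obtain ⟨α1, H1⟩ := trap_axis (Trap_isEmb hι hω) hμ hu hp hx hA h0 h1 h2 h3
  obtain ⟨α2, H2⟩ := trap_axis (Trap_isEmb hι hω') hμ hu hp hx hA h0 h1 h2 h3
  obtain ⟨K, hK, H3⟩ := inward hι hμ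
  have hpim : 0 < p.im := by
    by_contra hcon
    push Not at hcon
    by_cases h5 : 0 ≤ p.re
    · nlinarith
    · push Not at h5
      have h7 := hμ.nonneg x
      unfold dot at hA
      nlinarith
  have hpre : 0 < p.re := hpim.trans h3
  refine ⟨max (max α1 α2) (max 2 (2 * K + 1)), fun α hα E hE hL => ?_⟩
  have ha1 : α1 < α := ((le_max_left _ _).trans (le_max_left _ _)).trans_lt hα
  have ha2 : α2 < α := ((le_max_right _ _).trans (le_max_left _ _)).trans_lt hα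
  have ha3 : 2 < α := ((le_max_left _ _).trans (le_max_right _ _)).trans_lt hα
  have ha4 : 2 * K + 1 < α := ((le_max_right _ _).trans (le_max_right _ _)).trans_lt hα
  obtain ⟨R1, G1⟩ := H1 α ha1 E hE (Trap_lln hμω hL)
  obtain ⟨R2, G2⟩ := H2 α ha2 E hE (Trap_lln hμω' hL)
  obtain ⟨R3, G3⟩ := H3 α ha3.le E hE hL
  have e2 : ∀ v : V, (Trap_emb (-Complex.I * ω) ι v).re = (Trap_emb ω ι v).im ∧
      (Trap_emb (-Complex.I * ω) ι v).im = -(Trap_emb ω ι v).re := by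
    intro v
    rw [Trap_emb_apply, mul_assoc, Trap_emb_apply]
    constructor
    · rw [neg_mul, Complex.neg_re, Complex.I_mul_re, neg_neg]
    · rw [neg_mul, Complex.neg_im, Complex.I_mul_im]
  set R4 : ℝ := max (max R1 R2) ((u.re + u.im) / u.im + 1) with hR4
  have hR4a : R1 ≤ R4 := (le_max_left _ _).trans (le_max_left _ _)
  have hR4b : R2 ≤ R4 := (le_max_right _ _).trans (le_max_left _ _)
  have hR4c : (u.re + u.im) / u.im < R4 := by
    have := le_max_right (max R1 R2) ((u.re + u.im) / u.im + 1)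
    linarith
  have hR4d : 0 < R4 := (div_pos (by linarith) h1).trans hR4c
  refine ⟨max R3 (2 * R4), fun w hw hre him => ?_⟩
  have hw3 : R3 ≤ nrm w := (le_max_left _ _).trans hw
  have hw4 : 2 * R4 ≤ nrm w := (le_max_right _ _).trans hw
  have hfar : ∀ l, Good (tau α E) w l → R4 ≤ nrm (endp w l) := by
    intro l hl
    have h5 := G3 w hw3 l hl.wt_lt
    have h6 : K / (α - 1) ≤ 1 / 2 := by
      rw [div_le_iff₀ (by linarith)]
      linarith
    have h7 : (1 / 2 : ℝ) * nrm w ≤ (1 - K / (α - 1)) * nrm w :=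
      mul_le_mul_of_nonneg_right (by linarith) (nrm_nonneg w)
    linarith
  obtain ⟨ν, hν, H⟩ := Trap_geom (Trap_isEmb hι hω) (fun e => tau_nonneg hE e) h0 h1 hpre hpim h3
    hR4c (fun v hv k l hl => G1 v (hR4a.trans hv) k l hl)
    (fun v hv k l hl => by
      have h6 := G2 v (hR4b.trans hv) (by rw [(e2 v).1, (e2 v).2, abs_neg]; exact k) l hl
      rw [(e2 _).1, (e2 _).2, abs_neg] at h6
      exact h6) (w := w) (by linarith) hfar hre him
  refine ⟨(starRingEnd ℂ) (ν * ω), by rw [Complex.norm_conj, norm_mul, hν, hω, one_mul],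
    fun l hl => ?_⟩
  rw [Trap_dot_conj, mul_assoc]
  exact H l hl

theorem trapped_of_data {ι : V →+ ℂ} (hι : Emb ι) {μ : ℂ → ℝ} {a b : ℝ} (hμ : Nrm μ a b)
    {u p x : ℂ} (hu : ‖u‖ = 1) (hp : ∀ z, dot p z ≤ μ z) (hx : dot x u = 1)
    (hA : μ x < dot p u) (h0 : 0 < u.re) (h1 : 0 < u.im)
    (h2 : u.im * p.re < p.im * u.re) (h3 : p.im < p.re) :
    ∃ c : ℝ, 0 < c ∧ ∃ α0 : ℝ, ∀ α : ℝ, α0 < α → ∀ E : Edge → ℝ, (∀ e, 0 ≤ E e) →
      LLN ι μ E → Trapped ι (tau α E) c := by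
  have hpim : 0 < p.im := by
    by_contra hcon
    push Not at hcon
    by_cases h5 : 0 ≤ p.re
    · nlinarith
    · push Not at h5
      have h7 := hμ.nonneg x
      unfold dot at hA
      nlinarith
  have hpre : 0 < p.re := hpim.trans h3
  have hq1 : p.im / p.re < 1 := (div_lt_one hpre).2 h3
  have hn : ∀ z, μ (-z) = μ z := hμ.neg
  obtain ⟨α1, H1⟩ := Trap_quad hι hμ hu hp hx hA h0 h1 h2 h3 (ω := 1) norm_one
    (fun z => by rw [one_mul])
  obtain ⟨α2, H2⟩ := Trap_quad hι hμ hu hp hx hA h0 h1 h2 h3 (ω := Complex.I) Complex.norm_I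
    (fun z => hμ.symI z)
  obtain ⟨α3, H3⟩ := Trap_quad hι hμ hu hp hx hA h0 h1 h2 h3 (ω := -1)
    (by rw [norm_neg, norm_one]) (fun z => by rw [neg_one_mul, hn])
  obtain ⟨α4, H4⟩ := Trap_quad hι hμ hu hp hx hA h0 h1 h2 h3 (ω := -Complex.I)
    (by rw [norm_neg, Complex.norm_I]) (fun z => by rw [neg_mul, hn, hμ.symI])
  refine ⟨(1 - p.im / p.re) / 3, by linarith, max (max α1 α2) (max α3 α4),
    fun α hα E hE hL => ?_⟩
  obtain ⟨R1, G1⟩ := H1 α (((le_max_left _ _).trans (le_max_left _ _)).trans_lt hα) E hE hL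
  obtain ⟨R2, G2⟩ := H2 α (((le_max_right _ _).trans (le_max_left _ _)).trans_lt hα) E hE hL
  obtain ⟨R3, G3⟩ := H3 α (((le_max_left _ _).trans (le_max_right _ _)).trans_lt hα) E hE hL
  obtain ⟨R4, G4⟩ := H4 α (((le_max_right _ _).trans (le_max_right _ _)).trans_lt hα) E hE hL
  refine ⟨max (max (max R1 R2) (max R3 R4)) 1, fun w hw => ?_⟩
  have k1 : R1 ≤ nrm w := (((le_max_left _ _).trans (le_max_left _ _)).trans
    (le_max_left _ _)).trans hw
  have k2 : R2 ≤ nrm w := (((le_max_right _ _).trans (le_max_left _ _)).trans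
    (le_max_left _ _)).trans hw
  have k3 : R3 ≤ nrm w := (((le_max_left _ _).trans (le_max_right _ _)).trans
    (le_max_left _ _)).trans hw
  have k4 : R4 ≤ nrm w := (((le_max_right _ _).trans (le_max_right _ _)).trans
    (le_max_left _ _)).trans hw
  have k5 : (1 : ℝ) ≤ nrm w := (le_max_right _ _).trans hw
  have hne : ι w ≠ 0 := by
    intro h
    rw [← hι.norm_eq, h, norm_zero] at k5
    linarith
  have e1 : ((1 : ℂ) * ι w).re = (ι w).re ∧ ((1 : ℂ) * ι w).im = (ι w).im := by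
    rw [one_mul]; exact ⟨rfl, rfl⟩
  have e2 : (Complex.I * ι w).re = -(ι w).im ∧ (Complex.I * ι w).im = (ι w).re := by
    rw [Complex.I_mul_re, Complex.I_mul_im]; exact ⟨rfl, rfl⟩
  have e3 : ((-1 : ℂ) * ι w).re = -(ι w).re ∧ ((-1 : ℂ) * ι w).im = -(ι w).im := by
    rw [neg_one_mul]; exact ⟨rfl, rfl⟩
  have e4 : (-Complex.I * ι w).re = (ι w).im ∧ (-Complex.I * ι w).im = -(ι w).re := by
    rw [neg_mul, Complex.neg_re, Complex.neg_im, Complex.I_mul_re, Complex.I_mul_im, neg_neg]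
    exact ⟨rfl, rfl⟩
  -- the four half open quadrants
  rcases lt_trichotomy (ι w).re 0 with a1 | a1 | a1
  · rcases lt_or_ge 0 (ι w).im with a2 | a2
    · exact G4 w k4 (by rw [e4.1]; exact a2) (by rw [e4.2]; linarith)
    · exact G3 w k3 (by rw [e3.1]; linarith) (by rw [e3.2]; linarith)
  · rcases lt_trichotomy (ι w).im 0 with a2 | a2 | a2
    · exact G2 w k2 (by rw [e2.1]; linarith) (by rw [e2.2]; linarith)
    · exact absurd (Complex.ext a1 a2) hne
    · exact G4 w k4 (by rw [e4.1]; exact a2) (by rw [e4.2]; linarith)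
  · rcases lt_or_ge (ι w).im 0 with a2 | a2
    · exact G2 w k2 (by rw [e2.1]; linarith) (by rw [e2.2]; linarith)
    · exact G1 w k1 (by rw [e1.1]; exact a1) (by rw [e1.2]; exact a2)

end ConeE
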