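import Pool.Agent.ConeE.Barrier

/-! Good walks starting near the horizontal half axis stay near it (module TRAP0). -/

set_option autoImplicit false

namespace ConeE

/-- last visit of a walk to a set containing its start -/
theorem trap0_last (P : V → Prop) (x : V) (l : List Step) (hx : P x) :
    ∃ l1 l2, l = l1 ++ l2 ∧ P (endp x l1) ∧
      ∀ l3 l4, l2 = l3 ++ l4 → l3 ≠ [] → ¬ P (endp (endp x l1) l3) := by
  classical
  induction l generalizing x with
  | nil =>
    refine ⟨[], [], rfl, hx, ?_⟩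
    intro l3 l4 h34 h3
    have := List.append_eq_nil_iff.mp h34.symm
    exact absurd this.1 h3
  | cons s l ih =>
    by_cases h : ∃ l1 l2, l = l1 ++ l2 ∧ P (endp (x + vec s) l1)
    · obtain ⟨l1, l2, h12, hP⟩ := h
      -- induction on the remaining walk from a visited vertex
      by_cases hs : P (x + vec s)
      · obtain ⟨l5, l6, h56, hP5, hlast⟩ := ih (x + vec s) hs
        exact ⟨s :: l5, l6, by rw [h56]; rfl, hP5, hlast⟩
      · -- use the induction hypothesis in the form of strong induction on the suffix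
        clear ih
        have key : ∀ n : ℕ, ∀ l1 l2 : List Step, l2.length ≤ n → l = l1 ++ l2 →
            P (endp (x + vec s) l1) → ∃ l5 l6, l = l5 ++ l6 ∧ P (endp (x + vec s) l5) ∧
              ∀ l3 l4, l6 = l3 ++ l4 → l3 ≠ [] → ¬ P (endp (endp (x + vec s) l5) l3) := by
          intro n
          induction n with
          | zero =>
            intro l1 l2 hl hl12 hP1
            have : l2 = [] := List.length_eq_zero_iff.mp (by omega)
            subst this
            refine ⟨l1, [], hl12, hP1, ?_⟩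
            intro l3 l4 h34 h3
            have := List.append_eq_nil_iff.mp h34.symm
            exact absurd this.1 h3
          | succ n ihn =>
            intro l1 l2 hl hl12 hP1
            by_cases hm : ∀ l3 l4, l2 = l3 ++ l4 → l3 ≠ [] →
                ¬ P (endp (endp (x + vec s) l1) l3)
            · exact ⟨l1, l2, hl12, hP1, hm⟩
            · push Not at hm
              obtain ⟨l3, l4, h34, h3, hP3⟩ := hm
              apply ihn (l1 ++ l3) l4
              · have := List.length_pos_of_ne_nil h3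
                rw [h34, List.length_append] at hl
                omega
              · rw [hl12, h34, List.append_assoc]
              · rw [endp_append]; exact hP3
        obtain ⟨l5, l6, h56, hP5, hlast⟩ := key l2.length l1 l2 le_rfl h12 hP
        exact ⟨s :: l5, l6, by rw [h56]; rfl, hP5, hlast⟩
    · push Not at h
      refine ⟨[], s :: l, rfl, hx, ?_⟩
      intro l3 l4 h34 h3
      cases l3 with
      | nil => exact absurd rfl h3
      | cons s' l3 =>
        simp only [List.cons_append, List.cons.injEq] at h34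
        have := h l3 l4 h34.2
        rw [← h34.1]
        exact this

/-! geometry of the plane -/

theorem trap0_sector {u p z : ℂ} (hu : ‖u‖ = 1) (hA : dot p u ≤ ‖p‖) (hA0 : 0 ≤ dot p u)
    (hD : u.im * p.re < p.im * u.re) (h1 : u.im * z.re ≤ z.im * u.re)
    (h2 : z.im * p.re ≤ p.im * z.re) : dot p u * ‖z‖ ≤ dot p z := by
  have hD' : 0 < p.im * u.re - u.im * p.re := by linarith
  obtain ⟨s, hs, hsD⟩ : ∃ s : ℝ, 0 ≤ s ∧ s * (p.im * u.re - u.im * p.re) =
      p.im * z.re - z.im * p.re :=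
    ⟨(p.im * z.re - z.im * p.re) / (p.im * u.re - u.im * p.re),
      div_nonneg (by linarith) hD'.le, div_mul_cancel₀ _ hD'.ne'⟩
  obtain ⟨t, ht, htD⟩ : ∃ t : ℝ, 0 ≤ t ∧ t * (p.im * u.re - u.im * p.re) =
      z.im * u.re - u.im * z.re :=
    ⟨(z.im * u.re - u.im * z.re) / (p.im * u.re - u.im * p.re),
      div_nonneg (by linarith) hD'.le, div_mul_cancel₀ _ hD'.ne'⟩
  have hz : z = (s : ℂ) * u + (t : ℂ) * p := by
    apply Complex.ext
    · have h3 : (s * u.re + t * p.re) * (p.im * u.re - u.im * p.re) =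
          z.re * (p.im * u.re - u.im * p.re) := by
        linear_combination u.re * hsD + p.re * htD
      have := mul_right_cancel₀ hD'.ne' h3
      simp [this]
    · have h3 : (s * u.im + t * p.im) * (p.im * u.re - u.im * p.re) =
          z.im * (p.im * u.re - u.im * p.re) := by
        linear_combination u.im * hsD + p.im * htD
      have := mul_right_cancel₀ hD'.ne' h3
      simp [this]
  have hn : ‖z‖ ≤ s + t * ‖p‖ := by
    rw [hz]
    refine (norm_add_le _ _).trans ?_
    rw [norm_mul, norm_mul, hu, Complex.norm_real, Complex.norm_real, Real.norm_eq_abs,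
      Real.norm_eq_abs, abs_of_nonneg hs, abs_of_nonneg ht, mul_one]
  have hd : dot p z = s * dot p u + t * ‖p‖ ^ 2 := by
    rw [hz, dot_add, dot_mul, dot_mul, dot_self]
  have h3 : dot p u * ‖z‖ ≤ dot p u * (s + t * ‖p‖) := mul_le_mul_of_nonneg_left hn hA0
  have h4 : t * ‖p‖ * dot p u ≤ t * ‖p‖ * ‖p‖ :=
    mul_le_mul_of_nonneg_left hA (mul_nonneg ht (norm_nonneg _))
  rw [hd]
  nlinarith

theorem trap0_cross_le (u z : ℂ) : |z.im * u.re - u.im * z.re| ≤ ‖u‖ * ‖z‖ := by
  have h1 := dot_self u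
  have h2 := dot_self z
  unfold dot at h1 h2
  apply abs_le_of_sq_le_sq _ (mul_nonneg (norm_nonneg _) (norm_nonneg _))
  have h3 : (‖u‖ * ‖z‖) ^ 2 = ‖u‖ ^ 2 * ‖z‖ ^ 2 := by ring
  rw [h3, ← h1, ← h2]
  nlinarith [sq_nonneg (z.re * u.re + z.im * u.im)]

theorem trap0_pyth (p z : ℂ) : dot p z ^ 2 + (z.im * p.re - p.im * z.re) ^ 2 =
    ‖p‖ ^ 2 * ‖z‖ ^ 2 := by
  have h1 := dot_self p
  have h2 := dot_self z
  unfold dot at h1 h2
  rw [← h1, ← h2]
  unfold dot
  ring

theorem trap0_start {u y : ℂ} (hu : ‖u‖ = 1) (h0 : 0 ≤ dot u y)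
    (hc : |y.im * u.re - u.im * y.re| ≤ 1) : ‖y - (‖y‖ : ℂ) * u‖ ≤ 2 := by
  have h1 := trap0_pyth u y
  rw [hu] at h1
  have hc2 : (y.im * u.re - u.im * y.re) ^ 2 ≤ 1 := by
    have := abs_le.mp hc
    nlinarith
  have h2 : ‖y - (‖y‖ : ℂ) * u‖ ^ 2 = 2 * ‖y‖ ^ 2 - 2 * ‖y‖ * dot u y := by
    have e1 := dot_self y
    have e2 := dot_self u
    rw [hu] at e2
    have e3 := dot_self (y - (‖y‖ : ℂ) * u)
    rw [← e3, dot_sub, dot_comm (y - (‖y‖ : ℂ) * u) y,
      dot_comm (y - (‖y‖ : ℂ) * u) ((‖y‖ : ℂ) * u), dot_sub, dot_sub, dot_mul,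
      dot_comm ((‖y‖ : ℂ) * u) y, dot_mul, dot_comm ((‖y‖ : ℂ) * u) ((‖y‖ : ℂ) * u), dot_mul,
      dot_comm ((‖y‖ : ℂ) * u) u, dot_mul, e1, e2, dot_comm y u]
    ring
  have hyn := norm_nonneg y
  have h3 : dot u y ≤ ‖y‖ := by
    have := (abs_le.mp (abs_dot_le u y)).2
    rw [hu, one_mul] at this
    exact this
  have h4 : ‖y - (‖y‖ : ℂ) * u‖ ^ 2 ≤ 2 ^ 2 := by
    rw [h2]
    have h5 : dot u y * dot u y ≤ ‖y‖ * dot u y := mul_le_mul_of_nonneg_right h3 h0
    linarith
  exact (sq_le_sq₀ (norm_nonneg _) (by norm_num)).mp h4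

theorem trap0_final {p z : ℂ} (h0 : 0 ≤ dot p z) (hn : 1 ≤ ‖z‖)
    (hc : |z.im * p.re - p.im * z.re| ≤ ‖p‖) : ‖p‖ * (‖z‖ - 1) ≤ dot p z := by
  have h1 := trap0_pyth p z
  have hp := norm_nonneg p
  have hc2 : (z.im * p.re - p.im * z.re) ^ 2 ≤ ‖p‖ ^ 2 := by
    rw [← sq_abs]
    exact pow_le_pow_left₀ (abs_nonneg _) hc 2
  have h2 : (‖p‖ * (‖z‖ - 1)) ^ 2 ≤ dot p z ^ 2 := by
    have h3 : 0 ≤ ‖p‖ ^ 2 * (‖z‖ - 1) := mul_nonneg (sq_nonneg _) (by linarith)
    nlinarith
  exact (sq_le_sq₀ (mul_nonneg hp (by linarith)) h0).mp h2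

theorem trap0_norm_le (z : ℂ) : ‖z‖ ≤ |z.re| + |z.im| := Complex.norm_le_abs_re_add_abs_im z

/-- the main case: the walk leaves the trap through the upper side -/
theorem trap0_upper {ι : V →+ ℂ} (hι : Emb ι) {μ : ℂ → ℝ} {a b : ℝ} (hμ : Nrm μ a b)
    {u p x : ℂ} (hu : ‖u‖ = 1) (hp : ∀ z, dot p z ≤ μ z) (hx : dot x u = 1)
    (hA : μ x < dot p u) (h0 : 0 < u.re) (h1 : 0 < u.im)
    (h2 : u.im * p.re < p.im * u.re) (h3 : p.im < p.re) :
    ∃ α0 : ℝ, ∀ α : ℝ, α0 < α → ∀ E : Edge → ℝ, (∀ e, 0 ≤ E e) → LLN ι μ E →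
      ∃ R0 : ℝ, ∀ v : V, R0 ≤ nrm v → |(ι v).im| * u.re ≤ u.im * (ι v).re →
        ∀ l : List Step, Good (tau α E) v l →
          (∀ l3 l4, l = l3 ++ l4 → l4 ≠ [] →
            |(ι (endp v l3)).im| * p.re ≤ p.im * (ι (endp v l3)).re) →
          0 ≤ (ι (endp v l)).im →
          |(ι (endp v l)).im| * p.re ≤ p.im * (ι (endp v l)).re := by
  have ha := hμ.pos
  have hAB := bar_lt_norm hu hp hx hA
  have hA0 : 0 < dot p u := lt_of_le_of_lt (hμ.nonneg x) hA
  have hpre : 0 < p.re := by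
    by_contra hcon
    push Not at hcon
    have e1 : dot p u = p.re * u.re + p.im * u.im := rfl
    have e2 : p.re * u.re ≤ 0 := mul_nonpos_of_nonpos_of_nonneg hcon h0.le
    have e3 : p.im * u.im ≤ 0 := mul_nonpos_of_nonpos_of_nonneg (by linarith) h1.le
    linarith
  have hpim : 0 < p.im := by
    have e1 : 0 < u.im * p.re := mul_pos h1 hpre
    have e2 : 0 < p.im * u.re := by linarith
    exact (pos_iff_pos_of_mul_pos e2).mpr h0
  have huu : u.im < u.re := by
    have e1 : p.im * u.re < p.re * u.re := mul_lt_mul_of_pos_right h3 h0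
    have e2 : u.im * p.re < u.re * p.re := by linarith
    exact lt_of_mul_lt_mul_right e2 hpre.le
  set D := p.im * u.re - u.im * p.re with hD
  have hDpos : 0 < D := by rw [hD]; linarith
  obtain ⟨K, hK, hin⟩ := inward hι hμ
  obtain ⟨α1, hα1⟩ := barrier hι hμ hu hp hx hA (2 + 2 * ‖p‖)
  refine ⟨max α1 (max 2 (1 + 2 * K)), ?_⟩
  intro α hα E hE hL
  have hαα1 : α1 < α := (le_max_left _ _).trans_lt hα
  have hα2 : 2 ≤ α := ((le_max_left _ _).trans ((le_max_right _ _).trans hα.le))
  have hαK : 1 + 2 * K ≤ α := ((le_max_right _ _).trans ((le_max_right _ _).trans hα.le))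
  have hτ : ∀ e, 0 ≤ tau α E e := fun e => tau_nonneg hE e
  obtain ⟨R1, hR1⟩ := hin α hα2 E hE hL
  obtain ⟨R2, hR2⟩ := hα1 α hαα1 E hE hL
  have hBA : 0 < ‖p‖ - dot p u := by linarith
  refine ⟨max (max R1 (2 * R2)) (max (max 2 (2 * (2 * (u.re * (p.re + p.im)) / D)))
    (max (2 * ((u.re + u.im) / u.im) + 1) (2 * (2 * ‖p‖ / (‖p‖ - dot p u)) + 1))), ?_⟩
  intro v hv hvKa l hl hpref him
  have hvR1 : R1 ≤ nrm v := (le_max_left _ _).trans ((le_max_left _ _).trans hv)
  have hvR2 : 2 * R2 ≤ nrm v := (le_max_right _ _).trans ((le_max_left _ _).trans hv)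
  have hv2 : 2 ≤ nrm v :=
    (le_max_left _ _).trans ((le_max_left _ _).trans ((le_max_right _ _).trans hv))
  have hvD : 2 * (2 * (u.re * (p.re + p.im)) / D) ≤ nrm v :=
    (le_max_right _ _).trans ((le_max_left _ _).trans ((le_max_right _ _).trans hv))
  have hvI : 2 * ((u.re + u.im) / u.im) + 1 ≤ nrm v :=
    (le_max_left _ _).trans ((le_max_right _ _).trans ((le_max_right _ _).trans hv))
  have hvP : 2 * (2 * ‖p‖ / (‖p‖ - dot p u)) + 1 ≤ nrm v :=
    (le_max_right _ _).trans ((le_max_right _ _).trans ((le_max_right _ _).trans hv))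
  -- all the vertices are far away
  have hKβ : K / (α - 1) ≤ 1 / 2 := by
    rw [div_le_iff₀ (by linarith)]; linarith
  have hfar : ∀ l1 l2, l = l1 ++ l2 → nrm v / 2 ≤ nrm (endp v l1) := by
    intro l1 l2 h12
    rw [h12] at hl
    have e1 := hR1 v hvR1 l1 (Good.left hτ hl).wt_lt
    have e2 : 0 ≤ (1 / 2 - K / (α - 1)) * nrm v := mul_nonneg (by linarith) (nrm_nonneg _)
    linarith
  by_contra hcon
  -- points of the small cone
  have hsmall : ∀ w : V, |(ι w).im| * u.re ≤ u.im * (ι w).re →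
      0 ≤ (ι w).re ∧ nrm w ≤ 2 * (ι w).re := by
    intro w hw
    have e0 : 0 ≤ u.im * (ι w).re :=
      le_trans (mul_nonneg (abs_nonneg _) h0.le) hw
    have e1 : 0 ≤ (ι w).re := by
      by_contra hc
      push Not at hc
      have := mul_neg_of_pos_of_neg h1 hc
      linarith
    refine ⟨e1, ?_⟩
    rw [← hι.norm_eq]
    refine (trap0_norm_le _).trans ?_
    rw [abs_of_nonneg e1]
    have e2 : |(ι w).im| * u.re ≤ (ι w).re * u.re :=
      hw.trans (by nlinarith)
    have e3 : |(ι w).im| ≤ (ι w).re := le_of_mul_le_mul_right e2 h0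
    linarith
  -- the small cone is contained in the big one
  have hsub : ∀ w : V, |(ι w).im| * u.re ≤ u.im * (ι w).re →
      |(ι w).im| * p.re ≤ p.im * (ι w).re := by
    intro w hw
    have e1 := (hsmall w hw).1
    have e2 : |(ι w).im| * p.re * u.re ≤ p.im * (ι w).re * u.re := by
      have e3 : |(ι w).im| * u.re * p.re ≤ u.im * (ι w).re * p.re :=
        mul_le_mul_of_nonneg_right hw hpre.le
      have e4 : u.im * p.re * (ι w).re ≤ p.im * u.re * (ι w).re :=
        mul_le_mul_of_nonneg_right h2.le e1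
      linarith
    exact le_of_mul_le_mul_right e2 h0
  -- one step
  have hstep : ∀ (w : V) (s : Step), |(ι (w + vec s)).im - (ι w).im| ≤ 1 ∧
      |(ι (w + vec s)).re - (ι w).re| ≤ 1 ∧ ‖ι (w + vec s) - ι w‖ = 1 := by
    intro w s
    have e1 : ι (w + vec s) - ι w = ι (vec s) := by rw [map_add]; ring
    have e2 : ‖ι (w + vec s) - ι w‖ = 1 := by rw [e1, hι.norm_eq, nrm_vec]
    refine ⟨?_, ?_, e2⟩
    · have := Complex.abs_im_le_norm (ι (w + vec s) - ι w)
      rw [Complex.sub_im, e2] at this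
      exact this
    · have := Complex.abs_re_le_norm (ι (w + vec s) - ι w)
      rw [Complex.sub_re, e2] at this
      exact this
  -- far points in the big cone but not in the small one
  have hlarge : ∀ w : V, nrm v / 2 ≤ nrm w → |(ι w).im| * p.re ≤ p.im * (ι w).re →
      ¬ |(ι w).im| * u.re ≤ u.im * (ι w).re → 1 < |(ι w).im| := by
    intro w hwn hw1 hw2
    push Not at hw2
    have e0 : 0 ≤ p.im * (ι w).re := le_trans (mul_nonneg (abs_nonneg _) hpre.le) hw1
    have e1 : 0 ≤ (ι w).re := by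
      by_contra hc
      push Not at hc
      have := mul_neg_of_pos_of_neg hpim hc
      linarith
    have e2 : nrm w ≤ (ι w).re + |(ι w).im| := by
      rw [← hι.norm_eq]
      refine (trap0_norm_le _).trans ?_
      rw [abs_of_nonneg e1]
    have e3 : (u.re + u.im) / u.im < nrm w := by linarith
    rw [div_lt_iff₀ h1] at e3
    have e4 : nrm w * u.im ≤ ((ι w).re + |(ι w).im|) * u.im :=
      mul_le_mul_of_nonneg_right e2 h1.le
    have e5 : u.re + u.im < |(ι w).im| * (u.re + u.im) := by linarith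
    by_contra hc
    push Not at hc
    have : |(ι w).im| * (u.re + u.im) ≤ 1 * (u.re + u.im) :=
      mul_le_mul_of_nonneg_right hc (by linarith)
    linarith
  -- neighbours of far points of the small cone
  have hneigh : ∀ (w : V) (s : Step), nrm v / 2 ≤ nrm w →
      |(ι w).im| * u.re ≤ u.im * (ι w).re →
      |(ι (w + vec s)).im| * p.re ≤ p.im * (ι (w + vec s)).re := by
    intro w s hwn hw
    obtain ⟨e1, e2⟩ := hsmall w hw
    obtain ⟨e3, e4, -⟩ := hstep w s
    have e5 : |(ι (w + vec s)).im| ≤ |(ι w).im| + 1 := by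
      have := abs_sub_abs_le_abs_sub (ι (w + vec s)).im (ι w).im
      linarith
    have e6 : (ι w).re - 1 ≤ (ι (w + vec s)).re := by
      have := (abs_le.mp e4).1
      linarith
    have e7 : 2 * (u.re * (p.re + p.im)) / D ≤ nrm w := by linarith
    rw [div_le_iff₀ hDpos] at e7
    have e8 : u.re * (p.re + p.im) ≤ (ι w).re * D := by
      have : nrm w * D ≤ 2 * (ι w).re * D := mul_le_mul_of_nonneg_right e2 hDpos.le
      linarith
    have e9 : (|(ι w).im| + 1) * p.re * u.re ≤ p.im * ((ι w).re - 1) * u.re := by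
      have e10 : |(ι w).im| * u.re * p.re ≤ u.im * (ι w).re * p.re :=
        mul_le_mul_of_nonneg_right hw hpre.le
      rw [hD] at e8
      linarith
    have e11 := le_of_mul_le_mul_right e9 h0
    have e12 : |(ι (w + vec s)).im| * p.re ≤ (|(ι w).im| + 1) * p.re :=
      mul_le_mul_of_nonneg_right e5 hpre.le
    have e13 : p.im * ((ι w).re - 1) ≤ p.im * (ι (w + vec s)).re :=
      mul_le_mul_of_nonneg_left e6 hpim.le
    linarith
  -- the last vertex in the small cone or in the lower half plane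
  obtain ⟨l1, l2, h12, hQ, hlast⟩ := trap0_last
    (fun w => |(ι w).im| * u.re ≤ u.im * (ι w).re ∨ (ι w).im < 0) v l (Or.inl hvKa)
  have hl2 : l2 ≠ [] := by
    rintro rfl
    rw [List.append_nil] at h12
    rcases hQ with h | h
    · rw [← h12] at h
      exact hcon (hsub _ h)
    · rw [← h12] at h
      linarith
  set y := endp v l1 with hy
  have hyfar : nrm v / 2 ≤ nrm y := hfar l1 l2 h12
  have hyKb := hpref l1 l2 h12 hl2
  rw [← hy] at hyKb
  obtain ⟨s0, l2', hl2'⟩ := List.exists_cons_of_ne_nil hl2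
  have hyKa : |(ι y).im| * u.re ≤ u.im * (ι y).re := by
    rcases hQ with h | h
    · exact h
    · by_contra hc
      have e1 := hlarge y hyfar hyKb hc
      have h' : (ι y).im < 0 := h
      rw [abs_of_neg h'] at e1
      have e2 := hlast [s0] l2' (by rw [hl2']; rfl) (by simp)
      push Not at e2
      have e3 : endp y [s0] = y + vec s0 := rfl
      rw [e3] at e2
      have e4 := (abs_le.mp (hstep y s0).1).2
      linarith [e2.2]
  -- the last step
  have hsplit : l2 = l2.dropLast ++ [l2.getLast hl2] := (List.dropLast_append_getLast hl2).symm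
  set l3 := l2.dropLast with hl3
  set s := l2.getLast hl2 with hs
  have hend : endp v l = endp y l3 + vec s := by
    rw [h12, endp_append, ← hy]
    conv_lhs => rw [hsplit]
    rw [endp_append]; rfl
  have hl3ne : l3 ≠ [] := by
    intro hnil
    rw [hnil, endp_nil] at hend
    exact hcon (by rw [hend]; exact hneigh y s hyfar hyKa)
  -- intermediate vertices
  have hinter : ∀ l5 l6, l3 = l5 ++ l6 → l5 ≠ [] →
      u.im * (ι (endp y l5)).re ≤ (ι (endp y l5)).im * u.re ∧
      (ι (endp y l5)).im * p.re ≤ p.im * (ι (endp y l5)).re := by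
    intro l5 l6 h56 h5
    have e1 := hlast l5 (l6 ++ [s]) (by rw [hsplit, h56, List.append_assoc]) h5
    push Not at e1
    have e2 := hpref (l1 ++ l5) (l6 ++ [s])
      (by rw [h12, hsplit, h56]; simp [List.append_assoc]) (by simp)
    rw [endp_append, ← hy] at e2
    obtain ⟨e3, e4⟩ := e1
    rw [abs_of_nonneg e4] at e2 e3
    exact ⟨e3.le, e2⟩
  have hgood2 : Good (tau α E) y l3 := by
    rw [h12] at hl
    have e1 := hl.right
    rw [← hy, hsplit] at e1
    exact Good.left hτ e1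
  -- the position of `y`
  have hdoty : 0 ≤ dot u (ι y) := by
    obtain ⟨e1, -⟩ := hsmall y hyKa
    have e2 : dot u (ι y) = u.re * (ι y).re + u.im * (ι y).im := rfl
    have e3 := neg_abs_le (ι y).im
    have e4 : |(ι y).im| * u.re ≤ (ι y).re * u.re :=
      hyKa.trans (by nlinarith)
    have e5 : |(ι y).im| ≤ (ι y).re := le_of_mul_le_mul_right e4 h0
    have e6 : u.im * (-(ι y).re) ≤ u.im * (ι y).im :=
      mul_le_mul_of_nonneg_left (by linarith) h1.le
    have e7 : u.im * (ι y).re ≤ u.re * (ι y).re := mul_le_mul_of_nonneg_right huu.le e1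
    linarith
  have hcrossy : |(ι y).im * u.re - u.im * (ι y).re| ≤ 1 := by
    obtain ⟨s1, l3', hl3'⟩ := List.exists_cons_of_ne_nil hl3ne
    obtain ⟨e1, -⟩ := hinter [s1] l3' (by rw [hl3']; rfl) (by simp)
    have e2 : endp y [s1] = y + vec s1 := rfl
    rw [e2] at e1
    have e3 := trap0_cross_le u (ι (y + vec s1) - ι y)
    rw [(hstep y s1).2.2, hu, mul_one, Complex.sub_im, Complex.sub_re] at e3
    have e4 : (ι y).im * u.re ≤ u.im * (ι y).re :=
      (mul_le_mul_of_nonneg_right (le_abs_self _) h0.le).trans hyKa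
    have e5 := (abs_le.mp e3).2
    rw [abs_le]
    constructor <;> linarith
  have hyu : ‖ι y - (nrm y : ℂ) * u‖ ≤ 2 := by
    have := trap0_start hu hdoty hcrossy
    rw [hι.norm_eq] at this
    exact this
  have hpn := norm_nonneg p
  have hbar := hR2 y (by linarith) l3 hgood2.wt_lt (by linarith) (by
    intro l5 l6 h56
    by_cases h5 : l5 = []
    · subst h5
      rw [endp_nil]
      have e1 : dot p (ι y) = dot p (ι y - (nrm y : ℂ) * u) + dot p u * nrm y := by
        rw [dot_sub, dot_mul]; ring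
      have e2 := (abs_le.mp (abs_dot_le p (ι y - (nrm y : ℂ) * u))).1
      have e3 : ‖p‖ * ‖ι y - (nrm y : ℂ) * u‖ ≤ ‖p‖ * 2 :=
        mul_le_mul_of_nonneg_left hyu hpn
      linarith
    · obtain ⟨e1, e2⟩ := hinter l5 l6 h56 h5
      have := trap0_sector hu hAB.le hA0.le h2 e1 e2
      rw [hι.norm_eq] at this
      linarith)
  -- the last intermediate vertex
  obtain ⟨e1, e2⟩ := hinter l3 [] (by simp) hl3ne
  set z := endp y l3 with hz
  have hzfar : nrm v / 2 ≤ nrm z := by
    have := hfar (l1 ++ l3) [s] (by rw [h12, hsplit]; simp [List.append_assoc])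
    rw [endp_append, ← hy, ← hz] at this
    exact this
  have e3 := trap0_sector hu hAB.le hA0.le h2 e1 e2
  have hdotz : 0 ≤ dot p (ι z) := by
    have : 0 ≤ dot p u * ‖ι z‖ := mul_nonneg hA0.le (norm_nonneg _)
    linarith
  have hcrossz : |(ι z).im * p.re - p.im * (ι z).re| ≤ ‖p‖ := by
    have e4 := trap0_cross_le p (ι (z + vec s) - ι z)
    rw [(hstep z s).2.2, mul_one, Complex.sub_im, Complex.sub_re] at e4
    push Not at hcon
    rw [hend] at hcon him
    rw [abs_of_nonneg him] at hcon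
    have e5 := (abs_le.mp e4).2
    rw [abs_le]
    constructor <;> linarith
  have hzn : 1 ≤ ‖ι z‖ := by rw [hι.norm_eq]; linarith
  have e4 := trap0_final hdotz hzn hcrossz
  rw [hι.norm_eq] at e4
  have e5 : (‖p‖ - dot p u) * nrm z ≤ 2 * ‖p‖ := by linarith
  have e6 : 2 * ‖p‖ / (‖p‖ - dot p u) < nrm z := by linarith
  rw [div_lt_iff₀ hBA] at e6
  linarith

/-- the conjugate embedding -/
noncomputable def trap0_conj (ι : V →+ ℂ) : V →+ ℂ where
  toFun x := (starRingEnd ℂ) (ι x)
  map_zero' := by simp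
  map_add' x y := by simp

theorem trap0_conj_apply (ι : V →+ ℂ) (x : V) :
    trap0_conj ι x = (starRingEnd ℂ) (ι x) := rfl

theorem trap0_conj_emb {ι : V →+ ℂ} (hι : Emb ι) : Emb (trap0_conj ι) := by
  constructor
  · intro x
    rw [trap0_conj_apply, RCLike.norm_conj, hι.norm_eq]
  · intro z
    obtain ⟨x, hx⟩ := hι.near ((starRingEnd ℂ) z)
    refine ⟨x, ?_⟩
    rw [trap0_conj_apply]
    have : (starRingEnd ℂ) (ι x) - z = (starRingEnd ℂ) (ι x - (starRingEnd ℂ) z) := by
      rw [map_sub, Complex.conj_conj]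
    rw [this, RCLike.norm_conj]
    exact hx

theorem trap0_conj_lln {ι : V →+ ℂ} {μ : ℂ → ℝ} {a b : ℝ} (hμ : Nrm μ a b) {E : Edge → ℝ}
    (h : LLN ι μ E) : LLN (trap0_conj ι) μ E := by
  intro ε hε
  obtain ⟨R0, hR0⟩ := h ε hε
  refine ⟨R0, ?_⟩
  intro R hR x y hx hy
  have := hR0 R hR x y hx hy
  rw [trap0_conj_apply, trap0_conj_apply, ← map_sub, hμ.symC]
  exact this

theorem trap_axis {ι : V →+ ℂ} (hι : Emb ι) {μ : ℂ → ℝ} {a b : ℝ} (hμ : Nrm μ a b)
    {u p x : ℂ} (hu : ‖u‖ = 1) (hp : ∀ z, dot p z ≤ μ z) (hx : dot x u = 1)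
    (hA : μ x < dot p u) (h0 : 0 < u.re) (h1 : 0 < u.im)
    (h2 : u.im * p.re < p.im * u.re) (h3 : p.im < p.re) :
    ∃ α0 : ℝ, ∀ α : ℝ, α0 < α → ∀ E : Edge → ℝ, (∀ e, 0 ≤ E e) → LLN ι μ E →
      ∃ R0 : ℝ, ∀ v : V, R0 ≤ nrm v → |(ι v).im| * u.re ≤ u.im * (ι v).re →
        ∀ l : List Step, Good (tau α E) v l →
          |(ι (endp v l)).im| * p.re ≤ p.im * (ι (endp v l)).re := by
  obtain ⟨α1, hα1⟩ := trap0_upper hι hμ hu hp hx hA h0 h1 h2 h3
  obtain ⟨α2, hα2⟩ := trap0_upper (trap0_conj_emb hι) hμ hu hp hx hA h0 h1 h2 h3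
  refine ⟨max (max α1 α2) 1, ?_⟩
  intro α hα E hE hL
  have hτ : ∀ e, 0 ≤ tau α E e := fun e => tau_nonneg hE e
  obtain ⟨R1, hR1⟩ := hα1 α (lt_of_le_of_lt ((le_max_left _ _).trans (le_max_left _ _)) hα) E hE hL
  obtain ⟨R2, hR2⟩ := hα2 α (lt_of_le_of_lt ((le_max_right _ _).trans (le_max_left _ _)) hα) E hE
    (trap0_conj_lln hμ hL)
  refine ⟨max R1 R2, ?_⟩
  intro v hv hvKa l hl
  rcases chop_first (fun w => ¬ |(ι w).im| * p.re ≤ p.im * (ι w).re) v l with
    h | ⟨l1, l2, h12, hP, hmin⟩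
  · have := h l [] (by simp)
    exact not_not.mp this
  · exfalso
    apply hP
    have hl1 : Good (tau α E) v l1 := by
      rw [h12] at hl
      exact Good.left hτ hl
    have hmin' : ∀ l3 l4, l1 = l3 ++ l4 → l4 ≠ [] →
        |(ι (endp v l3)).im| * p.re ≤ p.im * (ι (endp v l3)).re := by
      intro l3 l4 h34 h4
      exact not_not.mp (hmin l3 l4 h34 h4)
    rcases le_total 0 (ι (endp v l1)).im with him | him
    · exact hR1 v ((le_max_left _ _).trans hv) hvKa l1 hl1 hmin' him
    · have := hR2 v ((le_max_right _ _).trans hv)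
        (by rw [trap0_conj_apply, Complex.conj_im, Complex.conj_re, abs_neg]; exact hvKa) l1 hl1
        (by
          intro l3 l4 h34 h4
          rw [trap0_conj_apply, Complex.conj_im, Complex.conj_re, abs_neg]
          exact hmin' l3 l4 h34 h4)
        (by rw [trap0_conj_apply, Complex.conj_im]; linarith)
      rw [trap0_conj_apply, Complex.conj_im, Complex.conj_re, abs_neg] at this
      exact this

end ConeE
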