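import Pool.Agent.ConeE.TProp
import Pool.Agent.ConeE.Efron

/-! Linear bound for the variance of passage times (module VAR). -/

set_option autoImplicit false

namespace ConeE

open MeasureTheory Filter Topology

/-- words of length at most `N` from the origin to `z` -/
noncomputable def var_W (N : ℕ) (z : V) : Finset (List Step) :=
  (List.finite_length_le Step N).toFinset.filter (fun l => endp 0 l = z)

theorem mem_var_W {N : ℕ} {z : V} {l : List Step} :
    l ∈ var_W N z ↔ l.length ≤ N ∧ endp 0 l = z := by
  simp [var_W]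

/-- weight after the change of one coordinate -/
theorem var_update (E : Edge → ℝ) (hE : ∀ e, 0 ≤ E e) (x : V) (l : List Step)
    (hl : (edges x l).Nodup) (e : Edge) (t : ℝ) :
    wt (Function.update E e t) x l ≤ wt E x l + if e ∈ edges x l then t else 0 := by
  induction l generalizing x with
  | nil => simp [wt, edges]
  | cons s l ih =>
    simp only [edges, List.nodup_cons] at hl
    have h1 := ih (x + vec s) hl.2
    simp only [wt, edges, List.mem_cons]
    by_cases he : e = edg x s
    · subst he
      rw [if_neg hl.1] at h1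
      simp only [Function.update_self, true_or, if_true]
      linarith [hE (edg x s)]
    · rw [Function.update_of_ne (Ne.symm he)]
      simp only [he, false_or]
      linarith

theorem var_bound : ∃ C : ℝ, 0 < C ∧ ∀ z : V,
    ∫ E, (T E 0 z - hm z) ^ 2 ∂PE ≤ C * (nrm z + 1) := by
  obtain ⟨a, X, ha, hX0, hXi, hX⟩ := exists_light
  have hXI : 0 ≤ ∫ E, X E ∂PE := integral_nonneg hX0
  refine ⟨2 * (2 / a + ∫ E, X E ∂PE) + 1, by positivity, fun z => ?_⟩
  obtain ⟨l0, hl0, hlen0, -⟩ := exists_walk 0 z
  rw [sub_zero] at hlen0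
  set N0 := l0.length with hN0
  have hpos : ∀ᵐ E ∂PE, ∀ e, 0 ≤ E e := ae_pos.mono fun E h e => (h e).le
  -- truncated passage times
  have hne : ∀ N, N0 ≤ N → (var_W N z).Nonempty := fun N hN =>
    ⟨l0, mem_var_W.2 ⟨hN, hl0⟩⟩
  have hne0 : ∀ N, (var_W (N + N0) z).Nonempty := fun N => hne _ (by omega)
  let TN : ℕ → (Edge → ℝ) → ℝ := fun N E => (var_W (N + N0) z).inf' (hne0 N) (fun l => wt E 0 l)
  have TN_le : ∀ N E l, l.length ≤ N + N0 → endp 0 l = z → TN N E ≤ wt E 0 l := by
    intro N E l h1 h2
    exact Finset.inf'_le _ (mem_var_W.2 ⟨h1, h2⟩)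
  have TN_nonneg : ∀ N E, (∀ e, 0 ≤ E e) → 0 ≤ TN N E := by
    intro N E hE
    exact Finset.le_inf' _ _ fun l _ => wt_nonneg hE 0 l
  have TN_meas : ∀ N, Measurable (TN N) := by
    intro N
    have : TN N = (var_W (N + N0) z).inf' (hne0 N) (fun l E => wt E 0 l) := by
      funext E
      simp only [TN, Finset.inf'_apply]
    rw [this]
    exact Finset.inf'_induction (hne0 N) _ (fun f hf g hg => hf.inf hg)
      fun l _ => measurable_wt 0 l
  have wt0_mem : MemLp (fun E : Edge → ℝ => wt E 0 l0) 2 PE := memLp_wt 0 l0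
  have TN_bd : ∀ N, ∀ᵐ E ∂PE, ‖TN N E‖ ≤ ‖wt E 0 l0‖ := by
    intro N
    filter_upwards [hpos] with E hE
    rw [Real.norm_eq_abs, Real.norm_eq_abs, abs_of_nonneg (TN_nonneg N E hE),
      abs_of_nonneg (wt_nonneg hE 0 l0)]
    exact TN_le N E l0 (by omega) hl0
  have TN_memLp : ∀ N, MemLp (TN N) 2 PE := fun N =>
    wt0_mem.mono (TN_meas N).aestronglyMeasurable (TN_bd N)
  -- optimal words
  have opt : ∀ N E, (∀ e, 0 ≤ E e) → ∃ l, l.length ≤ N + N0 ∧ endp 0 l = z ∧
      (edges 0 l).Nodup ∧ wt E 0 l = TN N E := by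
    intro N E hE
    obtain ⟨l, hl, hle⟩ := Finset.exists_mem_eq_inf' (hne0 N) (fun l => wt E 0 l)
    obtain ⟨h1, h2⟩ := mem_var_W.1 hl
    obtain ⟨l', e1, e2, e3, e4⟩ := loop_erase 0 l
    refine ⟨l', e2.trans h1, e1.trans h2, e4, le_antisymm ?_ (TN_le N E l' (e2.trans h1) (e1.trans h2))⟩
    calc wt E 0 l' ≤ wt E 0 l := wt_le_of_sublist hE e3
      _ = TN N E := hle.symm
  -- the variance bound for the truncated times
  have hvarN : ∀ N, ∫ E, (TN N E - ∫ E', TN N E' ∂PE) ^ 2 ∂PE
      ≤ (2 * (2 / a + ∫ E, X E ∂PE) + 1) * (nrm z + 1) := by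
    intro N
    classical
    set F : Finset Edge := (var_W (N + N0) z).biUnion (fun l => (edges 0 l).toFinset) with hF
    have hdep : ∀ E E' : Edge → ℝ, (∀ e ∈ F, E e = E' e) → TN N E = TN N E' := by
      intro E E' h
      refine Finset.inf'_congr (hne0 N) rfl fun l hl => ?_
      rw [wt_eq_sum, wt_eq_sum]
      congr 1
      refine List.map_congr_left fun e he => h e ?_
      exact Finset.mem_biUnion.2 ⟨l, hl, by simpa using he⟩
    have hef := efron (κ := Edge) mE F (TN N) (TN_meas N) hdep (TN_memLp N)
    have hsum : ∑ e ∈ F, ∫⁻ E, ∫⁻ t, ENNReal.ofReal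
        ((max (TN N (Function.update E e t) - TN N E) 0) ^ 2) ∂mE
          ∂(Measure.infinitePi (fun _ : Edge => mE))
        ≤ ∫⁻ E, ENNReal.ofReal (2 * (wt E 0 l0 / a + X E)) ∂PE := by
      have hmeas : ∀ e ∈ F, Measurable (fun E : Edge → ℝ => ∫⁻ t, ENNReal.ofReal
        ((max (TN N (Function.update E e t) - TN N E) 0) ^ 2) ∂mE) := by
        intro e _
        have hm : Measurable (fun q : (Edge → ℝ) × ℝ => ENNReal.ofReal
            ((max (TN N (Function.update q.1 e q.2) - TN N q.1) 0) ^ 2)) := by
          have hu : Measurable (fun q : (Edge → ℝ) × ℝ => Function.update q.1 e q.2) :=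
            (measurePreserving_update e).measurable
          exact ENNReal.measurable_ofReal.comp
            (((((TN_meas N).comp hu).sub ((TN_meas N).comp measurable_fst)).max
              measurable_const).pow_const 2)
        exact hm.lintegral_prod_right'
      change ∑ e ∈ F, ∫⁻ E, ∫⁻ t, ENNReal.ofReal
        ((max (TN N (Function.update E e t) - TN N E) 0) ^ 2) ∂mE ∂PE ≤ _
      rw [← lintegral_finsetSum F hmeas]
      refine lintegral_mono_ae ?_
      filter_upwards [hpos, hX] with E hE hXE
      obtain ⟨l, hl1, hl2, hl3, hl4⟩ := opt N E hE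
      have hlen : (l.length : ℝ) ≤ wt E 0 l0 / a + X E := by
        have h1 := hXE l hl3
        have h2 : TN N E ≤ wt E 0 l0 := TN_le N E l0 (by omega) hl0
        have h3 : a * ((l.length : ℝ) - X E) ≤ wt E 0 l0 := by linarith
        rw [← sub_le_iff_le_add, le_div_iff₀ ha]
        linarith
      calc ∑ e ∈ F, ∫⁻ t, ENNReal.ofReal
            ((max (TN N (Function.update E e t) - TN N E) 0) ^ 2) ∂mE
          ≤ ∑ e ∈ F, (if e ∈ (edges 0 l).toFinset then (2 : ENNReal) else 0) := by
            refine Finset.sum_le_sum fun e _ => ?_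
            have hinc : ∀ t : ℝ, 0 < t → TN N (Function.update E e t) - TN N E
                ≤ if e ∈ edges 0 l then t else 0 := by
              intro t ht
              have h1 := TN_le N (Function.update E e t) l hl1 hl2
              have h2 := var_update E hE 0 l hl3 e t
              linarith
            by_cases he : e ∈ edges 0 l
            · rw [if_pos (by simpa using he)]
              have h3 : ∫⁻ t, ENNReal.ofReal (t ^ 2) ∂mE = 2 := by
                rw [← ofReal_integral_eq_lintegral_ofReal integrable_sq_mE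
                  (Eventually.of_forall fun t => sq_nonneg t), integral_sq_mE]
                simp
              rw [← h3]
              refine lintegral_mono_ae ?_
              filter_upwards [mE_ae_pos] with t ht
              have h4 := hinc t ht
              rw [if_pos he] at h4
              refine ENNReal.ofReal_le_ofReal ?_
              exact pow_le_pow_left₀ (le_max_right _ _) (max_le h4 ht.le) 2
            · rw [if_neg (by simpa using he)]
              have h3 : ∫⁻ t, ENNReal.ofReal
                  ((max (TN N (Function.update E e t) - TN N E) 0) ^ 2) ∂mE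
                  ≤ ∫⁻ t, 0 ∂mE := by
                refine lintegral_mono_ae ?_
                filter_upwards [mE_ae_pos] with t ht
                have h4 := hinc t ht
                rw [if_neg he] at h4
                rw [max_eq_right h4]
                simp
              simpa using h3
        _ ≤ 2 * ((edges 0 l).toFinset.card : ENNReal) := by
            rw [← Finset.sum_filter, Finset.sum_const, nsmul_eq_mul, mul_comm]
            gcongr
            intro e he
            exact (Finset.mem_filter.1 he).2
        _ ≤ 2 * (l.length : ENNReal) := by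
            gcongr
            exact (List.toFinset_card_le _).trans (length_edges 0 l).le
        _ = ENNReal.ofReal (2 * (l.length : ℝ)) := by
            rw [ENNReal.ofReal_mul (by norm_num), ENNReal.ofReal_ofNat, ENNReal.ofReal_natCast]
        _ ≤ _ := ENNReal.ofReal_le_ofReal (by linarith)
    have hint : Integrable (fun E : Edge → ℝ => wt E 0 l0) PE := wt0_mem.integrable (by norm_num)
    have hint2 : Integrable (fun E : Edge → ℝ => 2 * (wt E 0 l0 / a + X E)) PE :=
      ((hint.div_const a).add hXi).const_mul 2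
    have hfin : ∫⁻ E, ENNReal.ofReal (2 * (wt E 0 l0 / a + X E)) ∂PE
        = ENNReal.ofReal (2 * ((l0.length : ℝ) / a + ∫ E, X E ∂PE)) := by
      rw [← ofReal_integral_eq_lintegral_ofReal hint2]
      · congr 1
        rw [integral_const_mul, integral_add (hint.div_const a) hXi, integral_div, integral_wt]
      · filter_upwards [hpos] with E hE
        have h1 := wt_nonneg hE 0 l0
        have h2 := hX0 E
        simp only [Pi.zero_apply]
        positivity
    rw [hfin] at hsum
    have htot := hef.trans hsum
    have hnn : 0 ≤ 2 * ((l0.length : ℝ) / a + ∫ E, X E ∂PE) := by positivity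
    rw [ENNReal.ofReal_le_ofReal_iff hnn] at htot
    refine htot.trans ?_
    have h5 : (l0.length : ℝ) / a ≤ 2 * nrm z / a := div_le_div_of_nonneg_right hlen0 ha.le
    have h6 : 0 ≤ nrm z := nrm_nonneg z
    have h7 : (0 : ℝ) ≤ 2 / a := by positivity
    have h8 : 2 * nrm z / a = 2 / a * nrm z := by ring
    nlinarith [mul_nonneg hXI h6]
  -- passage to the limit
  have TN_tend : ∀ E, (∀ e, 0 ≤ E e) → Tendsto (fun N => TN N E) atTop (𝓝 (T E 0 z)) := by
    intro E hE
    have hge : ∀ N, T E 0 z ≤ TN N E := by
      intro N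
      refine Finset.le_inf' _ _ fun l hl => ?_
      exact T_le_wt hE (mem_var_W.1 hl).2
    rw [Metric.tendsto_atTop]
    intro ε hε
    obtain ⟨l, hl, hlt⟩ := exists_wt_lt (τ := E) (x := 0) (y := z) (t := T E 0 z + ε) (by linarith)
    refine ⟨l.length, fun N hN => ?_⟩
    have := TN_le N E l (by omega) hl
    rw [Real.dist_eq, abs_lt]
    constructor <;> linarith [hge N]
  have hK : Integrable (fun E : Edge → ℝ => wt E 0 l0) PE := wt0_mem.integrable (by norm_num)
  set K : ℝ := ∫ E, wt E 0 l0 ∂PE with hKdef
  have hmean : Tendsto (fun N => ∫ E, TN N E ∂PE) atTop (𝓝 (hm z)) := by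
    refine tendsto_integral_of_dominated_convergence (fun E => ‖wt E 0 l0‖)
      (fun N => (TN_meas N).aestronglyMeasurable) hK.norm (fun N => TN_bd N) ?_
    filter_upwards [hpos] with E hE
    exact TN_tend E hE
  have hcN : ∀ N, |∫ E, TN N E ∂PE| ≤ K := by
    intro N
    have h1 : 0 ≤ ∫ E, TN N E ∂PE := by
      refine integral_nonneg_of_ae ?_
      filter_upwards [hpos] with E hE
      exact TN_nonneg N E hE
    rw [abs_of_nonneg h1]
    refine integral_mono_ae ((TN_memLp N).integrable (by norm_num)) hK ?_
    filter_upwards [hpos] with E hE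
    exact TN_le N E l0 (by omega) hl0
  have hlimvar : Tendsto (fun N => ∫ E, (TN N E - ∫ E', TN N E' ∂PE) ^ 2 ∂PE) atTop
      (𝓝 (∫ E, (T E 0 z - hm z) ^ 2 ∂PE)) := by
    refine tendsto_integral_of_dominated_convergence
      (fun E => 2 * (wt E 0 l0) ^ 2 + 2 * K ^ 2)
      (fun N => (((TN_meas N).sub_const _).pow_const 2).aestronglyMeasurable)
      ((wt0_mem.integrable_sq.const_mul 2).add (integrable_const _)) (fun N => ?_) ?_
    · filter_upwards [hpos] with E hE
      rw [Real.norm_eq_abs, abs_of_nonneg (sq_nonneg _)]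
      have h1 := TN_nonneg N E hE
      have h2 := TN_le N E l0 (by omega) hl0
      have h3 := abs_le.1 (hcN N)
      set c := ∫ E', TN N E' ∂PE
      have h4 : (TN N E) ^ 2 ≤ (wt E 0 l0) ^ 2 := pow_le_pow_left₀ h1 h2 2
      have h5 : c ^ 2 ≤ K ^ 2 := sq_le_sq' h3.1 h3.2
      nlinarith [sq_nonneg (TN N E + c)]
    · filter_upwards [hpos] with E hE
      exact ((TN_tend E hE).sub hmean).pow 2
  exact le_of_tendsto' hlimvar hvarN

end ConeE
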